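import Pool.Agent.Rot5.Basic

/-!
# Neighbourhoods of the fixed 2-sphere

`px2 x = x₀² + x₁² + x₂²`, `pv2 x = x₃² + x₄²`; the sets `pv2 ≤ a px2` are the tubes around the
2-sphere `pv2 = 0`.

PROOF of `nearS2_iff`. `←`: if `OnS2 x` then `pv2 (vec x) = 0`, `px2 (vec x) = 1` (`px2 + pv2 = ‖x‖ ^
2`), so `pv2 < a px2` at `x`, an open condition. `→`: the interior `U` of `{x | P x}` is an open set
which contains the 2-sphere; its complement is compact (the 4-sphere is compact) and `pv2 ∘ vec` has a
positive minimum `m` on it (or it is empty); take `a = m / 2` (`px2 ≤ 1`).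
-/

set_option autoImplicit false

open scoped ContDiff Topology Manifold
open Set Filter Metric

namespace Pool.Agent.Rot5

open Pool.Agent.HopfCov Pool.Agent.HopfFin Pool.Agent.HopfCov.Smooth Pool.Agent.Rot4

/-- the square of the norm of the first three coordinates -/
def px2 (x : E5) : ℝ := x 0 ^ 2 + x 1 ^ 2 + x 2 ^ 2

/-- the square of the norm of the last two coordinates -/
def pv2 (x : E5) : ℝ := x 3 ^ 2 + x 4 ^ 2

theorem px2_nonneg (x : E5) : 0 ≤ px2 x := by unfold px2; positivity

theorem pv2_nonneg (x : E5) : 0 ≤ pv2 x := by unfold pv2; positivity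

theorem px2_add_pv2 (x : E5) : px2 x + pv2 x = ‖x‖ ^ 2 := by
  rw [EuclideanSpace.norm_sq_eq, Fin.sum_univ_five]
  simp only [Real.norm_eq_abs, sq_abs]
  unfold px2 pv2
  ring

theorem OnS2_iff {x : Sph4} : OnS2 x ↔ pv2 (vec x) = 0 := by
  unfold OnS2 pv2
  constructor
  · rintro ⟨h1, h2⟩
    rw [h1, h2]
    norm_num
  · intro h
    constructor
    · nlinarith [sq_nonneg (vec x 3), sq_nonneg (vec x 4)]
    · nlinarith [sq_nonneg (vec x 3), sq_nonneg (vec x 4)]

theorem nearS2_iff {P : Sph4 → Prop} :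
    NearS2 P ↔ ∃ a : ℝ, 0 < a ∧ ∀ x, pv2 (vec x) ≤ a * px2 (vec x) → P x := by
  have hv : Continuous fun x : Sph4 => pv2 (vec x) := by
    have h := continuous_vec
    unfold pv2
    fun_prop
  have hp : Continuous fun x : Sph4 => px2 (vec x) := by
    have h := continuous_vec
    unfold px2
    fun_prop
  have hsum : ∀ x : Sph4, px2 (vec x) + pv2 (vec x) = 1 := fun x => by
    rw [px2_add_pv2, norm_vec, one_pow]
  constructor
  · intro h
    have hcpt : CompactSpace Sph4 :=
      inferInstanceAs (CompactSpace (sphere (0 : EuclideanSpace ℝ (Fin 5)) 1))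
    set A : Set Sph4 := {x | ¬ ∀ᶠ y in 𝓝 x, P y} with hA
    have hAc : IsClosed A := isOpen_setOfPred_eventually_nhds.isClosed_compl
    have hoff : ∀ x, x ∉ A → P x := by
      intro x hx
      have h1 : ∀ᶠ y in 𝓝 x, P y := not_not.1 hx
      exact h1.self_of_nhds
    rcases A.eq_empty_or_nonempty with h0 | h0
    · exact ⟨1, one_pos, fun x _ => hoff x (by rw [h0]; exact Set.notMem_empty x)⟩
    · obtain ⟨x₀, hx₀, hmin⟩ := hAc.isCompact.exists_isMinOn h0 hv.continuousOn
      have hm : 0 < pv2 (vec x₀) := by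
        rcases (pv2_nonneg (vec x₀)).lt_or_eq with h1 | h1
        · exact h1
        · exact absurd (h x₀ (OnS2_iff.2 h1.symm)) hx₀
      refine ⟨pv2 (vec x₀) / 2, by linarith, fun x hx => hoff x fun hxA => ?_⟩
      have h1 : pv2 (vec x₀) ≤ pv2 (vec x) := hmin hxA
      have h2 : px2 (vec x) ≤ 1 := by
        have := hsum x
        have := pv2_nonneg (vec x)
        linarith
      nlinarith
  · rintro ⟨a, ha, h⟩ x hx
    have h0 : pv2 (vec x) = 0 := OnS2_iff.1 hx
    have h1 : px2 (vec x) = 1 := by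
      have := hsum x
      linarith
    have h2 : ∀ᶠ y in 𝓝 x, pv2 (vec y) < a * px2 (vec y) := by
      refine hv.continuousAt.eventually_lt (continuous_const.mul hp).continuousAt ?_
      rw [h0, h1, mul_one]
      exact ha
    exact h2.mono fun y hy => h y hy.le

theorem NearS2.and {P Q : Sph4 → Prop} (h : NearS2 P) (h' : NearS2 Q) :
    NearS2 fun x => P x ∧ Q x := fun x hx => (h x hx).and (h' x hx)

theorem NearS2.mono {P Q : Sph4 → Prop} (h : NearS2 P) (h' : ∀ x, P x → Q x) : NearS2 Q :=
  fun x hx => (h x hx).mono h'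

theorem NearS2.self {P : Sph4 → Prop} (h : NearS2 P) {x : Sph4} (hx : OnS2 x) : P x :=
  (h x hx).self_of_nhds

/-- a homeomorphism which preserves the 2-sphere maps points near it to points near it -/
theorem NearS2.comp {P : Sph4 → Prop} (h : NearS2 P) {f : Sph4 ≃ₜ Sph4}
    (hf : ∀ x, OnS2 (f x) ↔ OnS2 x) : NearS2 fun x => P (f x) := fun x hx =>
  f.continuous.continuousAt.eventually (h (f x) ((hf x).2 hx))

end Pool.Agent.Rot5
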