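import Pool.Agent.Rot5.BasicLD
import Pool.Agent.Rot5.Near

/-!
# Actions on the 4-sphere and actions in normal form

PROOFS. `NormAct.fix`: `g x = x` iff `rotS n (h x) = h x` (`conj`, injectivity) iff `OnS2 (h x)`
(`rotS_fix_iff`) iff `OnS2 x`: `h` is the identity on the 2-sphere (`NearS2.self`), so if `OnS2 (h
x)` then `h (h x) = h x` and `h x = x`. `NormAct.pow`: `h (g^[k] x) = (rotS n)^[k] (h x)`,
`rotS_pow`.
`norm_of`: `g₀, φ'` the homeomorphisms given by `homeo_of_isDiffeo` for `g`, `φ`; `g' = φ' * g₀ *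
φ'⁻¹`, `h' = h * φ'⁻¹`. `conj`: clear. `top`: let `OnS2 x`, `u = h⁻¹ x`; `h = φ` near `u`, so `φ'
u = x`, `u = φ'⁻¹ x` and for `y` near `x`, `φ'⁻¹ y` is near `u`, `h' y = φ (φ'⁻¹ y) = y`. `near`:
let `OnS2 x`; `h' x = x`, `h' (g' x) = rotS n x = x`, so `g' x = x`; for `y` near `x` also `g' y`
is near `x`, so `g' y = h' (g' y) = rotS n (h' y) = rotS n y`.
`of_norm`: `isDiffeo_of_homeo`; `top` with the homeomorphism `h` and `φ = id` (`OnS2 (h x)`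
implies `OnS2 x`, as in `fix`).
`linear_congr`, `off_congr`: compose with `φ`, `φ⁻¹` (`ld_mul`, `ld_inv`, `homeo_of_isDiffeo`,
`isDiffeo_of_homeo`); `φ (g^[k] y) = g'^[k] (φ y)`.
-/

set_option autoImplicit false

open scoped ContDiff Topology Manifold
open Set Filter Metric

namespace Pool.Agent.Rot5

open Pool.Agent.HopfCov Pool.Agent.HopfFin Pool.Agent.HopfCov.Smooth Pool.Agent.Rot4

private theorem NormS_inv (φ : Sph4 ≃ₜ Sph4) (hφ : ∀ x, LocalDiffeoAt φ x) (x : Sph4) :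
    LocalDiffeoAt (φ⁻¹ : Sph4 ≃ₜ Sph4) x := by
  have h := ld_inv (hφ (φ.symm x))
  rwa [φ.apply_symm_apply] at h

private theorem NormS_symm (φ : Sph4 ≃ₜ Sph4) (x : Sph4) : φ ((φ⁻¹ : Sph4 ≃ₜ Sph4) x) = x :=
  φ.apply_symm_apply x

private theorem NormS_symm' (φ : Sph4 ≃ₜ Sph4) (x : Sph4) : (φ⁻¹ : Sph4 ≃ₜ Sph4) (φ x) = x :=
  φ.symm_apply_apply x

private theorem NormS_mul (φ ψ : Sph4 ≃ₜ Sph4) (x : Sph4) :
    (φ * ψ : Sph4 ≃ₜ Sph4) x = φ (ψ x) := rfl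

private theorem NormS_on {n : ℕ} {g h : Sph4 ≃ₜ Sph4} (hg : NormAct n g h) {x : Sph4} :
    OnS2 (h x) ↔ OnS2 x := by
  constructor
  · intro hx
    have e : h (h x) = h x := NearS2.self hg.top hx
    have e2 : h x = x := h.injective e
    rwa [e2] at hx
  · intro hx
    have e : h x = x := NearS2.self hg.top hx
    rwa [e]

theorem NormAct.fix {n : ℕ} (hn : 2 ≤ n) {g h : Sph4 ≃ₜ Sph4} (hg : NormAct n g h) {x : Sph4} :
    g x = x ↔ OnS2 x := by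
  have h1 : g x = x ↔ rotS n (h x) = h x := by
    rw [← hg.conj x]
    exact ⟨fun e => by rw [e], fun e => h.injective e⟩
  rw [h1, rotS_fix_iff hn]
  exact NormS_on hg

theorem NormAct.pow {n : ℕ} (hn : 0 < n) {g h : Sph4 ≃ₜ Sph4} (hg : NormAct n g h) (x : Sph4) :
    g^[n] x = x := by
  have h1 : Function.Semiconj h g (rotS n) := hg.conj
  have h2 : h (g^[n] x) = (rotS n)^[n] (h x) := h1.iterate_right n x
  rw [rotS_pow hn] at h2
  exact h.injective h2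

theorem norm_of {n : ℕ} {g : Sph4 → Sph4} (hg : SphereAction n g) :
    ∃ φ g' h' : Sph4 ≃ₜ Sph4, (∀ x, LocalDiffeoAt φ x) ∧ (∀ x, φ (g x) = g' (φ x)) ∧
      NormAct n g' h' := by
  obtain ⟨h, φ, hφd, hconj, hnear⟩ := hg.top
  obtain ⟨g₀, hg₀, hg₀d⟩ := homeo_of_isDiffeo hg.diffeo
  obtain ⟨φ', hφ', hφ'd⟩ := homeo_of_isDiffeo hφd
  have hc : ∀ x, (h * φ'⁻¹ : Sph4 ≃ₜ Sph4) ((φ' * g₀ * φ'⁻¹ : Sph4 ≃ₜ Sph4) x) =
      rotS n ((h * φ'⁻¹ : Sph4 ≃ₜ Sph4) x) := by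
    intro x
    rw [NormS_mul, NormS_mul, NormS_mul, NormS_mul, NormS_symm', hg₀, hconj]
  have htop : NearS2 fun x => (h * φ'⁻¹ : Sph4 ≃ₜ Sph4) x = x := by
    intro x hx
    have hu : h (h.symm x) = x := h.apply_symm_apply x
    have h1 : ∀ᶠ y in 𝓝 (h.symm x), h y = φ y := hnear (h.symm x) (by rwa [hu])
    have h2 : h (h.symm x) = φ (h.symm x) := h1.self_of_nhds
    have h3 : φ' (h.symm x) = x := by
      rw [hφ', ← h2, hu]
    have h4 : (φ'⁻¹ : Sph4 ≃ₜ Sph4) x = h.symm x := by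
      conv_lhs => rw [← h3]
      exact NormS_symm' φ' _
    have h5 : Tendsto (φ'⁻¹ : Sph4 ≃ₜ Sph4) (𝓝 x) (𝓝 (h.symm x)) := by
      have := (φ'⁻¹ : Sph4 ≃ₜ Sph4).continuous.continuousAt (x := x)
      unfold ContinuousAt at this
      rwa [h4] at this
    filter_upwards [h5.eventually h1] with y hy
    rw [NormS_mul, hy, ← hφ', NormS_symm]
  refine ⟨φ', φ' * g₀ * φ'⁻¹, h * φ'⁻¹, hφ'd, ?_, ?_, ?_, htop, hc⟩
  · intro x
    rw [NormS_mul, NormS_mul, NormS_symm', hg₀]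
  · intro x
    exact ld_mul (ld_mul (hφ'd _) (hg₀d _)) (NormS_inv φ' hφ'd x)
  · intro x hx
    have h1 : (φ' * g₀ * φ'⁻¹ : Sph4 ≃ₜ Sph4) x = x := by
      apply (h * φ'⁻¹ : Sph4 ≃ₜ Sph4).injective
      rw [hc, NearS2.self htop hx, rotS, rotA_fix hx]
    have h2 : Tendsto (φ' * g₀ * φ'⁻¹ : Sph4 ≃ₜ Sph4) (𝓝 x) (𝓝 x) := by
      have := (φ' * g₀ * φ'⁻¹ : Sph4 ≃ₜ Sph4).continuous.continuousAt (x := x)
      unfold ContinuousAt at this
      rwa [h1] at this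
    filter_upwards [htop x hx, h2.eventually (htop x hx)] with y hy1 hy2
    rw [← hy2, hc, hy1]

theorem of_norm {n : ℕ} (hn : 0 < n) {g h : Sph4 ≃ₜ Sph4} (hg : NormAct n g h) :
    SphereAction n g := by
  refine ⟨isDiffeo_of_homeo hg.smooth, hg.pow hn, h, ((1 : Sph4 ≃ₜ Sph4) : Sph4 → Sph4),
    isDiffeo_of_homeo ld_one, hg.conj, ?_⟩
  intro x hx
  exact hg.top x ((NormS_on hg).1 hx)

private theorem NormS_symm_conj {g : Sph4 → Sph4} {φ g' : Sph4 ≃ₜ Sph4}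
    (hc : ∀ x, φ (g x) = g' (φ x)) (x : Sph4) :
    (φ⁻¹ : Sph4 ≃ₜ Sph4) (g' x) = g ((φ⁻¹ : Sph4 ≃ₜ Sph4) x) := by
  apply φ.injective
  rw [NormS_symm, hc, NormS_symm]

theorem linear_congr {n : ℕ} {g : Sph4 → Sph4} {φ g' : Sph4 ≃ₜ Sph4}
    (hφ : ∀ x, LocalDiffeoAt φ x) (hc : ∀ x, φ (g x) = g' (φ x)) :
    SphereLinear n g ↔ SphereLinear n g' := by
  constructor
  · rintro ⟨ψ, hψ, h⟩
    obtain ⟨ψ', hψ', hψ'd⟩ := homeo_of_isDiffeo hψ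
    refine ⟨((ψ' * φ⁻¹ : Sph4 ≃ₜ Sph4) : Sph4 → Sph4),
      isDiffeo_of_homeo fun x => ld_mul (hψ'd _) (NormS_inv φ hφ x), ?_⟩
    intro x
    rw [NormS_mul, NormS_mul, NormS_symm_conj hc, hψ', hψ', h]
  · rintro ⟨ψ, hψ, h⟩
    obtain ⟨ψ', hψ', hψ'd⟩ := homeo_of_isDiffeo hψ
    refine ⟨((ψ' * φ : Sph4 ≃ₜ Sph4) : Sph4 → Sph4),
      isDiffeo_of_homeo fun x => ld_mul (hψ'd _) (hφ x), ?_⟩
    intro x
    rw [NormS_mul, NormS_mul, hc, hψ', hψ', h]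

theorem off_congr {n : ℕ} {g : Sph4 → Sph4} {φ g' : Sph4 ≃ₜ Sph4}
    (hφ : ∀ x, LocalDiffeoAt φ x) (hc : ∀ x, φ (g x) = g' (φ x)) :
    SphereLinearOff n g ↔ SphereLinearOff n g' := by
  have hs : Function.Semiconj φ g g' := hc
  constructor
  · rintro ⟨h, y, h1, h2, h3⟩
    refine ⟨h * φ⁻¹, φ y, ?_, ?_, ?_⟩
    · intro x
      rw [NormS_mul, NormS_mul, NormS_symm_conj hc, h1]
    · intro e
      apply h2
      apply φ.injective
      rw [hc, e]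
    · intro x hx
      refine ld_mul (h3 _ fun k hk => hx k ?_) (NormS_inv φ hφ x)
      rw [← hs.iterate_right k y, ← hk, NormS_symm]
  · rintro ⟨h, y, h1, h2, h3⟩
    refine ⟨h * φ, (φ⁻¹ : Sph4 ≃ₜ Sph4) y, ?_, ?_, ?_⟩
    · intro x
      rw [NormS_mul, NormS_mul, hc, h1]
    · intro e
      apply h2
      have e2 := hc ((φ⁻¹ : Sph4 ≃ₜ Sph4) y)
      rw [e, NormS_symm] at e2
      exact e2.symm
    · intro x hx
      refine ld_mul (h3 _ fun k hk => hx k ?_) (hφ x)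
      apply φ.injective
      rw [hk, hs.iterate_right k _, NormS_symm]

end Pool.Agent.Rot5
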