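import Pool.Agent.Rot5.StatementSph

/-!
# Linear actions and conjugate groups of diffeomorphisms of the 4-sphere
-/

set_option autoImplicit false

open scoped ContDiff Topology Manifold
open Set Filter Metric

namespace Pool.Agent.HopfCov.Smooth

/-- `g` generates a smooth action of `ℤ / n` on the 4-sphere whose fixed point set is an unknotted
2-sphere, and which is conjugate to the action by rotations by a homeomorphism which is a local
diffeomorphism at the fixed points -/
structure UnknotAction (n : ℕ) (g : Sph4 → Sph4) : Prop where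
  diffeo : IsDiffeo g
  pow : ∀ x, g^[n] x = x
  unknot : ∃ σ : Sph4 → Sph4, IsDiffeo σ ∧ ∀ x, g x = x ↔ OnS2 (σ x)
  top : ∃ h : Sph4 ≃ₜ Sph4, (∀ x, h (g x) = rotS n (h x)) ∧ ∀ x, g x = x → LocalDiffeoAt h x

/-- the action generated by `g` is smoothly equivalent to the restriction of an orthogonal
representation on `ℝ⁵` -/
def SmoothlyLinear (g : Sph4 → Sph4) : Prop :=
  ∃ (φ : Sph4 → Sph4) (A : EuclideanSpace ℝ (Fin 5) ≃ₗᵢ[ℝ] EuclideanSpace ℝ (Fin 5)),
    IsDiffeo φ ∧ ∀ x, vec (φ (g x)) = A (vec (φ x))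

/-- the action generated by `g` is equivalent to the restriction of an orthogonal representation on
`ℝ⁵` by a homeomorphism which is a local diffeomorphism off one orbit, which is not a fixed point -/
def LinearOffOneOrbit (g : Sph4 → Sph4) : Prop :=
  ∃ (h : Sph4 ≃ₜ Sph4) (A : EuclideanSpace ℝ (Fin 5) ≃ₗᵢ[ℝ] EuclideanSpace ℝ (Fin 5)) (y : Sph4),
    (∀ x, vec (h (g x)) = A (vec (h x))) ∧ g y ≠ y ∧
    ∀ x, (∀ k : ℕ, x ≠ g^[k] y) → LocalDiffeoAt h x

/-- some diffeomorphism conjugates `g` to a power of `g'` -/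
def ConjugateGroups (g g' : Sph4 → Sph4) : Prop :=
  ∃ (φ : Sph4 → Sph4) (k : ℕ), IsDiffeo φ ∧ ∀ x, φ (g x) = g'^[k] (φ x)

end Pool.Agent.HopfCov.Smooth
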