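import Mathlib.Topology.Homeomorph.Lemmas
import Mathlib.Topology.Separation.Hausdorff
import Mathlib.Topology.Connected.Clopen

/-!
# Locally injective open maps of compact spaces

PROOF. Let `A` be the set of the points of `Y` with at most one preimage. `A` is closed: if `f x = f
x' = y`, `x ≠ x'`, choose disjoint open sets `U ∋ x`, `U' ∋ x'`; the points of the open set `f U ∩ f
U'` have two preimages. `A` is open: let `y ∈ A`. If `y` has no preimage, `(range f)ᶜ` is open
(`range f` is compact) and contained in `A`. If `f x = y`, let `U` be an open neighbourhood of `x`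
on which `f` is injective; `f '' Uᶜ` is compact, hence closed, does not contain `y`, and its
complement is contained in `A`. So `A = univ` (`IsClopen.eq_univ`, `y₀ ∈ A`), and `f` is injective;
`range f` is open and closed and nonempty, so `f` is surjective.
-/

set_option autoImplicit false

open scoped Topology
open Set Filter

namespace Pool.Agent.Rot5

theorem bij_of_local {X Y : Type} [TopologicalSpace X] [TopologicalSpace Y] [CompactSpace X]
    [T2Space X] [T2Space Y] [PreconnectedSpace Y] [Nonempty X] {f : X → Y} (hc : Continuous f)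
    (ho : IsOpenMap f) (hi : ∀ x, ∃ U ∈ 𝓝 x, InjOn f U) {y₀ : Y}
    (h0 : ∀ x x', f x = y₀ → f x' = y₀ → x = x') : Function.Bijective f := by
  have hA : IsClopen {y : Y | ∀ x x', f x = y → f x' = y → x = x'} := by
    constructor
    · rw [← isOpen_compl_iff, isOpen_iff_mem_nhds]
      intro y hy
      have hy' : ∃ x x', f x = y ∧ f x' = y ∧ x ≠ x' := by
        by_contra hcon
        apply hy
        intro x x' hx hx'
        by_contra hne
        exact hcon ⟨x, x', hx, hx', hne⟩
      obtain ⟨x, x', hx, hx', hne⟩ := hy'
      obtain ⟨U, U', hU, hU', hxU, hxU', hd⟩ := t2_separation hne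
      have h1 : f '' U ∈ 𝓝 y := (ho U hU).mem_nhds ⟨x, hxU, hx⟩
      have h2 : f '' U' ∈ 𝓝 y := (ho U' hU').mem_nhds ⟨x', hxU', hx'⟩
      filter_upwards [h1, h2] with z hz hz' hA
      obtain ⟨u, hu, huz⟩ := hz
      obtain ⟨u', hu', huz'⟩ := hz'
      have he := hA u u' huz huz'
      subst he
      exact Set.disjoint_left.mp hd hu hu'
    · rw [isOpen_iff_mem_nhds]
      intro y hy
      by_cases hr : y ∈ range f
      · obtain ⟨x, hx⟩ := hr
        obtain ⟨V, hV, hinj⟩ := hi x
        obtain ⟨U, hUV, hU, hxU⟩ := mem_nhds_iff.mp hV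
        have hK : IsClosed (f '' Uᶜ) := (hU.isClosed_compl.isCompact.image hc).isClosed
        have hyK : y ∈ (f '' Uᶜ)ᶜ := by
          rintro ⟨w, hw, hwy⟩
          apply hw
          have := hy w x hwy hx
          rw [this]
          exact hxU
        filter_upwards [hK.isOpen_compl.mem_nhds hyK] with z hz a b ha hb
        have haU : a ∈ U := by
          by_contra hn
          exact hz ⟨a, hn, ha⟩
        have hbU : b ∈ U := by
          by_contra hn
          exact hz ⟨b, hn, hb⟩
        exact hinj (hUV haU) (hUV hbU) (ha.trans hb.symm)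
      · have hK : IsClosed (range f) := (isCompact_range hc).isClosed
        filter_upwards [hK.isOpen_compl.mem_nhds hr] with z hz a b ha hb
        exact absurd ⟨a, ha⟩ hz
  have hu := hA.eq_univ ⟨y₀, h0⟩
  refine ⟨?_, ?_⟩
  · intro a b hab
    have : f b ∈ {y : Y | ∀ x x', f x = y → f x' = y → x = x'} := by
      rw [hu]
      trivial
    exact this a b hab rfl
  · rw [← Set.range_eq_univ]
    refine IsClopen.eq_univ ⟨(isCompact_range hc).isClosed, ho.isOpen_range⟩ ?_
    exact Set.range_nonempty f

end Pool.Agent.Rot5
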