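import Pool.Agent.Rot5.StrPos

/-!
# Straightening a homeomorphism near the 2-sphere

PROOFS. Let `F = cone f`. `sign_cases`: for `x` on the 2-sphere, `L = fderiv ℝ F (vec x)`
preserves `P` (`fderiv_plane`, `cone_plane`) and has a nonzero determinant (`reg_cone`), so `detA
L ≠ 0` (`detA_ne`). If `n ≥ 3`: for `y` near `vec x`, `F (rotE θ y) = rotE θ (F y)` (`θ = 2 π /
n`): `f (rotA θ (unit y)) = f (g1 (unit y)) = g2 (f (unit y)) = rotA θ (f (unit y))` as `unit y`,
`f (unit y)` are near the 2-sphere (`cone_rot`), so `L` commutes with `rotE θ` (`fderiv_rot`) and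
`0 ≤ detA L` (`detA_nonneg`). If `n = 2`: `x ↦ detA (fderiv ℝ F (vec x))` is continuous on the
2-sphere (`continuous_detA`; `fderiv ℝ F` is continuous at `vec x`, `F` being smooth near `vec x`)
and has no zero, and the 2-sphere `{x | OnS2 x}` is preconnected (the image of the unit sphere of
`EuclideanSpace ℝ (Fin 3)` under a continuous map, `isPreconnected_sphere`), so the sign is
constant. If it is negative, `cone (refS ∘ f) = refL ∘ F` (`cone_ref`), its derivative is
`refL.comp L` and `detA_ref` applies.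
`straighten`: if the sign is positive, `straighten_pos`. Otherwise `n = 2`: apply `straighten_pos`
to `f' = refHS * f`, `g2' = refHS * g2 * refHS` (`g2' = rotS 2` near the 2-sphere:
`refS_rotS_two`,
`refS_refS`, `NearS2.comp`; `f' (g1 x) = g2' (f' x)`; `OnS2_refS`; `ld_refS`).
-/

set_option autoImplicit false

open scoped ContDiff Topology Manifold
open Set Filter Metric

namespace Pool.Agent.Rot5

open Pool.Agent.HopfCov Pool.Agent.HopfFin Pool.Agent.HopfCov.Smooth Pool.Agent.Rot4

/-- the embedding of `ℝ³` as the plane `P` -/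
private noncomputable def emb_Straighten (y : EuclideanSpace ℝ (Fin 3)) : E5 :=
  WithLp.toLp 2 ![y 0, y 1, y 2, 0, 0]

private theorem continuous_emb_Straighten : Continuous emb_Straighten := by
  refine (PiLp.continuous_toLp 2 _).comp ?_
  have hi : ∀ i : Fin 3, Continuous fun y : EuclideanSpace ℝ (Fin 3) => y i := fun i =>
    PiLp.continuous_apply 2 _ i
  refine continuous_pi fun i => ?_
  fin_cases i
  · exact hi 0
  · exact hi 1
  · exact hi 2
  · exact continuous_const
  · exact continuous_const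

private theorem norm_emb_Straighten (y : EuclideanSpace ℝ (Fin 3)) :
    ‖emb_Straighten y‖ ^ 2 = ‖y‖ ^ 2 := by
  rw [EuclideanSpace.norm_sq_eq, EuclideanSpace.norm_sq_eq, Fin.sum_univ_five, Fin.sum_univ_three]
  simp only [Real.norm_eq_abs, sq_abs]
  show y 0 ^ 2 + y 1 ^ 2 + y 2 ^ 2 + (0 : ℝ) ^ 2 + (0 : ℝ) ^ 2 = y 0 ^ 2 + y 1 ^ 2 + y 2 ^ 2
  ring

private theorem pv2_emb_Straighten (y : EuclideanSpace ℝ (Fin 3)) :
    pv2 (emb_Straighten y) = 0 := by
  show (0 : ℝ) ^ 2 + (0 : ℝ) ^ 2 = 0
  ring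

private theorem preconnected_Straighten : IsPreconnected {x : Sph4 | OnS2 x} := by
  have hrank : 1 < Module.rank ℝ (EuclideanSpace ℝ (Fin 3)) := by
    rw [← Module.finrank_eq_rank, finrank_euclideanSpace_fin]
    norm_num
  have hne : ∀ y ∈ sphere (0 : EuclideanSpace ℝ (Fin 3)) 1, emb_Straighten y ≠ 0 := by
    intro y hy h0
    have h1 := norm_emb_Straighten y
    rw [h0, mem_sphere_zero_iff_norm.1 hy, norm_zero] at h1
    norm_num at h1
  have h1 := (isPreconnected_sphere hrank (0 : EuclideanSpace ℝ (Fin 3)) 1).image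
    (fun y => unit (emb_Straighten y)) (fun y hy => ContinuousAt.continuousWithinAt
      ((continuousAt_unit (hne y hy)).comp continuous_emb_Straighten.continuousAt))
  have h2 : (fun y => unit (emb_Straighten y)) '' sphere (0 : EuclideanSpace ℝ (Fin 3)) 1 =
      {x : Sph4 | OnS2 x} := by
    ext x
    constructor
    · rintro ⟨y, hy, rfl⟩
      exact (OnS2_unit (hne y hy)).2 (pv2_emb_Straighten y)
    · intro hx
      have h3 : vec x 3 = 0 := hx.1
      have h4 : vec x 4 = 0 := hx.2
      have h5 : emb_Straighten (WithLp.toLp 2 ![vec x 0, vec x 1, vec x 2]) = vec x := by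
        ext i
        fin_cases i
        · rfl
        · rfl
        · rfl
        · exact h3.symm
        · exact h4.symm
      refine ⟨WithLp.toLp 2 ![vec x 0, vec x 1, vec x 2], ?_, ?_⟩
      · rw [mem_sphere_zero_iff_norm]
        have h6 := norm_emb_Straighten (WithLp.toLp 2 ![vec x 0, vec x 1, vec x 2])
        rw [h5, norm_vec] at h6
        have h7 := norm_nonneg
          (WithLp.toLp 2 ![vec x 0, vec x 1, vec x 2] : EuclideanSpace ℝ (Fin 3))
        nlinarith
      · show unit (emb_Straighten _) = x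
        rw [h5, unit_vec]
  rwa [h2] at h1

theorem sign_cases {n : ℕ} (hn : 2 ≤ n) {f g1 g2 : Sph4 ≃ₜ Sph4}
    (h1 : NearS2 fun x => g1 x = rotS n x) (h2 : NearS2 fun x => g2 x = rotS n x)
    (hc : ∀ x, f (g1 x) = g2 (f x)) (hS : ∀ x, OnS2 (f x) ↔ OnS2 x)
    (hld : ∀ x, OnS2 x → LocalDiffeoAt f x) :
    (∀ x, OnS2 x → 0 < detA (fderiv ℝ (cone f) (vec x))) ∨
      (n = 2 ∧ ∀ x, OnS2 x → 0 < detA (fderiv ℝ (cone fun y => refS (f y)) (vec x))) := by
  have hRG : ∀ x, OnS2 x → RG (cone f) (vec x) := fun x hx =>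
    (reg_cone (hld x hx)).self_of_nhds
  have hne : ∀ x, OnS2 x → detA (fderiv ℝ (cone f) (vec x)) ≠ 0 := by
    intro x hx
    exact detA_ne (fderiv_plane (OnS2_iff.1 hx) (hRG x hx).1 fun x h => (cone_plane hS).2 h)
      (hRG x hx).2
  rcases hn.eq_or_lt with h | h
  · have hcont : ContinuousOn (fun x : Sph4 => detA (fderiv ℝ (cone f) (vec x)))
        {x : Sph4 | OnS2 x} := by
      intro x hx
      refine ContinuousAt.continuousWithinAt ?_
      have c1 : ContinuousAt (fderiv ℝ (cone f)) (vec x) :=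
        ((hRG x hx).1.fderiv_right (m := 0) (by simp)).continuousAt
      have c2 : ContinuousAt (fun x : Sph4 => fderiv ℝ (cone f) (vec x)) x :=
        ContinuousAt.comp (f := vec) (g := fderiv ℝ (cone f)) c1 continuous_vec.continuousAt
      exact ContinuousAt.comp (f := fun x : Sph4 => fderiv ℝ (cone f) (vec x)) (g := detA)
        continuous_detA.continuousAt c2
    by_cases hall : ∀ x, OnS2 x → 0 < detA (fderiv ℝ (cone f) (vec x))
    · exact Or.inl hall
    · right
      push Not at hall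
      obtain ⟨x₀, hx₀, hle⟩ := hall
      refine ⟨h.symm, fun x hx => ?_⟩
      have hneg : detA (fderiv ℝ (cone f) (vec x)) < 0 := by
        by_contra hcon
        push Not at hcon
        obtain ⟨z, hz, hz0⟩ := preconnected_Straighten.intermediate_value hx₀ hx hcont
          ⟨hle, hcon⟩
        exact hne z hz hz0
      have hfun : cone (fun y => refS (f y)) = fun z => refL (cone f z) := by
        funext z
        rw [cone_ref, refL_apply]
      have hd : HasFDerivAt (fun z => refL (cone f z))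
          (refL.comp (fderiv ℝ (cone f) (vec x))) (vec x) :=
        refL.hasFDerivAt.comp (vec x)
          ((hRG x hx).1.differentiableAt (by simp)).hasFDerivAt
      rw [hfun, hd.fderiv, detA_ref]
      linarith
  · left
    intro x hx
    have hnear : NearS2 fun z => f (rotS n z) = rotS n (f z) :=
      (h1.and (h2.comp hS)).mono fun z hz => by
        rw [← hz.1, hc, hz.2]
    have hu : Tendsto unit (𝓝 (vec x)) (𝓝 x) := by
      have := continuousAt_unit (vec_ne x)
      unfold ContinuousAt at this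
      rwa [unit_vec] at this
    have ht : ∀ᶠ y in 𝓝 (vec x), cone f (rotE (2 * Real.pi / n) y) =
        rotE (2 * Real.pi / n) (cone f y) :=
      (hu.eventually (hnear x hx)).mono fun y hy => cone_rot hy
    exact lt_of_le_of_ne (detA_nonneg h (fderiv_rot (OnS2_iff.1 hx) (hRG x hx).1 ht))
      (hne x hx).symm

theorem straighten {n : ℕ} (hn : 2 ≤ n) {f g1 g2 : Sph4 ≃ₜ Sph4}
    (h1 : NearS2 fun x => g1 x = rotS n x) (h2 : NearS2 fun x => g2 x = rotS n x)
    (hc : ∀ x, f (g1 x) = g2 (f x)) (hS : ∀ x, OnS2 (f x) ↔ OnS2 x)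
    (hld : ∀ x, OnS2 x → LocalDiffeoAt f x) :
    ∃ f1 : Sph4 ≃ₜ Sph4, CommNear f1 ∧ (∀ x, OnS2 (f1 x) ↔ OnS2 x) ∧
      (∀ x, LocalDiffeoAt f x → LocalDiffeoAt f1 x) ∧
      ((∀ x, f1 (g1 x) = g2 (f1 x)) ∨
        (n = 2 ∧ ∀ x, f1 (g1 x) = refS (g2 (refS (f1 x))))) := by
  rcases sign_cases hn h1 h2 hc hS hld with hpos | ⟨rfl, hpos⟩
  · obtain ⟨f1, a, b, c, d⟩ := straighten_pos h1 h2 hc hS hld hpos
    exact ⟨f1, a, b, c, Or.inl d⟩
  · have hldr : ∀ x, LocalDiffeoAt f x → LocalDiffeoAt (refHS * f : Sph4 ≃ₜ Sph4) x :=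
      fun x hx => ld_mul (ld_refS (f x)) hx
    have h2' : NearS2 fun x => (refHS * g2 * refHS : Sph4 ≃ₜ Sph4) x = rotS 2 x := by
      have h3 := h2.comp (f := refHS) fun x => OnS2_refS
      refine h3.mono fun x hx => ?_
      show refS (g2 (refS x)) = rotS 2 x
      have h4 : g2 (refS x) = rotS 2 (refS x) := hx
      rw [h4, refS_rotS_two, refS_refS]
    have hc' : ∀ x, (refHS * f : Sph4 ≃ₜ Sph4) (g1 x) =
        (refHS * g2 * refHS : Sph4 ≃ₜ Sph4) ((refHS * f : Sph4 ≃ₜ Sph4) x) := by
      intro x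
      show refS (f (g1 x)) = refS (g2 (refS (refS (f x))))
      rw [refS_refS, hc]
    obtain ⟨f1, a, b, c, d⟩ := straighten_pos (f := refHS * f) (g1 := g1)
      (g2 := refHS * g2 * refHS) h1 h2' hc' (fun x => OnS2_refS.trans (hS x))
      (fun x hx => hldr x (hld x hx)) hpos
    exact ⟨f1, a, b, fun x hx => c x (hldr x hx), Or.inr ⟨rfl, d⟩⟩

end Pool.Agent.Rot5
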