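import Pool.Agent.Rot5.Avg
import Pool.Agent.Rot5.Clopen
import Pool.Agent.Rot5.Near
import Pool.Agent.Rot5.Straighten

/-!
# Equivariant tubular neighbourhoods

PROOFS. `homeo_of_core2`: `f1 x = unit (F1 (vec x))`; as steps (1)-(4) of `straighten_pos`
(`StrPos.lean`), with the identity in place of `f`: `f1 x = x` if `b px2 < pv2` at `vec x`;
`LocalDiffeoAt f1 x` if `pv2 < a px2` at `vec x` (`ld_of_reg`); the point `y₀` with `vec y₀ = e₄`
has the only preimage `y₀`; `bij_of_local`; near every point one of the two cases applies.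
`tube_pos`: `exists_avg`, `core2` (with `a' = a₀ = 1`), `homeo_of_core2`. `φ (g x) = rotS n (φ x)`
near the 2-sphere: `F1 = G` on the tube `pv2 ≤ b' px2`, which contains `vec x` and `vec (g x) =
cone g (vec x)` for `x` near the 2-sphere (`nearS2_iff`, `NearS2.comp` for `g`), so `F1 (vec (g
x)) = G (cone g (vec x)) = rotE θ (G (vec x)) = rotE θ (F1 (vec x))`; `unit_rotE` (`F1 (vec x) ≠
0`).
`tube_sign`: `x ↦ detA (fderiv ℝ (cone h) (vec x))` is continuous and has no zero on the 2-sphere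
(as in the proof of `sign_cases` in `Straighten.lean`), so it has a constant sign.
`tube`: if the sign is positive `tube_pos`. Otherwise apply `tube_pos` to `g₁ = refHS * g *
refHS`, `h₁ = h * refHS` (`h₁ g₁ = h g refHS = rotS n h₁`, fixed points: `OnS2_refS`; `cone h₁ =
cone h ∘ refL`, so its derivative at `vec x`, `OnS2 x`, is `L.comp refL`, and `detA (L.comp refL)
= - detA L`: only the column of `e₄` changes its sign) and compose the result with `refHS`: `φ *
refHS`.
-/

set_option autoImplicit false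

open scoped ContDiff Topology Manifold
open Set Filter Metric

namespace Pool.Agent.Rot5

open Pool.Agent.HopfCov Pool.Agent.HopfFin Pool.Agent.HopfCov.Smooth Pool.Agent.Rot4

private theorem Tube_compact : CompactSpace Sph4 :=
  inferInstanceAs (CompactSpace (sphere (0 : EuclideanSpace ℝ (Fin 5)) 1))

private theorem Tube_t2 : T2Space Sph4 :=
  inferInstanceAs (T2Space (sphere (0 : EuclideanSpace ℝ (Fin 5)) 1))

private theorem Tube_conn : PreconnectedSpace Sph4 := by
  have h : IsPreconnected (sphere (0 : EuclideanSpace ℝ (Fin 5)) 1) := by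
    refine isPreconnected_sphere ?_ 0 1
    rw [← Module.finrank_eq_rank]
    have h5 : Module.finrank ℝ (EuclideanSpace ℝ (Fin 5)) = 5 := by simp
    rw [h5]
    exact_mod_cast (by norm_num : 1 < 5)
  exact Subtype.preconnectedSpace h

private noncomputable def TubePole : Sph4 :=
  ⟨(EuclideanSpace.single 4 1 : E5), by
    rw [mem_sphere_zero_iff_norm]
    simp⟩

private theorem Tube_pole_px2 : px2 (vec TubePole) = 0 := by
  show px2 (EuclideanSpace.single 4 1 : E5) = 0
  simp [px2]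

private theorem Tube_pole_pv2 : pv2 (vec TubePole) = 1 := by
  show pv2 (EuclideanSpace.single 4 1 : E5) = 1
  simp [pv2]

private theorem Tube_local {φ : Sph4 → Sph4} {x : Sph4} (h : LocalDiffeoAt φ x) :
    ContinuousAt φ x ∧ 𝓝 (φ x) ≤ map φ (𝓝 x) ∧ ∃ U ∈ 𝓝 x, InjOn φ U := by
  obtain ⟨Φ, hx, hE⟩ := h
  have hn : Φ.source ∈ 𝓝 x := Φ.open_source.mem_nhds hx
  have he : φ =ᶠ[𝓝 x] Φ := Filter.eventually_of_mem hn hE
  have hm : map Φ (𝓝 x) = 𝓝 (Φ x) := Φ.toOpenPartialHomeomorph.map_nhds_eq hx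
  have hm' : map φ (𝓝 x) = 𝓝 (φ x) := by
    rw [Filter.map_congr he, hm, he.eq_of_nhds]
  refine ⟨hm'.le, hm'.ge, Φ.source, hn, ?_⟩
  intro y hy z hz hyz
  rw [hE hy, hE hz] at hyz
  exact Φ.toPartialEquiv.injOn hy hz hyz

theorem homeo_of_core2 {F1 : E5 → E5} {a b a' : ℝ} (hb : 0 < b) (hba : b < a)
    (h1 : ∀ c : ℝ, 0 < c → ∀ x, F1 (c • x) = c • F1 x)
    (h2 : ∀ x, b * px2 x < pv2 x → F1 x = x)
    (h3 : ∀ x, x ≠ 0 → pv2 x ≤ a * px2 x → RG F1 x ∧ pv2 (F1 x) < a' * px2 (F1 x)) :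
    ∃ f1 : Sph4 ≃ₜ Sph4, (∀ x, f1 x = unit (F1 (vec x))) ∧ (∀ x, LocalDiffeoAt f1 x) ∧
      ∀ x, F1 (vec x) ≠ 0 := by
  have ha : 0 < a := hb.trans hba
  have hsum : ∀ x : Sph4, px2 (vec x) + pv2 (vec x) = 1 := fun x => by
    rw [px2_add_pv2, norm_vec, one_pow]
  have hcv : Continuous fun x : Sph4 => pv2 (vec x) :=
    contDiff_pv2.continuous.comp continuous_vec
  have hcp : Continuous fun x : Sph4 => px2 (vec x) :=
    contDiff_px2.continuous.comp continuous_vec
  set φ : Sph4 → Sph4 := fun x => unit (F1 (vec x)) with hφ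
  have e1 : ∀ x : Sph4, b * px2 (vec x) < pv2 (vec x) → φ x = x := fun x hx => by
    show unit (F1 (vec x)) = x
    rw [h2 _ hx, unit_vec]
  have hcase : ∀ x : Sph4, ¬ pv2 (vec x) < a * px2 (vec x) → b * px2 (vec x) < pv2 (vec x) := by
    intro x hx
    have h3 := hsum x
    have h4 := px2_nonneg (vec x)
    rcases h4.lt_or_eq with h5 | h5
    · nlinarith
    · rw [← h5] at h3 ⊢
      linarith
  have hne : ∀ x : Sph4, pv2 (vec x) ≤ a * px2 (vec x) → F1 (vec x) ≠ 0 := by
    intro x hx h0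
    have h4 := (h3 _ (vec_ne x) hx).2
    rw [h0] at h4
    simp [pv2, px2] at h4
  have hne' : ∀ x : Sph4, F1 (vec x) ≠ 0 := by
    intro x
    by_cases hx : pv2 (vec x) < a * px2 (vec x)
    · exact hne x hx.le
    · rw [h2 _ (hcase x hx)]
      exact vec_ne x
  have htub : ∀ x : Sph4, pv2 (vec x) ≤ a * px2 (vec x) →
      pv2 (vec (φ x)) < a' * px2 (vec (φ x)) := fun x hx =>
    ((tube_unit (hne x hx)).2).2 (h3 _ (vec_ne x) hx).2
  have hloc : ∀ x : Sph4, LocalDiffeoAt φ x := by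
    intro x
    by_cases hx : pv2 (vec x) < a * px2 (vec x)
    · refine ld_of_reg h1 ?_ (hne x hx.le) (Eventually.of_forall fun _ => rfl)
      have h4 : ∀ᶠ y in 𝓝 (vec x), pv2 y < a * px2 y :=
        contDiff_pv2.continuous.continuousAt.eventually_lt
          (continuous_const.mul contDiff_px2.continuous).continuousAt hx
      have h5 : ∀ᶠ y in 𝓝 (vec x), y ≠ 0 := isOpen_ne.mem_nhds (vec_ne x)
      filter_upwards [h4, h5] with y hy hy0
      exact (h3 y hy0 hy.le).1
    · have h4 : ∀ᶠ y in 𝓝 x, b * px2 (vec y) < pv2 (vec y) :=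
        (continuous_const.mul hcp).continuousAt.eventually_lt hcv.continuousAt (hcase x hx)
      refine ld_congr (ld_one x) (h4.mono fun y hy => ?_)
      rw [e1 y hy]
      rfl
  have := Tube_compact
  have := Tube_t2
  have := Tube_conn
  have : Nonempty Sph4 := ⟨TubePole⟩
  have hcont : Continuous φ := continuous_iff_continuousAt.2 fun x => (Tube_local (hloc x)).1
  have hopen : IsOpenMap φ := isOpenMap_iff_nhds_le.2 fun x => (Tube_local (hloc x)).2.1
  have hpole : ∀ x, φ x = TubePole → x = TubePole := by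
    intro x hx
    have h4 : ¬ pv2 (vec x) ≤ a * px2 (vec x) := by
      intro h4
      have h5 := htub x h4
      rw [hx, Tube_pole_px2, Tube_pole_pv2] at h5
      linarith
    have h5 : φ x = x := e1 x (hcase x fun h6 => h4 h6.le)
    rw [← h5, hx]
  have hbij : Function.Bijective φ :=
    bij_of_local hcont hopen (fun x => (Tube_local (hloc x)).2.2) (y₀ := TubePole)
      fun x x' hx hx' => (hpole x hx).trans (hpole x' hx').symm
  obtain ⟨f1, hf1⟩ : ∃ f1 : Sph4 ≃ₜ Sph4, ∀ x, f1 x = φ x :=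
    ⟨Continuous.homeoOfEquivCompactToT2 (f := Equiv.ofBijective φ hbij) hcont, fun _ => rfl⟩
  have hf1' : (f1 : Sph4 → Sph4) = φ := funext hf1
  refine ⟨f1, hf1, fun x => ?_, hne'⟩
  rw [hf1']
  exact hloc x

theorem tube_pos {n : ℕ} (hn : 2 ≤ n) {g h : Sph4 ≃ₜ Sph4} (hg : ∀ x, LocalDiffeoAt g x)
    (hpow : ∀ x, g^[n] x = x) (hfix : ∀ x, OnS2 x → g x = x)
    (hc : ∀ x, h (g x) = rotS n (h x)) (hh : ∀ x, OnS2 x → LocalDiffeoAt h x)
    (hpos : ∀ x, OnS2 x → 0 < detA (fderiv ℝ (cone h) (vec x))) :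
    ∃ φ : Sph4 ≃ₜ Sph4, (∀ x, LocalDiffeoAt φ x) ∧ (∀ x, OnS2 x → φ x = x) ∧
      NearS2 fun x => φ (g x) = rotS n (φ x) := by
  obtain ⟨G, hG, hcomm⟩ := exists_avg hn hg hpow hfix hc hh hpos
  obtain ⟨F1, a, b, hb, hba, -, hhom, hFar, hPl, hTube, b', hb', hF1G⟩ :=
    core2 hG one_pos one_pos
  obtain ⟨φ, hφ, hφld, hφne⟩ := homeo_of_core2 hb hba hhom hFar hTube
  refine ⟨φ, hφld, fun x hx => ?_, ?_⟩
  · rw [hφ, hPl _ (OnS2_iff.1 hx), unit_vec]
  · have hP : NearS2 fun x => pv2 (vec x) ≤ b' * px2 (vec x) :=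
      nearS2_iff.2 ⟨b', hb', fun x hx => hx⟩
    have hgS : ∀ x, OnS2 (g x) ↔ OnS2 x := by
      intro x
      constructor
      · intro hx
        have h1 := hfix _ hx
        have h2 : g x = x := g.injective h1
        rwa [h2] at hx
      · intro hx
        rw [hfix x hx]
        exact hx
    refine (hP.and (hP.comp hgS)).mono fun x hx => ?_
    obtain ⟨hx1, hx2⟩ := hx
    have e1 : F1 (vec (g x)) = rotE (2 * Real.pi / n) (F1 (vec x)) := by
      rw [hF1G _ hx2, ← cone_vec g x, hcomm, hF1G _ hx1]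
    rw [hφ, hφ, e1, unit_rotE _ (hφne x)]
    rfl

/-- the embedding of `ℝ³` as the plane `P` -/
private noncomputable def Tube_emb (y : EuclideanSpace ℝ (Fin 3)) : E5 :=
  WithLp.toLp 2 ![y 0, y 1, y 2, 0, 0]

private theorem Tube_continuous_emb : Continuous Tube_emb := by
  refine (PiLp.continuous_toLp 2 _).comp ?_
  have hi : ∀ i : Fin 3, Continuous fun y : EuclideanSpace ℝ (Fin 3) => y i := fun i =>
    PiLp.continuous_apply 2 _ i
  refine continuous_pi fun i => ?_
  fin_cases i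
  · exact hi 0
  · exact hi 1
  · exact hi 2
  · exact continuous_const
  · exact continuous_const

private theorem Tube_norm_emb (y : EuclideanSpace ℝ (Fin 3)) :
    ‖Tube_emb y‖ ^ 2 = ‖y‖ ^ 2 := by
  rw [EuclideanSpace.norm_sq_eq, EuclideanSpace.norm_sq_eq, Fin.sum_univ_five, Fin.sum_univ_three]
  simp only [Real.norm_eq_abs, sq_abs]
  show y 0 ^ 2 + y 1 ^ 2 + y 2 ^ 2 + (0 : ℝ) ^ 2 + (0 : ℝ) ^ 2 = y 0 ^ 2 + y 1 ^ 2 + y 2 ^ 2
  ring

private theorem Tube_pv2_emb (y : EuclideanSpace ℝ (Fin 3)) :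
    pv2 (Tube_emb y) = 0 := by
  show (0 : ℝ) ^ 2 + (0 : ℝ) ^ 2 = 0
  ring

private theorem Tube_preconnected : IsPreconnected {x : Sph4 | OnS2 x} := by
  have hrank : 1 < Module.rank ℝ (EuclideanSpace ℝ (Fin 3)) := by
    rw [← Module.finrank_eq_rank, finrank_euclideanSpace_fin]
    norm_num
  have hne : ∀ y ∈ sphere (0 : EuclideanSpace ℝ (Fin 3)) 1, Tube_emb y ≠ 0 := by
    intro y hy h0
    have h1 := Tube_norm_emb y
    rw [h0, mem_sphere_zero_iff_norm.1 hy, norm_zero] at h1
    norm_num at h1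
  have h1 := (isPreconnected_sphere hrank (0 : EuclideanSpace ℝ (Fin 3)) 1).image
    (fun y => unit (Tube_emb y)) (fun y hy => ContinuousAt.continuousWithinAt
      ((continuousAt_unit (hne y hy)).comp Tube_continuous_emb.continuousAt))
  have h2 : (fun y => unit (Tube_emb y)) '' sphere (0 : EuclideanSpace ℝ (Fin 3)) 1 =
      {x : Sph4 | OnS2 x} := by
    ext x
    constructor
    · rintro ⟨y, hy, rfl⟩
      exact (OnS2_unit (hne y hy)).2 (Tube_pv2_emb y)
    · intro hx
      have h3 : vec x 3 = 0 := hx.1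
      have h4 : vec x 4 = 0 := hx.2
      have h5 : Tube_emb (WithLp.toLp 2 ![vec x 0, vec x 1, vec x 2]) = vec x := by
        ext i
        fin_cases i
        · rfl
        · rfl
        · rfl
        · exact h3.symm
        · exact h4.symm
      refine ⟨WithLp.toLp 2 ![vec x 0, vec x 1, vec x 2], ?_, ?_⟩
      · rw [mem_sphere_zero_iff_norm]
        have h6 := Tube_norm_emb (WithLp.toLp 2 ![vec x 0, vec x 1, vec x 2])
        rw [h5, norm_vec] at h6
        have h7 := norm_nonneg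
          (WithLp.toLp 2 ![vec x 0, vec x 1, vec x 2] : EuclideanSpace ℝ (Fin 3))
        nlinarith
      · show unit (Tube_emb _) = x
        rw [h5, unit_vec]
  rwa [h2] at h1

theorem tube_sign {n : ℕ} (hn : 2 ≤ n) {g h : Sph4 ≃ₜ Sph4} (hfix : ∀ x, OnS2 x → g x = x)
    (hc : ∀ x, h (g x) = rotS n (h x)) (hh : ∀ x, OnS2 x → LocalDiffeoAt h x) :
    (∀ x, OnS2 x → 0 < detA (fderiv ℝ (cone h) (vec x))) ∨
      ∀ x, OnS2 x → detA (fderiv ℝ (cone h) (vec x)) < 0 := by
  have hRG : ∀ x, OnS2 x → RG (cone h) (vec x) := fun x hx =>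
    (reg_cone (hh x hx)).self_of_nhds
  have hS : ∀ x, OnS2 x → OnS2 (h x) := by
    intro x hx
    rw [← rotS_fix_iff hn, ← hc, hfix x hx]
  have hplane : ∀ x : E5, pv2 x = 0 → pv2 (cone h x) = 0 := by
    intro x hx
    by_cases h0 : x = 0
    · rw [cone, h0, norm_zero, zero_smul]
      exact pv2_eq_zero.2 (map_zero _)
    · rw [cone, pv2_smul, OnS2_iff.1 (hS _ ((OnS2_unit h0).2 hx)), mul_zero]
  have hne : ∀ x, OnS2 x → detA (fderiv ℝ (cone h) (vec x)) ≠ 0 := by
    intro x hx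
    exact detA_ne (fderiv_plane (OnS2_iff.1 hx) (hRG x hx).1 hplane) (hRG x hx).2
  have hcont : ContinuousOn (fun x : Sph4 => detA (fderiv ℝ (cone h) (vec x)))
      {x : Sph4 | OnS2 x} := by
    intro x hx
    refine ContinuousAt.continuousWithinAt ?_
    have c1 : ContinuousAt (fderiv ℝ (cone h)) (vec x) :=
      ((hRG x hx).1.fderiv_right (m := 0) (by simp)).continuousAt
    have c2 : ContinuousAt (fun x : Sph4 => fderiv ℝ (cone h) (vec x)) x :=
      ContinuousAt.comp (f := vec) (g := fderiv ℝ (cone h)) c1 continuous_vec.continuousAt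
    exact ContinuousAt.comp (f := fun x : Sph4 => fderiv ℝ (cone h) (vec x)) (g := detA)
      continuous_detA.continuousAt c2
  by_cases hall : ∀ x, OnS2 x → 0 < detA (fderiv ℝ (cone h) (vec x))
  · exact Or.inl hall
  · right
    push Not at hall
    obtain ⟨x₀, hx₀, hle⟩ := hall
    intro x hx
    by_contra hcon
    push Not at hcon
    obtain ⟨z, hz, hz0⟩ := Tube_preconnected.intermediate_value hx₀ hx hcont
      ⟨hle, hcon⟩
    exact hne z hz hz0

private theorem Tube_detA_comp (L : E5 →L[ℝ] E5) : detA (L.comp refL) = -detA L := by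
  have h3 : refL (EuclideanSpace.single 3 1 : E5) = EuclideanSpace.single 3 1 := by
    rw [refL_apply]
    ext i
    fin_cases i <;> simp [refE]
  have h4 : refL (EuclideanSpace.single 4 1 : E5) = -EuclideanSpace.single 4 1 := by
    rw [refL_apply]
    ext i
    fin_cases i <;> simp [refE]
  unfold detA
  rw [ContinuousLinearMap.comp_apply, ContinuousLinearMap.comp_apply, h3, h4, map_neg]
  simp only [PiLp.neg_apply]
  ring

private theorem Tube_cone_ref (f : Sph4 → Sph4) (x : E5) :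
    cone (fun y => f (refS y)) x = cone f (refL x) := by
  by_cases h0 : x = 0
  · rw [h0, map_zero, cone, cone, norm_zero, zero_smul, zero_smul]
  · rw [cone, cone, refL_apply, norm_refE, unit_refE h0]

/-- **equivariant tubular neighbourhoods** -/
theorem tube {n : ℕ} (hn : 2 ≤ n) {g h : Sph4 ≃ₜ Sph4} (hg : ∀ x, LocalDiffeoAt g x)
    (hpow : ∀ x, g^[n] x = x) (hfix : ∀ x, OnS2 x → g x = x)
    (hc : ∀ x, h (g x) = rotS n (h x)) (hh : ∀ x, OnS2 x → LocalDiffeoAt h x) :
    ∃ φ : Sph4 ≃ₜ Sph4, (∀ x, LocalDiffeoAt φ x) ∧ (∀ x, OnS2 x → φ x = x) ∧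
      NearS2 fun x => φ (g x) = rotS n (φ x) := by
  rcases tube_sign hn hfix hc hh with hpos | hneg
  · exact tube_pos hn hg hpow hfix hc hh hpos
  · have hg' : ∀ x, LocalDiffeoAt (refHS * g * refHS : Sph4 ≃ₜ Sph4) x := fun x =>
      ld_mul (ld_mul (ld_refS _) (hg _)) (ld_refS x)
    have hsemi : ∀ x, refS ((refHS * g * refHS : Sph4 ≃ₜ Sph4) x) = g (refS x) := fun x => by
      show refS (refS (g (refS x))) = g (refS x)
      rw [refS_refS]
    have hpow' : ∀ x, (refHS * g * refHS : Sph4 ≃ₜ Sph4)^[n] x = x := by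
      intro x
      have h1 : Function.Semiconj refS (refHS * g * refHS : Sph4 ≃ₜ Sph4) g := hsemi
      have h2 := (h1.iterate_right n) x
      rw [hpow] at h2
      have h3 := congrArg refS h2
      rwa [refS_refS, refS_refS] at h3
    have hfix' : ∀ x, OnS2 x → (refHS * g * refHS : Sph4 ≃ₜ Sph4) x = x := by
      intro x hx
      show refS (g (refS x)) = x
      rw [refS_fix hx, hfix x hx, refS_fix hx]
    have hc' : ∀ x, (h * refHS : Sph4 ≃ₜ Sph4) ((refHS * g * refHS : Sph4 ≃ₜ Sph4) x) =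
        rotS n ((h * refHS : Sph4 ≃ₜ Sph4) x) := by
      intro x
      show h (refS (refS (g (refS x)))) = rotS n (h (refS x))
      rw [refS_refS, hc]
    have hh' : ∀ x, OnS2 x → LocalDiffeoAt (h * refHS : Sph4 ≃ₜ Sph4) x := fun x hx =>
      ld_mul (hh _ (OnS2_refS.2 hx)) (ld_refS x)
    have hpos' : ∀ x, OnS2 x →
        0 < detA (fderiv ℝ (cone (h * refHS : Sph4 ≃ₜ Sph4)) (vec x)) := by
      intro x hx
      have hfun : cone (h * refHS : Sph4 ≃ₜ Sph4) = fun z => cone h (refL z) := by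
        funext z
        exact Tube_cone_ref h z
      have hv : refL (vec x) = vec x := by
        rw [refL_apply, ← vec_refS, refS_fix hx]
      have hRG : RG (cone h) (vec x) := (reg_cone (hh x hx)).self_of_nhds
      have hd0 : HasFDerivAt (cone h) (fderiv ℝ (cone h) (vec x)) (refL (vec x)) := by
        rw [hv]
        exact (hRG.1.differentiableAt (by simp)).hasFDerivAt
      have hd : HasFDerivAt (fun z => cone h (refL z))
          ((fderiv ℝ (cone h) (vec x)).comp refL) (vec x) :=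
        hd0.comp (vec x) refL.hasFDerivAt
      rw [hfun, hd.fderiv, Tube_detA_comp]
      linarith [hneg x hx]
    obtain ⟨φ, h1, h2, h3⟩ := tube_pos hn hg' hpow' hfix' hc' hh' hpos'
    refine ⟨φ * refHS, fun x => ld_mul (h1 _) (ld_refS x), fun x hx => ?_, ?_⟩
    · show φ (refS x) = x
      rw [refS_fix hx, h2 x hx]
    · refine (h3.comp (f := refHS) fun x => OnS2_refS).mono fun x hx => ?_
      show φ (refS (g x)) = rotS n (φ (refS x))
      have h4 : φ (refS (g (refS (refS x)))) = rotS n (φ (refS x)) := hx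
      rwa [refS_refS] at h4

end Pool.Agent.Rot5
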