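import Pool.Agent.Rot5.NormStr
import Pool.Agent.Rot5.Tube
import Pool.Agent.Rot5.NormS
import Pool.Agent.Rot5.StatementAct

/-!
# The two descriptions of the actions

PROOFS. `action_congr`: `h := h' * ψ`, `φ := φ' ∘ ψ` for the `h', φ'` of `SphereAction n g'`
(`homeo_of_isDiffeo`, `isDiffeo_of_homeo`, `ld_mul`, `ld_inv`); `g = ψ⁻¹ ∘ g' ∘ ψ` is a
diffeomorphism.
`unknot_of_action`: `σ := φ`: if `g x = x` then `rotS n (h x) = h x`, so `OnS2 (h x)`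
(`rotS_fix_iff`) and `φ x = h x`. If `OnS2 (φ x)`, let `x' = h⁻¹ (φ x)`; `OnS2 (h x')`, so `φ x' =
h x' = φ x` and `x' = x`, `OnS2 (h x)`, `h (g x) = h x`. `top`: `h = φ` near the fixed points
(`ld_congr`).
`action_of_unknot`: let `σ', g₀` be the homeomorphisms of `σ`, `g` (`homeo_of_isDiffeo`); `g₁ = σ'
* g₀ * σ'⁻¹`, `h₁ = h * σ'⁻¹`: `g₁ x = x ↔ OnS2 x`, `h₁ (g₁ x) = rotS n (h₁ x)`, `h₁` is a local
diffeomorphism at the points of the 2-sphere. `tube` gives `φ`. `g₂ = φ * g₁ * φ⁻¹`, `h₂ = h₁ *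
φ⁻¹`: `g₂ = rotS n` near the 2-sphere (`φ` maps the 2-sphere to itself, `NearS2.comp` for `φ⁻¹`:
`OnS2 (φ x) ↔ OnS2 x`, because `φ x = x` for `OnS2 x` and `φ` is injective), `OnS2 (h₂ x) ↔ g₂ x =
x ↔ OnS2 x`. `straighten` for `f := h₂`, `g1 := g₂`, `g2 := rotHS θ` gives `k`, in both cases `k
(g₂ x) = rotS n (k x)` (`n = 2`: `refS_rotS_two`, `refS_refS`). `norm_of_straight`, `of_norm`, and
`action_congr` with `ψ = φ * σ'`.
-/

set_option autoImplicit false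

open scoped ContDiff Topology Manifold
open Set Filter Metric

namespace Pool.Agent.Rot5

open Pool.Agent.HopfCov Pool.Agent.HopfFin Pool.Agent.HopfCov.Smooth Pool.Agent.Rot4

private theorem ActIff_inv (φ : Sph4 ≃ₜ Sph4) (hφ : ∀ x, LocalDiffeoAt φ x) (x : Sph4) :
    LocalDiffeoAt (φ⁻¹ : Sph4 ≃ₜ Sph4) x := by
  have h := ld_inv (hφ (φ.symm x))
  rwa [φ.apply_symm_apply] at h

private theorem ActIff_symm' (φ : Sph4 ≃ₜ Sph4) (x : Sph4) : (φ⁻¹ : Sph4 ≃ₜ Sph4) (φ x) = x :=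
  φ.symm_apply_apply x

private theorem ActIff_mul (φ ψ : Sph4 ≃ₜ Sph4) (x : Sph4) :
    (φ * ψ : Sph4 ≃ₜ Sph4) x = φ (ψ x) := rfl

private theorem ActIff_conj {ψ g₀ : Sph4 ≃ₜ Sph4} (hψ : ∀ x, LocalDiffeoAt ψ x)
    (hg : ∀ x, LocalDiffeoAt g₀ x) :
    ∃ g₁ : Sph4 ≃ₜ Sph4, (∀ x, ψ (g₀ x) = g₁ (ψ x)) ∧ ∀ x, LocalDiffeoAt g₁ x :=
  ⟨ψ * g₀ * ψ⁻¹, fun x => by rw [ActIff_mul, ActIff_mul, ActIff_symm'],
    fun x => ld_mul (ld_mul (hψ _) (hg _)) (ActIff_inv ψ hψ x)⟩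

private theorem ActIff_right {ψ h₀ : Sph4 ≃ₜ Sph4} :
    ∃ h₁ : Sph4 ≃ₜ Sph4, ∀ x, h₁ (ψ x) = h₀ x :=
  ⟨h₀ * ψ⁻¹, fun x => by rw [ActIff_mul, ActIff_symm']⟩

private theorem ActIff_ld {ψ h₀ h₁ : Sph4 ≃ₜ Sph4} (hψ : ∀ x, LocalDiffeoAt ψ x)
    (he : ∀ x, h₁ (ψ x) = h₀ x) {x : Sph4} (hx : LocalDiffeoAt h₀ x) :
    LocalDiffeoAt h₁ (ψ x) := by
  have e : h₁ = h₀ * ψ⁻¹ := by
    refine Homeomorph.ext fun y => ?_
    obtain ⟨z, rfl⟩ := ψ.surjective y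
    rw [he, ActIff_mul, ActIff_symm']
  rw [e]
  refine ld_mul ?_ (ActIff_inv ψ hψ _)
  rw [ActIff_symm']
  exact hx

private theorem ActIff_pow {n : ℕ} {g : Sph4 → Sph4} {ψ g' : Sph4 ≃ₜ Sph4}
    (hc : ∀ x, ψ (g x) = g' (ψ x)) (hp : ∀ x, g^[n] x = x) (x : Sph4) : g'^[n] x = x := by
  have hs : Function.Semiconj ψ g g' := hc
  obtain ⟨z, rfl⟩ := ψ.surjective x
  rw [← hs.iterate_right n z, hp]

theorem action_congr {n : ℕ} {g : Sph4 → Sph4} {ψ g' : Sph4 ≃ₜ Sph4}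
    (hψ : ∀ x, LocalDiffeoAt ψ x) (hc : ∀ x, ψ (g x) = g' (ψ x)) (h : SphereAction n g') :
    SphereAction n g := by
  obtain ⟨h', φ', hφ'd, hconj, hnear⟩ := h.top
  obtain ⟨φ, hφ, hφd⟩ := homeo_of_isDiffeo hφ'd
  have hg'd : ∀ x, LocalDiffeoAt g' x := h.diffeo.2
  have hg : ∀ x, (ψ⁻¹ * g' * ψ : Sph4 ≃ₜ Sph4) x = g x := by
    intro x
    rw [ActIff_mul, ActIff_mul, ← hc, ActIff_symm']
  have hgd : IsDiffeo (M := Sph4) (N := Sph4) g := by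
    have e : ((ψ⁻¹ * g' * ψ : Sph4 ≃ₜ Sph4) : Sph4 → Sph4) = g := funext hg
    rw [← e]
    exact isDiffeo_of_homeo fun x => ld_mul (ld_mul (ActIff_inv ψ hψ _) (hg'd _)) (hψ x)
  refine ⟨hgd, ?_, h' * ψ, ((φ * ψ : Sph4 ≃ₜ Sph4) : Sph4 → Sph4),
    isDiffeo_of_homeo fun x => ld_mul (hφd _) (hψ x), ?_, ?_⟩
  · intro x
    have hs : Function.Semiconj ψ g g' := hc
    apply ψ.injective
    rw [hs.iterate_right n x, h.pow]
  · intro x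
    rw [ActIff_mul, ActIff_mul, hc, hconj]
  · intro x hx
    have h1 : ∀ᶠ y in 𝓝 (ψ x), h' y = φ' y := hnear (ψ x) hx
    have h2 := (ψ.continuous.continuousAt (x := x)).eventually h1
    filter_upwards [h2] with y hy
    rw [ActIff_mul, ActIff_mul, hy, hφ]

theorem unknot_of_action {n : ℕ} (hn : 2 ≤ n) {g : Sph4 → Sph4} (h : SphereAction n g) :
    UnknotAction n g := by
  obtain ⟨h', φ, hφd, hconj, hnear⟩ := h.top
  have hfix : ∀ x, g x = x → OnS2 (h' x) := by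
    intro x hx
    rw [← rotS_fix_iff hn, ← hconj, hx]
  refine ⟨h.diffeo, h.pow, ⟨φ, hφd, fun x => ⟨fun hx => ?_, fun hx => ?_⟩⟩,
    ⟨h', hconj, fun x hx => ?_⟩⟩
  · have h1 : h' x = φ x := (hnear x (hfix x hx)).self_of_nhds
    rw [← h1]
    exact hfix x hx
  · have h1 : h' (h'.symm (φ x)) = φ x := h'.apply_symm_apply _
    have h2 : OnS2 (h' (h'.symm (φ x))) := by rwa [h1]
    have h3 : h' (h'.symm (φ x)) = φ (h'.symm (φ x)) := (hnear _ h2).self_of_nhds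
    have h4 : h'.symm (φ x) = x := by
      apply hφd.1.injective
      rw [← h3, h1]
    rw [h4] at h2
    apply h'.injective
    rw [hconj]
    exact (rotS_fix_iff hn).2 h2
  · exact ld_congr (hφd.2 x) ((hnear x (hfix x hx)).mono fun y hy => hy.symm)

theorem action_of_unknot {n : ℕ} (hn : 2 ≤ n) {g : Sph4 → Sph4} (h : UnknotAction n g) :
    SphereAction n g := by
  obtain ⟨σ₀, hσd₀, hσ₀⟩ := h.unknot
  obtain ⟨h₀, hc₀, hld₀⟩ := h.top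
  obtain ⟨g₀, hg₀, hg₀d⟩ := homeo_of_isDiffeo h.diffeo
  obtain ⟨σ, hσ, hσd⟩ := homeo_of_isDiffeo hσd₀
  obtain ⟨g₁, hg₁, hg₁d⟩ := ActIff_conj hσd hg₀d
  have hs₁ : ∀ x, σ (g x) = g₁ (σ x) := fun x => by rw [← hg₀]; exact hg₁ x
  obtain ⟨h₁, hh₁⟩ := ActIff_right (ψ := σ) (h₀ := h₀)
  have hfix₁ : ∀ x, g₁ x = x ↔ OnS2 x := by
    intro x
    obtain ⟨z, rfl⟩ := σ.surjective x
    rw [← hs₁, hσ z, ← hσ₀ z, ← hσ z]
    exact ⟨fun e => σ.injective e, fun e => by rw [e]⟩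
  have hpow₁ : ∀ x, g₁^[n] x = x := ActIff_pow hs₁ h.pow
  have hc₁ : ∀ x, h₁ (g₁ x) = rotS n (h₁ x) := by
    intro x
    obtain ⟨z, rfl⟩ := σ.surjective x
    rw [← hs₁, hh₁, hh₁, hc₀]
  have hld₁ : ∀ x, OnS2 x → LocalDiffeoAt h₁ x := by
    intro x hx
    obtain ⟨z, rfl⟩ := σ.surjective x
    refine ActIff_ld hσd hh₁ (hld₀ z ?_)
    rw [hσ₀ z, ← hσ z]
    exact hx
  obtain ⟨φ, hφd, hφfix, hφnear⟩ :=
    tube hn hg₁d hpow₁ (fun x hx => (hfix₁ x).2 hx) hc₁ hld₁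
  have hφS : ∀ x, OnS2 (φ x) ↔ OnS2 x := by
    intro x
    constructor
    · intro hx
      have e : φ x = x := φ.injective (hφfix _ hx)
      rwa [e] at hx
    · intro hx
      rwa [hφfix x hx]
  have hφS' : ∀ x, OnS2 ((φ⁻¹ : Sph4 ≃ₜ Sph4) x) ↔ OnS2 x := by
    intro x
    obtain ⟨z, rfl⟩ := φ.surjective x
    rw [ActIff_symm', hφS]
  obtain ⟨g₂, hg₂, hg₂d⟩ := ActIff_conj hφd hg₁d
  obtain ⟨h₂, hh₂⟩ := ActIff_right (ψ := φ) (h₀ := h₁)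
  have hnear₂ : NearS2 fun x => g₂ x = rotS n x := by
    refine (hφnear.comp hφS').mono fun x hx => ?_
    obtain ⟨z, rfl⟩ := φ.surjective x
    rw [ActIff_symm', hg₂] at hx
    exact hx
  have hfix₂ : ∀ x, g₂ x = x ↔ OnS2 x := by
    intro x
    obtain ⟨z, rfl⟩ := φ.surjective x
    rw [← hg₂, hφS, ← hfix₁]
    exact ⟨fun e => φ.injective e, fun e => by rw [e]⟩
  have hpow₂ : ∀ x, g₂^[n] x = x := ActIff_pow hg₂ hpow₁
  have hc₂ : ∀ x, h₂ (g₂ x) = rotS n (h₂ x) := by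
    intro x
    obtain ⟨z, rfl⟩ := φ.surjective x
    rw [← hg₂, hh₂, hh₂, hc₁]
  have hld₂ : ∀ x, OnS2 x → LocalDiffeoAt h₂ x := by
    intro x hx
    obtain ⟨z, rfl⟩ := φ.surjective x
    exact ActIff_ld hφd hh₂ (hld₁ z ((hφS z).1 hx))
  have hS₂ : ∀ x, OnS2 (h₂ x) ↔ OnS2 x := by
    intro x
    rw [← rotS_fix_iff hn, ← hc₂, ← hfix₂]
    exact ⟨fun e => h₂.injective e, fun e => by rw [e]⟩
  obtain ⟨k, hkc, hkS, hkld, hcase⟩ :=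
    straighten (g2 := rotHS (2 * Real.pi / n)) hn hnear₂ (fun x _ => Eventually.of_forall
      fun y => rfl) hc₂ hS₂ hld₂
  have hck : ∀ x, k (g₂ x) = rotS n (k x) := by
    rcases hcase with h5 | ⟨rfl, h5⟩
    · exact h5
    · intro x
      have h6 : k (g₂ x) = refS (rotS 2 (refS (k x))) := h5 x
      rw [h6, refS_rotS_two, refS_refS]
  obtain ⟨h₃, hnorm⟩ :=
    norm_of_straight hn hg₂d hnear₂ hpow₂ hkc hkS (fun x hx => hkld x (hld₂ x hx)) hck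
  refine action_congr (ψ := φ * σ) (g' := g₂) (fun x => ld_mul (hφd _) (hσd x)) ?_
    (of_norm (by omega) hnorm)
  intro x
  rw [ActIff_mul, ActIff_mul, hs₁, hg₂]

theorem action_iff {n : ℕ} (hn : 2 ≤ n) {g : Sph4 → Sph4} :
    UnknotAction n g ↔ SphereAction n g :=
  ⟨action_of_unknot hn, unknot_of_action hn⟩

end Pool.Agent.Rot5
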