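import Pool.Agent.Rot4.BridgeTo
import Pool.Agent.Rot4.BridgeOf
import Pool.Agent.Rot4.CoordReg
import Pool.Agent.Rot4.Ray

/-!
# Homeomorphisms near the ray and their coordinate forms

PROOFS. `crd_zpow`: `G'⁻¹ (q1 x) = q1 (G⁻¹ x)` (apply `crd` to `G⁻¹ x`, `Nn.om` for `G`),
induction on `k`.
`to_phi`: `of_coord` (with `a = 0`, `m * n` instead of `n`) gives `Φ`; for `x ∈ Om`: `q1 (Φ (G^m
x)) = T (q1 (G^m x)) = T ((G' ^ m) (q1 x)) = shf m (T (q1 x)) = shf m (q1 (Φ x)) = q1 ((tau ^ m)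
(Φ x))` (`tau_pow_apply`, `q1_smul`), and `q1` is injective on `Om` (`b1_q1`); off `Om`, `x = t
e0`, `0 ≤ t` (`not_Om_iff`): `x` is in every cone, `Φ x = x` and `G ^ m x = (tau ^ m) x` is again
such a point. Smoothness: for `x ∈ Om`, `Φ = b1 ∘ T ∘ q1` near `x` (`b1_q1`; `Nn.om`,
`isOpen_Om`), `reg_q1`, `reg_b1`; off `Om`, `x ≠ 0`: `x = t e0`, `t > 0`, `reg_of_agree`,
`Nn.agree`.
`of_phi`: `to_coord` gives `T` with `T (q1 x) = q1 (Φ x)`, the identity far away; the identity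
with `m` is checked at `z = q1 x`, `x = b1 z`. Smoothness: `T = q1 ∘ Φ ∘ b1` everywhere (`q1_b1`,
`Om_b1`).
-/

set_option autoImplicit false

open scoped ContDiff Topology
open Set Filter Metric

namespace Pool.Agent.Rot5

open Pool.Agent.HopfCov Pool.Agent.HopfFin Pool.Agent.HopfCov.Smooth Pool.Agent.Rot4

private theorem q1_inj_Phi {x y : E4} (hx : Om x) (hy : Om y) (h : q1 x = q1 y) : x = y := by
  rw [← b1_q1 hx, h, b1_q1 hy]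

private theorem congr_Phi {f g : E4 → E4} {x : E4} (h : f =ᶠ[𝓝 x] g) (hg : Reg g x) :
    Reg f x := by
  filter_upwards [h.eventuallyEq_nhds, hg] with y h1 h2
  exact ⟨h2.1.congr_of_eventuallyEq h1, by rw [h1.fderiv_eq]; exact h2.2⟩

private theorem fix_Phi {n : ℕ} {Φ : E4 ≃ₜ E4} (h : Nn n 0 Φ) {t : ℝ} (ht : 0 ≤ t) :
    Φ (t • e0) = t • e0 := by
  obtain ⟨δ, hδ, h1⟩ := h.agree
  exact h1 _ (smul_e0_mem_Cone hδ.le ht)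

private theorem pow_ray_Phi {n : ℕ} {G : E4 ≃ₜ E4} (hG : Nn n 1 G) (m : ℕ) {t : ℝ}
    (ht : 0 ≤ t) : (G ^ m : E4 ≃ₜ E4) (t • e0) = (tau ^ m : E4 ≃ₜ E4) (t • e0) := by
  induction m with
  | zero => rfl
  | succ m ih =>
    obtain ⟨δ, hδ, h1⟩ := hG.near
    have h2 : (0 : ℝ) ≤ (2 : ℝ) ^ (-(m : ℝ)) * t :=
      mul_nonneg (Real.rpow_nonneg zero_le_two _) ht
    rw [pow_succ', pow_succ', mul_apply', mul_apply', ih, tau_pow_apply, smul_smul,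
      h1 _ (smul_e0_mem_Cone hδ.le h2), pow_one]

theorem crd_zpow {n : ℕ} {G G' : E4 ≃ₜ E4} (hG : Nn n 1 G)
    (crd : ∀ x, Om x → G' (q1 x) = q1 (G x)) (k : ℤ) {x : E4} (hx : Om x) :
    Om ((G ^ k : E4 ≃ₜ E4) x) ∧ (G' ^ k : E4 ≃ₜ E4) (q1 x) = q1 ((G ^ k : E4 ≃ₜ E4) x) := by
  induction k using Int.induction_on with
  | zero =>
    rw [zpow_zero, zpow_zero]
    exact ⟨hx, rfl⟩
  | succ i ih =>
    have e1 : (G ^ ((i : ℤ) + 1) : E4 ≃ₜ E4) = G * G ^ (i : ℤ) := by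
      rw [add_comm, zpow_one_add]
    have e2 : (G' ^ ((i : ℤ) + 1) : E4 ≃ₜ E4) = G' * G' ^ (i : ℤ) := by
      rw [add_comm, zpow_one_add]
    rw [e1, e2, mul_apply', mul_apply', ih.2]
    exact ⟨hG.om.2 ih.1, crd _ ih.1⟩
  | pred i ih =>
    have e1 : (G ^ (-(i : ℤ) - 1) : E4 ≃ₜ E4) = G⁻¹ * G ^ (-(i : ℤ)) := by
      rw [← zpow_neg_one, ← zpow_add]
      congr 1
      ring
    have e2 : (G' ^ (-(i : ℤ) - 1) : E4 ≃ₜ E4) = G'⁻¹ * G' ^ (-(i : ℤ)) := by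
      rw [← zpow_neg_one, ← zpow_add]
      congr 1
      ring
    rw [e1, e2, mul_apply', mul_apply', ih.2]
    have h1 : Om ((G⁻¹ : E4 ≃ₜ E4) ((G ^ (-(i : ℤ)) : E4 ≃ₜ E4) x)) := by
      rw [← hG.om, apply_inv_self']
      exact ih.1
    refine ⟨h1, ?_⟩
    have h2 := crd _ h1
    rw [apply_inv_self'] at h2
    rw [← h2, inv_apply_self']

private theorem crd_pow_Phi {n : ℕ} {G G' : E4 ≃ₜ E4} (hG : Nn n 1 G)
    (crd : ∀ x, Om x → G' (q1 x) = q1 (G x)) (k : ℕ) {x : E4} (hx : Om x) :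
    Om ((G ^ k : E4 ≃ₜ E4) x) ∧ (G' ^ k : E4 ≃ₜ E4) (q1 x) = q1 ((G ^ k : E4 ≃ₜ E4) x) := by
  have h := crd_zpow hG crd (k : ℤ) hx
  rw [zpow_natCast, zpow_natCast] at h
  exact h

theorem to_phi {n m : ℕ} (hn : 0 < n) (hm : 0 < m) {G G' T : E4 ≃ₜ E4} (hG : Nn n 1 G)
    (crd : ∀ x, Om x → G' (q1 x) = q1 (G x))
    (hT : ∀ z, T ((G' ^ m : E4 ≃ₜ E4) z) = shf m (T z))
    (hT' : ∃ R : ℝ, ∀ z, R ≤ wsq z → T z = z)
    (hT'' : ∀ z, T (shf ((m * n : ℕ) : ℝ) z) = shf ((m * n : ℕ) : ℝ) (T z)) :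
    ∃ Φ : E4 ≃ₜ E4, Nn (m * n) 0 Φ ∧ Φ * G ^ m = tau ^ m * Φ ∧
      (∀ x, Om x → q1 (Φ x) = T (q1 x)) ∧ (∀ x, Om x → Reg T (q1 x) → Reg Φ x) ∧
      ∀ x, x ≠ 0 → ¬ Om x → Reg Φ x := by
  obtain ⟨R, hR⟩ := hT'
  have hR' : ∀ z, R ≤ wsq z → T z = shf ((0 : ℕ) : ℝ) z := fun z hz => by
    rw [Nat.cast_zero, shf_zero, hR z hz]
  obtain ⟨Φ, hΦ, hq⟩ := of_coord (Nat.mul_pos hm hn) hR' hT''
  refine ⟨Φ, hΦ, ?_, hq, fun x hx hr => ?_, fun x hx0 hx => ?_⟩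
  · ext1 x
    rw [mul_apply', mul_apply']
    by_cases hx : Om x
    · obtain ⟨h1, h2⟩ := crd_pow_Phi hG crd m hx
      have h3 : Om (Φ x) := hΦ.om.2 hx
      have h4 : Om ((tau ^ m : E4 ≃ₜ E4) (Φ x)) := by
        rw [tau_pow_apply]
        exact (Om_smul (Real.rpow_pos_of_pos two_pos _)).2 h3
      refine q1_inj_Phi (hΦ.om.2 h1) h4 ?_
      rw [hq _ h1, ← h2, hT, ← hq _ hx, tau_pow_apply, q1_smul h3]
    · obtain ⟨t, ht, rfl⟩ := not_Om_iff.1 hx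
      have h2 : (0 : ℝ) ≤ (2 : ℝ) ^ (-(m : ℝ)) * t :=
        mul_nonneg (Real.rpow_nonneg zero_le_two _) ht
      rw [pow_ray_Phi hG m ht, fix_Phi hΦ ht, tau_pow_apply, smul_smul, fix_Phi hΦ h2]
  · have h1 : (Φ : E4 → E4) =ᶠ[𝓝 x] b1 ∘ T ∘ q1 := by
      filter_upwards [isOpen_Om.mem_nhds hx] with y hy
      have hy' : Om y := hy
      rw [Function.comp_apply, Function.comp_apply, ← hq _ hy', b1_q1 (hΦ.om.2 hy')]
    exact congr_Phi h1 ((reg_b1 _).comp (hr.comp (reg_q1 hx)))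
  · obtain ⟨t, ht, rfl⟩ := not_Om_iff.1 hx
    have ht' : 0 < t := by
      rcases ht.lt_or_eq with h | h
      · exact h
      · exact absurd (by rw [← h, zero_smul]) hx0
    exact reg_of_agree hΦ.agree ht'

theorem of_phi {n m : ℕ} {G G' Φ : E4 ≃ₜ E4} (hG : Nn n 1 G)
    (crd : ∀ x, Om x → G' (q1 x) = q1 (G x)) (hΦ : Nn (m * n) 0 Φ)
    (hc : Φ * G ^ m = tau ^ m * Φ) :
    ∃ T : E4 ≃ₜ E4, (∀ z, T ((G' ^ m : E4 ≃ₜ E4) z) = shf m (T z)) ∧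
      (∃ R : ℝ, ∀ z, R ≤ wsq z → T z = z) ∧ (∀ x, Om x → q1 (Φ x) = T (q1 x)) ∧
      ∀ x, Om x → Reg Φ x → Reg T (q1 x) := by
  obtain ⟨T, hT1, ⟨R, hR⟩, -⟩ := to_coord hΦ
  refine ⟨T, fun z => ?_, ⟨R, fun z hz => ?_⟩, fun x hx => (hT1 x hx).symm, fun x hx hr => ?_⟩
  · have hx := Om_b1 z
    obtain ⟨h1, h2⟩ := crd_pow_Phi hG crd m hx
    have h3 : Φ ((G ^ m : E4 ≃ₜ E4) (b1 z)) = (tau ^ m : E4 ≃ₜ E4) (Φ (b1 z)) :=
      DFunLike.congr_fun hc (b1 z)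
    have h4 := hT1 _ hx
    rw [q1_b1] at h2 h4
    rw [h2, hT1 _ h1, h3, tau_pow_apply, q1_smul (hΦ.om.2 hx), h4]
  · rw [hR z hz, Nat.cast_zero, shf_zero]
  · have h1 : (T : E4 → E4) = q1 ∘ Φ ∘ b1 := by
      funext z
      have h2 := hT1 _ (Om_b1 z)
      rw [q1_b1] at h2
      exact h2
    rw [h1]
    have h3 : b1 (q1 x) = x := b1_q1 hx
    refine Reg.comp ?_ (Reg.comp ?_ (reg_b1 _))
    · rw [Function.comp_apply, h3]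
      exact reg_q1 (hΦ.om.2 hx)
    · rw [h3]
      exact hr

end Pool.Agent.Rot5
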