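import Pool.Agent.Rot5.LiftS
import Pool.Agent.Rot4.Conn

/-!
# Lifts of homeomorphisms which commute with all rotations near the 2-sphere

PROOFS. `lift_rot`: let `R` be as in `sph_near` for `CommNear f`. For `R ≤ wsq z` the maps `u ↦ F u`
and `u ↦ shf (u 3 - z 3) (F z)` on the line `{shf t z | t}` (the image of `ℝ`, preconnected) are lifts
of the same map: `sph n (F (shf t z)) = f (sph n (shf t z)) = f (rotA (2 π t / n) (sph n z)) = rotA (2
π t / n) (f (sph n z)) = sph n (shf t (F z))` (`sph_shf`), and agree at `z`.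
`lift_period`: `F (shf n z)` and `shf n (F z)` are lifts of the same map (`sph_eq` with `k = 1`) on
`univ`, which agree where `wsq z` is large, by `lift_rot`.
`lift_far`: `NearS2.comp (near_sph hn R)` and `sph_near`: `P x = ∀ u, sph n u = f x → R ≤ wsq u` holds
near the 2-sphere, so for `wsq z` large it holds at `x = sph n z`; take `u = F z`.
`lift_conj`: `F (G1 z)` and `G2 (F z)` are lifts of the same map; for `wsq z` large, `F (G1 z) = F (shf
1 z) = shf 1 (F z) = G2 (F z)` (`lift_rot`, `lift_far`).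
-/

set_option autoImplicit false

open scoped ContDiff Topology Manifold
open Set Filter Metric

namespace Pool.Agent.Rot5

open Pool.Agent.HopfCov Pool.Agent.HopfFin Pool.Agent.HopfCov.Smooth Pool.Agent.Rot4

/-- `f` commutes with all rotations near the fixed 2-sphere -/
def CommNear (f : Sph4 → Sph4) : Prop := NearS2 fun x => ∀ t : ℝ, f (rotA t x) = rotA t (f x)

private theorem continuous_shf_LiftRot : Continuous fun p : ℝ × E4 => shf p.1 p.2 := by
  unfold shf
  fun_prop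

private theorem shf_three_LiftRot (t : ℝ) (z : E4) : (shf t z) 3 = z 3 + t := by
  simp [shf]

private theorem exists_big_LiftRot (R : ℝ) : ∃ z : E4, R ≤ wsq z := by
  refine ⟨EuclideanSpace.single 0 (|R| + 1), ?_⟩
  unfold wsq
  simp
  nlinarith [le_abs_self R, abs_nonneg R]

private theorem sph_shf_n_LiftRot {n : ℕ} (hn : 0 < n) (z : E4) : sph n (shf n z) = sph n z := by
  refine ((sph_eq hn).2 ⟨1, ?_⟩).symm
  rw [Int.cast_one, mul_one]

theorem lift_rot {n : ℕ} (hn : 0 < n) {f : Sph4 ≃ₜ Sph4} {F : E4 ≃ₜ E4}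
    (hF : ∀ z, sph n (F z) = f (sph n z)) (hc : CommNear f) :
    ∃ R : ℝ, ∀ z, R ≤ wsq z → ∀ t : ℝ, F (shf t z) = shf t (F z) := by
  obtain ⟨R, -, hR⟩ := sph_near hn hc
  refine ⟨R, fun z hz t => ?_⟩
  have hline : Continuous fun t : ℝ => shf t z :=
    continuous_shf_LiftRot.comp (Continuous.prodMk_left z)
  have hS : IsPreconnected (Set.range fun t : ℝ => shf t z) := isPreconnected_range hline
  have hg : Continuous fun u : E4 => shf (u 3 - z 3) (F z) := by
    refine continuous_shf_LiftRot.comp (Continuous.prodMk ?_ continuous_const)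
    fun_prop
  have h1 := sph_lift_unique hn hS (f := F) (g := fun u : E4 => shf (u 3 - z 3) (F z))
    F.continuous.continuousOn hg.continuousOn ?_ (z₀ := z) ⟨0, shf_zero z⟩ ?_
    (shf t z) ⟨t, rfl⟩
  · rw [h1]
    show shf ((shf t z) 3 - z 3) (F z) = shf t (F z)
    rw [shf_three_LiftRot, add_sub_cancel_left]
  · rintro u ⟨s, rfl⟩
    show sph n (F (shf s z)) = sph n (shf ((shf s z) 3 - z 3) (F z))
    rw [shf_three_LiftRot, add_sub_cancel_left, hF, sph_shf hn, hR z hz, sph_shf hn, hF]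
  · show F z = shf (z 3 - z 3) (F z)
    rw [sub_self, shf_zero]

theorem lift_period {n : ℕ} (hn : 0 < n) {f : Sph4 ≃ₜ Sph4} {F : E4 ≃ₜ E4}
    (hF : ∀ z, sph n (F z) = f (sph n z)) (hc : CommNear f) (z : E4) :
    F (shf n z) = shf n (F z) := by
  obtain ⟨R, hR⟩ := lift_rot hn hF hc
  obtain ⟨z₀, hz₀⟩ := exists_big_LiftRot R
  have hs : Continuous fun z : E4 => shf n z :=
    continuous_shf_LiftRot.comp (Continuous.prodMk_right _)
  refine sph_lift_unique hn isPreconnected_univ (f := fun z => F (shf n z))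
    (g := fun z => shf n (F z)) (F.continuous.comp hs).continuousOn
    (hs.comp F.continuous).continuousOn (fun z _ => ?_) (mem_univ z₀) (hR z₀ hz₀ n) z (mem_univ z)
  rw [hF, sph_shf_n_LiftRot hn, sph_shf_n_LiftRot hn, hF]

theorem lift_far {n : ℕ} (hn : 0 < n) {f : Sph4 ≃ₜ Sph4} {F : E4 ≃ₜ E4}
    (hF : ∀ z, sph n (F z) = f (sph n z)) (hS : ∀ x, OnS2 (f x) ↔ OnS2 x) (R : ℝ) :
    ∃ R' : ℝ, ∀ z, R' ≤ wsq z → R ≤ wsq (F z) := by
  obtain ⟨R', -, hR'⟩ := sph_near hn ((near_sph hn R).comp hS)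
  exact ⟨R', fun z hz => hR' z hz (F z) (hF z)⟩

theorem lift_conj5 {n : ℕ} (hn : 0 < n) {f g1 g2 : Sph4 ≃ₜ Sph4} {F G1 G2 : E4 ≃ₜ E4}
    (hF : ∀ z, sph n (F z) = f (sph n z)) (hc : CommNear f) (hS : ∀ x, OnS2 (f x) ↔ OnS2 x)
    (h1 : ∀ z, sph n (G1 z) = g1 (sph n z)) (h1' : ∃ R : ℝ, ∀ z, R ≤ wsq z → G1 z = shf 1 z)
    (h2 : ∀ z, sph n (G2 z) = g2 (sph n z)) (h2' : ∃ R : ℝ, ∀ z, R ≤ wsq z → G2 z = shf 1 z)
    (hcj : ∀ x, f (g1 x) = g2 (f x)) (z : E4) : F (G1 z) = G2 (F z) := by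
  obtain ⟨R, hR⟩ := lift_rot hn hF hc
  obtain ⟨R1, hR1⟩ := h1'
  obtain ⟨R2, hR2⟩ := h2'
  obtain ⟨R3, hR3⟩ := lift_far hn hF hS R2
  obtain ⟨z₀, hz₀⟩ := exists_big_LiftRot (max R (max R1 R3))
  have a1 : R ≤ wsq z₀ := (le_max_left _ _).trans hz₀
  have a2 : R1 ≤ wsq z₀ := ((le_max_left _ _).trans (le_max_right _ _)).trans hz₀
  have a3 : R3 ≤ wsq z₀ := ((le_max_right _ _).trans (le_max_right _ _)).trans hz₀
  refine sph_lift_unique hn isPreconnected_univ (f := fun z => F (G1 z))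
    (g := fun z => G2 (F z)) (F.continuous.comp G1.continuous).continuousOn
    (G2.continuous.comp F.continuous).continuousOn (fun z _ => ?_) (mem_univ z₀) ?_ z (mem_univ z)
  · rw [hF, h1, hcj, h2, hF]
  · show F (G1 z₀) = G2 (F z₀)
    rw [hR1 z₀ a2, hR z₀ a1, hR2 _ (hR3 z₀ a3)]

/-- smoothness: `LDA.of_comp`, `LDA.of_comp_right`, `LDA.comp'`, `ld_sph`, `ldAt_iff` -/
theorem lift_reg {n : ℕ} (hn : 0 < n) {f : Sph4 ≃ₜ Sph4} {F : E4 ≃ₜ E4}
    (hF : ∀ z, sph n (F z) = f (sph n z)) (z : E4) :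
    LocalDiffeoAt f (sph n z) ↔ Reg F z := by
  have h1 : Reg F z ↔ LDA (F : E4 → E4) z := ldAt_iff.symm
  have h2 : (fun z => sph n (F z)) = fun z => f (sph n z) := funext hF
  rw [h1]
  constructor
  · intro h
    have h3 : LDA (Y := Sph4.carrier) (fun z => f (sph n z)) z :=
      LDA.comp' (Y := Sph4.carrier) (Z := Sph4.carrier) (f := sph n) (g := f) h (ld_sph hn z)
    rw [← h2] at h3
    exact LDA.of_comp (Y := E4) (Z := Sph4.carrier) (f := F) (g := sph n)
      F.continuous.continuousAt (ld_sph hn (F z)) h3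
  · intro h
    have h3 : LDA (Y := Sph4.carrier) (fun z => sph n (F z)) z :=
      LDA.comp' (Y := E4) (Z := Sph4.carrier) (f := F) (g := sph n) (ld_sph hn (F z)) h
    rw [h2] at h3
    exact LDA.of_comp_right (Y := Sph4.carrier) (Z := Sph4.carrier) (f := sph n) (g := f)
      (ld_sph hn z) h3

end Pool.Agent.Rot5
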