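import Pool.Agent.Rot5.Trans
import Pool.Agent.Rot5.LiftRot
import Pool.Agent.Rot4.Act
import Pool.Agent.Rot4.ActUp
import Pool.Agent.Rot4.BridgeTo

/-!
# The generators which belong to an action on the 4-sphere in normal form

`f` is the action on `ℝ⁴` (`Rot4/StatementRot.lean`), `G` the homeomorphism of `ℝ⁴` which lies
over `f` and agrees near the ray with `x ↦ x / 2` (`Rot4/Act.lean`), `G'` is `G` in the
coordinates `q1`, the lift of `g` to the universal covering `sph n` of the complement of the
2-sphere.
-/

set_option autoImplicit false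

open scoped ContDiff Topology Manifold
open Set Filter Metric

namespace Pool.Agent.Rot5

open Pool.Agent.HopfCov Pool.Agent.HopfFin Pool.Agent.HopfCov.Smooth Pool.Agent.Rot4

/-- the generators which belong to the action generated by `g` -/
structure Rep (n : ℕ) (g : Sph4 ≃ₜ Sph4) (f G H G' : E4 ≃ₜ E4) : Prop where
  act : Action n f
  pair : Pair n f G H
  down : ∀ y, g (sg y) = sg (f y)
  crd : ∀ x, Om x → G' (q1 x) = q1 (G x)
  lift : ∀ z, sph n (G' z) = g (sph n z)
  far : ∃ R : ℝ, ∀ z, R ≤ wsq z → G' z = shf 1 z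
  per : ∀ z, (G' ^ n : E4 ≃ₜ E4) z = shf n z

end Pool.Agent.Rot5
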