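import Pool.Agent.Rot5.Theta
import Pool.Agent.HopfFin.Norm

/-!
# Transfer of a normalisation along a homeomorphism which commutes with the shifts far away

PROOF. Let `R₀` be such that `G1 z = shf 1 z` for `R₀ ≤ wsq z`. Then `G1` preserves `{wsq z <
R₀}`: if `wsq z < R₀ ≤ wsq (G1 z)` then `u = shf (-1) (G1 z)` satisfies `G1 u = shf 1 u = G1 z`,
so `u = z`, a contradiction. Let `X, Γ` be as in `theta` for `R₀` and `T1 = X⁻¹ * T2 * F * Γ⁻¹`,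
so that `T1 (Γ z) = X⁻¹ (T2 (F z))`. `Γ (G1 z) = G1 (Γ z)`: if `wsq z < R₀`, both are `G1 z`;
otherwise `G1 z = shf 1 z`, `wsq (Γ z) = wsq z`. `T1 ((G1 ^ m) z) = shf m (T1 z)`: with `z = Γ u`:
`(G1 ^ m) (Γ u) = Γ ((G1 ^ m) u)`, `F ((G1 ^ m) u) = (G2 ^ m) (F u)`, `X` commutes with `shf 1`,
hence with `shf m`, so does `X⁻¹`. `T1 z = z` far away: `z = Γ u`, `wsq u = wsq z`, `T2 (F u) = F
u` (`hbig`) `= X (Γ u)`. `T1 (shf (m * n) z)`: `(G1 ^ m) ^ n = (G1 ^ n) ^ m` is `shf (n * m)`, and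
iterating `T1 (G1 ^ m z) = shf m (T1 z)` `n` times gives `T1 ((G1 ^ (m * n)) z) = shf (m * n) (T1
z)`. Regularity: compositions and inverses (`RG.comp`, `RG.inv` and `Reg f x = ∀ᶠ y in 𝓝 x, RG f
y`; see `Reg.comp'`, `Reg.inv'` or similar in `HopfFin/Basic.lean`): `Γ⁻¹` is regular everywhere,
and `X⁻¹` is regular at `X v` if `X` is at `v`, `v = T1 (Γ z)`, which holds if `F` is regular at
`dil n v`.
-/

set_option autoImplicit false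

open scoped ContDiff Topology
open Set Filter Metric

namespace Pool.Agent.Rot5

open Pool.Agent.HopfCov Pool.Agent.HopfFin Pool.Agent.HopfCov.Smooth Pool.Agent.Rot4

private theorem pow_comm_Transfer {A B C : E4 ≃ₜ E4} (h : ∀ z, C (A z) = B (C z)) (k : ℕ)
    (z : E4) : C ((A ^ k : E4 ≃ₜ E4) z) = (B ^ k : E4 ≃ₜ E4) (C z) := by
  induction k with
  | zero => rfl
  | succ k ih => rw [pow_succ', pow_succ', mul_apply', mul_apply', h, ih]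

private theorem pow_shf_Transfer {A C : E4 ≃ₜ E4} {c : ℝ} (h : ∀ z, C (A z) = shf c (C z))
    (k : ℕ) (z : E4) : C ((A ^ k : E4 ≃ₜ E4) z) = shf (k * c) (C z) := by
  induction k with
  | zero =>
    rw [pow_zero, Nat.cast_zero, zero_mul, shf_zero]
    rfl
  | succ k ih =>
    rw [pow_succ', mul_apply', h, ih, shf_shf]
    congr 1
    push_cast
    ring

private theorem shf_nat_Transfer {X : E4 ≃ₜ E4} (h : ∀ z, X (shf 1 z) = shf 1 (X z)) (k : ℕ)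
    (z : E4) : X (shf k z) = shf k (X z) := by
  induction k generalizing z with
  | zero => rw [Nat.cast_zero, shf_zero, shf_zero]
  | succ k ih =>
    have h1 : ((k + 1 : ℕ) : ℝ) = k + 1 := by push_cast; ring
    rw [h1, ← shf_shf, ← shf_shf, ih, h]

private theorem inv_shf_Transfer {X : E4 ≃ₜ E4} {c : ℝ} (h : ∀ z, X (shf c z) = shf c (X z))
    (z : E4) : (X⁻¹ : E4 ≃ₜ E4) (shf c z) = shf c ((X⁻¹ : E4 ≃ₜ E4) z) := by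
  apply X.injective
  rw [apply_inv_self', h, apply_inv_self']

theorem transfer {n m : ℕ} (hn : 0 < n) {F G1 G2 T2 : E4 ≃ₜ E4}
    (hper : ∀ z, F (shf n z) = shf n (F z))
    (hfar : ∃ R : ℝ, ∀ z, R ≤ wsq z → (∀ t : ℝ, F (shf t z) = shf t (F z)) ∧ Reg F z)
    (hbig : ∀ R : ℝ, ∃ R' : ℝ, ∀ z, R' ≤ wsq z → R ≤ wsq (F z))
    (h1 : ∃ R : ℝ, ∀ z, R ≤ wsq z → G1 z = shf 1 z)
    (h1n : ∀ z, (G1 ^ n : E4 ≃ₜ E4) z = shf n z) (hc : ∀ z, F (G1 z) = G2 (F z))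
    (hT : ∀ z, T2 ((G2 ^ m : E4 ≃ₜ E4) z) = shf m (T2 z))
    (hT' : ∃ R : ℝ, ∀ z, R ≤ wsq z → T2 z = z) :
    ∃ T1 Γ : E4 ≃ₜ E4, (∀ z, T1 ((G1 ^ m : E4 ≃ₜ E4) z) = shf m (T1 z)) ∧
      (∃ R : ℝ, ∀ z, R ≤ wsq z → T1 z = z) ∧
      (∀ z, T1 (shf ((m * n : ℕ) : ℝ) z) = shf ((m * n : ℕ) : ℝ) (T1 z)) ∧
      (∀ z, Γ (G1 z) = G1 (Γ z)) ∧
      ∀ z, Reg F z → Reg T2 (F z) → Reg F (dil n (T1 (Γ z))) → Reg T1 (Γ z) := by
  obtain ⟨R₀, hR₀⟩ := h1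
  obtain ⟨X, Γ, hX1, hXr, hΓr, hΓ0, hΓs, hΓw, R1, hR1⟩ := theta hn hper hfar R₀
  have hpres : ∀ z, wsq z < R₀ → wsq (G1 z) < R₀ := by
    intro z hz
    by_contra hcon
    rw [not_lt] at hcon
    have hu : G1 (shf (-1) (G1 z)) = G1 z := by
      rw [hR₀ _ (by rwa [wsq_shf]), shf_shf, add_neg_cancel, shf_zero]
    have hu2 := G1.injective hu
    rw [← hu2, wsq_shf] at hz
    exact absurd hcon (not_le.2 hz)
  have hΓG : ∀ z, Γ (G1 z) = G1 (Γ z) := by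
    intro z
    rcases lt_or_ge (wsq z) R₀ with hz | hz
    · rw [hΓ0 z hz.le, hΓ0 _ (hpres z hz).le]
    · rw [hR₀ z hz, hΓs, hR₀ (Γ z) (by rwa [hΓw])]
  obtain ⟨T1, hT1⟩ : ∃ T1 : E4 ≃ₜ E4, T1 = X⁻¹ * (T2 * (F * Γ⁻¹)) := ⟨_, rfl⟩
  have hT1x : ∀ z, T1 (Γ z) = (X⁻¹ : E4 ≃ₜ E4) (T2 (F z)) := by
    intro z
    rw [hT1, mul_apply', mul_apply', mul_apply', inv_apply_self']
  have hsurj : ∀ w, ∃ z, Γ z = w := fun w => ⟨(Γ⁻¹ : E4 ≃ₜ E4) w, apply_inv_self' Γ w⟩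
  have hG : ∀ w, T1 ((G1 ^ m : E4 ≃ₜ E4) w) = shf m (T1 w) := by
    intro w
    obtain ⟨u, rfl⟩ := hsurj w
    rw [← pow_comm_Transfer hΓG, hT1x, hT1x, pow_comm_Transfer hc, hT,
      inv_shf_Transfer (shf_nat_Transfer hX1 m)]
  refine ⟨T1, Γ, hG, ?_, ?_, hΓG, ?_⟩
  · obtain ⟨RT, hRT⟩ := hT'
    obtain ⟨R', hR'⟩ := hbig RT
    refine ⟨max R' R1, fun w hw => ?_⟩
    obtain ⟨u, rfl⟩ := hsurj w
    rw [hΓw] at hw
    rw [hT1x, hRT _ (hR' u ((le_max_left _ _).trans hw)),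
      hR1 u ((le_max_right _ _).trans hw), inv_apply_self']
  · intro z
    have e1 : ((G1 ^ m) ^ n : E4 ≃ₜ E4) = (G1 ^ n) ^ m := by
      rw [← pow_mul, ← pow_mul, Nat.mul_comm]
    have e2 : (((G1 ^ n) ^ m : E4 ≃ₜ E4)) z = shf ((m * n : ℕ) : ℝ) z := by
      have h2 := pow_shf_Transfer (A := (G1 ^ n : E4 ≃ₜ E4)) (C := 1) (c := n)
        (fun z => h1n z) m z
      rw [Nat.cast_mul]
      exact h2
    have e3 := pow_shf_Transfer (A := (G1 ^ m : E4 ≃ₜ E4)) (C := T1) (c := m) hG n z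
    rw [e1, e2] at e3
    rw [e3]
    congr 1
    push_cast
    ring
  · intro z hF hT2 hd
    have hv : X (T1 (Γ z)) = T2 (F z) := by rw [hT1x, apply_inv_self']
    have r1 : Reg (Γ⁻¹ : E4 ≃ₜ E4) (Γ z) :=
      Pool.Agent.HopfFin.Reg.symm (hΓr z)
    have r2 : Reg (F ∘ (Γ⁻¹ : E4 ≃ₜ E4)) (Γ z) :=
      Reg.comp (by rwa [inv_apply_self']) r1
    have r3 : Reg (T2 ∘ (F ∘ (Γ⁻¹ : E4 ≃ₜ E4))) (Γ z) := Reg.comp (by
      show Reg T2 (F ((Γ⁻¹ : E4 ≃ₜ E4) (Γ z)))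
      rwa [inv_apply_self']) r2
    have r4 : Reg (X⁻¹ : E4 ≃ₜ E4) (T2 (F z)) := by
      rw [← hv]
      exact Pool.Agent.HopfFin.Reg.symm (hXr _ hd)
    have r5 : Reg ((X⁻¹ : E4 ≃ₜ E4) ∘ (T2 ∘ (F ∘ (Γ⁻¹ : E4 ≃ₜ E4)))) (Γ z) := Reg.comp (by
      show Reg (X⁻¹ : E4 ≃ₜ E4) (T2 (F ((Γ⁻¹ : E4 ≃ₜ E4) (Γ z))))
      rwa [inv_apply_self']) r3
    rw [hT1]
    exact r5

end Pool.Agent.Rot5
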