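import Pool.Agent.Rot5.LiftAll
import Pool.Agent.Rot5.Transfer
import Pool.Agent.Rot5.Phi
import Pool.Agent.Rot5.RepDefs

/-!
# From a straightened equivalence to the generators

`apply_lift`: PROOF. `lift_all` gives `F`; `of_phi` for the generator `G2` and `T` gives the
coordinate form `T2` of `T`; `transfer` gives `T1`, `Γ`; `to_phi` gives `Φ` with `q1 (Φ x) = T1
(q1 x)`. (`hR1.pair.nnG`, `hR1.crd`, `hR1.far`, `hR1.per`.) Regularity of `Φ` at `x`, `Om x`: let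
`z = Γ⁻¹ (q1 x)`; `Reg T1 (q1 x)` if `Reg F z`, `Reg T2 (F z)`, `Reg F (dil n (T1 (q1 x)))`; `Reg
F z` iff `LocalDiffeoAt f (sph n z)`; `F z = q1 (b1 (F z))`, so `Reg T2 (F z)` if `Reg T (b1 (F
z))`. The map `A = q1 ↦ ..` of the statement: `Λ x = b1 (F (Γ⁻¹ (q1 x)))`, `Γ₀ x = Γ⁻¹ (q1 x)`;
`F`, `Γ⁻¹` conjugate the generators: `Γ₀ ((G1 ^ k) x) = (G1' ^ k) (Γ₀ x)` (`crd_zpow`) and `Λ ((G1
^ k) x) = (G2 ^ k) (Λ x)` for `Om x`.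
-/

set_option autoImplicit false

open scoped ContDiff Topology Manifold
open Set Filter Metric

namespace Pool.Agent.Rot5

open Pool.Agent.HopfCov Pool.Agent.HopfFin Pool.Agent.HopfCov.Smooth Pool.Agent.Rot4

private theorem Apply_conj {Φ A B : E4 ≃ₜ E4} (h : ∀ z, Φ (A z) = B (Φ z)) (k : ℤ) (z : E4) :
    Φ ((A ^ k : E4 ≃ₜ E4) z) = (B ^ k : E4 ≃ₜ E4) (Φ z) := by
  have h1 : SemiconjBy Φ A B := Homeomorph.ext h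
  exact congrArg (fun e : E4 ≃ₜ E4 => e z) (h1.zpow_right k)

theorem apply_lift {n m : ℕ} (hn : 0 < n) (hm : 0 < m) {f g1 g2 : Sph4 ≃ₜ Sph4}
    {f1 G1 H1 G1' f2 G2 H2 G2' T : E4 ≃ₜ E4} (hR1 : Rep n g1 f1 G1 H1 G1')
    (hR2 : Rep n g2 f2 G2 H2 G2') (hc : CommNear f) (hS : ∀ x, OnS2 (f x) ↔ OnS2 x)
    (hld : ∀ x, OnS2 x → LocalDiffeoAt f x) (hcj : ∀ x, f (g1 x) = g2 (f x))
    (hT : Nn (m * n) 0 T) (hTc : T * G2 ^ m = tau ^ m * T) :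
    ∃ (Φ : E4 ≃ₜ E4) (Λ Γ : E4 → E4), Nn (m * n) 0 Φ ∧ Φ * G1 ^ m = tau ^ m * Φ ∧
      (∀ x, Om x → Om (Λ x)) ∧ (∀ y, Om y → ∃ x, Om x ∧ Λ x = y) ∧
      (∀ x y, Om x → Om y → Λ x = Λ y → x = y) ∧
      (∀ (k : ℤ) (x : E4), Om x → Λ ((G1 ^ k : E4 ≃ₜ E4) x) = (G2 ^ k : E4 ≃ₜ E4) (Λ x)) ∧
      (∀ z, ∃ x, Om x ∧ Γ x = z) ∧ (∀ x y, Om x → Om y → Γ x = Γ y → x = y) ∧
      (∀ (k : ℤ) (x : E4), Om x → Γ ((G1 ^ k : E4 ≃ₜ E4) x) = (G1' ^ k : E4 ≃ₜ E4) (Γ x)) ∧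
      (∀ x, Om x → LocalDiffeoAt f (sph n (Γ x)) → Reg T (Λ x) →
        LocalDiffeoAt f (sph n (dil n (q1 (Φ x)))) → Reg Φ x) ∧
      ∀ x, x ≠ 0 → ¬ Om x → Reg Φ x := by
  obtain ⟨F, -, hper, hfar, hbig, hconj, hreg⟩ :=
    lift_all hn hc hS hld hcj hR1.lift hR1.far hR2.lift hR2.far
  obtain ⟨T2, hT2, hT2', -, hT2r⟩ := of_phi hR2.pair.nnG hR2.crd hT hTc
  obtain ⟨T1, Γ, h1, h2, h3, h4, h5⟩ :=
    transfer hn hper hfar hbig hR1.far hR1.per hconj hT2 hT2'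
  obtain ⟨Φ, hΦ, hΦc, hΦq, hΦr, hΦoff⟩ := to_phi hn hm hR1.pair.nnG hR1.crd h1 h2 h3
  have hΓ : ∀ z, Γ.symm (G1' z) = G1' (Γ.symm z) := by
    intro z
    rw [Homeomorph.symm_apply_eq, h4, Homeomorph.apply_symm_apply]
  have hΓ0 : ∀ (k : ℤ) (x : E4), Om x → Γ.symm (q1 ((G1 ^ k : E4 ≃ₜ E4) x)) =
      (G1' ^ k : E4 ≃ₜ E4) (Γ.symm (q1 x)) := by
    intro k x hx
    rw [← (crd_zpow hR1.pair.nnG hR1.crd k hx).2]
    exact Apply_conj hΓ k (q1 x)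
  refine ⟨Φ, fun x => b1 (F (Γ.symm (q1 x))), fun x => Γ.symm (q1 x), hΦ, hΦc, ?_, ?_, ?_, ?_,
    ?_, ?_, hΓ0, ?_, hΦoff⟩
  · intro x _
    exact Om_b1 _
  · intro y hy
    refine ⟨b1 (Γ (F.symm (q1 y))), Om_b1 _, ?_⟩
    show b1 (F (Γ.symm (q1 (b1 (Γ (F.symm (q1 y))))))) = y
    rw [q1_b1, Homeomorph.symm_apply_apply, Homeomorph.apply_symm_apply, b1_q1 hy]
  · intro x y hx hy hxy
    have h6 : q1 (b1 (F (Γ.symm (q1 x)))) = q1 (b1 (F (Γ.symm (q1 y)))) := congrArg q1 hxy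
    rw [q1_b1, q1_b1] at h6
    have h7 := congrArg b1 (Γ.symm.injective (F.injective h6))
    rwa [b1_q1 hx, b1_q1 hy] at h7
  · intro k x hx
    show b1 (F (Γ.symm (q1 ((G1 ^ k : E4 ≃ₜ E4) x)))) = _
    rw [hΓ0 k x hx, Apply_conj hconj k]
    have h6 := crd_zpow hR2.pair.nnG hR2.crd k (Om_b1 (F (Γ.symm (q1 x))))
    rw [q1_b1] at h6
    rw [h6.2, b1_q1 h6.1]
  · intro z
    refine ⟨b1 (Γ z), Om_b1 _, ?_⟩
    show Γ.symm (q1 (b1 (Γ z))) = z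
    rw [q1_b1, Homeomorph.symm_apply_apply]
  · intro x y hx hy hxy
    have h7 := congrArg b1 (Γ.symm.injective hxy)
    rwa [b1_q1 hx, b1_q1 hy] at h7
  · intro x hx hf hTr hf'
    apply hΦr x hx
    have h6 : Γ (Γ.symm (q1 x)) = q1 x := Homeomorph.apply_symm_apply _ _
    have h7 : Reg T2 (F (Γ.symm (q1 x))) := by
      have h8 := hT2r _ (Om_b1 (F (Γ.symm (q1 x)))) hTr
      rwa [q1_b1] at h8
    have h8 := h5 (Γ.symm (q1 x)) ((hreg _).1 hf) h7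
    rw [h6, ← hΦq x hx] at h8
    exact h8 ((hreg _).1 hf')

end Pool.Agent.Rot5
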