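import Pool.Agent.Rot5.Basic

/-!
# Smoothness of the rotations and of the reflection; diffeomorphisms of the 4-sphere

PROOFS. `rotA t` and `refS` are restrictions of linear maps of `ℝ⁵`: `ContMDiff.codRestrict_sphere`
and `contMDiff_coe_sphere` (Mathlib, `Geometry/Manifold/Instances/Sphere.lean`) give `ContMDiff`, the
same for the inverse, so both are `Diffeomorph`s and `Diffeomorph.isLocalDiffeomorph` applies
(`LocalDiffeoAt` is `IsLocalDiffeomorphAt (𝓡 4) (𝓡 4) ∞`). `homeo_of_isDiffeo`: a bijective local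
diffeomorphism is an open continuous bijection (`Equiv.ofBijective`, `toHomeomorph...`, see `toDiffeo`
or `IsLocalDiffeomorph.diffeomorphOfBijective`).
-/

set_option autoImplicit false

open scoped ContDiff Topology Manifold
open Set Filter Metric

namespace Pool.Agent.Rot5

open Pool.Agent.HopfCov Pool.Agent.HopfFin Pool.Agent.HopfCov.Smooth Pool.Agent.Rot4

private theorem BasicLD_contDiff_rotE (t : ℝ) : ContDiff ℝ ∞ (rotE t) := by
  rw [contDiff_euclidean]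
  intro i
  fin_cases i <;> simp [rotE] <;> fun_prop

private theorem BasicLD_contDiff_refE : ContDiff ℝ ∞ refE := by
  rw [contDiff_euclidean]
  intro i
  fin_cases i <;> simp [refE] <;> fun_prop

private theorem BasicLD_fact : Fact (Module.finrank ℝ E5 = 4 + 1) :=
  Fact.mk (@finrank_euclideanSpace_fin ℝ _ (4 + 1))

attribute [local instance] BasicLD_fact

private theorem BasicLD_smooth {F : E5 → E5} (hF : ContDiff ℝ ∞ F)
    (f : sphere (0 : E5) 1 → sphere (0 : E5) 1) (hf : ∀ x, ((f x : E5)) = F (x : E5)) :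
    ContMDiff (𝓡 4) (𝓡 4) ∞ f := by
  have h1 : ∀ x : sphere (0 : E5) 1, F (x : E5) ∈ sphere (0 : E5) 1 := fun x => by
    rw [← hf x]
    exact (f x).2
  have h2 : ContMDiff (𝓡 4) 𝓘(ℝ, E5) ∞ fun x : sphere (0 : E5) 1 => F (x : E5) :=
    hF.contMDiff.comp contMDiff_coe_sphere
  have h3 : f = Set.codRestrict (fun x : sphere (0 : E5) 1 => F (x : E5)) (sphere (0 : E5) 1) h1 :=
    funext fun x => Subtype.ext (hf x)
  rw [h3]
  exact h2.codRestrict_sphere h1

private theorem BasicLD_gen {F G : E5 → E5} (hF : ContDiff ℝ ∞ F) (hG : ContDiff ℝ ∞ G)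
    (f g : sphere (0 : E5) 1 → sphere (0 : E5) 1) (hf : ∀ x, ((f x : E5)) = F (x : E5))
    (hg : ∀ x, ((g x : E5)) = G (x : E5)) (h1 : ∀ x, g (f x) = x) (h2 : ∀ x, f (g x) = x) :
    IsLocalDiffeomorph (𝓡 4) (𝓡 4) ∞ f := by
  let Φ : Diffeomorph (𝓡 4) (𝓡 4) (sphere (0 : E5) 1) (sphere (0 : E5) 1) ∞ :=
    ⟨⟨f, g, h1, h2⟩, BasicLD_smooth hF f hf, BasicLD_smooth hG g hg⟩
  exact Φ.isLocalDiffeomorph

private theorem BasicLD_inv (t : ℝ) (y : Sph4) : rotA (-t) (rotA t y) = y := by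
  rw [rotA_rotA, neg_add_cancel, rotA_zero]

theorem ld_rotA (t : ℝ) (x : Sph4) : LocalDiffeoAt (rotA t) x :=
  BasicLD_gen (BasicLD_contDiff_rotE t) (BasicLD_contDiff_rotE (-t)) (rotA t) (rotA (-t))
    (fun _ => rfl) (fun _ => rfl)
    (BasicLD_inv t) (fun y => by
      have h := BasicLD_inv (-t) y
      rwa [neg_neg] at h) x

theorem ld_refS (x : Sph4) : LocalDiffeoAt refS x :=
  BasicLD_gen BasicLD_contDiff_refE BasicLD_contDiff_refE refS refS (fun _ => rfl) (fun _ => rfl)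
    refS_refS refS_refS x

theorem isDiffeo_of_homeo {f : Sph4 ≃ₜ Sph4} (h : ∀ x, LocalDiffeoAt f x) :
    IsDiffeo (M := Sph4) (N := Sph4) f :=
  ⟨f.bijective, h⟩

theorem homeo_of_isDiffeo {φ : Sph4 → Sph4} (h : IsDiffeo φ) :
    ∃ f : Sph4 ≃ₜ Sph4, (∀ x, f x = φ x) ∧ ∀ x, LocalDiffeoAt f x :=
  ⟨toHomeo h, fun _ => rfl, h.2⟩

/-- compositions and inverses -/
theorem ld_mul {f g : Sph4 ≃ₜ Sph4} {x : Sph4} (hf : LocalDiffeoAt f (g x))
    (hg : LocalDiffeoAt g x) : LocalDiffeoAt (f * g : Sph4 ≃ₜ Sph4) x :=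
  IsLocalDiffeomorphAt.comp (𝓡 4) Sph4 (f := g) (g := f) (x := x) hg hf

theorem ld_inv {f : Sph4 ≃ₜ Sph4} {x : Sph4} (hf : LocalDiffeoAt f x) :
    LocalDiffeoAt (f⁻¹ : Sph4 ≃ₜ Sph4) (f x) := by
  obtain ⟨Φ, hx, hE⟩ := hf
  refine ⟨Φ.symm, ?_, ?_⟩
  · rw [hE hx]
    exact Φ.map_source hx
  · intro y hy
    have h1 : Φ.symm y ∈ Φ.source := Φ.symm.map_source hy
    have h2 : f (Φ.symm y) = y := by
      rw [hE h1]
      exact Φ.right_inv hy
    show f.symm y = Φ.symm y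
    rw [Homeomorph.symm_apply_eq]
    exact h2.symm

theorem ld_one (x : Sph4) : LocalDiffeoAt (1 : Sph4 ≃ₜ Sph4) x :=
  (Diffeomorph.refl (𝓡 4) Sph4 ∞).isLocalDiffeomorph x

theorem ld_congr {f g : Sph4 → Sph4} {x : Sph4} (hf : LocalDiffeoAt f x) (h : f =ᶠ[𝓝 x] g) :
    LocalDiffeoAt g x := by
  obtain ⟨Φ, hx, hE⟩ := hf
  obtain ⟨U, hU, hUo, hxU⟩ := eventually_nhds_iff.1 h
  let Ψ : PartialDiffeomorph (𝓡 4) (𝓡 4) Sph4 Sph4 ∞ :=
    { toPartialEquiv := (Φ.toOpenPartialHomeomorph.restrOpen U hUo).toPartialEquiv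
      open_source := (Φ.toOpenPartialHomeomorph.restrOpen U hUo).open_source
      open_target := (Φ.toOpenPartialHomeomorph.restrOpen U hUo).open_target
      contMDiffOn_toFun := Φ.contMDiffOn_toFun.mono inter_subset_left
      contMDiffOn_invFun := Φ.contMDiffOn_invFun.mono inter_subset_left }
  refine ⟨Ψ, ⟨hx, hxU⟩, ?_⟩
  rintro y ⟨hy1, hy2⟩
  exact (hU y hy2).symm.trans (hE hy1)

end Pool.Agent.Rot5
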