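import Pool.Agent.Rot5.Cone
import Pool.Agent.Rot5.BasicLD
import Pool.Agent.HopfRem.Loc

/-!
# Local diffeomorphisms of the 4-sphere and of `ℝ⁵`

PROOFS. `reg_cone`: `f` agrees near `x` with a partial diffeomorphism `Φ` of the sphere. For `y`
near `vec x`: `cone f y = ‖y‖ • vec (Φ (unit y))` is smooth at `y`: `unit` is smooth at `y ≠ 0` as
a map to the sphere (`ContMDiff.codRestrict_sphere` on the open set `y ≠ 0`, or `ContMDiffAt` for
the chart), `Φ` is smooth, `vec` is smooth (`contMDiff_coe_sphere`), `‖·‖` is smooth off `0`;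
`ContMDiffAt` for maps of vector spaces is `ContDiffAt` (`contMDiffAt_iff_contDiffAt`). The same
holds for `cone Φ.symm` near `vec (f x)`, and `cone Φ.symm (cone f y) = y` for `y` near `vec x`
(`unit_cone`, `smul_vec_unit`), so the derivative of `cone f` at `y` is invertible (chain rule; as
in the proof of `ldAt_iff` in `HopfRem/ParRG.lean`).
`ld_of_reg`: `c₀ = ‖F (vec x)‖⁻¹`, `p = c₀ • vec x`, so `F p = vec (f1 x)` is a unit vector. `F`
is a local diffeomorphism near `p` (`rg_hom`-like scaling: `F = (c₀ • ·) ∘ F ∘ (c₀⁻¹ • ·)`); by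
the inverse function theorem (`RG.exists_local_inv`, or `ldAt_iff`'s proof:
`ContDiffAt.toOpenPartialHomeomorph`) there is a local inverse `G` of `F` near `F p`, smooth at
all points near `F p`. For `y ∈ S⁴` near `f1 x` put `g y = unit (G (vec y))`. Then `g` is smooth
near `f1 x`, `f1 (g y) = unit (F (G (vec y))) = y` (homogeneity), and for `z` near `x`: `f1 z =
unit (F (vec z))`, `vec (f1 z) = F (‖F (vec z)‖⁻¹ • vec z)` and `‖F (vec z)‖⁻¹ • vec z` is near
`p`, so `G (vec (f1 z)) = ‖F (vec z)‖⁻¹ • vec z`, `g (f1 z) = z`. Construct the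
`PartialDiffeomorph` (source: an open set `U` around `x` on which `f1` is smooth, with `f1 U` in
the open domain `W` of `g` and `g (f1 z) = z`; take the source `U ∩ f1⁻¹ (W')` with `W' = {y ∈ W |
g y ∈ U, f1 (g y) = y}`).
-/

set_option autoImplicit false

open scoped ContDiff Topology Manifold
open Set Filter Metric

namespace Pool.Agent.Rot5

open Pool.Agent.HopfCov Pool.Agent.HopfFin Pool.Agent.HopfCov.Smooth Pool.Agent.Rot4

private theorem ConeLD_fact : Fact (Module.finrank ℝ E5 = 4 + 1) :=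
  Fact.mk (@finrank_euclideanSpace_fin ℝ _ (4 + 1))

attribute [local instance] ConeLD_fact

private theorem ConeLD_rg {f g : E5 → E5} {x : E5} (hf : ContDiffAt ℝ ∞ f x)
    (hg : ContDiffAt ℝ ∞ g (f x)) (h : ∀ᶠ y in 𝓝 x, g (f y) = y) : RG f x := by
  refine ⟨hf, fun h0 => ?_⟩
  have hcomp : HasFDerivAt (fun z => g (f z)) ((fderiv ℝ g (f x)).comp (fderiv ℝ f x)) x :=
    ((hg.differentiableAt (by simp)).hasFDerivAt).comp x
      (hf.differentiableAt (by simp)).hasFDerivAt
  have hid : (fun z => g (f z)) =ᶠ[𝓝 x] fun z => z := h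
  have hcomp' := hcomp.fderiv
  rw [hid.fderiv_eq] at hcomp'
  have hdd : (1 : ℝ) = (fderiv ℝ g (f x)).det * (fderiv ℝ f x).det := by
    rw [← det_comp_clm, ← hcomp', fderiv_fun_id]
    simp [ContinuousLinearMap.det]
  rw [h0, mul_zero] at hdd
  exact one_ne_zero hdd

private theorem ConeLD_rg_smul {c : ℝ} (hc : 0 < c) (x : E5) : RG (fun y : E5 => c • y) x := by
  refine ConeLD_rg (g := fun y : E5 => c⁻¹ • y) (by fun_prop) (by fun_prop)
    (Eventually.of_forall fun y => ?_)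
  rw [smul_smul, inv_mul_cancel₀ hc.ne', one_smul]

private theorem ConeLD_rg_hom {F : E5 → E5} (hF : ∀ c : ℝ, 0 < c → ∀ x, F (c • x) = c • F x)
    {c : ℝ} (hc : 0 < c) {x : E5} (h : RG F x) : RG F (c • x) := by
  have h1 : RG F (c⁻¹ • (c • x)) := by
    rwa [smul_smul, inv_mul_cancel₀ hc.ne', one_smul]
  have h2 : RG (fun y => F (c⁻¹ • y)) (c • x) :=
    RG.comp (g := F) (f := fun y : E5 => c⁻¹ • y) h1 (ConeLD_rg_smul (inv_pos.2 hc) _)
  have h3 : RG (fun y => c • F (c⁻¹ • y)) (c • x) :=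
    RG.comp (g := fun y : E5 => c • y) (f := fun y => F (c⁻¹ • y)) (ConeLD_rg_smul hc _) h2
  refine h3.congr (Eventually.of_forall fun y => ?_)
  simp only
  rw [← hF c hc, smul_smul, mul_inv_cancel₀ hc.ne', one_smul]

private theorem ConeLD_reg_hom {F : E5 → E5} (hF : ∀ c : ℝ, 0 < c → ∀ x, F (c • x) = c • F x)
    {c : ℝ} (hc : 0 < c) {x : E5} (h : Reg5 F x) : Reg5 F (c • x) := by
  have hcont : ContinuousAt (fun y : E5 => c⁻¹ • y) (c • x) := by fun_prop
  have h1 : ∀ᶠ y in 𝓝 (c⁻¹ • (c • x)), RG F y := by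
    rwa [smul_smul, inv_mul_cancel₀ hc.ne', one_smul]
  filter_upwards [hcont.eventually h1] with y hy
  have h2 := ConeLD_rg_hom hF hc hy
  rwa [smul_smul, mul_inv_cancel₀ hc.ne', one_smul] at h2

private theorem ConeLD_unit {y : E5} (hy : y ≠ 0) :
    ContMDiffAt 𝓘(ℝ, E5) (𝓡 4) ∞ (fun z => (unit z : sphere (0 : E5) 1)) y := by
  let U : TopologicalSpace.Opens E5 := ⟨{z | z ≠ 0}, isOpen_ne⟩
  have h1 : ContMDiff 𝓘(ℝ, E5) 𝓘(ℝ, E5) ∞ (fun z : U => ‖(z : E5)‖⁻¹ • (z : E5)) := by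
    intro z
    have h2 : ContDiffAt ℝ ∞ (fun w : E5 => ‖w‖⁻¹ • w) (z : E5) := by
      have hz : (z : E5) ≠ 0 := z.2
      exact ((contDiffAt_norm ℝ hz).inv (norm_ne_zero_iff.2 hz)).smul contDiffAt_id
    exact contMDiffAt_subtype_iff.2 h2.contMDiffAt
  have h3 : ∀ z : U, ‖(z : E5)‖⁻¹ • (z : E5) ∈ sphere (0 : E5) 1 := by
    intro z
    rw [mem_sphere_zero_iff_norm, norm_smul, norm_inv, norm_norm,
      inv_mul_cancel₀ (norm_ne_zero_iff.2 z.2)]
  have h4 := ContMDiff.codRestrict_sphere (n := 4) h1 h3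
  have h5 : (Set.codRestrict (fun z : U => ‖(z : E5)‖⁻¹ • (z : E5)) (sphere (0 : E5) 1) h3) =
      fun z : U => (unit (z : E5) : sphere (0 : E5) 1) := by
    funext z
    apply Subtype.ext
    have h6 := vec_unit (x := (z : E5)) z.2
    exact h6.symm
  rw [h5] at h4
  exact contMDiffAt_subtype_iff.1 (h4 ⟨y, hy⟩)

private theorem ConeLD_cone {g : Sph4 → Sph4} {y : E5} (hy : y ≠ 0)
    (hg : ContMDiffAt (𝓡 4) (𝓡 4) ∞ (g : sphere (0 : E5) 1 → sphere (0 : E5) 1)
      (unit y : sphere (0 : E5) 1)) : ContDiffAt ℝ ∞ (cone g) y := by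
  have h1 : ContMDiffAt 𝓘(ℝ, E5) (𝓡 4) ∞ (fun z => (g (unit z) : sphere (0 : E5) 1)) y :=
    hg.comp y (ConeLD_unit hy)
  have h0 : ContMDiffAt (𝓡 4) 𝓘(ℝ, E5) ∞ (fun z : sphere (0 : E5) 1 => (z : E5))
      (g (unit y) : sphere (0 : E5) 1) := contMDiff_coe_sphere.contMDiffAt
  have h2 : ContMDiffAt 𝓘(ℝ, E5) 𝓘(ℝ, E5) ∞ (fun z => vec (g (unit z))) y := h0.comp y h1
  have h3 : ContDiffAt ℝ ∞ (fun z => vec (g (unit z))) y := contMDiffAt_iff_contDiffAt.1 h2
  exact (contDiffAt_norm ℝ hy).smul h3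

theorem reg_cone {f : Sph4 → Sph4} {x : Sph4} (h : LocalDiffeoAt f x) :
    Reg5 (cone f) (vec x) := by
  obtain ⟨Φ, hx, hE⟩ := h
  have hmem : ∀ᶠ y in 𝓝 (vec x), y ≠ 0 ∧ unit y ∈ Φ.source := by
    have h1 : unit (vec x) ∈ Φ.source := by rwa [unit_vec]
    exact (isOpen_ne.eventually_mem (vec_ne x)).and
      ((continuousAt_unit (vec_ne x)).eventually (Φ.open_source.eventually_mem h1))
  filter_upwards [hmem] with y hy
  obtain ⟨hy0, hys⟩ := hy
  have hnear : ∀ᶠ z in 𝓝 y, z ≠ 0 ∧ unit z ∈ Φ.source :=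
    (isOpen_ne.eventually_mem hy0).and
      ((continuousAt_unit hy0).eventually (Φ.open_source.eventually_mem hys))
  have h1 : RG (cone Φ) y := by
    refine ConeLD_rg (g := cone Φ.symm) ?_ ?_ ?_
    · exact ConeLD_cone hy0 (Φ.contMDiffOn_toFun.contMDiffAt (Φ.open_source.mem_nhds hys))
    · refine ConeLD_cone (cone_ne hy0) ?_
      rw [unit_cone _ hy0]
      exact Φ.contMDiffOn_invFun.contMDiffAt (Φ.open_target.mem_nhds (Φ.map_source hys))
    · filter_upwards [hnear] with z hz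
      have h2 : Φ.symm (Φ (unit z)) = unit z := Φ.left_inv hz.2
      show ‖cone Φ z‖ • vec (Φ.symm (unit (cone Φ z))) = z
      rw [norm_cone, unit_cone _ hz.1, h2, smul_vec_unit]
  refine h1.congr ?_
  filter_upwards [hnear] with z hz
  show ‖z‖ • vec (Φ (unit z)) = ‖z‖ • vec (f (unit z))
  rw [hE hz.2]

theorem ld_of_reg {F : E5 → E5} (hF : ∀ c : ℝ, 0 < c → ∀ x, F (c • x) = c • F x)
    {f1 : Sph4 → Sph4} {x : Sph4} (h : Reg5 F (vec x)) (h0 : F (vec x) ≠ 0)
    (hf : ∀ᶠ y in 𝓝 x, f1 y = unit (F (vec y))) : LocalDiffeoAt f1 x := by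
  have hF0 : F 0 = 0 := by
    have h1 := hF 2 two_pos 0
    rw [smul_zero, two_smul] at h1
    exact left_eq_add.1 h1
  set U : Set E5 := {y | Reg5 F y} with hU
  have hUo : IsOpen U := by
    rw [isOpen_iff_eventually]
    intro y hy
    exact eventually_eventually_nhds.2 hy
  have hUr : ∀ y ∈ U, RG F y := fun y hy => hy.self_of_nhds
  have hd : ∀ y, RG F y → ∃ A : E5 ≃L[ℝ] E5, HasFDerivAt F (A : E5 →L[ℝ] E5) y := by
    intro y hy
    refine ⟨(fderiv ℝ F y).toContinuousLinearEquivOfDetNeZero hy.2, ?_⟩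
    rw [ContinuousLinearMap.coe_toContinuousLinearEquivOfDetNeZero]
    exact (hy.1.differentiableAt (by simp)).hasFDerivAt
  have hc0 : 0 < ‖F (vec x)‖⁻¹ := inv_pos.2 (norm_pos_iff.2 h0)
  set p : E5 := ‖F (vec x)‖⁻¹ • vec x with hp
  have hpU : p ∈ U := ConeLD_reg_hom hF hc0 h
  obtain ⟨A, hA⟩ := hd p (hUr p hpU)
  set P := (hUr p hpU).1.toOpenPartialHomeomorph F hA (by simp) with hP
  have hPf : ∀ y, P y = F y := fun y => by
    rw [hP, ContDiffAt.toOpenPartialHomeomorph_coe]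
  have hpP : p ∈ P.source := ContDiffAt.mem_toOpenPartialHomeomorph_source _ hA (by simp)
  set R := P.restrOpen U hUo with hR
  have hRs : R.source = P.source ∩ U := rfl
  have hRf : ∀ y, R y = F y := hPf
  have hsymm : ∀ z ∈ R.target, ContDiffAt ℝ ∞ R.symm z := by
    intro z hz
    have hy : R.symm z ∈ R.source := R.map_target hz
    obtain ⟨A', hA'⟩ := hd _ (hUr _ hy.2)
    refine R.contDiffAt_symm hz (f₀' := A') ?_ ?_
    · exact hA'.congr_of_eventuallyEq (Eventually.of_forall hRf)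
    · exact (hUr _ hy.2).1.congr_of_eventuallyEq (Eventually.of_forall hRf)
  have hFs : ∀ z ∈ R.target, F (R.symm z) = z := by
    intro z hz
    rw [← hRf]
    exact R.right_inv hz
  -- facts about the source
  set S : Set Sph4 := {z | F (vec z) ≠ 0 ∧ ‖F (vec z)‖⁻¹ • vec z ∈ R.source} with hS
  have hSU : ∀ z ∈ S, vec z ∈ U := by
    intro z hz
    have h1 : ‖F (vec z)‖⁻¹ • vec z ∈ U := hz.2.2
    have h2 := ConeLD_reg_hom hF (norm_pos_iff.2 hz.1) h1
    rwa [smul_smul, mul_inv_cancel₀ (norm_ne_zero_iff.2 hz.1), one_smul] at h2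
  have hcv : Continuous vec := continuous_subtype_val
  have hSo : IsOpen S := by
    rw [isOpen_iff_eventually]
    intro z hz
    have h1 : ContinuousAt (fun w : Sph4 => F (vec w)) z :=
      ContinuousAt.comp (g := F) (f := vec) (hUr _ (hSU z hz)).continuousAt hcv.continuousAt
    have h2 : ContinuousAt (fun w : Sph4 => ‖F (vec w)‖⁻¹ • vec w) z :=
      (h1.norm.inv₀ (norm_ne_zero_iff.2 hz.1)).smul hcv.continuousAt
    exact (h1.eventually (isOpen_ne.eventually_mem hz.1)).and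
      (h2.eventually (R.open_source.eventually_mem hz.2))
  have hvf : ∀ z ∈ S, vec (unit (F (vec z))) = F (‖F (vec z)‖⁻¹ • vec z) := by
    intro z hz
    rw [vec_unit hz.1, hF _ (inv_pos.2 (norm_pos_iff.2 hz.1))]
  have hw0 : ∀ y : Sph4, vec y ∈ R.target → R.symm (vec y) ≠ 0 := by
    intro y hy h1
    have h2 := hFs _ hy
    rw [h1, hF0] at h2
    exact vec_ne y h2.symm
  have hvu : ∀ y : Sph4, vec y ∈ R.target →
      F (vec (unit (R.symm (vec y)))) = ‖R.symm (vec y)‖⁻¹ • vec y := by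
    intro y hy
    rw [vec_unit (hw0 y hy), hF _ (inv_pos.2 (norm_pos_iff.2 (hw0 y hy))), hFs _ hy]
  let Ψ : PartialDiffeomorph (𝓡 4) (𝓡 4) (sphere (0 : E5) 1) (sphere (0 : E5) 1) ∞ :=
    { toFun := fun z => unit (F (vec z))
      invFun := fun y => unit (R.symm (vec y))
      source := S
      target := vec ⁻¹' R.target
      map_source' := by
        intro z hz
        show vec (unit (F (vec z))) ∈ R.target
        rw [hvf z hz, ← hRf]
        exact R.map_source hz.2
      map_target' := by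
        intro y hy
        have h1 := hvu y hy
        have h2 := hw0 y hy
        have h3 : ‖F (vec (unit (R.symm (vec y))))‖ = ‖R.symm (vec y)‖⁻¹ := by
          rw [h1, norm_smul, norm_inv, norm_norm, norm_vec, mul_one]
        refine ⟨?_, ?_⟩
        · rw [h1]
          exact smul_ne_zero (inv_ne_zero (norm_ne_zero_iff.2 h2)) (vec_ne y)
        · rw [h3, inv_inv, smul_vec_unit]
          exact R.map_target hy
      left_inv' := by
        intro z hz
        show unit (R.symm (vec (unit (F (vec z))))) = z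
        rw [hvf z hz, ← hRf, R.left_inv hz.2, unit_smul (inv_pos.2 (norm_pos_iff.2 hz.1)), unit_vec]
      right_inv' := by
        intro y hy
        show unit (F (vec (unit (R.symm (vec y))))) = y
        rw [hvu y hy, unit_smul (inv_pos.2 (norm_pos_iff.2 (hw0 y hy))), unit_vec]
      open_source := hSo
      open_target := R.open_target.preimage hcv
      contMDiffOn_toFun := by
        intro z hz
        refine ContMDiffAt.contMDiffWithinAt ?_
        have h1 : ContMDiffAt (𝓡 4) 𝓘(ℝ, E5) ∞ (fun w : sphere (0 : E5) 1 => F (w : E5)) z :=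
          ((hUr _ (hSU z hz)).1.contMDiffAt).comp z contMDiff_coe_sphere.contMDiffAt
        exact (ConeLD_unit hz.1).comp z h1
      contMDiffOn_invFun := by
        intro y hy
        refine ContMDiffAt.contMDiffWithinAt ?_
        have h1 : ContMDiffAt (𝓡 4) 𝓘(ℝ, E5) ∞ (fun w : sphere (0 : E5) 1 => R.symm (w : E5)) y :=
          ((hsymm _ hy).contMDiffAt).comp y contMDiff_coe_sphere.contMDiffAt
        exact (ConeLD_unit (hw0 y hy)).comp y h1 }
  have h1 : LocalDiffeoAt (fun z : Sph4 => unit (F (vec z))) x := by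
    refine ⟨Ψ, ?_, fun z _ => rfl⟩
    exact ⟨h0, hpP, hpU⟩
  exact ld_congr h1 (hf.mono fun y hy => hy.symm)

end Pool.Agent.Rot5
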