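import Pool.Agent.Rot5.LinBasic

/-!
# The derivative of an interpolation

PROOF. `q y = pv2 y / px2 y` is smooth near `x` (`px2 x = 1`; `contDiff_px2`, `contDiff_pv2`), so
all is smooth. The product rule gives `fderiv (..) x = (1 - κ) • fderiv F x + κ • fderiv G x + E`
with `E h = (κ' (q x) * (Dq h)) • (G x - F x)`, `Dq h = D pv2 h - pv2 x * D px2 h` (quotient rule
with `px2 x = 1`), `D pv2 h = 2 (x₃ h₃ + x₄ h₄)`, `|D pv2 h| ≤ 2 √(pv2 x) ‖h‖`, `|D px2 h| ≤ 2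
√(px2 x) ‖h‖ = 2 ‖h‖` (Cauchy–Schwarz); `pv2 x ≤ √(pv2 x)` for `pv2 x ≤ 1`. So `|Dq h| ≤ 4 √(pv2
x) ‖h‖`.
-/

set_option autoImplicit false

open scoped ContDiff Topology
open Set Filter Metric

namespace Pool.Agent.Rot5

open Pool.Agent.HopfCov Pool.Agent.HopfFin Pool.Agent.HopfCov.Smooth Pool.Agent.Rot4

private theorem le_of_sq_le_sq_CoreD {a b : ℝ} (hb : 0 ≤ b) (h : a ^ 2 ≤ b ^ 2) : a ≤ b :=
  le_of_abs_le (abs_le_of_sq_le_sq h hb |> fun h => abs_le.2 (abs_le.1 h))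

private theorem norm_pv_le_CoreD (h : E5) : ‖pvL h‖ ≤ ‖h‖ := by
  refine le_of_sq_le_sq_CoreD (norm_nonneg _) ?_
  rw [norm_pv_sq, EuclideanSpace.norm_sq_eq, Fin.sum_univ_five]
  simp only [Real.norm_eq_abs, sq_abs]
  unfold pv2
  nlinarith [sq_nonneg (h 0), sq_nonneg (h 1), sq_nonneg (h 2)]

private theorem norm_px_le_CoreD (h : E5) : ‖pxL h‖ ≤ ‖h‖ := by
  refine le_of_sq_le_sq_CoreD (norm_nonneg _) ?_
  rw [norm_px_sq, EuclideanSpace.norm_sq_eq, Fin.sum_univ_five]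
  simp only [Real.norm_eq_abs, sq_abs]
  unfold px2
  nlinarith [sq_nonneg (h 3), sq_nonneg (h 4)]

private theorem hasFDerivAt_sq_CoreD (L : E5 →L[ℝ] E5) {f : E5 → ℝ} (hf : ∀ y, ‖L y‖ ^ 2 = f y)
    (x : E5) : HasFDerivAt f ((2 : ℝ) • (innerSL ℝ (L x)).comp L) x := by
  have h1 : HasFDerivAt (fun y => L y) L x := L.hasFDerivAt
  have h2 := h1.norm_sq
  have h3 : (fun y => ‖L y‖ ^ 2) = f := funext hf
  have h4 : HasFDerivAt f (2 • (innerSL ℝ (L x)).comp L) x := by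
    rw [← h3]
    exact h2
  have h5 : (2 : ℝ) • (innerSL ℝ (L x)).comp L = 2 • (innerSL ℝ (L x)).comp L := by
    rw [two_smul, two_smul]
  rw [h5]
  exact h4

private theorem norm_der_CoreD (L : E5 →L[ℝ] E5) (hL : ∀ h, ‖L h‖ ≤ ‖h‖) (x h : E5) :
    |((2 : ℝ) • (innerSL ℝ (L x)).comp L) h| ≤ 2 * ‖L x‖ * ‖h‖ := by
  have h1 : ((2 : ℝ) • (innerSL ℝ (L x)).comp L) h = 2 * inner ℝ (L x) (L h) := rfl
  rw [h1, abs_mul, abs_two, mul_assoc]
  refine mul_le_mul_of_nonneg_left ?_ (by norm_num)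
  exact (abs_real_inner_le_norm _ _).trans (mul_le_mul_of_nonneg_left (hL h) (norm_nonneg _))

theorem interp_fderiv {F G : E5 → E5} {κ : ℝ → ℝ} {x : E5} (hx : px2 x = 1) (hx' : pv2 x ≤ 1)
    (hF : ContDiffAt ℝ ∞ F x) (hG : ContDiffAt ℝ ∞ G x) (hκ : ContDiff ℝ ∞ κ) :
    ContDiffAt ℝ ∞ (fun y => F y + κ (pv2 y / px2 y) • (G y - F y)) x ∧
      ∃ E : E5 →L[ℝ] E5, fderiv ℝ (fun y => F y + κ (pv2 y / px2 y) • (G y - F y)) x =
        (1 - κ (pv2 x)) • fderiv ℝ F x + κ (pv2 x) • fderiv ℝ G x + E ∧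
        ‖E‖ ≤ |deriv κ (pv2 x)| * (4 * Real.sqrt (pv2 x)) * ‖G x - F x‖ := by
  have hx0 : px2 x ≠ 0 := by
    rw [hx]
    exact one_ne_zero
  have hqx : pv2 x / px2 x = pv2 x := by rw [hx, div_one]
  constructor
  · have h1 : ContDiffAt ℝ ∞ (fun y => pv2 y / px2 y) x :=
      contDiff_pv2.contDiffAt.div contDiff_px2.contDiffAt hx0
    have h2 : ContDiffAt ℝ ∞ (fun y => κ (pv2 y / px2 y)) x := hκ.contDiffAt.comp x h1
    exact hF.add (h2.smul (hG.sub hF))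
  · obtain ⟨A, hA⟩ : ∃ A : E5 →L[ℝ] ℝ, A = (2 : ℝ) • (innerSL ℝ (pvL x)).comp pvL := ⟨_, rfl⟩
    obtain ⟨B, hB⟩ : ∃ B : E5 →L[ℝ] ℝ, B = (2 : ℝ) • (innerSL ℝ (pxL x)).comp pxL := ⟨_, rfl⟩
    have dv : HasFDerivAt pv2 A x := by
      rw [hA]
      exact hasFDerivAt_sq_CoreD pvL norm_pv_sq x
    have dp : HasFDerivAt px2 B x := by
      rw [hB]
      exact hasFDerivAt_sq_CoreD pxL norm_px_sq x
    have di : HasFDerivAt (fun y => (px2 y)⁻¹) ((-(px2 x ^ 2)⁻¹) • B) x :=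
      (hasDerivAt_inv hx0).comp_hasFDerivAt x dp
    obtain ⟨Dq, hDq⟩ : ∃ Dq : E5 →L[ℝ] ℝ, Dq = A - pv2 x • B := ⟨_, rfl⟩
    have dq : HasFDerivAt (fun y => pv2 y / px2 y) Dq x := by
      have h1 := dv.mul di
      have h2 : pv2 x • (-(px2 x ^ 2)⁻¹) • B + (px2 x)⁻¹ • A = Dq := by
        rw [hDq, hx]
        ext h
        simp
        ring
      rw [h2] at h1
      exact h1
    have dk : HasFDerivAt (fun y => κ (pv2 y / px2 y)) (deriv κ (pv2 x) • Dq) x := by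
      have h1 : HasDerivAt κ (deriv κ (pv2 x)) (pv2 x / px2 x) := by
        have h2 := ((hκ.differentiable (by simp)) (pv2 x)).hasDerivAt
        rw [hqx]
        exact h2
      exact h1.comp_hasFDerivAt x dq
    have dF : HasFDerivAt F (fderiv ℝ F x) x := (hF.differentiableAt (by simp)).hasFDerivAt
    have dG : HasFDerivAt G (fderiv ℝ G x) x := (hG.differentiableAt (by simp)).hasFDerivAt
    have dGF : HasFDerivAt (fun y => G y - F y) (fderiv ℝ G x - fderiv ℝ F x) x := dG.sub dF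
    have ds := dF.add (dk.smul dGF)
    have ds' : HasFDerivAt (fun y => F y + κ (pv2 y / px2 y) • (G y - F y))
        (fderiv ℝ F x + (κ (pv2 x / px2 x) • (fderiv ℝ G x - fderiv ℝ F x) +
          (deriv κ (pv2 x) • Dq).smulRight (G x - F x))) x := ds
    refine ⟨(deriv κ (pv2 x) • Dq).smulRight (G x - F x), ?_, ?_⟩
    · rw [ds'.fderiv, hqx]
      module
    · rw [ContinuousLinearMap.norm_smulRight_apply, norm_smul, Real.norm_eq_abs]
      refine mul_le_mul_of_nonneg_right ?_ (norm_nonneg _)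
      refine mul_le_mul_of_nonneg_left ?_ (abs_nonneg _)
      refine ContinuousLinearMap.opNorm_le_bound _ (by positivity) fun h => ?_
      have hv : ‖pvL x‖ = Real.sqrt (pv2 x) := by
        rw [← norm_pv_sq, Real.sqrt_sq (norm_nonneg _)]
      have hp : ‖pxL x‖ = 1 := by
        have h1 := norm_px_sq x
        rw [hx] at h1
        exact (pow_eq_one_iff_of_nonneg (norm_nonneg _) two_ne_zero).1 h1
      have h1 : |A h| ≤ 2 * Real.sqrt (pv2 x) * ‖h‖ := by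
        rw [hA, ← hv]
        exact norm_der_CoreD pvL norm_pv_le_CoreD x h
      have h2 : |B h| ≤ 2 * ‖h‖ := by
        have h3 := norm_der_CoreD pxL norm_px_le_CoreD x h
        rw [hp, mul_one] at h3
        rw [hB]
        exact h3
      have hs0 := Real.sqrt_nonneg (pv2 x)
      have hv0 : 0 ≤ pv2 x := pv2_nonneg x
      have hs : pv2 x ≤ Real.sqrt (pv2 x) := by
        have h3 : Real.sqrt (pv2 x) ≤ 1 := by
          rw [← Real.sqrt_one]
          exact Real.sqrt_le_sqrt hx'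
        have h4 : Real.sqrt (pv2 x) * Real.sqrt (pv2 x) = pv2 x := Real.mul_self_sqrt hv0
        nlinarith
      have h5 : Dq h = A h - pv2 x * B h := by
        rw [hDq]
        rfl
      rw [Real.norm_eq_abs, h5]
      calc |A h - pv2 x * B h| ≤ |A h| + |pv2 x * B h| := abs_sub _ _
        _ = |A h| + pv2 x * |B h| := by rw [abs_mul, abs_of_nonneg hv0]
        _ ≤ 2 * Real.sqrt (pv2 x) * ‖h‖ + pv2 x * (2 * ‖h‖) :=
            add_le_add h1 (mul_le_mul_of_nonneg_left h2 hv0)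
        _ ≤ 2 * Real.sqrt (pv2 x) * ‖h‖ + Real.sqrt (pv2 x) * (2 * ‖h‖) := by
            have h6 := mul_le_mul_of_nonneg_right hs (show 0 ≤ 2 * ‖h‖ by positivity)
            linarith
        _ = 4 * Real.sqrt (pv2 x) * ‖h‖ := by ring

end Pool.Agent.Rot5
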