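import Mathlib.Analysis.SpecialFunctions.SmoothTransition
import Mathlib.Analysis.SpecialFunctions.Log.Deriv

/-!
# Logarithmic cut-off functions

PROOF. `σ = Real.smoothTransition` is smooth, `0` on `(-∞, 0]`, `1` on `[1, ∞)`, so its derivative
is continuous and vanishes off `[0, 1]`, hence it is bounded by some `M`. Let `Λ = M / ε + 1`, `b
= a exp (- Λ)` and `κ q = σ ((log a - log q) / Λ)` for `q > b / 2`, `κ q = 1` for `q ≤ b / 2`. For
`q ≤ b`, `q > 0` the argument is `≥ 1`, so `κ` is `1` on `(- ∞, b]`, hence smooth; for `q ≥ a` the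
argument is `≤ 0`. `|q κ' q| = |σ' (..)| / Λ ≤ M / Λ ≤ ε`.
-/

set_option autoImplicit false

open scoped ContDiff Topology
open Set Filter Metric

namespace Pool.Agent.Rot5

private theorem logCut_bound : ∃ M : ℝ, 0 ≤ M ∧ ∀ x, |deriv Real.smoothTransition x| ≤ M := by
  have hc : Continuous (deriv Real.smoothTransition) :=
    (Real.smoothTransition.contDiff (n := 1)).continuous_deriv le_rfl
  obtain ⟨M, hM⟩ := isCompact_Icc.exists_bound_of_continuousOn (s := Icc (0 : ℝ) 1)
    (f := deriv Real.smoothTransition) hc.continuousOn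
  refine ⟨max M 0, le_max_right _ _, fun x => ?_⟩
  by_cases hx : x ∈ Icc (0 : ℝ) 1
  · exact (hM x hx).trans (le_max_left _ _)
  · have h0 : deriv Real.smoothTransition x = 0 := by
      rw [mem_Icc, not_and_or, not_le, not_le] at hx
      rcases hx with hx | hx
      · have h1 : Real.smoothTransition =ᶠ[𝓝 x] fun _ => (0 : ℝ) := by
          filter_upwards [Iio_mem_nhds hx] with y hy
          exact Real.smoothTransition.zero_of_nonpos (le_of_lt hy)
        rw [h1.deriv_eq, deriv_const]
      · have h1 : Real.smoothTransition =ᶠ[𝓝 x] fun _ => (1 : ℝ) := by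
          filter_upwards [Ioi_mem_nhds hx] with y hy
          exact Real.smoothTransition.one_of_one_le (le_of_lt hy)
        rw [h1.deriv_eq, deriv_const]
    rw [h0, abs_zero]
    exact le_max_right _ _

theorem log_cut {a ε : ℝ} (ha : 0 < a) (hε : 0 < ε) :
    ∃ (κ : ℝ → ℝ) (b : ℝ), 0 < b ∧ b < a ∧ ContDiff ℝ ∞ κ ∧ (∀ q ≤ b, κ q = 1) ∧
      (∀ q, a ≤ q → κ q = 0) ∧ (∀ q, 0 ≤ κ q ∧ κ q ≤ 1) ∧ ∀ q, |q * deriv κ q| ≤ ε := by
  classical
  obtain ⟨M, hM0, hM⟩ := logCut_bound
  obtain ⟨L, hL⟩ : ∃ L : ℝ, L = M / ε + 1 := ⟨_, rfl⟩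
  have hL0 : 0 < L := by
    rw [hL]
    positivity
  obtain ⟨b, hb⟩ : ∃ b : ℝ, b = a * Real.exp (-L) := ⟨_, rfl⟩
  have hb0 : 0 < b := by
    rw [hb]
    positivity
  have hba : b < a := by
    rw [hb]
    have h1 : Real.exp (-L) < 1 := Real.exp_lt_one_iff.2 (by linarith)
    calc a * Real.exp (-L) < a * 1 := mul_lt_mul_of_pos_left h1 ha
      _ = a := mul_one a
  have hlogb : Real.log b = Real.log a - L := by
    rw [hb, Real.log_mul ha.ne' (Real.exp_ne_zero _), Real.log_exp]
    ring
  obtain ⟨f, hf⟩ : ∃ f : ℝ → ℝ, ∀ q, f q =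
      Real.smoothTransition ((Real.log a - Real.log q) / L) := ⟨_, fun _ => rfl⟩
  obtain ⟨κ, hκ⟩ : ∃ κ : ℝ → ℝ, ∀ q, κ q = if q ≤ b / 2 then 1 else f q := ⟨_, fun _ => rfl⟩
  have hone : ∀ q ≤ b, κ q = 1 := by
    intro q hq
    rw [hκ]
    split_ifs with h
    · rfl
    · rw [hf]
      apply Real.smoothTransition.one_of_one_le
      have hq0 : 0 < q := by linarith
      have h1 : Real.log q ≤ Real.log b := Real.log_le_log hq0 hq
      rw [le_div_iff₀ hL0]
      linarith
  have hkf : ∀ q, b ≤ q → κ =ᶠ[𝓝 q] f := by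
    intro q hq
    have h1 : b / 2 < q := by linarith
    filter_upwards [Ioi_mem_nhds h1] with y hy
    rw [hκ, if_neg (not_le.2 hy)]
  have hk1 : ∀ q, q < b → κ =ᶠ[𝓝 q] fun _ => (1 : ℝ) := by
    intro q hq
    filter_upwards [Iio_mem_nhds hq] with y hy
    exact hone y (le_of_lt hy)
  have hfd : ∀ q, 0 < q → ContDiffAt ℝ ∞ f q := by
    intro q hq
    have h1 : f = fun q => Real.smoothTransition ((Real.log a - Real.log q) / L) := funext hf
    rw [h1]
    refine Real.smoothTransition.contDiff.contDiffAt.comp q ?_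
    exact (contDiffAt_const.sub (Real.contDiffAt_log.2 hq.ne')).div_const L
  refine ⟨κ, b, hb0, hba, ?_, hone, ?_, ?_, ?_⟩
  · rw [contDiff_iff_contDiffAt]
    intro q
    rcases lt_or_ge q b with hq | hq
    · exact contDiffAt_const.congr_of_eventuallyEq (hk1 q hq)
    · exact (hfd q (hb0.trans_le hq)).congr_of_eventuallyEq (hkf q hq)
  · intro q hq
    have h1 : b / 2 < q := by linarith
    rw [hκ, if_neg (not_le.2 h1), hf]
    apply Real.smoothTransition.zero_of_nonpos
    have h2 : Real.log a ≤ Real.log q := Real.log_le_log ha hq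
    exact div_nonpos_of_nonpos_of_nonneg (by linarith) hL0.le
  · intro q
    rw [hκ]
    split_ifs with h
    · exact ⟨zero_le_one, le_rfl⟩
    · rw [hf]
      exact ⟨Real.smoothTransition.nonneg _, Real.smoothTransition.le_one _⟩
  · intro q
    rcases lt_or_ge q b with hq | hq
    · rw [(hk1 q hq).deriv_eq, deriv_const, mul_zero, abs_zero]
      exact hε.le
    · have hq0 : 0 < q := hb0.trans_le hq
      rw [(hkf q hq).deriv_eq]
      have h1 : f = fun q => Real.smoothTransition ((Real.log a - Real.log q) / L) := funext hf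
      have h2 : HasDerivAt (fun q => (Real.log a - Real.log q) / L) ((0 - q⁻¹) / L) q :=
        ((hasDerivAt_const q (Real.log a)).sub (Real.hasDerivAt_log hq0.ne')).div_const L
      have h3 : HasDerivAt Real.smoothTransition
          (deriv Real.smoothTransition ((Real.log a - Real.log q) / L))
          ((Real.log a - Real.log q) / L) :=
        ((Real.smoothTransition.contDiff (n := 1)).differentiable (by norm_num)
          _).hasDerivAt
      have h4 : deriv f q = deriv Real.smoothTransition ((Real.log a - Real.log q) / L) *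
          ((0 - q⁻¹) / L) := by
        rw [h1]
        exact (h3.comp q h2).deriv
      rw [h4]
      have h5 : q * (deriv Real.smoothTransition ((Real.log a - Real.log q) / L) *
          ((0 - q⁻¹) / L)) =
          -(deriv Real.smoothTransition ((Real.log a - Real.log q) / L) / L) := by
        field_simp
        ring
      rw [h5, abs_neg, abs_div, abs_of_pos hL0, div_le_iff₀ hL0]
      refine (hM _).trans ?_
      rw [hL, mul_add, mul_div_cancel₀ M hε.ne', mul_one]
      linarith

end Pool.Agent.Rot5
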