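import Pool.Agent.Rot5.Unif
import Pool.Agent.Rot5.LogCut
import Pool.Agent.Rot5.CoreD

/-!
# Interpolation between the identity and a homogeneous map which fixes the plane

The same as `unif` (`Unif.lean`) and `core` (`Core.lean`), with `F` replaced by the identity and
`model F` by `G`: `F1 x = x` if `b * px2 x < pv2 x`, `F1 x = x + κ (pv2 x / px2 x) • (G x - x)`
otherwise. The proofs carry over (`D(id) = id`; `G = id` on `P`). (If this is easier: generalise
the proofs of `unif` and `core` by copying them; do not change those files.)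
-/

set_option autoImplicit false

open scoped ContDiff Topology
open Set Filter Metric

namespace Pool.Agent.Rot5

open Pool.Agent.HopfCov Pool.Agent.HopfFin Pool.Agent.HopfCov.Smooth Pool.Agent.Rot4

/-- a homogeneous map which is the identity on `P` and can be deformed near `P` to the identity -/
structure Fix5 (G : E5 → E5) : Prop where
  smul : ∀ c : ℝ, 0 < c → ∀ x, G (c • x) = c • G x
  plane : ∀ x, pv2 x = 0 → G x = x
  smooth : ∀ x, x ≠ 0 → pv2 x = 0 → ∀ᶠ y in 𝓝 x, ContDiffAt ℝ ∞ G y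
  det : ∀ x, x ≠ 0 → pv2 x = 0 → ∀ χ : ℝ, 0 ≤ χ → χ ≤ 1 →
    ((1 - χ) • ContinuousLinearMap.id ℝ E5 + χ • fderiv ℝ G x).det ≠ 0

private theorem cont_px2_Interp2 : Continuous px2 := contDiff_px2.continuous

private theorem cont_pv2_Interp2 : Continuous pv2 := contDiff_pv2.continuous

private theorem px2_ne_zero_Interp2 {x : E5} (h : px2 x = 1) : x ≠ 0 := by
  rintro rfl
  unfold px2 at h
  simp at h

private theorem cont_fderiv_Interp2 {f : E5 → E5} {x : E5} (h : ContDiffAt ℝ ∞ f x) :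
    ContinuousAt (fderiv ℝ f) x :=
  (h.fderiv_right (m := 0) (by exact_mod_cast le_top)).continuousAt

private theorem cont_G_Interp2 {g : E5 → E5} {x : E5} {χ : ℝ} (hg : ContDiffAt ℝ ∞ g x) :
    ContinuousAt (fun z : E5 × ℝ => (1 - z.2) • ContinuousLinearMap.id ℝ E5 +
      z.2 • fderiv ℝ g z.1) (x, χ) := by
  have h2 : ContinuousAt (fun z : E5 × ℝ => fderiv ℝ g z.1) (x, χ) :=
    ContinuousAt.comp (f := fun z : E5 × ℝ => z.1) (g := fderiv ℝ g) (x := (x, χ))
      (cont_fderiv_Interp2 hg) continuousAt_fst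
  exact ((continuousAt_const.sub continuousAt_snd).smul continuousAt_const).add
    (continuousAt_snd.smul h2)

private theorem unif_one_Interp2 {G : E5 → E5} (hG : Fix5 G) {a' : ℝ} (ha' : 0 < a') {x : E5}
    (h1 : px2 x = 1) (h0 : pv2 x = 0) :
    ∀ᶠ y in 𝓝 x, ContDiffAt ℝ ∞ G y ∧
      (∀ χ ∈ Icc (0 : ℝ) 1,
        ((1 - χ) • ContinuousLinearMap.id ℝ E5 + χ • fderiv ℝ G y).det ≠ 0) ∧
      pv2 y < a' * px2 y := by
  have hx : x ≠ 0 := px2_ne_zero_Interp2 h1
  have hsm : ∀ᶠ y in 𝓝 x, ContDiffAt ℝ ∞ G y := hG.smooth x hx h0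
  have hdet : ∀ᶠ y in 𝓝 x, ∀ χ ∈ Icc (0 : ℝ) 1,
      ((1 - χ) • ContinuousLinearMap.id ℝ E5 + χ • fderiv ℝ G y).det ≠ 0 := by
    refine isCompact_Icc.eventually_forall_of_forall_eventually (x₀ := x)
      (P := fun y χ => ((1 - χ) • ContinuousLinearMap.id ℝ E5 + χ • fderiv ℝ G y).det ≠ 0) ?_
    intro χ hχ
    have hc := cont_G_Interp2 (χ := χ) hsm.self_of_nhds
    have hd : ContinuousAt (fun z : E5 × ℝ =>
        ((1 - z.2) • ContinuousLinearMap.id ℝ E5 + z.2 • fderiv ℝ G z.1).det) (x, χ) :=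
      ContinuousLinearMap.continuous_det.continuousAt.comp hc
    refine hd.eventually_ne ?_
    exact hG.det x hx h0 χ hχ.1 hχ.2
  have hW : ∀ᶠ y in 𝓝 x, pv2 y < a' * px2 y := by
    refine cont_pv2_Interp2.continuousAt.eventually_lt
      (continuousAt_const.mul cont_px2_Interp2.continuousAt) ?_
    rw [h0, h1, mul_one]
    exact ha'
  filter_upwards [hsm, hdet, hW] with y e2 e3 e4
  exact ⟨e2, e3, e4⟩

private theorem seg_Interp2 {x y : E5} (hy : y ∈ segment ℝ (pxL x) x) :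
    px2 y = px2 x ∧ pv2 y ≤ pv2 x := by
  obtain ⟨s, t, hs, ht, hst, rfl⟩ := hy
  have h0 : (s • pxL x + t • x) 0 = x 0 := by
    rw [pxL_apply]
    simp only [PiLp.add_apply, PiLp.smul_apply, smul_eq_mul]
    show s * x 0 + t * x 0 = x 0
    rw [← add_mul, hst, one_mul]
  have h1 : (s • pxL x + t • x) 1 = x 1 := by
    rw [pxL_apply]
    simp only [PiLp.add_apply, PiLp.smul_apply, smul_eq_mul]
    show s * x 1 + t * x 1 = x 1
    rw [← add_mul, hst, one_mul]
  have h2 : (s • pxL x + t • x) 2 = x 2 := by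
    rw [pxL_apply]
    simp only [PiLp.add_apply, PiLp.smul_apply, smul_eq_mul]
    show s * x 2 + t * x 2 = x 2
    rw [← add_mul, hst, one_mul]
  have h3 : (s • pxL x + t • x) 3 = t * x 3 := by
    rw [pxL_apply]
    simp only [PiLp.add_apply, PiLp.smul_apply, smul_eq_mul]
    show s * 0 + t * x 3 = t * x 3
    ring
  have h4 : (s • pxL x + t • x) 4 = t * x 4 := by
    rw [pxL_apply]
    simp only [PiLp.add_apply, PiLp.smul_apply, smul_eq_mul]
    show s * 0 + t * x 4 = t * x 4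
    ring
  constructor
  · unfold px2
    rw [h0, h1, h2]
  · unfold pv2
    rw [h3, h4]
    have ht1 : t ≤ 1 := by linarith
    have ht2 : t ^ 2 ≤ 1 := by nlinarith
    nlinarith [sq_nonneg (x 3), sq_nonneg (x 4)]

private theorem norm_pv_Interp2 (x : E5) : ‖x - pxL x‖ = Real.sqrt (pv2 x) := by
  have h : x - pxL x = pvL x := by
    have h1 := px_add_pv x
    exact sub_eq_of_eq_add' h1.symm
  rw [h, ← norm_pv_sq, Real.sqrt_sq (norm_nonneg _)]

theorem unif2 {G : E5 → E5} (hG : Fix5 G) {a' : ℝ} (ha' : 0 < a') : ∃ a η C : ℝ, 0 < a ∧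
    a ≤ 1 ∧ 0 < η ∧ 0 ≤ C ∧ ∀ x, px2 x = 1 → pv2 x ≤ a → ContDiffAt ℝ ∞ G x ∧
      (∀ χ : ℝ, 0 ≤ χ → χ ≤ 1 → ∀ E : E5 →L[ℝ] E5, ‖E‖ ≤ η →
        ((1 - χ) • ContinuousLinearMap.id ℝ E5 + χ • fderiv ℝ G x + E).det ≠ 0) ∧
      ‖G x - x‖ ≤ C * Real.sqrt (pv2 x) ∧ ∀ y, ‖y - x‖ ≤ η → pv2 y < a' * px2 y := by
  obtain ⟨a₁, ha₁, h1⟩ := tube5 (fun x hx1 hx0 => unif_one_Interp2 hG ha' hx1 hx0)
  set a := min a₁ 1 with ha
  set K : Set E5 := {x : E5 | px2 x = 1 ∧ pv2 x ≤ a} with hK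
  have hKc : IsCompact K := isCompact_tube a
  have hKprop : ∀ x ∈ K, ContDiffAt ℝ ∞ G x ∧
      (∀ χ ∈ Icc (0 : ℝ) 1,
        ((1 - χ) • ContinuousLinearMap.id ℝ E5 + χ • fderiv ℝ G x).det ≠ 0) ∧
      pv2 x < a' * px2 x := fun x hx => h1 x hx.1 (hx.2.trans (min_le_left _ _))
  -- step 2
  have hGc : IsCompact ((fun z : E5 × ℝ =>
      (1 - z.2) • ContinuousLinearMap.id ℝ E5 + z.2 • fderiv ℝ G z.1) ''
        (K ×ˢ Icc (0 : ℝ) 1)) := by
    refine (hKc.prod isCompact_Icc).image_of_continuousOn ?_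
    rintro ⟨x, χ⟩ ⟨hx, -⟩
    exact (cont_G_Interp2 (hKprop x hx).1).continuousWithinAt
  have hOpen : IsOpen {L : E5 →L[ℝ] E5 | L.det ≠ 0} :=
    isOpen_ne.preimage ContinuousLinearMap.continuous_det
  obtain ⟨η₁, hη₁, hsub₁⟩ := hGc.exists_cthickening_subset_open hOpen (by
    rintro _ ⟨⟨x, χ⟩, ⟨hx, hχ⟩, rfl⟩
    exact (hKprop x hx).2.1 χ hχ)
  -- step 4
  have hWo : IsOpen {y : E5 | pv2 y < a' * px2 y} :=
    isOpen_lt cont_pv2_Interp2 (continuous_const.mul cont_px2_Interp2)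
  obtain ⟨η₂, hη₂, hsub₂⟩ := hKc.exists_cthickening_subset_open hWo
    (fun x hx => (hKprop x hx).2.2)
  -- step 3
  have hDc : ContinuousOn (fun x => ‖fderiv ℝ G x - ContinuousLinearMap.id ℝ E5‖) K := by
    intro x hx
    exact ((cont_fderiv_Interp2 (hKprop x hx).1).sub
      continuousAt_const).norm.continuousWithinAt
  obtain ⟨C, hC⟩ := hKc.bddAbove_image hDc
  have hCb : ∀ x ∈ K, ‖fderiv ℝ G x - ContinuousLinearMap.id ℝ E5‖ ≤ max C 0 := fun x hx =>
    (hC (mem_image_of_mem _ hx)).trans (le_max_left _ _)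
  refine ⟨a, min η₁ η₂, max C 0, lt_min ha₁ one_pos, min_le_right _ _, lt_min hη₁ hη₂,
    le_max_right _ _, ?_⟩
  intro x hx1 hxa
  have hx : x ∈ K := ⟨hx1, hxa⟩
  refine ⟨(hKprop x hx).1, ?_, ?_, ?_⟩
  · intro χ h0 h1' E hE
    have : (1 - χ) • ContinuousLinearMap.id ℝ E5 + χ • fderiv ℝ G x + E ∈
        {L : E5 →L[ℝ] E5 | L.det ≠ 0} := by
      refine hsub₁ (mem_cthickening_of_dist_le _
        ((1 - χ) • ContinuousLinearMap.id ℝ E5 + χ • fderiv ℝ G x) _ _ ?_ ?_)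
      · exact ⟨(x, χ), ⟨hx, h0, h1'⟩, rfl⟩
      · rw [dist_eq_norm, add_sub_cancel_left]
        exact hE.trans (min_le_left _ _)
    exact this
  · have hseg : ∀ y ∈ segment ℝ (pxL x) x, y ∈ K := fun y hy => by
      obtain ⟨e1, e2⟩ := seg_Interp2 hy
      exact ⟨e1.trans hx1, e2.trans hxa⟩
    have hmv := Convex.norm_image_sub_le_of_norm_fderiv_le (𝕜 := ℝ)
      (f := fun y => G y - y) (C := max C 0) (s := segment ℝ (pxL x) x)
      (x := pxL x) (y := x)
      (fun y hy => ((hKprop y (hseg y hy)).1.differentiableAt (by simp)).sub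
        differentiableAt_fun_id)
      (fun y hy => by
        have e : fderiv ℝ (fun y => G y - y) y =
            fderiv ℝ G y - ContinuousLinearMap.id ℝ E5 := by
          have e1 := ((hKprop y (hseg y hy)).1.differentiableAt
            (by simp : (∞ : WithTop ℕ∞) ≠ 0)).hasFDerivAt
          exact (e1.sub (hasFDerivAt_id y)).fderiv
        rw [e]
        exact hCb y (hseg y hy))
      (convex_segment _ _) (left_mem_segment _ _ _) (right_mem_segment _ _ _)
    have h0 : G (pxL x) - pxL x = 0 := by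
      rw [hG.plane _ (pv2_pxL x), sub_self]
    simp only [h0, sub_zero] at hmv
    rw [norm_pv_Interp2] at hmv
    exact hmv
  · intro y hy
    have : y ∈ {y : E5 | pv2 y < a' * px2 y} := by
      refine hsub₂ (mem_cthickening_of_dist_le _ x _ _ hx ?_)
      rw [dist_eq_norm]
      exact hy.trans (min_le_right _ _)
    exact this

private theorem px_pos_Interp2 {a : ℝ} {x : E5} (hx : x ≠ 0) (h : pv2 x ≤ a * px2 x) :
    0 < px2 x := by
  rcases (px2_nonneg x).lt_or_eq with h1 | h1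
  · exact h1
  · exfalso
    rw [← h1, mul_zero] at h
    have h2 := pv2_nonneg x
    have h3 := px2_add_pv2 x
    have h4 : 0 < ‖x‖ ^ 2 := by
      have := norm_pos_iff.2 hx
      positivity
    linarith

private theorem zero_Interp2 {F : E5 → E5} (hF : ∀ c : ℝ, 0 < c → ∀ x, F (c • x) = c • F x) :
    F 0 = 0 := by
  have h := hF 2 (by norm_num) 0
  rw [smul_zero, two_smul] at h
  have h2 : F 0 + 0 = F 0 + F 0 := by rw [add_zero]; exact h
  exact (add_left_cancel h2).symm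

theorem core2 {G : E5 → E5} (hG : Fix5 G) {a' a₀ : ℝ} (ha' : 0 < a') (ha₀ : 0 < a₀) :
    ∃ (F1 : E5 → E5) (a b : ℝ), 0 < b ∧ b < a ∧ a ≤ a₀ ∧
      (∀ c : ℝ, 0 < c → ∀ x, F1 (c • x) = c • F1 x) ∧
      (∀ x, b * px2 x < pv2 x → F1 x = x) ∧ (∀ x, pv2 x = 0 → F1 x = x) ∧
      (∀ x, x ≠ 0 → pv2 x ≤ a * px2 x → RG F1 x ∧ pv2 (F1 x) < a' * px2 (F1 x)) ∧
      ∃ b' : ℝ, 0 < b' ∧ ∀ x, pv2 x ≤ b' * px2 x → F1 x = G x := by
  classical
  obtain ⟨a₁, η, C, ha₁, ha₁1, hη, hC, hu⟩ := unif2 hG ha'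
  obtain ⟨s, hs⟩ : ∃ s : ℝ, s = η / (C + 1) := ⟨_, rfl⟩
  have hs0 : 0 < s := by
    rw [hs]
    positivity
  have hCs : C * s ≤ η := by
    have h1 : (C + 1) * s = η := by
      rw [hs]
      field_simp
    nlinarith
  obtain ⟨a, ha⟩ : ∃ a : ℝ, a = min (min a₁ a₀) (s ^ 2) := ⟨_, rfl⟩
  have ha0 : 0 < a := by
    rw [ha]
    exact lt_min (lt_min ha₁ ha₀) (by positivity)
  have haa₁ : a ≤ a₁ := by
    rw [ha]
    exact (min_le_left _ _).trans (min_le_left _ _)
  have haa₀ : a ≤ a₀ := by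
    rw [ha]
    exact (min_le_left _ _).trans (min_le_right _ _)
  have has : a ≤ s ^ 2 := by
    rw [ha]
    exact min_le_right _ _
  obtain ⟨ε, hε⟩ : ∃ ε : ℝ, ε = η / (4 * C + 1) := ⟨_, rfl⟩
  have hε0 : 0 < ε := by
    rw [hε]
    positivity
  have hCε : 4 * C * ε ≤ η := by
    have h1 : (4 * C + 1) * ε = η := by
      rw [hε]
      field_simp
    nlinarith
  obtain ⟨κ, b', hb'0, hb'a, hκ, hκ1, hκ0, hκI, hκd⟩ := log_cut (half_pos ha0) hε0
  obtain ⟨F1, hF1⟩ : ∃ F1 : E5 → E5, ∀ x, F1 x = if a / 2 * px2 x < pv2 x then x else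
    x + κ (pv2 x / px2 x) • (G x - x) := ⟨_, fun _ => rfl⟩
  have hF1a : ∀ x, a / 2 * px2 x < pv2 x → F1 x = x := fun x h => by
    rw [hF1, if_pos h]
  have hF1b : ∀ x, 0 < px2 x → F1 x = x + κ (pv2 x / px2 x) • (G x - x) := by
    intro x hx
    by_cases h : a / 2 * px2 x < pv2 x
    · rw [hF1a x h, hκ0, zero_smul, add_zero]
      rw [le_div_iff₀ hx]
      exact h.le
    · rw [hF1, if_neg h]
  have hF1s : ∀ c : ℝ, 0 < c → ∀ x, F1 (c • x) = c • F1 x := by
    intro c hc x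
    have hc2 : 0 < c ^ 2 := by positivity
    by_cases h : a / 2 * px2 x < pv2 x
    · have h' : a / 2 * px2 (c • x) < pv2 (c • x) := by
        rw [px2_smul, pv2_smul]
        nlinarith
      rw [hF1a _ h, hF1a _ h']
    · have h' : ¬ a / 2 * px2 (c • x) < pv2 (c • x) := by
        rw [px2_smul, pv2_smul]
        rw [not_lt] at h ⊢
        nlinarith
      rw [hF1, if_neg h', hF1, if_neg h, px2_smul, pv2_smul,
        mul_div_mul_left _ _ hc2.ne', hG.smul c hc, smul_add, ← smul_sub,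
        smul_comm c]
  have key : ∀ y, px2 y = 1 → pv2 y ≤ a →
      RG F1 y ∧ pv2 (F1 y) < a' * px2 (F1 y) := by
    intro y h1 h2
    obtain ⟨hm, hdet, hnorm, hball⟩ := hu y h1 (h2.trans haa₁)
    have hsq : Real.sqrt (pv2 y) ≤ s := by
      rw [Real.sqrt_le_left hs0.le]
      exact h2.trans has
    have hsq0 := Real.sqrt_nonneg (pv2 y)
    have hev : F1 =ᶠ[𝓝 y] fun z => z + κ (pv2 z / px2 z) • (G z - z) := by
      have h3 : ∀ᶠ z in 𝓝 y, 0 < px2 z :=
        contDiff_px2.continuous.continuousAt.eventually (lt_mem_nhds (by rw [h1]; exact one_pos))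
      filter_upwards [h3] with z hz
      exact hF1b z hz
    obtain ⟨hsm, E, hfd, hE⟩ := interp_fderiv (F := fun z => z) h1 (h2.trans (haa₁.trans ha₁1))
      contDiffAt_id hm hκ
    have hid : fderiv ℝ (fun z : E5 => z) y = ContinuousLinearMap.id ℝ E5 := fderiv_id
    rw [hid] at hfd
    have hE' : ‖E‖ ≤ η := by
      refine hE.trans ?_
      have h3 : |deriv κ (pv2 y)| * (4 * Real.sqrt (pv2 y)) * ‖G y - y‖ ≤
          |deriv κ (pv2 y)| * (4 * Real.sqrt (pv2 y)) * (C * Real.sqrt (pv2 y)) :=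
        mul_le_mul_of_nonneg_left hnorm (by positivity)
      have h4 : |deriv κ (pv2 y)| * (4 * Real.sqrt (pv2 y)) * (C * Real.sqrt (pv2 y)) =
          4 * C * |pv2 y * deriv κ (pv2 y)| := by
        have h5 : Real.sqrt (pv2 y) * Real.sqrt (pv2 y) = pv2 y := Real.mul_self_sqrt (pv2_nonneg y)
        rw [abs_mul, abs_of_nonneg (pv2_nonneg y)]
        linear_combination 4 * C * |deriv κ (pv2 y)| * h5
      rw [h4] at h3
      refine h3.trans (le_trans ?_ hCε)
      exact mul_le_mul_of_nonneg_left (hκd _) (by positivity)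
    refine ⟨⟨hsm.congr_of_eventuallyEq hev, ?_⟩, ?_⟩
    · rw [hev.fderiv_eq, hfd]
      exact hdet _ (hκI _).1 (hκI _).2 E hE'
    · refine hball _ ?_
      rw [hF1b y (by rw [h1]; exact one_pos), add_sub_cancel_left, norm_smul, Real.norm_eq_abs,
        abs_of_nonneg (hκI _).1]
      have h3 : C * Real.sqrt (pv2 y) ≤ η := (mul_le_mul_of_nonneg_left hsq hC).trans hCs
      have h4 : κ (pv2 y / px2 y) * ‖G y - y‖ ≤ 1 * ‖G y - y‖ :=
        mul_le_mul_of_nonneg_right (hκI _).2 (norm_nonneg _)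
      linarith
  refine ⟨F1, a, a / 2, half_pos ha0, half_lt_self ha0, haa₀, hF1s, hF1a, ?_, ?_, ?_⟩
  · intro x hx
    by_cases h : a / 2 * px2 x < pv2 x
    · exact hF1a x h
    · rw [hF1, if_neg h, hG.plane x hx, sub_self, smul_zero, add_zero]
  · intro x hx hxa
    have hp := px_pos_Interp2 hx hxa
    obtain ⟨r, hr⟩ : ∃ r : ℝ, r = Real.sqrt (px2 x) := ⟨_, rfl⟩
    have hr0 : 0 < r := by
      rw [hr]
      exact Real.sqrt_pos.2 hp
    have hr2 : r ^ 2 = px2 x := by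
      rw [hr]
      exact Real.sq_sqrt hp.le
    obtain ⟨y, hy⟩ : ∃ y : E5, y = r⁻¹ • x := ⟨_, rfl⟩
    have hxy : x = r • y := by
      rw [hy, smul_smul, mul_inv_cancel₀ hr0.ne', one_smul]
    have e1 : px2 x = r ^ 2 * px2 y := by rw [hxy, px2_smul]
    have e2 : pv2 x = r ^ 2 * pv2 y := by rw [hxy, pv2_smul]
    have hr20 : 0 < r ^ 2 := by positivity
    have h1 : px2 y = 1 := by
      rw [← hr2] at e1
      have h3 : r ^ 2 * px2 y = r ^ 2 * 1 := by rw [mul_one, ← e1]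
      exact mul_left_cancel₀ hr20.ne' h3
    have h2 : pv2 y ≤ a := by
      rw [e1, e2, h1, mul_one] at hxa
      have h3 : r ^ 2 * pv2 y ≤ r ^ 2 * a := by linarith
      exact le_of_mul_le_mul_left h3 hr20
    obtain ⟨k1, k2⟩ := key y h1 h2
    rw [hxy]
    refine ⟨rg_hom hF1s hr0 k1, ?_⟩
    · rw [hF1s r hr0, pv2_smul, px2_smul]
      nlinarith
  · refine ⟨b', hb'0, fun x hx => ?_⟩
    rcases (px2_nonneg x).lt_or_eq with hp | hp
    · rw [hF1b x hp, hκ1, one_smul, add_sub_cancel]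
      rw [div_le_iff₀ hp]
      exact hx
    · have h2 := pv2_nonneg x
      have h3 := px2_add_pv2 x
      rw [← hp, mul_zero] at hx
      have h4 : x = 0 := by
        have h5 : ‖x‖ ^ 2 = 0 := by linarith
        exact norm_eq_zero.1 (pow_eq_zero_iff two_ne_zero |>.1 h5)
      rw [h4, zero_Interp2 hF1s, zero_Interp2 hG.smul]

end Pool.Agent.Rot5
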