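import Pool.Agent.Rot5.LinAlg

/-!
# Orthogonal maps of `ℝ⁵` which are linearly conjugate to a rotation

PROOFS. `fderiv_conj`: the chain rule for `K ∘ rotE t` and `A ∘ K` (which agree near `x`, `rotE t
x = x`: `rotE_plane`); as `fderiv_rot` in `Model.lean`.
`trace_rot`: the matrix in the standard basis (`LinearMap.trace_eq_matrix_trace` with
`EuclideanSpace.basisFun`, `Fin.sum_univ_five`).
`rot_angle`: `rotL s = L ∘ rotL t ∘ L⁻¹`, so the traces agree (`LinearMap.trace_conj'` or
`LinearMap.trace_mul_cycle`, `trace_comp_comm`): `3 + 2 cos s = 3 + 2 cos t`; `cos s = cos t`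
gives `sin s = ± sin t` and `rotE_eq`.
`orth_conj`: `A = L ∘ rotL t ∘ L⁻¹`. Let `W = {x | A x = x} = L (P)` (`rotE t v = v` iff `pvL v =
0` because `cos t ≠ 1`, `2 (1 - cos t) |pv v|² = 0`), a subspace of dimension 3. Choose a linear
isometry of `W` onto `P` (both have dimension 3: `stdOrthonormalBasis`, `LinearIsometryEquiv` of
`EuclideanSpace`), compose with the inclusion and extend it to a linear isometry `B : ℝ⁵ → ℝ⁵`
(`LinearIsometry.extend`), which is bijective (finite dimension:
`LinearIsometry.toLinearIsometryEquiv`). `A' = B A B⁻¹` is orthogonal and fixes exactly the points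
of `P`; so it preserves the orthogonal complement `V` (`⟪A' v, p⟫ = ⟪A' v, A' p⟫ = ⟪v, p⟫ = 0`).
Let `A' e₃ = a e₃ + c e₄`, `A' e₄ = b e₃ + d e₄`: `a² + c² = 1`, `b² + d² = 1`, `a b + c d = 0`,
so `(b, d) = (- c, a)` or `(c, - a)`. In the second case the vectors `(1 + a) e₃ + c e₄` and `c e₃
+ (1 - a) e₄` of `V` are fixed, and one of them is not zero, a contradiction. So `A' = rotE s`
with `cos s = a`, `sin s = c` (`Complex.arg` or `Real.arccos`), and by the trace `a = cos t`, `c =
± sin t`: `A' = rotE t` or `A' = rotE (-t)`; in the second case replace `B` by `refE ∘ B` (`refE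
(rotE (-t) x) = rotE t (refE x)`).
-/

set_option autoImplicit false

open scoped ContDiff Topology
open Set Filter Metric

namespace Pool.Agent.Rot5

open Pool.Agent.HopfCov Pool.Agent.HopfFin Pool.Agent.HopfCov.Smooth Pool.Agent.Rot4

/-- the rotation as a linear map -/
private noncomputable def Orth_rot (t : ℝ) : E5 →L[ℝ] E5 :=
  pxL + Real.cos t • pvL + Real.sin t • JL

private theorem Orth_rot_apply (t : ℝ) (v : E5) : Orth_rot t v = rotE t v := (rotE_eq t v).symm

theorem fderiv_conj {K : E5 → E5} {x : E5} (hx : pv2 x = 0) (h : ContDiffAt ℝ ∞ K x) {t : ℝ}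
    {A : E5 →L[ℝ] E5} (ht : ∀ᶠ y in 𝓝 x, K (rotE t y) = A (K y)) (v : E5) :
    fderiv ℝ K x (rotE t v) = A (fderiv ℝ K x v) := by
  have hfix : Orth_rot t x = x := by
    rw [Orth_rot_apply]
    exact rotE_plane hx t
  have hd : HasFDerivAt K (fderiv ℝ K x) x := (h.differentiableAt (by simp)).hasFDerivAt
  have h1 : HasFDerivAt (fun y => K (Orth_rot t y)) ((fderiv ℝ K x).comp (Orth_rot t)) x := by
    have h2 : HasFDerivAt K (fderiv ℝ K x) (Orth_rot t x) := by rwa [hfix]
    exact h2.comp x (Orth_rot t).hasFDerivAt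
  have h3 : HasFDerivAt (fun y => A (K y)) (A.comp (fderiv ℝ K x)) x :=
    A.hasFDerivAt.comp x hd
  have h4 : (fun y => A (K y)) =ᶠ[𝓝 x] fun y => K (Orth_rot t y) := by
    filter_upwards [ht] with y hy
    rw [Orth_rot_apply, hy]
  have h5 := (h1.congr_of_eventuallyEq h4).unique h3
  have h6 := congrArg (fun T : E5 →L[ℝ] E5 => T v) h5
  simp only [ContinuousLinearMap.comp_apply] at h6
  rwa [Orth_rot_apply] at h6

private theorem Orth_trace (f : E5 →ₗ[ℝ] E5) :
    LinearMap.trace ℝ E5 f = ∑ i, (f (EuclideanSpace.single i 1)) i := by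
  rw [LinearMap.trace_eq_matrix_trace ℝ (EuclideanSpace.basisFun (Fin 5) ℝ).toBasis, Matrix.trace]
  refine Finset.sum_congr rfl fun i _ => ?_
  rw [Matrix.diag_apply, LinearMap.toMatrix_apply]
  simp

private theorem Orth_trace_rot (t : ℝ) :
    LinearMap.trace ℝ E5 (Orth_rot t : E5 →ₗ[ℝ] E5) = 3 + 2 * Real.cos t := by
  rw [Orth_trace]
  have h : ∀ v : E5, (Orth_rot t : E5 →ₗ[ℝ] E5) v = rotE t v := Orth_rot_apply t
  simp only [h, Fin.sum_univ_five]
  simp [rotE]
  ring

private theorem Orth_conj {L : E5 →L[ℝ] E5} (hL : L.det ≠ 0) {f g : E5 →ₗ[ℝ] E5}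
    (h : ∀ v, L (f v) = g (L v)) : LinearMap.trace ℝ E5 g = LinearMap.trace ℝ E5 f := by
  let e : E5 ≃ₗ[ℝ] E5 := (L.toContinuousLinearEquivOfDetNeZero hL).toLinearEquiv
  have he : ∀ v, e v = L v := fun v => by
    show (L.toContinuousLinearEquivOfDetNeZero hL) v = L v
    rw [ContinuousLinearMap.toContinuousLinearEquivOfDetNeZero_apply]
  have h1 : g = e.conj f := by
    ext1 v
    rw [LinearEquiv.conj_apply_apply, he, h, ← he, LinearEquiv.apply_symm_apply]
  rw [h1, LinearMap.trace_conj']

private theorem Orth_sin {s t : ℝ} (h : Real.cos s = Real.cos t) :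
    Real.sin s = Real.sin t ∨ Real.sin s = -Real.sin t := by
  apply sq_eq_sq_iff_eq_or_eq_neg.1
  have h1 := Real.sin_sq_add_cos_sq s
  have h2 := Real.sin_sq_add_cos_sq t
  rw [h] at h1
  linarith

theorem rot_angle {L : E5 →L[ℝ] E5} (hL : L.det ≠ 0) {s t : ℝ}
    (h : ∀ v, L (rotE t v) = rotE s (L v)) :
    (∀ v, rotE s v = rotE t v) ∨ ∀ v, rotE s v = rotE (-t) v := by
  have h1 := Orth_conj hL (f := (Orth_rot t : E5 →ₗ[ℝ] E5)) (g := (Orth_rot s : E5 →ₗ[ℝ] E5))
    (fun v => by
      have h2 := h v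
      rw [← Orth_rot_apply, ← Orth_rot_apply] at h2
      exact h2)
  rw [Orth_trace_rot, Orth_trace_rot] at h1
  have hc : Real.cos s = Real.cos t := by linarith
  rcases Orth_sin hc with h2 | h2
  · left
    intro v
    rw [rotE_eq, rotE_eq t, hc, h2]
  · right
    intro v
    rw [rotE_eq, rotE_eq (-t), hc, h2, Real.cos_neg, Real.sin_neg]

private theorem Orth_fix {i : Fin 5} (hi : i ≤ 2) (t : ℝ) :
    rotE t (EuclideanSpace.single i 1 : E5) = EuclideanSpace.single i 1 := by
  apply rotE_plane
  have h3 : i ≠ 3 := by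
    rintro rfl
    exact absurd hi (by decide)
  have h4 : i ≠ 4 := by
    rintro rfl
    exact absurd hi (by decide)
  simp [pv2, h3.symm, h4.symm]

/-- the reflection as an isometry -/
private noncomputable def Orth_ref : E5 ≃ₗᵢ[ℝ] E5 :=
  LinearIsometry.toLinearIsometryEquiv ⟨(refL : E5 →ₗ[ℝ] E5), norm_refE⟩ rfl

private theorem Orth_ref_apply (x : E5) : Orth_ref x = refE x := rfl

private theorem Orth_ref_rot (t : ℝ) (x : E5) : refE (rotE (-t) x) = rotE t (refE x) := by
  ext i
  fin_cases i <;> simp [refE, rotE]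
  ring

private theorem Orth_decomp (x : E5) : x = x 0 • (EuclideanSpace.single 0 1 : E5) +
    x 1 • (EuclideanSpace.single 1 1 : E5) + x 2 • (EuclideanSpace.single 2 1 : E5) +
    x 3 • (EuclideanSpace.single 3 1 : E5) + x 4 • (EuclideanSpace.single 4 1 : E5) := by
  ext i
  fin_cases i <;> simp

private theorem Orth_inner (x : E5) (i : Fin 5) :
    inner ℝ x (EuclideanSpace.single i 1 : E5) = x i := by
  simp [PiLp.inner_apply]

theorem orth_conj {L : E5 →L[ℝ] E5} (hL : L.det ≠ 0) {t : ℝ} (ht : Real.cos t ≠ 1)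
    {A : E5 ≃ₗᵢ[ℝ] E5} (h : ∀ v, L (rotE t v) = A (L v)) :
    ∃ B : E5 ≃ₗᵢ[ℝ] E5, ∀ x, B (A x) = rotE t (B x) := by
  have hker : LinearMap.ker (L : E5 →ₗ[ℝ] E5) = ⊥ := by
    by_contra hk
    exact hL (LinearMap.det_eq_zero_iff_ker_ne_bot.2 hk)
  have hsurj : Function.Surjective L := by
    have h1 : Function.Injective (L : E5 →ₗ[ℝ] E5) := LinearMap.ker_eq_bot.1 hker
    exact LinearMap.injective_iff_surjective.1 h1
  -- an orthonormal basis whose first three members are fixed by `A`
  let f : Fin 5 → E5 := fun i => L (EuclideanSpace.single i 1)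
  have hli : LinearIndependent ℝ f := by
    have h1 := (EuclideanSpace.basisFun (Fin 5) ℝ).toBasis.linearIndependent.map' _ hker
    have h2 : f = (L : E5 →ₗ[ℝ] E5) ∘ (EuclideanSpace.basisFun (Fin 5) ℝ).toBasis := by
      funext i
      simp [f]
    rw [h2]
    exact h1
  let b : OrthonormalBasis (Fin 5) ℝ E5 :=
    InnerProductSpace.gramSchmidtOrthonormalBasis (by simp) f
  have hbA : ∀ i : Fin 5, i ≤ 2 → A (b i) = b i := by
    intro i hi
    have hne : InnerProductSpace.gramSchmidt ℝ f i ≠ 0 :=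
      InnerProductSpace.gramSchmidt_ne_zero i hli
    have hne' : InnerProductSpace.gramSchmidtNormed ℝ f i ≠ 0 := by
      unfold InnerProductSpace.gramSchmidtNormed
      exact smul_ne_zero (by simpa using hne) hne
    have hbi : b i = InnerProductSpace.gramSchmidtNormed ℝ f i :=
      InnerProductSpace.gramSchmidtOrthonormalBasis_apply _ hne'
    have hmem : b i ∈ Submodule.span ℝ (f '' Set.Iic i) := by
      rw [hbi]
      unfold InnerProductSpace.gramSchmidtNormed
      exact Submodule.smul_mem _ _ (InnerProductSpace.gramSchmidt_mem_span ℝ f le_rfl)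
    have hle : Submodule.span ℝ (f '' Set.Iic i) ≤
        LinearMap.eqLocus (A.toLinearEquiv : E5 →ₗ[ℝ] E5) LinearMap.id := by
      rw [Submodule.span_le]
      rintro _ ⟨j, hj, rfl⟩
      show A (L (EuclideanSpace.single j 1)) = L (EuclideanSpace.single j 1)
      rw [← h, Orth_fix (le_trans hj hi)]
    exact hle hmem
  let B : E5 ≃ₗᵢ[ℝ] E5 := b.repr
  have hB : ∀ i, B (b i) = EuclideanSpace.single i 1 := fun i => b.repr_self i
  have hBs : ∀ i, B.symm (EuclideanSpace.single i 1) = b i := fun i => by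
    rw [← hB i, LinearIsometryEquiv.symm_apply_apply]
  let A' : E5 ≃ₗᵢ[ℝ] E5 := (B.symm.trans A).trans B
  have hA' : ∀ x, A' x = B (A (B.symm x)) := fun _ => rfl
  have hBA : ∀ x, B (A x) = A' (B x) := fun x => by
    rw [hA', LinearIsometryEquiv.symm_apply_apply]
  have hAf : ∀ i : Fin 5, i ≤ 2 → A' (EuclideanSpace.single i 1) = EuclideanSpace.single i 1 := by
    intro i hi
    rw [hA', hBs, hbA i hi, hB]
  have hz : ∀ i : Fin 5, i ≤ 2 → ∀ j : Fin 5, i ≠ j →
      (A' (EuclideanSpace.single j 1)) i = 0 := by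
    intro i hi j hij
    rw [← Orth_inner]
    conv_lhs => rw [← hAf i hi]
    rw [LinearIsometryEquiv.inner_map_map, Orth_inner]
    simp [hij]
  set a := (A' (EuclideanSpace.single 3 1)) 3 with ha
  set c := (A' (EuclideanSpace.single 3 1)) 4 with hc
  set p := (A' (EuclideanSpace.single 4 1)) 3 with hp
  set d := (A' (EuclideanSpace.single 4 1)) 4 with hd
  have h3 : A' (EuclideanSpace.single 3 1) = WithLp.toLp 2 ![0, 0, 0, a, c] := by
    ext i
    fin_cases i
    · exact hz 0 (by decide) 3 (by decide)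
    · exact hz 1 (by decide) 3 (by decide)
    · exact hz 2 (by decide) 3 (by decide)
    · rfl
    · rfl
  have h4 : A' (EuclideanSpace.single 4 1) = WithLp.toLp 2 ![0, 0, 0, p, d] := by
    ext i
    fin_cases i
    · exact hz 0 (by decide) 4 (by decide)
    · exact hz 1 (by decide) 4 (by decide)
    · exact hz 2 (by decide) 4 (by decide)
    · rfl
    · rfl
  have hform : ∀ x : E5, A' x =
      WithLp.toLp 2 ![x 0, x 1, x 2, a * x 3 + p * x 4, c * x 3 + d * x 4] := by
    intro x
    conv_lhs => rw [Orth_decomp x]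
    rw [map_add, map_add, map_add, map_add, map_smul, map_smul, map_smul, map_smul, map_smul,
      hAf 0 (by decide), hAf 1 (by decide), hAf 2 (by decide), h3, h4]
    ext i
    fin_cases i <;> simp
    · ring
    · ring
  -- the matrix is orthogonal
  have hinn : ∀ x y : E5, inner ℝ (A' x) (A' y) = inner ℝ x y :=
    fun x y => LinearIsometryEquiv.inner_map_map A' x y
  have e1 : a * a + c * c = 1 := by
    have h5 := hinn (EuclideanSpace.single 3 1) (EuclideanSpace.single 3 1)
    rw [h3, PiLp.inner_apply, PiLp.inner_apply] at h5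
    have h6 : a ^ 2 + c ^ 2 = 1 := by simpa [Fin.sum_univ_five] using h5
    linear_combination h6
  have e2 : p * p + d * d = 1 := by
    have h5 := hinn (EuclideanSpace.single 4 1) (EuclideanSpace.single 4 1)
    rw [h4, PiLp.inner_apply, PiLp.inner_apply] at h5
    have h6 : p ^ 2 + d ^ 2 = 1 := by simpa [Fin.sum_univ_five] using h5
    linear_combination h6
  have e3 : a * p + c * d = 0 := by
    have h5 := hinn (EuclideanSpace.single 4 1) (EuclideanSpace.single 3 1)
    rw [h3, h4, PiLp.inner_apply, PiLp.inner_apply] at h5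
    simpa [Fin.sum_univ_five] using h5
  -- the traces
  have htr1 : LinearMap.trace ℝ E5 (A.toLinearEquiv : E5 →ₗ[ℝ] E5) = 3 + 2 * Real.cos t := by
    rw [← Orth_trace_rot]
    refine Orth_conj hL (fun v => ?_)
    have h5 := h v
    rw [← Orth_rot_apply] at h5
    exact h5
  have htr2 : LinearMap.trace ℝ E5 (A'.toLinearEquiv : E5 →ₗ[ℝ] E5) = 3 + (a + d) := by
    rw [Orth_trace]
    have h5 : ∀ v : E5, (A'.toLinearEquiv : E5 →ₗ[ℝ] E5) v = A' v := fun _ => rfl
    simp only [h5, hform, Fin.sum_univ_five]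
    simp
    ring
  have htr3 : (A'.toLinearEquiv : E5 →ₗ[ℝ] E5) =
      B.toLinearEquiv.conj (A.toLinearEquiv : E5 →ₗ[ℝ] E5) := by
    ext1 v
    rfl
  have htr : a + d = 2 * Real.cos t := by
    rw [htr3, LinearMap.trace_conj', htr1] at htr2
    linarith
  have hdet : (a * d - p * c - 1) * (a * d - p * c + 1) = 0 := by
    linear_combination (p * p + d * d) * e1 + e2 - (a * p + c * d) * e3
  have hd1 : d = a * (a * d - p * c) := by
    linear_combination (-d) * e1 + c * e3
  have hp1 : p = -c * (a * d - p * c) := by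
    linear_combination (-p) * e1 + a * e3
  rcases mul_eq_zero.1 hdet with h5 | h5
  · have h6 : a * d - p * c = 1 := by linarith
    rw [h6, mul_one] at hd1 hp1
    have ha1 : a = Real.cos t := by linarith
    have hc1 : c = Real.sin t ∨ c = -Real.sin t := by
      apply sq_eq_sq_iff_eq_or_eq_neg.1
      have h7 := Real.sin_sq_add_cos_sq t
      rw [ha1] at e1
      linarith [e1, h7, sq (Real.cos t), sq c]
    rcases hc1 with hc1 | hc1
    · refine ⟨B, fun x => ?_⟩
      rw [hBA, hform]
      unfold rotE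
      rw [hd1, hp1, ha1, hc1]
      ext i
      fin_cases i <;> simp
      ring
    · refine ⟨B.trans Orth_ref, fun x => ?_⟩
      have h7 : A' (B x) = rotE (-t) (B x) := by
        rw [hform]
        unfold rotE
        rw [hd1, hp1, ha1, hc1, Real.cos_neg, Real.sin_neg]
        ext i
        fin_cases i <;> simp
      rw [LinearIsometryEquiv.trans_apply, LinearIsometryEquiv.trans_apply, Orth_ref_apply,
        Orth_ref_apply, hBA, h7, Orth_ref_rot]
  · exfalso
    have h6 : a * d - p * c = -1 := by linarith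
    rw [h6] at hd1 hp1
    have hp2 : p = c := by linarith
    have hd2 : d = -a := by linarith
    have hcos : Real.cos t = 0 := by linarith
    have hsq : ∀ x, A' (A' x) = x := by
      intro x
      rw [hform, hform]
      rw [hp2, hd2]
      ext i
      fin_cases i <;> simp
      · linear_combination x 3 * e1
      · linear_combination x 4 * e1
    have hAA : ∀ x, A (A x) = x := by
      intro x
      apply B.injective
      rw [hBA, hBA, hsq]
    have hrr : rotE t (rotE t (EuclideanSpace.single 3 1 : E5)) = EuclideanSpace.single 3 1 := by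
      have h7 : Function.Injective L := LinearMap.ker_eq_bot.1 hker
      apply h7
      rw [h, h, hAA]
    have h8 := congrArg (fun v : E5 => v 3) hrr
    simp [rotE, hcos] at h8
    have h9 := Real.sin_sq_add_cos_sq t
    rw [hcos] at h9
    nlinarith

end Pool.Agent.Rot5
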