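import Pool.Agent.Rot5.QLin
import Pool.Agent.Rot5.Interp2
import Pool.Agent.Rot5.ConeLD
import Pool.Agent.Rot5.Orth

/-!
# Averaging: a map which conjugates an action to the rotation near the 2-sphere

PROOF of `exists_avg`. `Gc = cone g`, `Hc = cone h`, `θ = 2 π / n`. `Gc x = x` for `pv2 x = 0`
(`hfix`), `Gc^[n] x = x` (`hpow`, `unit_cone`, `smul_vec_unit`), `Hc (Gc x) = rotE θ (Hc x)` for
all `x` (`cone` of a composition), `Hc` preserves `P` (if `OnS2 x` then `g x = x`, so `rotS n (h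
x) = h x`, `rotS_fix_iff`). For `p ≠ 0`, `pv2 p = 0`: `A = fderiv Gc p` satisfies `A v = v` for
`pvL v = 0` (`Gc` is the identity on `P`; the line `p + t v`), `N = fderiv Hc p` preserves `P`
(`fderiv_plane`) and `N (A v) = rotE θ (N v)` (chain rule, `Gc p = p`); `0 < detA N`: `hpos` for
`p = vec x`, and `fderiv_hom` for the multiples. `Q p = qL n (fderiv ℝ Gc (pxL p))`; `B x = pxL x
+ Q x (pvL x)`; `B` is homogeneous (`fderiv_hom`), `B x = x` on `P`, smooth near the points `≠ 0`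
of `P` (`contDiffAt_q`, `fderiv ℝ Gc` is smooth there; `entry_pos`), and `fderiv B p v = pxL v +
qL n A (pvL v)` (product rule, `pvL p = 0`; `qL n A (pvL v) = qL n A v`). `G x = n⁻¹ • ∑ k ∈ range
n, rotE (- k θ) (B (Gc^[k] x))`.
- homogeneity, `G x = x` on `P`, smoothness: clear (`Gc^[k]` is smooth near `p`, and `Gc^[k] p =
p`).
- `G (Gc x) = rotE θ (G x)`: shift the index (`Finset.sum_range_succ`, `sum_range_succ'`), `Gc^[n]
x = x`, `rotE (- n θ) = id`.
- `M = fderiv G p = n⁻¹ ∑ rotE (- k θ) ∘ (fderiv B p) ∘ A ^ k`: `M v = v` on `P`, and `pvL (M v) =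
n⁻¹ ∑ rotE (- k θ) (qL n A (A ^ k v)) = qL n A v` by `q_comm`. So `det_q` gives the last property
of `Fix5`.
-/

set_option autoImplicit false

open scoped ContDiff Topology Manifold
open Set Filter Metric

namespace Pool.Agent.Rot5

open Pool.Agent.HopfCov Pool.Agent.HopfFin Pool.Agent.HopfCov.Smooth Pool.Agent.Rot4

private theorem Avg_rot (s t : ℝ) (x : E5) : rotE s (rotE t x) = rotE (s + t) x := by
  rw [rotE_eq s, px_rotE, pv_rotE, J_rotE, rotE_eq (s + t), Real.cos_add, Real.sin_add]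
  module

private theorem Avg_zero (x : E5) : rotE 0 x = x := by
  rw [rotE_eq, Real.cos_zero, Real.sin_zero, one_smul, zero_smul, add_zero, px_add_pv]

private theorem Avg_period (t : ℝ) (x : E5) : rotE (t - 2 * Real.pi) x = rotE t x := by
  rw [rotE_eq, rotE_eq t, Real.cos_sub_two_pi, Real.sin_sub_two_pi]

private theorem Avg_comp (f g : Sph4 → Sph4) (x : E5) :
    cone g (cone f x) = cone (fun y => g (f y)) x := by
  by_cases h : x = 0
  · subst h
    simp [cone]
  · show ‖cone f x‖ • vec (g (unit (cone f x))) = ‖x‖ • vec (g (f (unit x)))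
    rw [norm_cone, unit_cone f h]

private theorem Avg_iter (g : Sph4 → Sph4) (k : ℕ) (x : E5) :
    (cone g)^[k] x = cone (g^[k]) x := by
  induction k with
  | zero => exact (smul_vec_unit x).symm
  | succ k ih =>
    rw [Function.iterate_succ_apply', ih, Avg_comp]
    congr 1
    funext y
    exact (Function.iterate_succ_apply' g k y).symm

private theorem Avg_line (x v : E5) : HasDerivAt (fun s : ℝ => x + s • v) v 0 := by
  simpa using ((hasDerivAt_id (0 : ℝ)).smul_const v).const_add x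

private theorem Avg_along {F : E5 → E5} {x : E5} (h : DifferentiableAt ℝ F x) (v : E5) :
    HasDerivAt (fun s : ℝ => F (x + s • v)) (fderiv ℝ F x v) 0 := by
  have h0 : HasFDerivAt F (fderiv ℝ F x) (x + (0 : ℝ) • v) := by
    simpa using h.hasFDerivAt
  exact h0.comp_hasDerivAt (0 : ℝ) (Avg_line x v)

private theorem Avg_fix {F : E5 → E5} {x : E5} (hx : pv2 x = 0) (h : DifferentiableAt ℝ F x)
    (hP : ∀ x, pv2 x = 0 → F x = x) (v : E5) (hv : pvL v = 0) : fderiv ℝ F x v = v := by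
  have h2 := Avg_along h v
  have h4 : (fun s : ℝ => F (x + s • v)) = fun s => x + s • v := by
    funext s
    refine hP _ (pv2_eq_zero.2 ?_)
    rw [map_add, map_smul, hv, pv2_eq_zero.1 hx, smul_zero, add_zero]
  rw [h4] at h2
  exact h2.unique (Avg_line x v)

/-- the map which normalises the derivative -/
private noncomputable def Avg_B (n : ℕ) (F : E5 → E5) (x : E5) : E5 :=
  pxL x + qL n (fderiv ℝ F (pxL x)) (pvL x)

private theorem Avg_B_smooth {n : ℕ} {F : E5 → E5} {x : E5} (hF : ContDiffAt ℝ ∞ F (pxL x))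
    (h : n = 2 ∨ (fderiv ℝ F (pxL x) b3) 4 ≠ 0) : ContDiffAt ℝ ∞ (Avg_B n F) x := by
  have hD : ContDiffAt ℝ ∞ (fderiv ℝ F) (pxL x) := hF.fderiv_right (m := ∞) (by simp)
  have h2 : ContDiffAt ℝ ∞ (fun y => fderiv ℝ F (pxL y)) x :=
    hD.comp x pxL.contDiff.contDiffAt
  exact pxL.contDiff.contDiffAt.add (contDiffAt_q h2 pvL.contDiff.contDiffAt h)

private theorem Avg_B_fderiv {n : ℕ} {F : E5 → E5} {x : E5} (hx : pv2 x = 0)
    (hF : ContDiffAt ℝ ∞ F x) (h : n = 2 ∨ (fderiv ℝ F x b3) 4 ≠ 0) (v : E5) :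
    fderiv ℝ (Avg_B n F) x v = pxL v + qL n (fderiv ℝ F x) (pvL v) := by
  have e1 := px_of_plane hx
  have e2 := pv2_eq_zero.1 hx
  have hF' : ContDiffAt ℝ ∞ F (pxL x) := by rwa [e1]
  have h' : n = 2 ∨ (fderiv ℝ F (pxL x) b3) 4 ≠ 0 := by rwa [e1]
  have hD : ContDiffAt ℝ ∞ (fderiv ℝ F) (pxL x) := hF'.fderiv_right (m := ∞) (by simp)
  have h2 : ContDiffAt ℝ ∞ (fun y => fderiv ℝ F (pxL y)) x :=
    hD.comp x pxL.contDiff.contDiffAt
  have h3 : ContDiffAt ℝ ∞ (fun y => qL n (fderiv ℝ F (pxL y)) (pvL v)) x :=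
    contDiffAt_q h2 contDiffAt_const h'
  have h5 := Avg_along ((Avg_B_smooth hF' h').differentiableAt (by simp)) v
  have h6 := Avg_along (h3.differentiableAt (by simp)) v
  have h7 := (hasDerivAt_id (0 : ℝ)).smul h6
  have h9 : HasDerivAt (fun s : ℝ => pxL (x + s • v)) (pxL v) 0 :=
    pxL.hasFDerivAt.comp_hasDerivAt (0 : ℝ) (Avg_line x v)
  have h10 := h9.add h7
  have h8 : (fun s : ℝ => Avg_B n F (x + s • v)) = fun s : ℝ => pxL (x + s • v) +
      id s • qL n (fderiv ℝ F (pxL (x + s • v))) (pvL v) := by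
    funext s
    unfold Avg_B
    congr 1
    rw [map_add pvL, map_smul pvL, e2, zero_add, map_smul]
    rfl
  rw [h8] at h5
  have h11 := h5.unique h10
  rw [h11]
  simp [e1]

private theorem Avg_qL_pv (n : ℕ) (A : E5 →L[ℝ] E5) (v : E5) : qL n A (pvL v) = qL n A v := by
  rw [qL_apply, qL_apply]
  rfl

private theorem Avg_pv_qL (n : ℕ) (A : E5 →L[ℝ] E5) (v : E5) : pvL (qL n A v) = qL n A v := by
  rw [pvL_apply, qL_apply]
  rfl

theorem exists_avg {n : ℕ} (hn : 2 ≤ n) {g h : Sph4 ≃ₜ Sph4} (hg : ∀ x, LocalDiffeoAt g x)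
    (hpow : ∀ x, g^[n] x = x) (hfix : ∀ x, OnS2 x → g x = x)
    (hc : ∀ x, h (g x) = rotS n (h x)) (hh : ∀ x, OnS2 x → LocalDiffeoAt h x)
    (hpos : ∀ x, OnS2 x → 0 < detA (fderiv ℝ (cone h) (vec x))) :
    ∃ G : E5 → E5, Fix5 G ∧ ∀ x, G (cone g x) = rotE (2 * Real.pi / n) (G x) := by
  set θ : ℝ := 2 * Real.pi / n with hθ
  have hn0 : (n : ℝ) ≠ 0 := Nat.cast_ne_zero.2 (by omega)
  have hnθ : (n : ℝ) * θ = 2 * Real.pi := mul_div_cancel₀ _ hn0
  set Gc : E5 → E5 := cone g with hGc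
  have hGs : ∀ c : ℝ, 0 < c → ∀ x, Gc (c • x) = c • Gc x := fun c hc x => cone_smul g hc x
  have hHs : ∀ c : ℝ, 0 < c → ∀ x, cone h (c • x) = c • cone h x := fun c hc x =>
    cone_smul h hc x
  have h0 : ∀ f : Sph4 → Sph4, cone f 0 = 0 := fun f => by simp [cone]
  have hGp : ∀ x, pv2 x = 0 → Gc x = x := by
    intro x hx
    by_cases hx0 : x = 0
    · rw [hx0]
      exact h0 g
    · show ‖x‖ • vec (g (unit x)) = x
      rw [hfix _ ((OnS2_unit hx0).2 hx), smul_vec_unit]
  have hGn : ∀ x, Gc^[n] x = x := by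
    intro x
    rw [hGc, Avg_iter]
    show ‖x‖ • vec (g^[n] (unit x)) = x
    rw [hpow, smul_vec_unit]
  have hGne : ∀ x, x ≠ 0 → Gc x ≠ 0 := fun x hx => cone_ne hx
  have hGr : ∀ x, x ≠ 0 → RG Gc x := by
    intro x hx
    have h1 := rg_hom hGs (norm_pos_iff.2 hx) (reg_cone (hg (unit x))).self_of_nhds
    rwa [smul_vec_unit] at h1
  have hHr : ∀ x, x ≠ 0 → pv2 x = 0 → RG (cone h) x := by
    intro x hx hx'
    have h1 := rg_hom hHs (norm_pos_iff.2 hx)
      (reg_cone (hh (unit x) ((OnS2_unit hx).2 hx'))).self_of_nhds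
    rwa [smul_vec_unit] at h1
  have hHG : ∀ x, cone h (Gc x) = rotE θ (cone h x) := by
    intro x
    rw [hGc, Avg_comp]
    show ‖x‖ • vec (h (g (unit x))) = rotE θ (‖x‖ • vec (h (unit x)))
    rw [hc, rotE_smul]
    rfl
  have hHP : ∀ x, pv2 x = 0 → pv2 (cone h x) = 0 := by
    intro x hx
    by_cases hx0 : x = 0
    · rw [hx0, h0 h, ← hx, hx0]
    · show pv2 (‖x‖ • vec (h (unit x))) = 0
      have h1 : rotS n (h (unit x)) = h (unit x) := by
        rw [← hc, hfix _ ((OnS2_unit hx0).2 hx)]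
      rw [pv2_smul, OnS2_iff.1 ((rotS_fix_iff hn).1 h1), mul_zero]
  -- the derivatives at the points of the plane
  have hA : ∀ x, x ≠ 0 → pv2 x = 0 → ∀ v, pvL v = 0 → fderiv ℝ Gc x v = v := fun x hx hx' =>
    Avg_fix hx' ((hGr x hx).1.differentiableAt (by simp)) hGp
  have hN : ∀ x, x ≠ 0 → pv2 x = 0 → ∀ v, pvL v = 0 → pvL (fderiv ℝ (cone h) x v) = 0 :=
    fun x hx hx' => fderiv_plane hx' (hHr x hx hx').1 hHP
  have hNA : ∀ x, x ≠ 0 → pv2 x = 0 → ∀ v, fderiv ℝ (cone h) x (fderiv ℝ Gc x v) =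
      rotE θ (fderiv ℝ (cone h) x v) := by
    intro x hx hx' v
    have h1 : HasFDerivAt Gc (fderiv ℝ Gc x) x :=
      ((hGr x hx).1.differentiableAt (by simp)).hasFDerivAt
    have h2 : HasFDerivAt (cone h) (fderiv ℝ (cone h) x) x :=
      ((hHr x hx hx').1.differentiableAt (by simp)).hasFDerivAt
    have h2' : HasFDerivAt (cone h) (fderiv ℝ (cone h) x) (Gc x) := by
      rw [hGp x hx']
      exact h2
    have h3 := h2'.comp x h1
    set R : E5 →L[ℝ] E5 := pxL + Real.cos θ • pvL + Real.sin θ • JL with hR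
    have h4 : HasFDerivAt (fun y => R (cone h y)) (R.comp (fderiv ℝ (cone h) x)) x :=
      R.hasFDerivAt.comp x h2
    have h5 : (cone h ∘ Gc) = fun y => R (cone h y) := by
      funext y
      rw [hR, rotE_clm]
      exact hHG y
    rw [h5] at h3
    have h6 := congrArg (fun L : E5 →L[ℝ] E5 => L v) (h3.unique h4)
    simp only [ContinuousLinearMap.comp_apply] at h6
    rw [h6, hR, rotE_clm]
  have hdet : ∀ x, x ≠ 0 → pv2 x = 0 → 0 < detA (fderiv ℝ (cone h) x) := by
    intro x hx hx'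
    have h1 := hpos (unit x) ((OnS2_unit hx).2 hx')
    rw [← fderiv_hom hHs (norm_pos_iff.2 hx), smul_vec_unit] at h1
    exact h1
  have hent : ∀ x, x ≠ 0 → pv2 x = 0 → n = 2 ∨ (fderiv ℝ Gc x b3) 4 ≠ 0 := by
    intro x hx hx'
    rcases Nat.lt_or_ge 2 n with h3 | h3
    · exact Or.inr (entry_pos h3 (hN x hx hx') (hNA x hx hx') (hdet x hx hx')).ne'
    · exact Or.inl (le_antisymm h3 hn)
  -- the map `B`
  have hBs : ∀ c : ℝ, 0 < c → ∀ x, Avg_B n Gc (c • x) = c • Avg_B n Gc x := by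
    intro c hc' x
    unfold Avg_B
    rw [map_smul pxL, map_smul pvL, fderiv_hom hGs hc', map_smul, smul_add]
  have hBp : ∀ x, pv2 x = 0 → Avg_B n Gc x = x := by
    intro x hx
    unfold Avg_B
    rw [pv2_eq_zero.1 hx, map_zero, add_zero, px_of_plane hx]
  have hBc : ∀ x, pxL x ≠ 0 → ContDiffAt ℝ ∞ (Avg_B n Gc) x := fun x hx =>
    Avg_B_smooth (hGr _ hx).1 (hent _ hx (pv2_pxL x))
  -- the iterates
  have hIs : ∀ k : ℕ, ∀ c : ℝ, 0 < c → ∀ x, Gc^[k] (c • x) = c • Gc^[k] x := by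
    intro k c hc' x
    rw [hGc, Avg_iter, Avg_iter]
    exact cone_smul _ hc' x
  have hIp : ∀ k : ℕ, ∀ x, pv2 x = 0 → Gc^[k] x = x := by
    intro k x hx
    induction k with
    | zero => rfl
    | succ k ih => rw [Function.iterate_succ_apply', ih, hGp x hx]
  have hIc : ∀ k : ℕ, ∀ x, x ≠ 0 → ContDiffAt ℝ ∞ (Gc^[k]) x := by
    intro k x hx
    induction k with
    | zero => exact contDiffAt_id
    | succ k ih =>
      rw [Function.iterate_succ']
      refine ContDiffAt.comp x (hGr _ ?_).1 ih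
      rw [hGc, Avg_iter]
      exact cone_ne hx
  have hrotc : ∀ t : ℝ, ContDiff ℝ ∞ (rotE t) := by
    intro t
    have h1 : rotE t = fun x => (pxL + Real.cos t • pvL + Real.sin t • JL) x :=
      funext fun x => (rotE_clm t x).symm
    rw [h1]
    exact ContinuousLinearMap.contDiff _
  set G : E5 → E5 := fun x => (n : ℝ)⁻¹ • ∑ k ∈ Finset.range n,
    rotE (-(k * θ)) (Avg_B n Gc (Gc^[k] x)) with hG
  have hGplane : ∀ x, pv2 x = 0 → G x = x := by
    intro x hx
    have h1 : ∀ k ∈ Finset.range n, rotE (-(k * θ)) (Avg_B n Gc (Gc^[k] x)) = x :=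
      fun k _ => by rw [hIp k x hx, hBp x hx, rotE_plane hx]
    rw [hG]
    dsimp only
    rw [Finset.sum_congr rfl h1, Finset.sum_const, Finset.card_range,
      ← Nat.cast_smul_eq_nsmul ℝ, smul_smul, inv_mul_cancel₀ hn0, one_smul]
  refine ⟨G, ⟨?_, hGplane, ?_, ?_⟩, ?_⟩
  · intro c hc' x
    have h1 : ∀ k ∈ Finset.range n, rotE (-(k * θ)) (Avg_B n Gc (Gc^[k] (c • x))) =
        c • rotE (-(k * θ)) (Avg_B n Gc (Gc^[k] x)) := fun k _ => by
      rw [hIs k c hc', hBs c hc', rotE_smul]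
    rw [hG]
    dsimp only
    rw [Finset.sum_congr rfl h1, ← Finset.smul_sum, smul_comm]
  · intro x hx hx'
    have h1 : ∀ᶠ y in 𝓝 x, ∀ k ∈ Finset.range n, pxL (Gc^[k] y) ≠ 0 := by
      rw [Filter.eventually_all_finset]
      intro k _
      have h2 : ContinuousAt (fun y => pxL (Gc^[k] y)) x :=
        pxL.continuous.continuousAt.comp (hIc k x hx).continuousAt
      refine h2.eventually_ne ?_
      rw [hIp k x hx', px_of_plane hx']
      exact hx
    filter_upwards [h1, isOpen_ne.eventually_mem hx] with y hy hy0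
    rw [hG]
    refine ContDiffAt.const_smul _ (ContDiffAt.sum fun k hk => ?_)
    exact (hrotc _).contDiffAt.comp y ((hBc _ (hy k hk)).comp y (hIc k y hy0))
  · intro x hx hx' χ hχ0 hχ1
    set A : E5 →L[ℝ] E5 := fderiv ℝ Gc x with hAdef
    have hbpos : 0 < qb n A := qb_pos hn (hN x hx hx') (hNA x hx hx') (hdet x hx hx')
    have hGd : HasFDerivAt Gc A x := ((hGr x hx).1.differentiableAt (by simp)).hasFDerivAt
    have hBd : HasFDerivAt (Avg_B n Gc) (fderiv ℝ (Avg_B n Gc) x) x := by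
      have h1 : pxL x ≠ 0 := by
        rw [px_of_plane hx']
        exact hx
      exact ((hBc x h1).differentiableAt (by simp)).hasFDerivAt
    set DB : E5 →L[ℝ] E5 := fderiv ℝ (Avg_B n Gc) x with hDB
    have hDBv : ∀ v, DB v = pxL v + qL n A (pvL v) := fun v =>
      Avg_B_fderiv hx' (hGr x hx).1 (hent x hx hx') v
    have hterm : ∀ k ∈ Finset.range n, HasFDerivAt
        (fun y => rotE (-(k * θ)) (Avg_B n Gc (Gc^[k] y)))
        ((pxL + Real.cos (-(k * θ)) • pvL + Real.sin (-(k * θ)) • JL).comp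
          (DB.comp (A ^ k))) x := by
      intro k _
      have h1 : HasFDerivAt (Gc^[k]) (A ^ k) x := hGd.iterate (hGp x hx') k
      have h2 : HasFDerivAt (Avg_B n Gc) DB (Gc^[k] x) := by
        rw [hIp k x hx']
        exact hBd
      have h3 := h2.comp x h1
      have h4 := (pxL + Real.cos (-(k * θ)) • pvL +
        Real.sin (-(k * θ)) • JL : E5 →L[ℝ] E5).hasFDerivAt.comp x h3
      refine h4.congr_of_eventuallyEq (Eventually.of_forall fun y => ?_)
      exact (rotE_clm _ _).symm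
    have hsum : HasFDerivAt G ((n : ℝ)⁻¹ • ∑ k ∈ Finset.range n,
        (pxL + Real.cos (-(k * θ)) • pvL + Real.sin (-(k * θ)) • JL).comp
          (DB.comp (A ^ k))) x := (HasFDerivAt.fun_sum hterm).const_smul (n : ℝ)⁻¹
    refine det_q hbpos (Avg_fix hx' hsum.differentiableAt hGplane) (fun v => ?_) hχ0 hχ1
    rw [hsum.fderiv]
    have hqk : ∀ k : ℕ, qL n A ((A ^ k) v) = rotE (k * θ) (qL n A v) := by
      intro k
      induction k with
      | zero =>
        rw [pow_zero, Nat.cast_zero, zero_mul, Avg_zero]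
        rfl
      | succ k ih =>
        have h1 : (A ^ (k + 1)) v = A ((A ^ k) v) := by
          rw [pow_succ']
          rfl
        rw [h1, q_comm hn (hA x hx hx') (hN x hx hx') (hNA x hx hx') (hdet x hx hx'), ih,
          Avg_rot]
        congr 1
        push_cast
        ring
    have hk : ∀ k ∈ Finset.range n, pvL (((pxL + Real.cos (-(k * θ)) • pvL +
        Real.sin (-(k * θ)) • JL).comp (DB.comp (A ^ k))) v) = qL n A v := by
      intro k _
      rw [ContinuousLinearMap.comp_apply, ContinuousLinearMap.comp_apply, rotE_clm, hDBv,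
        Avg_qL_pv, hqk, rotE_add, rotE_plane (pv2_pxL _), map_add, pv_px, zero_add, Avg_rot,
        neg_add_cancel, Avg_zero, Avg_pv_qL]
    rw [smul_apply, map_smul, sum_apply, map_sum,
      Finset.sum_congr rfl hk, Finset.sum_const, Finset.card_range,
      ← Nat.cast_smul_eq_nsmul ℝ, smul_smul, inv_mul_cancel₀ hn0, one_smul]
  · intro x
    set f : ℕ → E5 := fun k => rotE (θ - k * θ) (Avg_B n Gc (Gc^[k] x)) with hf
    have h1 : G (Gc x) = (n : ℝ)⁻¹ • ∑ k ∈ Finset.range n, f (k + 1) := by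
      rw [hG]
      dsimp only
      congr 1
      refine Finset.sum_congr rfl fun k _ => ?_
      rw [hf]
      dsimp only
      rw [Function.iterate_succ_apply]
      congr 1
      push_cast
      ring
    have h2 : rotE θ (G x) = (n : ℝ)⁻¹ • ∑ k ∈ Finset.range n, f k := by
      rw [hG]
      dsimp only
      rw [rotE_smul]
      congr 1
      have h3 : ∀ (s : Finset ℕ) (F : ℕ → E5), rotE θ (∑ k ∈ s, F k) =
          ∑ k ∈ s, rotE θ (F k) := by
        intro s F
        rw [← rotE_clm, map_sum]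
        exact Finset.sum_congr rfl fun k _ => rotE_clm _ _
      rw [h3]
      refine Finset.sum_congr rfl fun k _ => ?_
      rw [hf]
      dsimp only
      rw [Avg_rot]
      congr 1
    have h3 : f n = f 0 := by
      rw [hf]
      dsimp only
      rw [hGn, hnθ, Avg_period, Nat.cast_zero, zero_mul, sub_zero]
      rfl
    have h4 : ∑ k ∈ Finset.range n, f (k + 1) = ∑ k ∈ Finset.range n, f k := by
      have h5 := Finset.sum_range_succ f n
      have h6 := Finset.sum_range_succ' f n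
      rw [h6, h3] at h5
      exact add_right_cancel h5
    show G (Gc x) = rotE θ (G x)
    rw [h1, h2, h4]

end Pool.Agent.Rot5
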