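import Pool.Agent.Rot5.Defs

/-!
# Rotations and the reflection of the 4-sphere

PROOFS. All identities: `Subtype.ext`, `ext i`, `fin_cases i`, `simp [rotA, rotE, vec, ..]` and the
addition formulas for `sin`, `cos`. `rotS_fix_iff`: a fixed point satisfies `(cos θ - 1) x₃ = sin θ
x₄`, `(cos θ - 1) x₄ = - sin θ x₃`, so `2 (1 - cos θ) (x₃² + x₄²) = 0` and `cos θ ≠ 1` for
`θ = 2 π / n`, `n ≥ 2` (`0 < θ < 2 π`, `Real.cos_eq_one_iff_of_lt_of_lt` applied to `θ` or to
`θ - 2 π`; or `Real.cos_eq_one_iff`).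
-/

set_option autoImplicit false

open scoped ContDiff Topology Manifold
open Set Filter Metric

namespace Pool.Agent.Rot5

open Pool.Agent.HopfCov Pool.Agent.HopfFin Pool.Agent.HopfCov.Smooth Pool.Agent.Rot4

theorem vec_inj {x y : Sph4} (h : vec x = vec y) : x = y := Subtype.ext h

theorem norm_vec (x : Sph4) : ‖vec x‖ = 1 := mem_sphere_zero_iff_norm.1 x.2

theorem continuous_vec : Continuous vec := continuous_subtype_val

private theorem vec_rotA (t : ℝ) (x : Sph4) : vec (rotA t x) = rotE t (vec x) := rfl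

private theorem vec_refS (x : Sph4) : vec (refS x) = refE (vec x) := rfl

private theorem rotE_rotE (s t : ℝ) (x : E5) : rotE s (rotE t x) = rotE (s + t) x := by
  ext i
  fin_cases i
  · rfl
  · rfl
  · rfl
  · show Real.cos s * (Real.cos t * x 3 - Real.sin t * x 4) -
      Real.sin s * (Real.sin t * x 3 + Real.cos t * x 4) =
      Real.cos (s + t) * x 3 - Real.sin (s + t) * x 4
    rw [Real.cos_add, Real.sin_add]
    ring
  · show Real.sin s * (Real.cos t * x 3 - Real.sin t * x 4) +
      Real.cos s * (Real.sin t * x 3 + Real.cos t * x 4) =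
      Real.sin (s + t) * x 3 + Real.cos (s + t) * x 4
    rw [Real.cos_add, Real.sin_add]
    ring

private theorem rotE_eq_self {t : ℝ} (hc : Real.cos t = 1) (hs : Real.sin t = 0) (x : E5) :
    rotE t x = x := by
  ext i
  fin_cases i
  · rfl
  · rfl
  · rfl
  · show Real.cos t * x 3 - Real.sin t * x 4 = x 3
    rw [hc, hs]
    ring
  · show Real.sin t * x 3 + Real.cos t * x 4 = x 4
    rw [hc, hs]
    ring

private theorem refE_refE (x : E5) : refE (refE x) = x := by
  ext i
  fin_cases i
  · rfl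
  · rfl
  · rfl
  · rfl
  · show - - x 4 = x 4
    ring

private theorem refE_rotE (t : ℝ) (x : E5) : refE (rotE t x) = rotE (-t) (refE x) := by
  ext i
  fin_cases i
  · rfl
  · rfl
  · rfl
  · show Real.cos t * x 3 - Real.sin t * x 4 = Real.cos (-t) * x 3 - Real.sin (-t) * -x 4
    rw [Real.cos_neg, Real.sin_neg]
    ring
  · show -(Real.sin t * x 3 + Real.cos t * x 4) = Real.sin (-t) * x 3 + Real.cos (-t) * -x 4
    rw [Real.cos_neg, Real.sin_neg]
    ring

theorem rotA_rotA (s t : ℝ) (x : Sph4) : rotA s (rotA t x) = rotA (s + t) x := by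
  apply vec_inj
  rw [vec_rotA, vec_rotA, vec_rotA, rotE_rotE]

theorem rotA_zero (x : Sph4) : rotA 0 x = x := by
  apply vec_inj
  rw [vec_rotA]
  exact rotE_eq_self Real.cos_zero Real.sin_zero _

theorem rotA_two_pi (x : Sph4) : rotA (2 * Real.pi) x = x := by
  apply vec_inj
  rw [vec_rotA]
  exact rotE_eq_self Real.cos_two_pi Real.sin_two_pi _

theorem rotS_iterate (n k : ℕ) (x : Sph4) : (rotS n)^[k] x = rotA (k * (2 * Real.pi / n)) x := by
  induction k with
  | zero =>
    simp [rotA_zero]
  | succ k ih =>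
    rw [Function.iterate_succ_apply', ih, rotS, rotA_rotA]
    congr 1
    push_cast
    ring

theorem rotS_pow {n : ℕ} (hn : 0 < n) (x : Sph4) : (rotS n)^[n] x = x := by
  have h : (n : ℝ) ≠ 0 := Nat.cast_ne_zero.2 hn.ne'
  rw [rotS_iterate, mul_div_cancel₀ _ h, rotA_two_pi]

theorem OnS2_rotA {t : ℝ} {x : Sph4} : OnS2 (rotA t x) ↔ OnS2 x := by
  have h := Real.sin_sq_add_cos_sq t
  constructor
  · rintro ⟨h3, h4⟩
    have e3 : Real.cos t * vec x 3 - Real.sin t * vec x 4 = 0 := h3
    have e4 : Real.sin t * vec x 3 + Real.cos t * vec x 4 = 0 := h4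
    constructor
    · linear_combination Real.cos t * e3 + Real.sin t * e4 - vec x 3 * h
    · linear_combination Real.cos t * e4 - Real.sin t * e3 - vec x 4 * h
  · rintro ⟨h3, h4⟩
    constructor
    · show Real.cos t * vec x 3 - Real.sin t * vec x 4 = 0
      rw [h3, h4]
      ring
    · show Real.sin t * vec x 3 + Real.cos t * vec x 4 = 0
      rw [h3, h4]
      ring

theorem rotA_fix {t : ℝ} {x : Sph4} (hx : OnS2 x) : rotA t x = x := by
  obtain ⟨h3, h4⟩ := hx
  apply vec_inj
  rw [vec_rotA]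
  ext i
  fin_cases i
  · rfl
  · rfl
  · rfl
  · show Real.cos t * vec x 3 - Real.sin t * vec x 4 = vec x 3
    rw [h3, h4]
    ring
  · show Real.sin t * vec x 3 + Real.cos t * vec x 4 = vec x 4
    rw [h3, h4]
    ring

theorem rotS_fix_iff {n : ℕ} (hn : 2 ≤ n) {x : Sph4} : rotS n x = x ↔ OnS2 x := by
  refine ⟨fun h => ?_, fun h => rotA_fix h⟩
  have hv : rotE (2 * Real.pi / n) (vec x) = vec x := congrArg vec h
  have e3 : Real.cos (2 * Real.pi / n) * vec x 3 - Real.sin (2 * Real.pi / n) * vec x 4 =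
      vec x 3 := congrArg (fun y : E5 => y 3) hv
  have e4 : Real.sin (2 * Real.pi / n) * vec x 3 + Real.cos (2 * Real.pi / n) * vec x 4 =
      vec x 4 := congrArg (fun y : E5 => y 4) hv
  have hn' : (2 : ℝ) ≤ n := by exact_mod_cast hn
  have hpi := Real.pi_pos
  have hpos : 0 < 2 * Real.pi / n := by positivity
  have hle : 2 * Real.pi / n ≤ Real.pi := by
    rw [div_le_iff₀ (by linarith)]
    nlinarith
  have hc : Real.cos (2 * Real.pi / n) ≠ 1 := by
    intro h1
    have := (Real.cos_eq_one_iff_of_lt_of_lt (by linarith) (by linarith)).1 h1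
    exact hpos.ne' this
  have hs := Real.sin_sq_add_cos_sq (2 * Real.pi / n)
  generalize Real.cos (2 * Real.pi / n) = c at *
  generalize Real.sin (2 * Real.pi / n) = s at *
  have hc' : c - 1 ≠ 0 := sub_ne_zero.2 hc
  have h1 : (c - 1) * (vec x 3 ^ 2 + vec x 4 ^ 2) = 0 := by
    linear_combination vec x 3 * e3 + vec x 4 * e4
  have h2 := (mul_eq_zero.1 h1).resolve_left hc'
  exact ⟨by nlinarith [sq_nonneg (vec x 3), sq_nonneg (vec x 4)],
    by nlinarith [sq_nonneg (vec x 3), sq_nonneg (vec x 4)]⟩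

theorem refS_refS (x : Sph4) : refS (refS x) = x := by
  apply vec_inj
  rw [vec_refS, vec_refS, refE_refE]

theorem refS_rotA (t : ℝ) (x : Sph4) : refS (rotA t x) = rotA (-t) (refS x) := by
  apply vec_inj
  rw [vec_refS, vec_rotA, vec_rotA, vec_refS, refE_rotE]

theorem OnS2_refS {x : Sph4} : OnS2 (refS x) ↔ OnS2 x := by
  constructor
  · rintro ⟨h3, h4⟩
    have e4 : -vec x 4 = 0 := h4
    exact ⟨h3, neg_eq_zero.1 e4⟩
  · rintro ⟨h3, h4⟩
    refine ⟨h3, ?_⟩
    show -vec x 4 = 0
    rw [h4, neg_zero]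

theorem refS_fix {x : Sph4} (hx : OnS2 x) : refS x = x := by
  obtain ⟨h3, h4⟩ := hx
  apply vec_inj
  rw [vec_refS]
  ext i
  fin_cases i
  · rfl
  · rfl
  · rfl
  · rfl
  · show -vec x 4 = vec x 4
    rw [h4, neg_zero]

/-- `refS` commutes with the rotation by `π` -/
theorem refS_rotS_two (x : Sph4) : refS (rotS 2 x) = rotS 2 (refS x) := by
  have h : rotA (-(2 * Real.pi / (2 : ℕ))) (refS x) = rotA (2 * Real.pi / (2 : ℕ)) (refS x) := by
    have h1 : (2 * Real.pi / (2 : ℕ) : ℝ) = -(2 * Real.pi / (2 : ℕ)) + 2 * Real.pi := by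
      push_cast
      ring
    conv_rhs => rw [h1, ← rotA_rotA, rotA_two_pi]
  rw [rotS, rotS, refS_rotA, h]

theorem continuous_rotA : Continuous fun p : ℝ × Sph4 => rotA p.1 p.2 := by
  refine Continuous.subtype_mk ?_ _
  refine (PiLp.continuous_toLp 2 _).comp ?_
  have hv : Continuous fun p : ℝ × Sph4 => vec p.2 := continuous_vec.comp continuous_snd
  have hi : ∀ i : Fin 5, Continuous fun p : ℝ × Sph4 => vec p.2 i := fun i =>
    (PiLp.continuous_apply 2 _ i).comp hv
  refine continuous_pi fun i => ?_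
  fin_cases i
  · exact hi 0
  · exact hi 1
  · exact hi 2
  · exact ((Real.continuous_cos.comp continuous_fst).mul (hi 3)).sub
      ((Real.continuous_sin.comp continuous_fst).mul (hi 4))
  · exact ((Real.continuous_sin.comp continuous_fst).mul (hi 3)).add
      ((Real.continuous_cos.comp continuous_fst).mul (hi 4))

theorem continuous_refS : Continuous refS := by
  refine Continuous.subtype_mk ?_ _
  refine (PiLp.continuous_toLp 2 _).comp ?_
  have hi : ∀ i : Fin 5, Continuous fun x : Sph4 => vec x i := fun i =>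
    (PiLp.continuous_apply 2 _ i).comp continuous_vec
  refine continuous_pi fun i => ?_
  fin_cases i
  · exact hi 0
  · exact hi 1
  · exact hi 2
  · exact hi 3
  · exact (hi 4).neg

/-- the rotations as homeomorphisms -/
noncomputable def rotHS (t : ℝ) : Sph4 ≃ₜ Sph4 where
  toFun := rotA t
  invFun := rotA (-t)
  left_inv x := by rw [rotA_rotA, neg_add_cancel, rotA_zero]
  right_inv x := by rw [rotA_rotA, add_neg_cancel, rotA_zero]
  continuous_toFun := continuous_rotA.comp (Continuous.prodMk_right t)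
  continuous_invFun := continuous_rotA.comp (Continuous.prodMk_right (-t))

theorem rotHS_apply (t : ℝ) (x : Sph4) : rotHS t x = rotA t x := rfl

/-- the reflection as a homeomorphism -/
noncomputable def refHS : Sph4 ≃ₜ Sph4 where
  toFun := refS
  invFun := refS
  left_inv := refS_refS
  right_inv := refS_refS
  continuous_toFun := continuous_refS
  continuous_invFun := continuous_refS

theorem refHS_apply (x : Sph4) : refHS x = refS x := rfl

end Pool.Agent.Rot5
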