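import Pool.Agent.Rot5.LinBasic

/-!
# Homogeneous maps of `ℝ⁵` and maps of the 4-sphere

`cone f` is the homogeneous extension of `f : S⁴ → S⁴`, `unit x = x / ‖x‖`.
-/

set_option autoImplicit false

open scoped ContDiff Topology
open Set Filter Metric

namespace Pool.Agent.Rot5

open Pool.Agent.HopfCov Pool.Agent.HopfFin Pool.Agent.HopfCov.Smooth Pool.Agent.Rot4

open Classical in
/-- the projection to the sphere -/
noncomputable def unit (x : E5) : Sph4 :=
  if h : x = 0 then infS else ⟨‖x‖⁻¹ • x, by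
    rw [mem_sphere_zero_iff_norm, norm_smul, norm_inv, norm_norm,
      inv_mul_cancel₀ (norm_ne_zero_iff.2 h)]⟩

/-- the homogeneous extension -/
noncomputable def cone (f : Sph4 → Sph4) (x : E5) : E5 := ‖x‖ • vec (f (unit x))

private theorem cone_pv2_smul (c : ℝ) (x : E5) : pv2 (c • x) = c ^ 2 * pv2 x := by
  simp only [pv2, PiLp.smul_apply, smul_eq_mul]
  ring

private theorem cone_px2_smul (c : ℝ) (x : E5) : px2 (c • x) = c ^ 2 * px2 x := by
  simp only [px2, PiLp.smul_apply, smul_eq_mul]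
  ring

private theorem cone_rotE_smul (t c : ℝ) (x : E5) : rotE t (c • x) = c • rotE t x := by
  ext i
  fin_cases i
  · rfl
  · rfl
  · rfl
  · show Real.cos t * (c * x 3) - Real.sin t * (c * x 4) =
      c * (Real.cos t * x 3 - Real.sin t * x 4)
    ring
  · show Real.sin t * (c * x 3) + Real.cos t * (c * x 4) =
      c * (Real.sin t * x 3 + Real.cos t * x 4)
    ring

private theorem cone_refE_smul (c : ℝ) (x : E5) : refE (c • x) = c • refE x := by
  ext i
  fin_cases i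
  · rfl
  · rfl
  · rfl
  · rfl
  · show -(c * x 4) = c * -x 4
    ring

theorem vec_ne (x : Sph4) : vec x ≠ 0 := by
  rw [← norm_ne_zero_iff, norm_vec]
  exact one_ne_zero

theorem vec_unit {x : E5} (h : x ≠ 0) : vec (unit x) = ‖x‖⁻¹ • x := by
  have h1 : unit x = ⟨‖x‖⁻¹ • x, by
    rw [mem_sphere_zero_iff_norm, norm_smul, norm_inv, norm_norm,
      inv_mul_cancel₀ (norm_ne_zero_iff.2 h)]⟩ := dif_neg h
  rw [h1]
  rfl

theorem smul_vec_unit (x : E5) : ‖x‖ • vec (unit x) = x := by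
  by_cases h : x = 0
  · rw [h, norm_zero, zero_smul]
  · rw [vec_unit h, smul_inv_smul₀ (norm_ne_zero_iff.2 h)]

theorem unit_vec (x : Sph4) : unit (vec x) = x := by
  apply vec_inj
  rw [vec_unit (vec_ne x), norm_vec, inv_one, one_smul]

theorem unit_smul {c : ℝ} (hc : 0 < c) (x : E5) : unit (c • x) = unit x := by
  by_cases h : x = 0
  · rw [h, smul_zero]
  · apply vec_inj
    rw [vec_unit h, vec_unit (smul_ne_zero hc.ne' h), norm_smul, Real.norm_of_nonneg hc.le,
      smul_smul, mul_inv, mul_comm c⁻¹, mul_assoc, inv_mul_cancel₀ hc.ne', mul_one]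

theorem continuousAt_unit {x : E5} (h : x ≠ 0) : ContinuousAt unit x := by
  have h1 : ContinuousAt (fun y : E5 => ‖y‖⁻¹ • y) x :=
    (continuous_norm.continuousAt.inv₀ (norm_ne_zero_iff.2 h)).smul continuousAt_id
  have h2 : (fun y => vec (unit y)) =ᶠ[𝓝 x] fun y => ‖y‖⁻¹ • y := by
    filter_upwards [isOpen_compl_singleton.mem_nhds (show x ∈ ({(0 : E5)}ᶜ : Set E5) from h)]
      with y hy
    exact vec_unit hy
  have h3 : ContinuousAt (fun y => vec (unit y)) x := h1.congr h2.symm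
  exact (Topology.IsInducing.subtypeVal.continuousAt_iff).2 h3

theorem norm_cone (f : Sph4 → Sph4) (x : E5) : ‖cone f x‖ = ‖x‖ := by
  rw [cone, norm_smul, norm_norm, norm_vec, mul_one]

theorem cone_ne {f : Sph4 → Sph4} {x : E5} (h : x ≠ 0) : cone f x ≠ 0 := by
  rw [← norm_ne_zero_iff, norm_cone]
  exact norm_ne_zero_iff.2 h

theorem cone_smul (f : Sph4 → Sph4) {c : ℝ} (hc : 0 < c) (x : E5) :
    cone f (c • x) = c • cone f x := by
  rw [cone, cone, unit_smul hc, norm_smul, Real.norm_of_nonneg hc.le, mul_smul]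

theorem cone_vec (f : Sph4 → Sph4) (x : Sph4) : cone f (vec x) = vec (f x) := by
  rw [cone, norm_vec, one_smul, unit_vec]

theorem unit_cone (f : Sph4 → Sph4) {x : E5} (h : x ≠ 0) : unit (cone f x) = f (unit x) := by
  rw [cone, unit_smul (norm_pos_iff.2 h), unit_vec]

/-- the tubes -/
theorem tube_unit {a : ℝ} {x : E5} (h : x ≠ 0) :
    (pv2 (vec (unit x)) ≤ a * px2 (vec (unit x)) ↔ pv2 x ≤ a * px2 x) ∧
      (pv2 (vec (unit x)) < a * px2 (vec (unit x)) ↔ pv2 x < a * px2 x) := by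
  have h1 : 0 < (‖x‖⁻¹) ^ 2 := by
    have : 0 < ‖x‖ := norm_pos_iff.2 h
    positivity
  rw [vec_unit h, cone_pv2_smul, cone_px2_smul]
  have h2 : a * ((‖x‖⁻¹) ^ 2 * px2 x) = (‖x‖⁻¹) ^ 2 * (a * px2 x) := by ring
  rw [h2]
  exact ⟨mul_le_mul_iff_right₀ h1, mul_lt_mul_iff_right₀ h1⟩

theorem OnS2_unit {x : E5} (h : x ≠ 0) : OnS2 (unit x) ↔ pv2 x = 0 := by
  have h1 : (‖x‖⁻¹) ^ 2 ≠ 0 := pow_ne_zero _ (inv_ne_zero (norm_ne_zero_iff.2 h))
  rw [OnS2_iff, vec_unit h, cone_pv2_smul, mul_eq_zero, or_iff_right h1]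

theorem unit_rotE (t : ℝ) {x : E5} (h : x ≠ 0) : unit (rotE t x) = rotA t (unit x) := by
  have h1 : rotE t x ≠ 0 := by
    rw [← norm_ne_zero_iff, norm_rotE]
    exact norm_ne_zero_iff.2 h
  apply vec_inj
  have h2 : vec (rotA t (unit x)) = rotE t (vec (unit x)) := rfl
  rw [h2, vec_unit h, vec_unit h1, norm_rotE, cone_rotE_smul]

theorem unit_refE {x : E5} (h : x ≠ 0) : unit (refE x) = refS (unit x) := by
  have h1 : refE x ≠ 0 := by
    rw [← norm_ne_zero_iff, norm_refE]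
    exact norm_ne_zero_iff.2 h
  apply vec_inj
  have h2 : vec (refS (unit x)) = refE (vec (unit x)) := rfl
  rw [h2, vec_unit h, vec_unit h1, norm_refE, cone_refE_smul]

theorem vec_rotA (t : ℝ) (x : Sph4) : vec (rotA t x) = rotE t (vec x) := rfl

theorem vec_refS (x : Sph4) : vec (refS x) = refE (vec x) := rfl

theorem cone_plane {f : Sph4 → Sph4} (hf : ∀ x, OnS2 (f x) ↔ OnS2 x) {x : E5} :
    pv2 (cone f x) = 0 ↔ pv2 x = 0 := by
  by_cases h : x = 0
  · rw [cone, h, norm_zero, zero_smul]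
  · have h1 : ‖x‖ ^ 2 ≠ 0 := pow_ne_zero _ (norm_ne_zero_iff.2 h)
    rw [cone, cone_pv2_smul, mul_eq_zero, or_iff_right h1, ← OnS2_iff, hf, OnS2_unit h]

theorem cone_rot {f : Sph4 → Sph4} {t : ℝ} {x : E5}
    (h : f (rotA t (unit x)) = rotA t (f (unit x))) :
    cone f (rotE t x) = rotE t (cone f x) := by
  by_cases h0 : x = 0
  · have h1 : rotE t (0 : E5) = 0 := by
      have := cone_rotE_smul t 0 (0 : E5)
      rwa [zero_smul, zero_smul] at this
    have h2 : cone f 0 = 0 := by rw [cone, norm_zero, zero_smul]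
    rw [h0, h1, h2, h1]
  · rw [cone, unit_rotE t h0, h, norm_rotE, cone, cone_rotE_smul]
    rfl

theorem cone_ref (f : Sph4 → Sph4) (x : E5) :
    cone (fun y => refS (f y)) x = refE (cone f x) := by
  rw [cone, cone, cone_refE_smul]
  rfl

end Pool.Agent.Rot5
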