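import Pool.Agent.Rot5.Unif
import Pool.Agent.Rot5.LogCut
import Pool.Agent.Rot5.CoreD

/-!
# Interpolation between a map and its equivariant model

PROOF. Let `a₁, η, C` be as in `unif`; `a = min a₁ a₀ / 2` further restricted so that `C √a ≤ η`;
let `κ, b` be as in `log_cut` for the numbers `a / 2` and `ε = η / (4 C + 1)`: `κ q = 1` for `q ≤
b'` and `κ q = 0` for `q ≥ b := a / 2`. Put `q x = pv2 x / px2 x` and `F1 x = F x` if `b * px2 x <
pv2 x`, `F1 x = F x + κ (q x) • (model F x - F x)` otherwise; the second formula holds for all `x`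
with `0 < px2 x`.
- homogeneity: `Hom5.smul`, `model_smul`, `px2_smul`, `pv2_smul`.
- on the plane: `model_plane` (also at `x = 0`: `F 0 = 0` by homogeneity).
- `x ≠ 0`, `pv2 x ≤ a * px2 x`: then `0 < px2 x`, and by homogeneity (`rg_hom`, scaling by `1 /
√(px2 x)`; the inequalities are homogeneous) we may assume `px2 x = 1`. Near `x` the second
formula holds, so `F1` is smooth at `x` and (`interp_fderiv`) `fderiv F1 x = (1 - κ) DF x + κ
D(model F) x + E` with `‖E‖ ≤ |κ'| 4 √q C √q = 4 C |q κ' q| ≤ η`. The determinant is not zero by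
`unif`. `‖F1 x - F x‖ ≤ κ C √(pv2 x) ≤ C √a ≤ η`, so `unif` also gives the two inequalities.
- near the plane `κ = 1`, `F1 = model F` (for `0 < px2 x`; `x = 0` is trivial): `model_rot`,
`px2_rotE`, `pv2_rotE`. The last assertion: `q (rotE t x) = q x`, `rotE_add`, `rotE_smul`,
`model_rot`.
-/

set_option autoImplicit false

open scoped ContDiff Topology
open Set Filter Metric

namespace Pool.Agent.Rot5

open Pool.Agent.HopfCov Pool.Agent.HopfFin Pool.Agent.HopfCov.Smooth Pool.Agent.Rot4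

private theorem core_px_pos {a : ℝ} {x : E5} (hx : x ≠ 0) (h : pv2 x ≤ a * px2 x) :
    0 < px2 x := by
  rcases (px2_nonneg x).lt_or_eq with h1 | h1
  · exact h1
  · exfalso
    rw [← h1, mul_zero] at h
    have h2 := pv2_nonneg x
    have h3 := px2_add_pv2 x
    have h4 : 0 < ‖x‖ ^ 2 := by
      have := norm_pos_iff.2 hx
      positivity
    linarith

private theorem core_zero {F : E5 → E5} (hF : ∀ c : ℝ, 0 < c → ∀ x, F (c • x) = c • F x) :
    F 0 = 0 := by
  have h := hF 2 (by norm_num) 0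
  rw [smul_zero, two_smul] at h
  have h2 : F 0 + 0 = F 0 + F 0 := by rw [add_zero]; exact h
  exact (add_left_cancel h2).symm

private theorem core_rotE_sub (t : ℝ) (x y : E5) : rotE t (x - y) = rotE t x - rotE t y := by
  rw [← rotE_clm, ← rotE_clm, ← rotE_clm, map_sub]

theorem core {F : E5 → E5} (hF : Hom5 F) {a' a₀ : ℝ} (ha' : 0 < a') (ha₀ : 0 < a₀) :
    ∃ (F1 : E5 → E5) (a b : ℝ), 0 < b ∧ b < a ∧ a ≤ a₀ ∧
      (∀ c : ℝ, 0 < c → ∀ x, F1 (c • x) = c • F1 x) ∧
      (∀ x, b * px2 x < pv2 x → F1 x = F x) ∧ (∀ x, pv2 x = 0 → F1 x = F x) ∧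
      (∀ x, x ≠ 0 → pv2 x ≤ a * px2 x →
        RG F1 x ∧ pv2 (F1 x) < a' * px2 (F1 x) ∧ pv2 (F x) < a' * px2 (F x)) ∧
      (∃ b' : ℝ, 0 < b' ∧ ∀ x, pv2 x ≤ b' * px2 x → ∀ t : ℝ, F1 (rotE t x) = rotE t (F1 x)) ∧
      ∀ (t : ℝ) (x : E5), pv2 x ≤ a * px2 x → F (rotE t x) = rotE t (F x) →
        F1 (rotE t x) = rotE t (F1 x) := by
  classical
  obtain ⟨a₁, η, C, ha₁, ha₁1, hη, hC, hu⟩ := unif hF ha'
  obtain ⟨s, hs⟩ : ∃ s : ℝ, s = η / (C + 1) := ⟨_, rfl⟩
  have hs0 : 0 < s := by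
    rw [hs]
    positivity
  have hCs : C * s ≤ η := by
    have h1 : (C + 1) * s = η := by
      rw [hs]
      field_simp
    nlinarith
  obtain ⟨a, ha⟩ : ∃ a : ℝ, a = min (min a₁ a₀) (s ^ 2) := ⟨_, rfl⟩
  have ha0 : 0 < a := by
    rw [ha]
    exact lt_min (lt_min ha₁ ha₀) (by positivity)
  have haa₁ : a ≤ a₁ := by
    rw [ha]
    exact (min_le_left _ _).trans (min_le_left _ _)
  have haa₀ : a ≤ a₀ := by
    rw [ha]
    exact (min_le_left _ _).trans (min_le_right _ _)
  have has : a ≤ s ^ 2 := by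
    rw [ha]
    exact min_le_right _ _
  obtain ⟨ε, hε⟩ : ∃ ε : ℝ, ε = η / (4 * C + 1) := ⟨_, rfl⟩
  have hε0 : 0 < ε := by
    rw [hε]
    positivity
  have hCε : 4 * C * ε ≤ η := by
    have h1 : (4 * C + 1) * ε = η := by
      rw [hε]
      field_simp
    nlinarith
  obtain ⟨κ, b', hb'0, hb'a, hκ, hκ1, hκ0, hκI, hκd⟩ := log_cut (half_pos ha0) hε0
  obtain ⟨F1, hF1⟩ : ∃ F1 : E5 → E5, ∀ x, F1 x = if a / 2 * px2 x < pv2 x then F x else
    F x + κ (pv2 x / px2 x) • (model F x - F x) := ⟨_, fun _ => rfl⟩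
  have hF1a : ∀ x, a / 2 * px2 x < pv2 x → F1 x = F x := fun x h => by
    rw [hF1, if_pos h]
  have hF1b : ∀ x, 0 < px2 x → F1 x = F x + κ (pv2 x / px2 x) • (model F x - F x) := by
    intro x hx
    by_cases h : a / 2 * px2 x < pv2 x
    · rw [hF1a x h, hκ0, zero_smul, add_zero]
      rw [le_div_iff₀ hx]
      exact h.le
    · rw [hF1, if_neg h]
  have hF0 : F 0 = 0 := core_zero hF.smul
  have hF1s : ∀ c : ℝ, 0 < c → ∀ x, F1 (c • x) = c • F1 x := by
    intro c hc x
    have hc2 : 0 < c ^ 2 := by positivity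
    by_cases h : a / 2 * px2 x < pv2 x
    · have h' : a / 2 * px2 (c • x) < pv2 (c • x) := by
        rw [px2_smul, pv2_smul]
        nlinarith
      rw [hF1a _ h, hF1a _ h', hF.smul c hc]
    · have h' : ¬ a / 2 * px2 (c • x) < pv2 (c • x) := by
        rw [px2_smul, pv2_smul]
        rw [not_lt] at h ⊢
        nlinarith
      rw [hF1, if_neg h', hF1, if_neg h, px2_smul, pv2_smul,
        mul_div_mul_left _ _ hc2.ne', model_smul hF.smul hc, hF.smul c hc, smul_add, ← smul_sub,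
        smul_comm c]
  have key : ∀ y, px2 y = 1 → pv2 y ≤ a →
      RG F1 y ∧ pv2 (F1 y) < a' * px2 (F1 y) ∧ pv2 (F y) < a' * px2 (F y) := by
    intro y h1 h2
    obtain ⟨hRG, hm, hdet, hnorm, hball⟩ := hu y h1 (h2.trans haa₁)
    have hsq : Real.sqrt (pv2 y) ≤ s := by
      rw [Real.sqrt_le_left hs0.le]
      exact h2.trans has
    have hsq0 := Real.sqrt_nonneg (pv2 y)
    have hev : F1 =ᶠ[𝓝 y] fun z => F z + κ (pv2 z / px2 z) • (model F z - F z) := by
      have h3 : ∀ᶠ z in 𝓝 y, 0 < px2 z :=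
        contDiff_px2.continuous.continuousAt.eventually (lt_mem_nhds (by rw [h1]; exact one_pos))
      filter_upwards [h3] with z hz
      exact hF1b z hz
    obtain ⟨hsm, E, hfd, hE⟩ := interp_fderiv h1 (h2.trans (haa₁.trans ha₁1)) hRG.1 hm hκ
    have hE' : ‖E‖ ≤ η := by
      refine hE.trans ?_
      have h3 : |deriv κ (pv2 y)| * (4 * Real.sqrt (pv2 y)) * ‖model F y - F y‖ ≤
          |deriv κ (pv2 y)| * (4 * Real.sqrt (pv2 y)) * (C * Real.sqrt (pv2 y)) :=
        mul_le_mul_of_nonneg_left hnorm (by positivity)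
      have h4 : |deriv κ (pv2 y)| * (4 * Real.sqrt (pv2 y)) * (C * Real.sqrt (pv2 y)) =
          4 * C * |pv2 y * deriv κ (pv2 y)| := by
        have h5 : Real.sqrt (pv2 y) * Real.sqrt (pv2 y) = pv2 y := Real.mul_self_sqrt (pv2_nonneg y)
        rw [abs_mul, abs_of_nonneg (pv2_nonneg y)]
        linear_combination 4 * C * |deriv κ (pv2 y)| * h5
      rw [h4] at h3
      refine h3.trans (le_trans ?_ hCε)
      exact mul_le_mul_of_nonneg_left (hκd _) (by positivity)
    refine ⟨⟨hsm.congr_of_eventuallyEq hev, ?_⟩, ?_, ?_⟩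
    · rw [hev.fderiv_eq, hfd]
      exact hdet _ (hκI _).1 (hκI _).2 E hE'
    · refine hball _ ?_
      rw [hF1b y (by rw [h1]; exact one_pos), add_sub_cancel_left, norm_smul, Real.norm_eq_abs,
        abs_of_nonneg (hκI _).1]
      have h3 : C * Real.sqrt (pv2 y) ≤ η := (mul_le_mul_of_nonneg_left hsq hC).trans hCs
      have h4 : κ (pv2 y / px2 y) * ‖model F y - F y‖ ≤ 1 * ‖model F y - F y‖ :=
        mul_le_mul_of_nonneg_right (hκI _).2 (norm_nonneg _)
      linarith
    · refine hball _ ?_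
      rw [sub_self, norm_zero]
      exact hη.le
  refine ⟨F1, a, a / 2, half_pos ha0, half_lt_self ha0, haa₀, hF1s, hF1a, ?_, ?_, ?_, ?_⟩
  · intro x hx
    by_cases h : a / 2 * px2 x < pv2 x
    · exact hF1a x h
    · rw [hF1, if_neg h, model_plane hx, sub_self, smul_zero, add_zero]
  · intro x hx hxa
    have hp := core_px_pos hx hxa
    obtain ⟨r, hr⟩ : ∃ r : ℝ, r = Real.sqrt (px2 x) := ⟨_, rfl⟩
    have hr0 : 0 < r := by
      rw [hr]
      exact Real.sqrt_pos.2 hp
    have hr2 : r ^ 2 = px2 x := by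
      rw [hr]
      exact Real.sq_sqrt hp.le
    obtain ⟨y, hy⟩ : ∃ y : E5, y = r⁻¹ • x := ⟨_, rfl⟩
    have hxy : x = r • y := by
      rw [hy, smul_smul, mul_inv_cancel₀ hr0.ne', one_smul]
    have e1 : px2 x = r ^ 2 * px2 y := by rw [hxy, px2_smul]
    have e2 : pv2 x = r ^ 2 * pv2 y := by rw [hxy, pv2_smul]
    have hr20 : 0 < r ^ 2 := by positivity
    have h1 : px2 y = 1 := by
      rw [← hr2] at e1
      have h3 : r ^ 2 * px2 y = r ^ 2 * 1 := by rw [mul_one, ← e1]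
      exact mul_left_cancel₀ hr20.ne' h3
    have h2 : pv2 y ≤ a := by
      rw [e1, e2, h1, mul_one] at hxa
      have h3 : r ^ 2 * pv2 y ≤ r ^ 2 * a := by linarith
      exact le_of_mul_le_mul_left h3 hr20
    obtain ⟨k1, k2, k3⟩ := key y h1 h2
    rw [hxy]
    refine ⟨rg_hom hF1s hr0 k1, ?_, ?_⟩
    · rw [hF1s r hr0, pv2_smul, px2_smul]
      nlinarith
    · rw [hF.smul r hr0, pv2_smul, px2_smul]
      nlinarith
  · refine ⟨b', hb'0, fun x hx t => ?_⟩
    rcases (px2_nonneg x).lt_or_eq with hp | hp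
    · have h1 : ∀ z, 0 < px2 z → pv2 z ≤ b' * px2 z → F1 z = model F z := by
        intro z hz hz'
        rw [hF1b z hz, hκ1, one_smul, add_sub_cancel]
        rw [div_le_iff₀ hz]
        exact hz'
      rw [h1 x hp hx, h1 (rotE t x) (by rw [px2_rotE]; exact hp)
        (by rw [px2_rotE, pv2_rotE]; exact hx)]
      exact model_rot (hF.plane _ (pv2_pxL x)) t
    · have h2 := pv2_nonneg x
      have h3 := px2_add_pv2 x
      rw [← hp, mul_zero] at hx
      have h4 : x = 0 := by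
        have h5 : ‖x‖ ^ 2 = 0 := by linarith
        exact norm_eq_zero.1 (pow_eq_zero_iff two_ne_zero |>.1 h5)
      have h6 : rotE t (0 : E5) = 0 := by rw [← rotE_clm, map_zero]
      have h7 : F1 0 = 0 := core_zero hF1s
      rw [h4, h6, h7, h6]
  · intro t x _ ht
    by_cases h : a / 2 * px2 x < pv2 x
    · have h' : a / 2 * px2 (rotE t x) < pv2 (rotE t x) := by
        rw [px2_rotE, pv2_rotE]
        exact h
      rw [hF1a _ h, hF1a _ h', ht]
    · have h' : ¬ a / 2 * px2 (rotE t x) < pv2 (rotE t x) := by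
        rw [px2_rotE, pv2_rotE]
        exact h
      rw [hF1, if_neg h', hF1, if_neg h, px2_rotE, pv2_rotE, rotE_add, rotE_smul,
        core_rotE_sub, ht, model_rot (hF.plane _ (pv2_pxL x)) t]

end Pool.Agent.Rot5
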