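import Pool.Agent.Rot5.StatementSph
import Pool.Agent.Rot4.Defs
import Pool.Agent.HopfRem.ParRG

/-!
# Actions on the 4-sphere: definitions

`S⁴ ⊆ ℝ⁵`, the rotations `rotA t` turn the last two coordinates, their fixed points form the
2-sphere `OnS2`. `sg : ℝ⁴ → S⁴` is the inverse of the stereographic projection from the point `infS`
of the 2-sphere, `sgi` the projection. `sph n = sg ∘ q2 n : ℝ⁴ → S⁴` is the universal covering of
the complement of the 2-sphere (`q2 n` as in `Rot4/Defs.lean`); the shift `shf t` of the last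
coordinate lies over the rotation by `2 π t / n`. A point `sph n z` is near the 2-sphere if and only
if `wsq z` is large.
-/

set_option autoImplicit false

open scoped ContDiff Topology Manifold
open Set Filter Metric

namespace Pool.Agent.Rot5

open Pool.Agent.HopfCov Pool.Agent.HopfFin Pool.Agent.HopfCov.Smooth Pool.Agent.Rot4

/-- `ℝ⁵` -/
abbrev E5 := EuclideanSpace ℝ (Fin 5)

/-- the property holds near the fixed 2-sphere -/
def NearS2 (P : Sph4 → Prop) : Prop := ∀ x, OnS2 x → ∀ᶠ y in 𝓝 x, P y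

/-- the centre of the stereographic projection; it lies on the fixed 2-sphere -/
noncomputable def infS : Sph4 :=
  ⟨(EuclideanSpace.single 0 1 : E5), by
    rw [mem_sphere_zero_iff_norm]
    simp⟩

/-- the inverse of the stereographic projection -/
noncomputable def sgv (y : E4) : E5 :=
  (‖y‖ ^ 2 + 1)⁻¹ • WithLp.toLp 2 ![‖y‖ ^ 2 - 1, 2 * y 0, 2 * y 1, 2 * y 2, 2 * y 3]

theorem norm_sgv (y : E4) : ‖sgv y‖ = 1 := by
  have h1 : 0 < ‖y‖ ^ 2 + 1 := by positivity
  have h2 : ‖y‖ ^ 2 = y 0 ^ 2 + y 1 ^ 2 + y 2 ^ 2 + y 3 ^ 2 := by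
    rw [EuclideanSpace.norm_sq_eq, Fin.sum_univ_four]
    simp only [Real.norm_eq_abs, sq_abs]
  have h3 : ‖(WithLp.toLp 2 ![‖y‖ ^ 2 - 1, 2 * y 0, 2 * y 1, 2 * y 2, 2 * y 3] : E5)‖ ^ 2 =
      (‖y‖ ^ 2 + 1) ^ 2 := by
    rw [EuclideanSpace.norm_sq_eq, Fin.sum_univ_five]
    simp only [Real.norm_eq_abs, sq_abs]
    show (‖y‖ ^ 2 - 1) ^ 2 + (2 * y 0) ^ 2 + (2 * y 1) ^ 2 + (2 * y 2) ^ 2 + (2 * y 3) ^ 2 = _
    linear_combination (-4) * h2
  have h4 : ‖(WithLp.toLp 2 ![‖y‖ ^ 2 - 1, 2 * y 0, 2 * y 1, 2 * y 2, 2 * y 3] : E5)‖ =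
      ‖y‖ ^ 2 + 1 := by
    rw [← abs_of_nonneg (norm_nonneg _), ← abs_of_pos h1]
    exact sq_eq_sq_iff_abs_eq_abs _ _ |>.1 h3
  rw [sgv, norm_smul, h4, norm_inv, Real.norm_of_nonneg h1.le, inv_mul_cancel₀ h1.ne']

/-- the inverse of the stereographic projection -/
noncomputable def sg (y : E4) : Sph4 := ⟨sgv y, mem_sphere_zero_iff_norm.2 (norm_sgv y)⟩

/-- the stereographic projection -/
noncomputable def sgi (x : Sph4) : E4 :=
  (1 - vec x 0)⁻¹ • WithLp.toLp 2 ![vec x 1, vec x 2, vec x 3, vec x 4]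

/-- the reflection in the last coordinate, on `ℝ⁵` -/
noncomputable def refE (x : E5) : E5 := WithLp.toLp 2 ![x 0, x 1, x 2, x 3, -x 4]

theorem norm_refE (x : E5) : ‖refE x‖ = ‖x‖ := by
  rw [EuclideanSpace.norm_eq, EuclideanSpace.norm_eq]
  congr 1
  simp only [Fin.sum_univ_five, Real.norm_eq_abs, sq_abs]
  simp [refE]

/-- the reflection in the last coordinate -/
noncomputable def refS (x : Sph4) : Sph4 :=
  ⟨refE (vec x), by
    rw [mem_sphere_zero_iff_norm, norm_refE]
    exact mem_sphere_zero_iff_norm.1 x.2⟩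

/-- the universal covering of the complement of the fixed 2-sphere -/
noncomputable def sph (n : ℕ) (z : E4) : Sph4 := sg (q2 n z)

/-- an action in normal form: the rotation near the fixed 2-sphere, conjugate to the rotation by a
homeomorphism which is the identity near the 2-sphere -/
structure NormAct (n : ℕ) (g h : Sph4 ≃ₜ Sph4) : Prop where
  smooth : ∀ x, LocalDiffeoAt g x
  near : NearS2 fun x => g x = rotS n x
  top : NearS2 fun x => h x = x
  conj : ∀ x, h (g x) = rotS n (h x)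

end Pool.Agent.Rot5
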