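import Pool.Agent.Rot4.RayOff
import Pool.Agent.Rot4.Act
import Pool.Agent.HopfFin.RadPow

/-!
# Powers of a generator which are standard off one orbit

PROOFS. Let `μ` be the homeomorphism of `pow_mk m hm`: `μ x = ‖x‖ ^ (m - 1) • x`, `Sm μ`, `μ * tau
= tau ^ m * μ`; it maps every `Cone δ` to itself and `Om` to itself (a positive multiple), and so
does `μ⁻¹`. `Gt = μ⁻¹ * G ^ m * μ`. Near the ray `G = tau`, so `G ^ m = tau ^ m` and `Gt = μ⁻¹ *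
tau ^ m * μ = tau` (`Cone δ` is mapped to itself by `tau`). `Gt ^ n = μ⁻¹ * G ^ (m * n) * μ = μ⁻¹
* tau ^ (m * n) * μ = tau ^ n`. So `Nn n 1 Gt`. `Cj Gt (G ^ m)`, `PD 1 Gt`, `Contr Gt` (`Good` for
`G ^ m`: `Good.pow` with `norm_e0`; `Contr.conj`; `Off.congr`).
`ray_off_pow`: `ray_off` for `Gt` gives `Φ`, `b`; take `T = μ * Φ * μ⁻¹`, `μ b`. `T = id` near the
ray; `T * G ^ m = μ Φ Gt μ⁻¹ = μ tau Φ μ⁻¹ = tau ^ m T`; `T` commutes with `tau ^ (m * n) = (G ^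
m) ^ n`.
`off_of_pow`: `Φt = μ⁻¹ * Φ * μ` satisfies `Nn n 0 Φt` (`Φt * tau ^ n = Φt * Gt ^ n = tau ^ n *
Φt`) and `Φt * Gt = tau * Φt`; `off_of_ray` with the point `μ⁻¹ b` gives `Off Gt`.
-/

set_option autoImplicit false

open scoped ContDiff Topology
open Set Filter Metric

namespace Pool.Agent.Rot5

open Pool.Agent.HopfCov Pool.Agent.HopfFin Pool.Agent.HopfCov.Smooth Pool.Agent.Rot4

private theorem gp_tau_mul {m : ℕ} {μ : E4 ≃ₜ E4} (hc : μ * tau = tau ^ m * μ) (k : ℕ) :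
    μ * tau ^ k = tau ^ (m * k) * μ := by
  induction k with
  | zero => simp
  | succ k ih =>
    rw [pow_succ, ← mul_assoc, ih, mul_assoc, hc, ← mul_assoc, ← pow_add, Nat.mul_succ]

private theorem gp_inv_tau {m : ℕ} {μ : E4 ≃ₜ E4} (hc : μ * tau = tau ^ m * μ) (k : ℕ) :
    μ⁻¹ * tau ^ (m * k) = tau ^ k * μ⁻¹ := by
  rw [inv_mul_eq_iff_eq_mul, ← mul_assoc, gp_tau_mul hc, mul_assoc, mul_inv_cancel, mul_one]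

private theorem gp_pos {m : ℕ} {x : E4} (hx : x ≠ 0) : 0 < ‖x‖ ^ (m - 1) :=
  pow_pos (norm_pos_iff.2 hx) _

private theorem gp_cone {m : ℕ} {μ : E4 ≃ₜ E4} (hμ : ∀ x, μ x = ‖x‖ ^ (m - 1) • x) {δ : ℝ}
    {x : E4} (hx : x ∈ Cone δ) : μ x ∈ Cone δ := by
  rw [hμ]
  exact Cone_smul (by positivity) hx

private theorem gp_back {m : ℕ} {μ : E4 ≃ₜ E4} (hμ : ∀ x, μ x = ‖x‖ ^ (m - 1) • x) {x : E4}
    (hx : x ≠ 0) : (‖x‖ ^ (m - 1))⁻¹ • μ x = x := by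
  rw [hμ, smul_smul, inv_mul_cancel₀ (gp_pos hx).ne', one_smul]

private theorem gp_cone_inv {m : ℕ} {μ : E4 ≃ₜ E4} (hμ : ∀ x, μ x = ‖x‖ ^ (m - 1) • x) {δ : ℝ}
    {x : E4} (hx : x ∈ Cone δ) : (μ⁻¹ : E4 ≃ₜ E4) x ∈ Cone δ := by
  by_cases h0 : (μ⁻¹ : E4 ≃ₜ E4) x = 0
  · rw [h0]
    exact zero_mem_Cone δ
  rw [← gp_back hμ h0, apply_inv_self']
  exact Cone_smul (inv_nonneg.2 (gp_pos h0).le) hx

private theorem gp_smul_Om {c : ℝ} (hc : 0 < c) {x : E4} (hx : Om x) : Om (c • x) := by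
  have h1 : x 0 < ‖x‖ := hx
  show (c • x) 0 < ‖c • x‖
  rw [norm_smul, Real.norm_of_nonneg hc.le, PiLp.smul_apply, smul_eq_mul]
  exact mul_lt_mul_of_pos_left h1 hc

private theorem gp_Om {m : ℕ} {μ : E4 ≃ₜ E4} (hμ : ∀ x, μ x = ‖x‖ ^ (m - 1) • x)
    {x : E4} (hx : Om x) : Om (μ x) := by
  rw [hμ]
  exact gp_smul_Om (gp_pos hx.ne) hx

private theorem gp_Om_inv {m : ℕ} {μ : E4 ≃ₜ E4} (h0 : μ 0 = 0)
    (hμ : ∀ x, μ x = ‖x‖ ^ (m - 1) • x) {x : E4} (hx : Om x) : Om ((μ⁻¹ : E4 ≃ₜ E4) x) := by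
  have h1 : (μ⁻¹ : E4 ≃ₜ E4) x ≠ 0 := fun h => hx.ne (by
    rw [← apply_inv_self' μ x, h, h0])
  rw [← gp_back hμ h1, apply_inv_self']
  exact gp_smul_Om (inv_pos.2 (gp_pos h1)) hx

private theorem gp_near {G : E4 ≃ₜ E4} {δ : ℝ} (hG : ∀ x ∈ Cone δ, G x = (2⁻¹ : ℝ) • x)
    (m : ℕ) : ∀ x ∈ Cone δ, (G ^ m) x = (tau ^ m : E4 ≃ₜ E4) x := by
  induction m with
  | zero => exact fun x _ => rfl
  | succ m ih =>
    intro x hx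
    rw [pow_succ, pow_succ, mul_apply', mul_apply', hG x hx, tau_apply]
    exact ih _ (Cone_smul (by norm_num) hx)

private theorem gp_e0_ne : (e0 : E4) ≠ 0 := by
  intro h
  have h1 := norm_e0
  rw [h, norm_zero] at h1
  exact zero_ne_one h1

private theorem gp_good {G T : E4 ≃ₜ E4} {v : E4} (hT : Good G T v) (hv : ‖v‖ = 1) {m : ℕ}
    (hm : 0 < m) : Contr (G ^ m) := by
  obtain ⟨T', hT'⟩ := hT.pow hv hm
  exact hT'.contr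

/-- the conjugate `Gt` of `G ^ m` -/
private theorem gp_main {n m : ℕ} (hm : 0 < m) {f G H : E4 ≃ₜ E4} (h : Pair n f G H)
    {μ : E4 ≃ₜ E4} (hS : Sm μ) (hμ : ∀ x, μ x = ‖x‖ ^ (m - 1) • x)
    (hc : μ * tau = tau ^ m * μ) {Gt : E4 ≃ₜ E4} (hGt : Gt = μ⁻¹ * G ^ m * μ) :
    Nn n 1 Gt ∧ Gt ^ n = tau ^ n ∧ Sm Gt ∧ PD 1 Gt ∧ Contr Gt ∧ Cj Gt (G ^ m) := by
  have hGt' : Gt = μ⁻¹ * G ^ m * (μ⁻¹)⁻¹ := by rw [hGt, inv_inv]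
  have hpow : Gt ^ n = tau ^ n := by
    have h1 : (G ^ m) ^ n = tau ^ (m * n) := by
      rw [← pow_mul, mul_comm m n, pow_mul, h.pow, ← pow_mul]
    rw [hGt', conj_pow, h1, gp_inv_tau hc, mul_assoc, mul_inv_cancel, mul_one]
  have hsm : Sm Gt := by
    rw [hGt]
    exact (hS.inv.mul (h.sm.pow m)).mul hS
  refine ⟨⟨hsm.1, ?_, ?_⟩, hpow, hsm, ?_, ?_, μ, hS, ?_⟩
  · rw [← hpow]
    exact (Commute.refl Gt).pow_right n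
  · obtain ⟨δ, hδ, h1⟩ := h.near
    refine ⟨δ, hδ, fun x hx => ?_⟩
    rw [hGt, mul_apply', mul_apply', gp_near h1 m _ (gp_cone hμ hx), pow_one]
    have h2 : (tau ^ m : E4 ≃ₜ E4) (μ x) = μ (tau x) := by
      rw [← mul_apply', ← hc, mul_apply']
    rw [h2, inv_apply_self']
  · have hPD : PD 1 G := h.good.PD h.sm gp_e0_ne
    obtain ⟨s, hs, hPμ⟩ := hS.exists_sign
    have h1 := (hPμ.inv.mul (hPD.pow m)).mul hPμ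
    rw [mul_one, hs] at h1
    rw [hGt]
    exact h1
  · rw [hGt']
    exact (gp_good h.good norm_e0 hm).conj hS.inv.1
  · rw [hGt]
    group

theorem ray_off_pow {n m : ℕ} (hn : 0 < n) (hm : 0 < m) {f G H : E4 ≃ₜ E4} (h : Pair n f G H)
    (hO : Off (G ^ m)) :
    ∃ (T : E4 ≃ₜ E4) (b : E4), Nn (m * n) 0 T ∧ T * G ^ m = tau ^ m * T ∧ Om b ∧
      ∀ x, x ≠ 0 → (∀ k : ℤ, x ≠ ((G ^ m) ^ k : E4 ≃ₜ E4) b) → Reg T x := by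
  obtain ⟨μ, hS, hμ, hc⟩ := pow_mk m hm
  obtain ⟨Gt, hGt⟩ : ∃ Gt : E4 ≃ₜ E4, Gt = μ⁻¹ * G ^ m * μ := ⟨_, rfl⟩
  obtain ⟨hN, hpow, hsm, hPD, hC, hcj⟩ := gp_main hm h hS hμ hc hGt
  obtain ⟨Φ, b, hΦ, hcΦ, hb, hr⟩ := ray_off hN hpow hPD hC ((Off.congr hcj).2 hO)
  refine ⟨μ * Φ * μ⁻¹, μ b, ⟨?_, ?_, ?_⟩, ?_, gp_Om hμ hb, fun x hx hk => ?_⟩
  · rw [mul_apply', mul_apply', hS.inv.1, hΦ.zero, hS.1]
  · calc μ * Φ * μ⁻¹ * tau ^ (m * n) = μ * Φ * (μ⁻¹ * tau ^ (m * n)) := by group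
      _ = μ * (Φ * tau ^ n) * μ⁻¹ := by rw [gp_inv_tau hc]; group
      _ = (μ * tau ^ n) * Φ * μ⁻¹ := by rw [hΦ.comm]; group
      _ = tau ^ (m * n) * (μ * Φ * μ⁻¹) := by rw [gp_tau_mul hc]; group
  · obtain ⟨δ, hδ, h1⟩ := hΦ.near
    refine ⟨δ, hδ, fun x hx => ?_⟩
    rw [mul_apply', mul_apply', h1 _ (gp_cone_inv hμ hx), pow_zero]
    exact apply_inv_self' μ x
  · calc μ * Φ * μ⁻¹ * G ^ m = μ * (Φ * Gt) * μ⁻¹ := by rw [hGt]; group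
      _ = (μ * tau) * Φ * μ⁻¹ := by rw [hcΦ]; group
      _ = tau ^ m * (μ * Φ * μ⁻¹) := by rw [hc]; group
  · have hx' : (μ⁻¹ : E4 ≃ₜ E4) x ≠ 0 := hS.inv.ne hx
    have hΦx : Φ ((μ⁻¹ : E4 ≃ₜ E4) x) ≠ 0 := fun h0 =>
      hx' (Φ.injective (h0.trans hΦ.zero.symm))
    have h2 : Reg Φ ((μ⁻¹ : E4 ≃ₜ E4) x) := by
      refine hr _ hx' fun k hk' => hk k ?_
      have h3 : Gt ^ k = μ⁻¹ * (G ^ m) ^ k * μ := by
        have h4 : Gt = μ⁻¹ * G ^ m * (μ⁻¹)⁻¹ := by rw [hGt, inv_inv]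
        rw [h4, conj_zpow, inv_inv]
      rw [h3, mul_apply', mul_apply'] at hk'
      exact (μ⁻¹ : E4 ≃ₜ E4).injective hk'
    exact Reg.comp (g := μ) (f := fun z => Φ ((μ⁻¹ : E4 ≃ₜ E4) z)) (hS.reg hΦx)
      (Reg.comp (g := Φ) (f := (μ⁻¹ : E4 ≃ₜ E4)) h2 (hS.inv.reg hx))

theorem off_of_pow {n m : ℕ} (hn : 0 < n) (hm : 0 < m) {f G H Φ : E4 ≃ₜ E4} {b : E4}
    (h : Pair n f G H) (hΦ : Nn (m * n) 0 Φ) (hc : Φ * G ^ m = tau ^ m * Φ) (hb : Om b)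
    (hr : ∀ x, x ≠ 0 → (∀ k : ℤ, x ≠ ((G ^ m) ^ k : E4 ≃ₜ E4) b) → Reg Φ x) :
    Off (G ^ m) := by
  obtain ⟨μ, hS, hμ, hcμ⟩ := pow_mk m hm
  obtain ⟨Gt, hGt⟩ : ∃ Gt : E4 ≃ₜ E4, Gt = μ⁻¹ * G ^ m * μ := ⟨_, rfl⟩
  obtain ⟨hN, hpow, hsm, hPD, hC, hcj⟩ := gp_main hm h hS hμ hcμ hGt
  have hi : μ⁻¹ * tau ^ m = tau * μ⁻¹ := by
    have h1 := gp_inv_tau hcμ 1
    rwa [mul_one, pow_one] at h1
  refine (Off.congr hcj).1 (off_of_ray (n := n) (Φ := μ⁻¹ * Φ * μ)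
    (b := (μ⁻¹ : E4 ≃ₜ E4) b) hsm ⟨?_, ?_, ?_⟩ ?_ (gp_Om_inv hS.1 hμ hb) fun x hx hk => ?_)
  · rw [mul_apply', mul_apply', hS.1, hΦ.zero, hS.inv.1]
  · calc μ⁻¹ * Φ * μ * tau ^ n = μ⁻¹ * Φ * (μ * tau ^ n) := by group
      _ = μ⁻¹ * (Φ * tau ^ (m * n)) * μ := by rw [gp_tau_mul hcμ]; group
      _ = (μ⁻¹ * tau ^ (m * n)) * Φ * μ := by rw [hΦ.comm]; group
      _ = tau ^ n * (μ⁻¹ * Φ * μ) := by rw [gp_inv_tau hcμ]; group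
  · obtain ⟨δ, hδ, h1⟩ := hΦ.near
    refine ⟨δ, hδ, fun x hx => ?_⟩
    rw [mul_apply', mul_apply', h1 _ (gp_cone hμ hx), pow_zero]
    exact inv_apply_self' μ x
  · calc μ⁻¹ * Φ * μ * Gt = μ⁻¹ * (Φ * G ^ m) * μ := by rw [hGt]; group
      _ = (μ⁻¹ * tau ^ m) * Φ * μ := by rw [hc]; group
      _ = tau * (μ⁻¹ * Φ * μ) := by rw [hi]; group
  · have hx' : μ x ≠ 0 := hS.ne hx
    have hΦx : Φ (μ x) ≠ 0 := fun h0 => hx' (Φ.injective (h0.trans hΦ.zero.symm))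
    have h2 : Reg Φ (μ x) := by
      refine hr _ hx' fun k hk' => hk k ?_
      have h3 : Gt ^ k = μ⁻¹ * (G ^ m) ^ k * μ := by
        have h4 : Gt = μ⁻¹ * G ^ m * (μ⁻¹)⁻¹ := by rw [hGt, inv_inv]
        rw [h4, conj_zpow, inv_inv]
      rw [h3, mul_apply', mul_apply', apply_inv_self', ← hk', inv_apply_self']
    exact Reg.comp (g := (μ⁻¹ : E4 ≃ₜ E4)) (f := fun z => Φ (μ z)) (hS.inv.reg hΦx)
      (Reg.comp (g := Φ) (f := μ) h2 (hS.reg hx))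

end Pool.Agent.Rot5
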