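import Pool.Agent.Rot5.RepS
import Pool.Agent.Rot5.Phi
import Pool.Agent.HopfFin.SwapCj

/-!
# The mirror image of an action

`g3 = refS ∘ g⁻¹ ∘ refS` is again an action in normal form, with `h3 = refS ∘ h ∘ refS`: near the
2-sphere `g3 = rotA θ` (`refS_rotA`), `h3 (g3 x) = refS (h (g⁻¹ (refS x))) = refS (rotA (-θ) (h
(refS x))) = rotA θ (h3 x)`. Let `Rep n g3 f3 G3 H3 G3'` (`rep_exists`).

The generator: let `C z = (z 0, z 1, z 2, - z 3)`; `sph n (C z) = refS (sph n z)`. The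
homeomorphism `K z = C (G'⁻¹ (C z))` satisfies `sph n (K z) = refS (g⁻¹ (refS (sph n z))) = g3
(sph n z)` and `K z = shf 1 z` far away, so `K = G3'` (`sph_lift_unique` on `univ`; they agree far
away). Let `ι x = (‖x‖ ^ 2)⁻¹ • x` on `V4` (the inversion: `specInversion` or the map `J` used in
`HopfFin/SwapCj.lean`, a diffeomorphism). `q1 (ι x) = C (q1 x)` for `x ∈ Om` (`q1_smul`-like: `q1`
of a positive multiple). So for `x ∈ Om`, `q1 (G3 x) = G3' (q1 x) = C (G'⁻¹ (C (q1 x))) = C (G'⁻¹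
(q1 (ι x))) = C (q1 (G⁻¹ (ι x))) = q1 (ι (G⁻¹ (ι x)))` (`crd_zpow`), so `G3 = ι G⁻¹ ι` on `Om`
and, `Om ∩ V4` being dense in `V4` (or by continuity along the ray: both maps are `x ↦ x / 2`
there), on `V4`. So with `Ψ = ι`: `Ψ * g * Ψ⁻¹ = g3⁻¹` for the restrictions `g, g3` of `G, G3` to
`V4` (`Sm.restr`), i.e. `CjV G G3`.
-/

set_option autoImplicit false

open scoped ContDiff Topology Manifold
open Set Filter Metric

namespace Pool.Agent.Rot5

open Pool.Agent.HopfCov Pool.Agent.HopfFin Pool.Agent.HopfCov.Smooth Pool.Agent.Rot4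

/-- the mirror image of the inverse -/
noncomputable def mir (g : Sph4 ≃ₜ Sph4) : Sph4 ≃ₜ Sph4 := refHS * g⁻¹ * refHS

theorem mir_apply (g : Sph4 ≃ₜ Sph4) (x : Sph4) : mir g x = refS (g.symm (refS x)) := rfl

private theorem Refl_far_inv {n : ℕ} {g h : Sph4 ≃ₜ Sph4} (hg : NormAct n g h) :
    NearS2 fun x => g.symm (refS x) = rotA (-(2 * Real.pi / n)) (refS x) := by
  have h1 : ∀ x, OnS2 ((rotHS (-(2 * Real.pi / n)) * refHS : Sph4 ≃ₜ Sph4) x) ↔ OnS2 x := by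
    intro x
    show OnS2 (rotA (-(2 * Real.pi / n)) (refS x)) ↔ OnS2 x
    rw [OnS2_rotA, OnS2_refS]
  refine (hg.near.comp h1).mono fun x hx => ?_
  have h2 : g (rotA (-(2 * Real.pi / n)) (refS x)) =
      rotA (2 * Real.pi / n) (rotA (-(2 * Real.pi / n)) (refS x)) := hx
  rw [rotA_rotA, add_neg_cancel, rotA_zero] at h2
  rw [Homeomorph.symm_apply_eq]
  exact h2.symm

theorem norm_mir {n : ℕ} {g h : Sph4 ≃ₜ Sph4} (hg : NormAct n g h) :
    NormAct n (mir g) (refHS * h * refHS) := by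
  refine ⟨fun x => ?_, ?_, ?_, fun x => ?_⟩
  · refine ld_mul (f := refHS * g⁻¹) (g := refHS) ?_ (ld_refS x)
    refine ld_mul (f := refHS) (g := g⁻¹) (ld_refS _) ?_
    have h1 := ld_inv (hg.smooth (g.symm (refHS x)))
    rwa [g.apply_symm_apply] at h1
  · refine (Refl_far_inv hg).mono fun x hx => ?_
    rw [mir_apply, hx, refS_rotA, neg_neg, refS_refS]
    rfl
  · refine (hg.top.comp (f := refHS) fun x => OnS2_refS).mono fun x hx => ?_
    show refS (h (refS x)) = x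
    have h1 : h (refS x) = refS x := hx
    rw [h1, refS_refS]
  · show refS (h (refS (refS (g.symm (refS x))))) = rotS n (refS (h (refS x)))
    have h1 := hg.conj (g.symm (refS x))
    rw [g.apply_symm_apply] at h1
    rw [refS_refS, h1]
    show _ = rotA (2 * Real.pi / n) (refS (rotA (2 * Real.pi / n) (h (g.symm (refS x)))))
    rw [refS_rotA, rotA_rotA, add_neg_cancel, rotA_zero]

/-- the reflection in the last coordinate -/
private noncomputable def Refl_C (z : E4) : E4 := WithLp.toLp 2 ![z 0, z 1, z 2, -z 3]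

private theorem Refl_continuous_C : Continuous Refl_C := by
  unfold Refl_C
  fun_prop

private theorem Refl_sph_C (n : ℕ) (z : E4) : sph n (Refl_C z) = refS (sph n z) := by
  have e1 : q2 n (Refl_C z) = Refl_C (q2 n z) := by
    ext i
    fin_cases i <;> simp [q2, Refl_C]
  have e2 : ∀ y : E4, sg (Refl_C y) = refS (sg y) := by
    intro y
    have e3 : ‖Refl_C y‖ ^ 2 = ‖y‖ ^ 2 := by
      rw [EuclideanSpace.norm_sq_eq, EuclideanSpace.norm_sq_eq, Fin.sum_univ_four,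
        Fin.sum_univ_four]
      simp [Refl_C]
    refine vec_inj ?_
    show sgv (Refl_C y) = refE (sgv y)
    ext i
    fin_cases i <;> simp [sgv, refE, e3] <;> simp [Refl_C]
  show sg (q2 n (Refl_C z)) = refS (sg (q2 n z))
  rw [e1, e2]

private theorem Refl_C_shf (c : ℝ) (z : E4) : Refl_C (shf c z) = shf (-c) (Refl_C z) := by
  ext i
  fin_cases i <;> simp [Refl_C, shf]
  ring

private theorem Refl_wsq_C (z : E4) : wsq (Refl_C z) = wsq z := rfl

private theorem Refl_wsq_shf (c : ℝ) (z : E4) : wsq (shf c z) = wsq z := by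
  simp [wsq, shf]

private theorem Refl_shf_shf (a b : ℝ) (z : E4) : shf a (shf b z) = shf (a + b) z := by
  ext i
  fin_cases i <;> simp [shf]
  ring

private theorem Refl_Om_inv {x : E4} (hx : Om x) : Om ((‖x‖ ^ 2)⁻¹ • x) :=
  (Om_smul (inv_pos.2 (pow_pos (norm_pos_iff.2 hx.ne) 2))).2 hx

private theorem Refl_q1_inv {x : E4} (hx : Om x) : q1 ((‖x‖ ^ 2)⁻¹ • x) = Refl_C (q1 x) := by
  have hN : 0 < ‖x‖ := norm_pos_iff.2 hx.ne
  have h0 : 0 < ‖x‖ - x 0 := sub_pos.2 hx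
  have e1 : ‖(‖x‖ ^ 2)⁻¹ • x‖ = ‖x‖⁻¹ := by
    rw [norm_smul, norm_inv, norm_pow, norm_norm]
    field_simp
  have e2 : ∀ i, ((‖x‖ ^ 2)⁻¹ • x) i = (‖x‖ ^ 2)⁻¹ * x i := fun i => rfl
  have e3 : ∀ i, (‖x‖ ^ 2)⁻¹ * x i / (‖x‖⁻¹ - (‖x‖ ^ 2)⁻¹ * x 0) = x i / (‖x‖ - x 0) := by
    intro i
    have e4 : ‖x‖⁻¹ - (‖x‖ ^ 2)⁻¹ * x 0 = (‖x‖ ^ 2)⁻¹ * (‖x‖ - x 0) := by
      field_simp
    rw [e4, mul_div_mul_left _ _ (by positivity)]
  unfold q1
  rw [e1, e2, e2, e2, e2, e3, e3, e3, Real.logb_inv]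
  rfl

private theorem Refl_far {n : ℕ} (hn : 0 < n) {g : Sph4 ≃ₜ Sph4}
    {f G H G' f3 G3 H3 G3' : E4 ≃ₜ E4} (hR : Rep n g f G H G')
    (hR3 : Rep n (mir g) f3 G3 H3 G3') (z : E4) : G3' (Refl_C (G' z)) = Refl_C z := by
  obtain ⟨R, hR1⟩ := hR.far
  obtain ⟨R', hR2⟩ := hR3.far
  obtain ⟨z₀, hz₀⟩ : ∃ z : E4, max R R' ≤ wsq z := by
    refine ⟨EuclideanSpace.single 0 (|max R R'| + 1), ?_⟩
    generalize max R R' = r
    unfold wsq
    simp
    nlinarith [le_abs_self r, abs_nonneg r]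
  refine sph_lift_unique hn isPreconnected_univ (f := fun z => G3' (Refl_C (G' z)))
    (g := Refl_C) (G3'.continuous.comp (Refl_continuous_C.comp G'.continuous)).continuousOn
    Refl_continuous_C.continuousOn (fun z _ => ?_) (mem_univ z₀) ?_ z (mem_univ z)
  · rw [hR3.lift, Refl_sph_C, hR.lift, mir_apply, refS_refS, g.symm_apply_apply, Refl_sph_C]
  · show G3' (Refl_C (G' z₀)) = Refl_C z₀
    rw [hR1 z₀ ((le_max_left _ _).trans hz₀), Refl_C_shf, hR2, Refl_shf_shf]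
    · have e1 : (1 : ℝ) + -1 = 0 := by norm_num
      rw [e1]
      ext i
      simp [shf]
    · rw [Refl_wsq_shf, Refl_wsq_C]
      exact (le_max_right _ _).trans hz₀

theorem rep_mir {n : ℕ} (hn : 0 < n) {g h : Sph4 ≃ₜ Sph4} (hg : NormAct n g h)
    {f G H G' f3 G3 H3 G3' : E4 ≃ₜ E4} (hR : Rep n g f G H G')
    (hR3 : Rep n (mir g) f3 G3 H3 G3') : CjV G G3 := by
  obtain ⟨J, j1, -, j3⟩ := inversion_data
  obtain ⟨k, k1, k2⟩ := hR.pair.sm.restr
  obtain ⟨k3, k4, k5⟩ := hR3.pair.sm.restr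
  have key : ∀ w : V4, k3 (J (k w)) = J w := by
    intro w
    refine Subtype.ext ?_
    have e1 : ((k3 (J (k w)) : V4) : E4) = G3 ((‖G w‖ ^ 2)⁻¹ • G w) := by
      rw [← k4, j3, ← k1]
    rw [e1, j3]
    by_cases hw : Om (w : E4)
    · have hGw : Om (G w) := hR.pair.nnG.om.2 hw
      have hG3 : Om (G3 ((‖G w‖ ^ 2)⁻¹ • G w)) := hR3.pair.nnG.om.2 (Refl_Om_inv hGw)
      rw [← b1_q1 hG3, ← b1_q1 (Refl_Om_inv hw), ← hR3.crd _ (Refl_Om_inv hGw),
        Refl_q1_inv hGw, Refl_q1_inv hw, ← hR.crd _ hw, Refl_far hn hR hR3]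
    · obtain ⟨t, ht, hwt⟩ := not_Om_iff.1 hw
      have ht0 : 0 < t := by
        rcases ht.eq_or_lt with h1 | h1
        · exfalso
          apply V4_ne w
          rw [hwt, ← h1, zero_smul]
        · exact h1
      obtain ⟨δ, hδ, hG⟩ := hR.pair.near
      obtain ⟨ε, hε, hG3⟩ := hR3.pair.near
      have hn0 : ‖(e0 : E4)‖ = 1 := by simp [e0]
      have a1 : ‖((2⁻¹ : ℝ) * t) • (e0 : E4)‖ = 2⁻¹ * t := by
        rw [norm_smul, hn0, mul_one, Real.norm_of_nonneg (by positivity)]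
      have a2 : ‖t • (e0 : E4)‖ = t := by
        rw [norm_smul, hn0, mul_one, Real.norm_of_nonneg ht]
      have a4 : (2⁻¹ : ℝ) • t • (e0 : E4) = ((2⁻¹ : ℝ) * t) • (e0 : E4) := smul_smul _ _ _
      rw [hwt, hG _ (smul_e0_mem_Cone hδ.le ht), a4, a1, smul_smul,
        hG3 _ (smul_e0_mem_Cone hε.le (by positivity)), smul_smul, a2, smul_smul]
      have a3 : (2⁻¹ : ℝ) * (((2⁻¹ * t) ^ 2)⁻¹ * (2⁻¹ * t)) = (t ^ 2)⁻¹ * t := by
        field_simp
      rw [a3]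
  refine ⟨J, k, k3, j1, k1, k4, Or.inr ?_⟩
  refine Homeomorph.ext fun x => ?_
  obtain ⟨w, rfl⟩ := J.surjective x
  have h1 : (J * k * J⁻¹ : V4 ≃ₜ V4) (J w) = J (k w) := by
    show J (k (J.symm (J w))) = J (k w)
    rw [J.symm_apply_apply]
  have h2 : (k3⁻¹ : V4 ≃ₜ V4) (J w) = J (k w) := by
    show k3.symm (J w) = J (k w)
    rw [Homeomorph.symm_apply_eq]
    exact (key w).symm
  rw [h1, h2]

end Pool.Agent.Rot5
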