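import Pool.Agent.Rot5.Apply
import Pool.Agent.Rot5.Straighten
import Pool.Agent.Rot5.NormS
import Pool.Agent.Rot5.Refl
import Pool.Agent.Rot5.GroupPow

/-!
# Equivalent actions

PROOFS. `off_of_lift`: `ray_off_pow` for `G2` gives `T, b`; `apply_lift` gives `Φ, Λ`; `b = Λ x₀`,
and `Reg Φ x` unless `Λ x = ((G2 ^ m) ^ k) b = Λ ((G1 ^ (m k)) x₀)`, i.e. `x = ((G1 ^ m) ^ k) x₀`;
`off_of_pow`.
`off_of_equiv`: `homeo_of_isDiffeo` gives `f` with `f (g1 x) = g2 (f x)`, a local diffeomorphism;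
`OnS2 (f x) ↔ OnS2 x` by `NormAct.fix` for `g1` and `g2`; `straighten`. In the first case
`off_of_lift`. In the second one `n = 2` and `f1 (g1 x) = refS (g2 (refS (f1 x))) = mir g2 (f1
x)`, because `g2.symm = g2` (`NormAct.pow`, `n = 2`). `norm_mir`, `rep_exists` give a
representation of `mir g2` with a generator
`G3`, `rep_mir` gives `CjV G2 G3`, so `Off (G3 ^ m)` (`CjV.off`, `CjV.symm`, `Pair.good`,
`Good.contr`); then `off_of_lift`.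
-/

set_option autoImplicit false

open scoped ContDiff Topology Manifold
open Set Filter Metric

namespace Pool.Agent.Rot5

open Pool.Agent.HopfCov Pool.Agent.HopfFin Pool.Agent.HopfCov.Smooth Pool.Agent.Rot4

theorem off_of_lift {n m : ℕ} (hn : 0 < n) (hm : 0 < m) {f g1 g2 : Sph4 ≃ₜ Sph4}
    {f1 G1 H1 G1' f2 G2 H2 G2' : E4 ≃ₜ E4} (hR1 : Rep n g1 f1 G1 H1 G1')
    (hR2 : Rep n g2 f2 G2 H2 G2') (hc : CommNear f) (hS : ∀ x, OnS2 (f x) ↔ OnS2 x)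
    (hld : ∀ x, LocalDiffeoAt f x) (hcj : ∀ x, f (g1 x) = g2 (f x)) (hO : Off (G2 ^ m)) :
    Off (G1 ^ m) := by
  obtain ⟨T, b, hT, hTc, hb, hreg⟩ := ray_off_pow hn hm hR2.pair hO
  obtain ⟨Φ, Λ, Γ, hΦ, hΦc, hΛ, hsur, hinj, hΛc, -, -, -, hr1, hr2⟩ :=
    apply_lift hn hm hR1 hR2 hc hS (fun x _ => hld x) hcj hT hTc
  obtain ⟨x₀, hx₀, rfl⟩ := hsur b hb
  refine off_of_pow hn hm hR1.pair hΦ hΦc hx₀ fun x hx hk => ?_
  by_cases hxO : Om x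
  · refine hr1 x hxO (hld _) (hreg _ (hΛ x hxO).ne fun k h => hk k ?_) (hld _)
    have h1 : (G2 ^ m) ^ k = G2 ^ ((m : ℤ) * k) := by
      rw [zpow_mul, zpow_natCast]
    have h2 : (G1 ^ m) ^ k = G1 ^ ((m : ℤ) * k) := by
      rw [zpow_mul, zpow_natCast]
    rw [h1, ← hΛc _ x₀ hx₀] at h
    rw [h2]
    exact hinj _ _ hxO (crd_zpow hR1.pair.nnG hR1.crd _ hx₀).1 h
  · exact hr2 x hx hxO

theorem off_of_equiv {n m : ℕ} (hn : 2 ≤ n) (hm : 0 < m) {g1 h1 g2 h2 : Sph4 ≃ₜ Sph4}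
    (hg1 : NormAct n g1 h1) (hg2 : NormAct n g2 h2)
    {f1 G1 H1 G1' f2 G2 H2 G2' : E4 ≃ₜ E4} (hR1 : Rep n g1 f1 G1 H1 G1')
    (hR2 : Rep n g2 f2 G2 H2 G2') (hE : SphereEquivalent g1 g2) (hO : Off (G2 ^ m)) :
    Off (G1 ^ m) := by
  have hn0 : 0 < n := by omega
  obtain ⟨φ, hφ, hφc⟩ := hE
  obtain ⟨f, hf, hld⟩ := homeo_of_isDiffeo hφ
  have hcj : ∀ x, f (g1 x) = g2 (f x) := fun x => by rw [hf, hf, hφc]
  have hS : ∀ x, OnS2 (f x) ↔ OnS2 x := fun x => by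
    rw [← hg2.fix hn, ← hg1.fix hn, ← hcj, f.injective.eq_iff]
  obtain ⟨f', hc', hS', hld', hcase⟩ := straighten hn hg1.near hg2.near hcj hS fun x _ => hld x
  rcases hcase with hcj' | ⟨rfl, hcj'⟩
  · exact off_of_lift hn0 hm hR1 hR2 hc' hS' (fun x => hld' x (hld x)) hcj' hO
  · have hsymm : ∀ x, g2.symm x = g2 x := by
      intro x
      rw [Homeomorph.symm_apply_eq]
      exact (hg2.pow hn0 x).symm
    obtain ⟨f3, G3, H3, G3', hR3⟩ := rep_exists hn0 (norm_mir hg2)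
    have hO3 : Off (G3 ^ m) :=
      CjV.off hR3.pair.good.contr hR2.pair.good.contr (rep_mir hn0 hg2 hR2 hR3).symm hm hO
    refine off_of_lift hn0 hm hR1 hR3 hc' hS' (fun x => hld' x (hld x)) (fun x => ?_) hO3
    rw [mir_apply, hsymm, hcj']

end Pool.Agent.Rot5
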