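import Pool.Agent.Rot5.Orth
import Pool.Agent.Rot5.ConeLD
import Pool.Agent.Rot5.NormS
import Pool.Agent.Rot5.StatementAct

/-!
# Orthogonal actions and the action by rotations

PROOFS. `lin_iff`: `←`: `A = rotE θ` as a linear isometry equivalence (`θ = 2 π / n`; inverse
`rotE (-θ)`, `norm_rotE`). `→`: let `f` be the homeomorphism of `φ` (`homeo_of_isDiffeo`), `K =
cone f`, `x₀ = infS` (`OnS2_inf`). Near `vec x₀`, `K (rotE θ y) = A (K y)`: `g (unit y) = rotS n
(unit y)` (`unit_rotE`), `cone f (rotE θ y) = ‖y‖ • vec (f (g (unit y))) = ‖y‖ • A (vec (f (unit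
y)))`. `L = fderiv ℝ K (vec x₀)` has a nonzero determinant (`reg_cone`), `fderiv_conj`,
`orth_conj` (`cos θ ≠ 1` for `n ≥ 2`) give `B` with `B A = rotE θ B`. Let `b : S⁴ → S⁴` be the
restriction of `B` (a diffeomorphism: as `ld_rotA` in `BasicLD.lean`). Then `b ∘ f` conjugates `g`
to `rotS n`. `off_iff'`: the same with the homeomorphism `h` of `LinearOffOneOrbit`; it is a local
diffeomorphism at `x₀ = infS`, because `x₀` is fixed by `g`, hence not in the orbit of `y` (if
`g^[k] y = x₀` then `g y = y`: `NormAct.pow`).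
`conj_cases`: `OnS2 x → OnS2 (f x)`: let `g1 x = x`; `g2^[k]` fixes `f x`. With `h2`: `(rotS
n)^[k]` fixes `h2 (f x)`; either `OnS2 (h2 (f x))`, so `OnS2 (f x)`, or `rotA (k θ)` is the
identity (`rotS_iterate`; `rotE t v = v` with `pvL v ≠ 0` implies `cos t = 1`, `sin t = 0`), so
`g2^[k] = id` (`h2` conjugates it to `(rotS n)^[k]`), `g1 = id`, which contradicts `NormAct.fix`
(`sph_off`: there are points off the 2-sphere; e.g. the point `single 4 1`). Take `x₀ = infS`;
near `x₀`, `g1 = rotS n` and `g2^[k] = (rotS n)^[k] = rotA (k θ)` near `f x₀` (`OnS2 (f x₀)`; by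
induction on `k`, `NearS2`). As above `fderiv_conj` with `A = rotE (k θ)` and `rot_angle` give
`rotA (k θ) = rotA θ` or `= rotA (-θ)` as maps of the sphere. `h2 ∘ g2^[k] = rotA (k θ) ∘ h2`, so
in the first case `h2 (g2^[k] y) = rotS n (h2 y) = h2 (g2 y)` and `g2^[k] y = g2 y`; in the second
one `h2 (g2 (g2^[k] y)) = h2 y`, so `g2^[k] y = g2.symm y`.
-/

set_option autoImplicit false

open scoped ContDiff Topology Manifold
open Set Filter Metric

namespace Pool.Agent.Rot5

open Pool.Agent.HopfCov Pool.Agent.HopfFin Pool.Agent.HopfCov.Smooth Pool.Agent.Rot4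

private theorem Faith_rotE_rotE (s t : ℝ) (x : E5) : rotE s (rotE t x) = rotE (s + t) x := by
  ext i
  fin_cases i
  · rfl
  · rfl
  · rfl
  · show Real.cos s * (Real.cos t * x 3 - Real.sin t * x 4) -
      Real.sin s * (Real.sin t * x 3 + Real.cos t * x 4) =
      Real.cos (s + t) * x 3 - Real.sin (s + t) * x 4
    rw [Real.cos_add, Real.sin_add]
    ring
  · show Real.sin s * (Real.cos t * x 3 - Real.sin t * x 4) +
      Real.cos s * (Real.sin t * x 3 + Real.cos t * x 4) =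
      Real.sin (s + t) * x 3 + Real.cos (s + t) * x 4
    rw [Real.cos_add, Real.sin_add]
    ring

private theorem Faith_rotE_self {t : ℝ} (hc : Real.cos t = 1) (hs : Real.sin t = 0) (x : E5) :
    rotE t x = x := by
  ext i
  fin_cases i
  · rfl
  · rfl
  · rfl
  · show Real.cos t * x 3 - Real.sin t * x 4 = x 3
    rw [hc, hs]
    ring
  · show Real.sin t * x 3 + Real.cos t * x 4 = x 4
    rw [hc, hs]
    ring

private theorem Faith_rotE_zero (x : E5) : rotE 0 x = x :=
  Faith_rotE_self Real.cos_zero Real.sin_zero x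

/-- the rotation as a linear isometry -/
private noncomputable def Faith_rot (t : ℝ) : E5 ≃ₗᵢ[ℝ] E5 where
  toFun := rotE t
  map_add' := rotE_add t
  map_smul' c x := rotE_smul t c x
  invFun := rotE (-t)
  left_inv x := by rw [Faith_rotE_rotE, neg_add_cancel, Faith_rotE_zero]
  right_inv x := by rw [Faith_rotE_rotE, add_neg_cancel, Faith_rotE_zero]
  norm_map' := norm_rotE t

private theorem Faith_rot_apply (t : ℝ) (x : E5) : Faith_rot t x = rotE t x := rfl

private theorem Faith_fact : Fact (Module.finrank ℝ E5 = 4 + 1) :=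
  Fact.mk (@finrank_euclideanSpace_fin ℝ _ (4 + 1))

attribute [local instance] Faith_fact

private theorem Faith_smooth {F : E5 → E5} (hF : ContDiff ℝ ∞ F)
    (f : sphere (0 : E5) 1 → sphere (0 : E5) 1) (hf : ∀ x, ((f x : E5)) = F (x : E5)) :
    ContMDiff (𝓡 4) (𝓡 4) ∞ f := by
  have h1 : ∀ x : sphere (0 : E5) 1, F (x : E5) ∈ sphere (0 : E5) 1 := fun x => by
    rw [← hf x]
    exact (f x).2
  have h2 : ContMDiff (𝓡 4) 𝓘(ℝ, E5) ∞ fun x : sphere (0 : E5) 1 => F (x : E5) :=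
    hF.contMDiff.comp contMDiff_coe_sphere
  have h3 : f = Set.codRestrict (fun x : sphere (0 : E5) 1 => F (x : E5)) (sphere (0 : E5) 1) h1 :=
    funext fun x => Subtype.ext (hf x)
  rw [h3]
  exact h2.codRestrict_sphere h1

private theorem Faith_gen {F G : E5 → E5} (hF : ContDiff ℝ ∞ F) (hG : ContDiff ℝ ∞ G)
    (f g : sphere (0 : E5) 1 → sphere (0 : E5) 1) (hf : ∀ x, ((f x : E5)) = F (x : E5))
    (hg : ∀ x, ((g x : E5)) = G (x : E5)) (h1 : ∀ x, g (f x) = x) (h2 : ∀ x, f (g x) = x) :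
    IsLocalDiffeomorph (𝓡 4) (𝓡 4) ∞ f := by
  let Φ : Diffeomorph (𝓡 4) (𝓡 4) (sphere (0 : E5) 1) (sphere (0 : E5) 1) ∞ :=
    ⟨⟨f, g, h1, h2⟩, Faith_smooth hF f hf, Faith_smooth hG g hg⟩
  exact Φ.isLocalDiffeomorph

/-- the restriction of a linear isometry to the sphere -/
private noncomputable def Faith_res (B : E5 ≃ₗᵢ[ℝ] E5) (x : Sph4) : Sph4 :=
  ⟨B (vec x), by rw [mem_sphere_zero_iff_norm, B.norm_map, norm_vec]⟩

private theorem Faith_vec_res (B : E5 ≃ₗᵢ[ℝ] E5) (x : Sph4) : vec (Faith_res B x) = B (vec x) :=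
  rfl

private theorem Faith_res_symm (B : E5 ≃ₗᵢ[ℝ] E5) (x : Sph4) :
    Faith_res B.symm (Faith_res B x) = x := by
  apply vec_inj
  rw [Faith_vec_res, Faith_vec_res, LinearIsometryEquiv.symm_apply_apply]

private theorem Faith_symm_res (B : E5 ≃ₗᵢ[ℝ] E5) (x : Sph4) :
    Faith_res B (Faith_res B.symm x) = x := by
  apply vec_inj
  rw [Faith_vec_res, Faith_vec_res, LinearIsometryEquiv.apply_symm_apply]

private theorem Faith_cont_res (B : E5 ≃ₗᵢ[ℝ] E5) : Continuous (Faith_res B) :=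
  Continuous.subtype_mk (B.continuous.comp continuous_vec) _

/-- the restriction as a homeomorphism -/
private noncomputable def Faith_resH (B : E5 ≃ₗᵢ[ℝ] E5) : Sph4 ≃ₜ Sph4 where
  toFun := Faith_res B
  invFun := Faith_res B.symm
  left_inv := Faith_res_symm B
  right_inv := Faith_symm_res B
  continuous_toFun := Faith_cont_res B
  continuous_invFun := Faith_cont_res B.symm

private theorem Faith_vec_resH (B : E5 ≃ₗᵢ[ℝ] E5) (x : Sph4) :
    vec (Faith_resH B x) = B (vec x) := rfl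

private theorem Faith_ld_resH (B : E5 ≃ₗᵢ[ℝ] E5) (x : Sph4) : LocalDiffeoAt (Faith_resH B) x :=
  Faith_gen (F := B) (G := B.symm) B.contDiff B.symm.contDiff (Faith_res B) (Faith_res B.symm)
    (fun _ => rfl) (fun _ => rfl) (Faith_res_symm B) (Faith_symm_res B) x

private theorem Faith_inf : OnS2 infS := by
  have h : vec infS = (EuclideanSpace.single 0 1 : E5) := rfl
  unfold OnS2
  rw [h]
  constructor <;> simp

/-- the derivative at the centre -/
private theorem Faith_deriv {f : Sph4 → Sph4} (hf : LocalDiffeoAt f infS) {A : E5 →L[ℝ] E5}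
    {t : ℝ} (h : ∀ᶠ x in 𝓝 infS, vec (f (rotA t x)) = A (vec (f x))) :
    ∃ L : E5 →L[ℝ] E5, L.det ≠ 0 ∧ ∀ v, L (rotE t v) = A (L v) := by
  have hr : RG (cone f) (vec infS) := (reg_cone hf).self_of_nhds
  refine ⟨fderiv ℝ (cone f) (vec infS), hr.2, fderiv_conj (OnS2_iff.1 Faith_inf) hr.1 ?_⟩
  have h1 : Tendsto unit (𝓝 (vec infS)) (𝓝 infS) := by
    have h2 : Tendsto unit (𝓝 (vec infS)) (𝓝 (unit (vec infS))) :=
      continuousAt_unit (vec_ne infS)
    rwa [unit_vec] at h2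
  filter_upwards [h1.eventually h, isOpen_ne.eventually_mem (vec_ne infS)] with y hy hy0
  have hy0' : y ≠ 0 := hy0
  show ‖rotE t y‖ • vec (f (unit (rotE t y))) = A (‖y‖ • vec (f (unit y)))
  rw [norm_rotE, unit_rotE t hy0', hy, map_smul]

private theorem Faith_cos {n : ℕ} (hn : 2 ≤ n) : Real.cos (2 * Real.pi / n) ≠ 1 := by
  have hn' : (2 : ℝ) ≤ n := by exact_mod_cast hn
  have hpi := Real.pi_pos
  have hpos : 0 < 2 * Real.pi / n := by positivity
  have hle : 2 * Real.pi / n ≤ Real.pi := by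
    rw [div_le_iff₀ (by linarith)]
    nlinarith
  intro h1
  have := (Real.cos_eq_one_iff_of_lt_of_lt (by linarith) (by linarith)).1 h1
  exact hpos.ne' this

/-- a linearization which is smooth at the centre can be changed to the rotation -/
private theorem Faith_key {n : ℕ} (hn : 2 ≤ n) {g h : Sph4 ≃ₜ Sph4} (hg : NormAct n g h)
    {f : Sph4 ≃ₜ Sph4} (hf : LocalDiffeoAt f infS) {A : E5 ≃ₗᵢ[ℝ] E5}
    (hA : ∀ x, vec (f (g x)) = A (vec (f x))) :
    ∃ b : Sph4 ≃ₜ Sph4, (∀ x, LocalDiffeoAt b x) ∧ ∀ x, b (f (g x)) = rotS n (b (f x)) := by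
  obtain ⟨L, hL, hL'⟩ := Faith_deriv (f := f)
    (A := (A.toContinuousLinearEquiv : E5 →L[ℝ] E5)) (t := 2 * Real.pi / n) hf (by
      filter_upwards [hg.near infS Faith_inf] with x hx
      have h1 : rotA (2 * Real.pi / n) x = g x := hx.symm
      rw [h1]
      exact hA x)
  obtain ⟨B, hB⟩ := orth_conj hL (Faith_cos hn) (A := A) hL'
  refine ⟨Faith_resH B, Faith_ld_resH B, fun x => ?_⟩
  apply vec_inj
  rw [Faith_vec_resH, hA, hB]
  rfl

theorem lin_iff {n : ℕ} (hn : 2 ≤ n) {g h : Sph4 ≃ₜ Sph4} (hg : NormAct n g h) :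
    SmoothlyLinear g ↔ SphereLinear n g := by
  constructor
  · rintro ⟨φ, A, hφ, hA⟩
    obtain ⟨f, hf, hfl⟩ := homeo_of_isDiffeo hφ
    have hA' : ∀ x, vec (f (g x)) = A (vec (f x)) := fun x => by rw [hf, hf, hA]
    obtain ⟨b, hb, hb'⟩ := Faith_key hn hg (hfl infS) hA'
    exact ⟨(b * f : Sph4 ≃ₜ Sph4), isDiffeo_of_homeo fun x => ld_mul (hb _) (hfl x), hb'⟩
  · rintro ⟨φ, hφ, hc⟩
    refine ⟨φ, Faith_rot (2 * Real.pi / n), hφ, fun x => ?_⟩
    rw [hc]
    rfl

theorem off_iff' {n : ℕ} (hn : 2 ≤ n) {g h : Sph4 ≃ₜ Sph4} (hg : NormAct n g h) :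
    LinearOffOneOrbit g ↔ SphereLinearOff n g := by
  constructor
  · rintro ⟨f, A, y, hA, hy, hl⟩
    have h0 : ∀ k : ℕ, infS ≠ g^[k] y := by
      intro k hk
      apply hy
      apply g.injective.iterate k
      have h1 : g^[k] (g y) = g (g^[k] y) := by
        rw [← Function.iterate_succ_apply, Function.iterate_succ_apply']
      rw [h1, ← hk]
      exact (NormAct.fix hn hg).2 Faith_inf
    obtain ⟨b, hb, hb'⟩ := Faith_key hn hg (hl infS h0) hA
    exact ⟨b * f, y, hb', hy, fun x hx => ld_mul (hb _) (hl x hx)⟩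
  · rintro ⟨f, y, hc, hy, hl⟩
    refine ⟨f, Faith_rot (2 * Real.pi / n), y, fun x => ?_, hy, hl⟩
    rw [hc]
    rfl

private theorem Faith_angle {t : ℝ} {w : Sph4} (h : rotA t w = w) (hw : ¬ OnS2 w) (y : Sph4) :
    rotA t y = y := by
  have hv : rotE t (vec w) = vec w := congrArg vec h
  have e3 : Real.cos t * vec w 3 - Real.sin t * vec w 4 = vec w 3 :=
    congrArg (fun y : E5 => y 3) hv
  have e4 : Real.sin t * vec w 3 + Real.cos t * vec w 4 = vec w 4 :=
    congrArg (fun y : E5 => y 4) hv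
  have hw' : pv2 (vec w) ≠ 0 := fun h0 => hw (OnS2_iff.2 h0)
  have hc : Real.cos t = 1 := by
    have h1 : (Real.cos t - 1) * pv2 (vec w) = 0 := by
      unfold pv2
      linear_combination vec w 3 * e3 + vec w 4 * e4
    exact sub_eq_zero.1 ((mul_eq_zero.1 h1).resolve_right hw')
  have hs : Real.sin t = 0 := by
    have h1 := Real.sin_sq_add_cos_sq t
    rw [hc] at h1
    have h2 : Real.sin t ^ 2 = 0 := by linarith
    exact pow_eq_zero_iff two_ne_zero |>.1 h2
  exact vec_inj (Faith_rotE_self hc hs _)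

private theorem Faith_iter {n : ℕ} {g h : Sph4 ≃ₜ Sph4} (hg : NormAct n g h) (k : ℕ)
    (x : Sph4) : h (g^[k] x) = rotA (k * (2 * Real.pi / n)) (h x) := by
  rw [← rotS_iterate]
  induction k with
  | zero => rfl
  | succ k ih => rw [Function.iterate_succ_apply', Function.iterate_succ_apply', hg.conj, ih]

private theorem Faith_near {n : ℕ} {g h : Sph4 ≃ₜ Sph4} (hg : NormAct n g h) (k : ℕ) :
    NearS2 fun x => g^[k] x = rotA (k * (2 * Real.pi / n)) x := by
  induction k with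
  | zero =>
    intro x _
    refine Eventually.of_forall fun y => ?_
    rw [Nat.cast_zero, zero_mul, rotA_zero]
    rfl
  | succ k ih =>
    have h1 : NearS2 fun x => g (rotHS (k * (2 * Real.pi / n)) x) =
        rotS n (rotHS (k * (2 * Real.pi / n)) x) :=
      hg.near.comp fun x => by rw [rotHS_apply, OnS2_rotA]
    refine (ih.and h1).mono ?_
    rintro x ⟨h2, h3⟩
    rw [rotHS_apply, ← h2] at h3
    rw [Function.iterate_succ_apply', h3, h2, rotS, rotA_rotA]
    congr 1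
    push_cast
    ring

/-- a point off the 2-sphere -/
private theorem Faith_off : ∃ x : Sph4, ¬ OnS2 x := by
  refine ⟨⟨(EuclideanSpace.single 4 1 : E5), ?_⟩, fun h => ?_⟩
  · rw [mem_sphere_zero_iff_norm]
    simp
  · have h1 : (EuclideanSpace.single 4 1 : E5) 4 = 0 := h.2
    simp at h1

theorem conj_cases {n : ℕ} (hn : 2 ≤ n) {g1 h1 g2 h2 f : Sph4 ≃ₜ Sph4} (hg1 : NormAct n g1 h1)
    (hg2 : NormAct n g2 h2) (hf : ∀ x, LocalDiffeoAt f x) {k : ℕ}
    (hc : ∀ x, f (g1 x) = g2^[k] (f x)) :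
    (∀ x, f (g1 x) = g2 (f x)) ∨ ∀ x, f (g1 x) = g2.symm (f x) := by
  obtain ⟨t, ht⟩ : ∃ t : ℝ, t = k * (2 * Real.pi / n) := ⟨_, rfl⟩
  have hit : ∀ x, h2 (g2^[k] x) = rotA t (h2 x) := fun x => by rw [ht]; exact Faith_iter hg2 k x
  have hS : ∀ x, OnS2 x → OnS2 (f x) := by
    intro x hx
    have e1 : f x = g2^[k] (f x) := by
      rw [← hc, (NormAct.fix hn hg1).2 hx]
    have e2 : rotA t (h2 (f x)) = h2 (f x) := by rw [← hit, ← e1]
    by_cases h3 : OnS2 (h2 (f x))
    · rw [← NormAct.fix hn hg2]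
      apply h2.injective
      rw [hg2.conj]
      exact rotA_fix h3
    · exfalso
      obtain ⟨y, hy⟩ := Faith_off
      apply hy
      rw [← NormAct.fix hn hg1]
      apply f.injective
      rw [hc]
      apply h2.injective
      rw [hit]
      exact Faith_angle e2 h3 _
  have hnear : ∀ᶠ x in 𝓝 infS, vec (f (rotA (2 * Real.pi / n) x)) =
      ((Faith_rot t).toContinuousLinearEquiv : E5 →L[ℝ] E5) (vec (f x)) := by
    have e1 : ∀ᶠ y in 𝓝 (f infS), g2^[k] y = rotA t y := by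
      rw [ht]
      exact Faith_near hg2 k _ (hS _ Faith_inf)
    filter_upwards [hg1.near infS Faith_inf, f.continuous.continuousAt.eventually e1] with x e2 e3
    have e4 : rotA (2 * Real.pi / n) x = g1 x := e2.symm
    rw [e4, hc, e3]
    rfl
  obtain ⟨L, hL, hL'⟩ := Faith_deriv (hf infS) hnear
  have hL'' : ∀ v, L (rotE (2 * Real.pi / n) v) = rotE t (L v) := hL'
  rcases rot_angle hL hL'' with h3 | h3
  · left
    intro x
    rw [hc]
    apply h2.injective
    rw [hit, hg2.conj]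
    exact vec_inj (h3 _)
  · right
    intro x
    rw [hc]
    apply g2.injective
    rw [g2.apply_symm_apply]
    apply h2.injective
    rw [hg2.conj, hit]
    have e1 : rotA t (h2 (f x)) = rotA (-(2 * Real.pi / n)) (h2 (f x)) := vec_inj (h3 _)
    rw [e1, rotS, rotA_rotA, add_neg_cancel, rotA_zero]

/-- conjugation of the action by a diffeomorphism -/
theorem smoothlyLinear_congr {g : Sph4 → Sph4} {φ g' : Sph4 ≃ₜ Sph4}
    (hφ : ∀ x, LocalDiffeoAt φ x) (hc : ∀ x, φ (g x) = g' (φ x)) :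
    SmoothlyLinear g ↔ SmoothlyLinear g' := by
  constructor
  · rintro ⟨ψ, A, hψ, hA⟩
    obtain ⟨f, hf, hfl⟩ := homeo_of_isDiffeo hψ
    refine ⟨(f * φ⁻¹ : Sph4 ≃ₜ Sph4), A, isDiffeo_of_homeo fun x => ?_, fun y => ?_⟩
    · have h1 := ld_inv (hφ ((φ⁻¹ : Sph4 ≃ₜ Sph4) x))
      have h2 : φ ((φ⁻¹ : Sph4 ≃ₜ Sph4) x) = x := φ.apply_symm_apply x
      rw [h2] at h1
      exact ld_mul (hfl _) h1
    · have h2 : φ (φ.symm y) = y := φ.apply_symm_apply y
      have h3 : φ.symm (g' y) = g (φ.symm y) := by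
        rw [Homeomorph.symm_apply_eq, hc, h2]
      show vec (f (φ.symm (g' y))) = A (vec (f (φ.symm y)))
      rw [h3, hf, hf, hA]
  · rintro ⟨ψ, A, hψ, hA⟩
    obtain ⟨f, hf, hfl⟩ := homeo_of_isDiffeo hψ
    refine ⟨(f * φ : Sph4 ≃ₜ Sph4), A, isDiffeo_of_homeo fun x => ld_mul (hfl _) (hφ x),
      fun y => ?_⟩
    show vec (f (φ (g y))) = A (vec (f (φ y)))
    rw [hc, hf, hf, hA]

theorem linearOff_congr {g : Sph4 → Sph4} {φ g' : Sph4 ≃ₜ Sph4}
    (hφ : ∀ x, LocalDiffeoAt φ x) (hc : ∀ x, φ (g x) = g' (φ x)) :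
    LinearOffOneOrbit g ↔ LinearOffOneOrbit g' := by
  have hit : ∀ (k : ℕ) (x : Sph4), φ (g^[k] x) = g'^[k] (φ x) := by
    intro k x
    induction k with
    | zero => rfl
    | succ k ih => rw [Function.iterate_succ_apply', Function.iterate_succ_apply', hc, ih]
  constructor
  · rintro ⟨h, A, y, hA, hy, hl⟩
    refine ⟨h * φ⁻¹, A, φ y, fun x => ?_, fun h0 => ?_, fun x hx => ?_⟩
    · have h3 : φ.symm (g' x) = g (φ.symm x) := by
        rw [Homeomorph.symm_apply_eq, hc, φ.apply_symm_apply]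
      show vec (h (φ.symm (g' x))) = A (vec (h (φ.symm x)))
      rw [h3, hA]
    · rw [← hc] at h0
      exact hy (φ.injective h0)
    · have h1 := ld_inv (hφ ((φ⁻¹ : Sph4 ≃ₜ Sph4) x))
      have h2 : φ ((φ⁻¹ : Sph4 ≃ₜ Sph4) x) = x := φ.apply_symm_apply x
      rw [h2] at h1
      refine ld_mul (hl _ fun k hk => hx k ?_) h1
      rw [← hit, ← hk, h2]
  · rintro ⟨h, A, y, hA, hy, hl⟩
    refine ⟨h * φ, A, φ.symm y, fun x => ?_, fun h0 => ?_, fun x hx => ?_⟩
    · show vec (h (φ (g x))) = A (vec (h (φ x)))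
      rw [hc, hA]
    · have h1 := congrArg φ h0
      rw [hc, φ.apply_symm_apply] at h1
      exact hy h1
    · refine ld_mul (hl _ fun k hk => hx k ?_) (hφ x)
      apply φ.injective
      rw [hit, φ.apply_symm_apply, hk]

end Pool.Agent.Rot5
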