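import Pool.Agent.HopfFin.OffIff
import Pool.Agent.HopfFin.Space
import Pool.Agent.HopfRem.Merge
import Pool.Agent.Rot4.OffSing

/-!
# Finitely many singular orbits

PROOF of `offPoint_of_fin`: as `offPoint_of_sing` (`HopfFin/OffIff.lean`): `Φ` descends to a
homeomorphism `F : M ≃ₜ S¹ × S³` which is a local diffeomorphism off the finite set of the `p b`,
`b ∈ B`. There `S¹ × S³ = Circle × S3` carries the structure `model13`; to apply `merge` (which is
stated for two manifolds modelled on `E4`) use a manifold `X : Mfd4` with a diffeomorphism to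
`Circle × S3` (`exists_S1S3` in `HopfRem/Class3.lean`, `DiffeoS1S3`), compose `F` with it, apply
`merge` (`M` is connected: it is the image of the connected space `V4` under `p`) and compose
back; see `off_of_length` in `HopfRem/Class3.lean` and `almost_off` in `HopfRem/Final.lean` for
similar translations (`AlmostDiffeo`, `SmoothOffLengthZero` with a finite set: a finite set has
length zero, `lengthZero_singleton`; it may be easier to prove `SmoothOffLengthZero M X` and to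
apply `off_of_length` and then the known equivalence of `OffPointTo M X` and `OffPoint M`).
`off_of_fin`: `space_good`, `off_of_offPoint` as in `Rot4/OffSing.lean`.
-/

set_option autoImplicit false

open scoped ContDiff Topology Manifold
open Set Filter Metric

namespace Pool.Agent.Rot5

open Pool.Agent.HopfCov Pool.Agent.HopfFin Pool.Agent.HopfCov.Smooth Pool.Agent.Rot4

private theorem LD_of_Reg_GroupF {T : E4 ≃ₜ E4} {x : E4} (h : Reg T x) :
    ∃ s : ℝ, ∀ᶠ y in 𝓝 x, LD s T y := by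
  have hx := h.self_of_nhds
  have hc : ContinuousAt (fderiv ℝ T) x := hx.1.continuousAt_fderiv (by simp)
  have hd : ContinuousAt (fun y => (fderiv ℝ T y).det) x :=
    ContinuousLinearMap.continuous_det.continuousAt.comp hc
  refine ⟨(fderiv ℝ T x).det, ?_⟩
  have h0 : 0 < (fderiv ℝ T x).det * (fderiv ℝ T x).det := mul_self_pos.2 hx.2
  have h1 : ∀ᶠ y in 𝓝 x, 0 < (fderiv ℝ T x).det * (fderiv ℝ T y).det :=
    (continuousAt_const.mul hd).eventually (isOpen_Ioi.mem_nhds h0)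
  filter_upwards [h, h1] with y hy hy1 using ⟨hy.1, hy1⟩

theorem offPoint_of_fin {M : Mfd4} (hM : T2Space M ∧ CompactSpace M) {p : V4 → M.carrier}
    {g : V4 ≃ₜ V4} {G Φ : E4 ≃ₜ E4} (hp : OrbitMap g p) (hG : Extends G g) (h0 : Φ 0 = 0)
    (hΦ : Φ * G = tau * Φ) {B : Set E4} (hB : B.Finite) (hb : ∀ b ∈ B, b ≠ 0)
    (hr : ∀ x, x ≠ 0 → (∀ b ∈ B, ∀ k : ℤ, x ≠ (G ^ k : E4 ≃ₜ E4) b) → Reg Φ x) :
    OffPoint M := by
  obtain ⟨a1, a2⟩ := hM
  have a1' : T2Space M.carrier := a1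
  have a2' : CompactSpace M.carrier := a2
  obtain ⟨τ, h5, h6⟩ := exists_tau
  obtain ⟨q₀, c1, c2, c3, -⟩ := modelDir τ h6
  obtain ⟨k, k1, -, k3⟩ := restr_gen Φ h0
  have k1' : Extends Φ k := fun x => (k1 x).symm
  have hconj : k * g = τ * k := by
    have d1 : Extends (Φ * G) (k * g) := k1'.mul hG
    have d2 : Extends (tau * Φ) (τ * k) := h5.mul k1'
    rw [hΦ] at d1
    exact d1.eq_of d2
  obtain ⟨F, F1, F2⟩ := descend_gen hp c1 c2 c3 k hconj
  obtain ⟨X, hX⟩ := exists_S1S3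
  obtain ⟨p₀, hm⟩ := hX.model
  obtain ⟨Ψ⟩ := hX
  have c4 : ConnectedSpace X.carrier := hm.orbit.closed.connected
  let F₀ : M.carrier ≃ₜ X.carrier := F.trans Ψ.symm.toHomeomorph
  have d4 : ConnectedSpace M.carrier := F₀.symm.surjective.connectedSpace F₀.symm.continuous
  let S : Set M.carrier := {x | ∃ y : V4, (y : E4) ∈ B ∧ p y = x}
  have hS : S.Finite := by
    have h1 : ((fun y : V4 => (y : E4)) ⁻¹' B).Finite :=
      hB.preimage Subtype.val_injective.injOn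
    refine (h1.image p).subset ?_
    rintro x ⟨y, hy, rfl⟩
    exact ⟨y, hy, rfl⟩
  have hF : ∀ x, x ∉ S → LDA F₀ x := by
    intro x hx
    obtain ⟨y, rfl⟩ := hp.surj x
    have hy0 : (y : E4) ≠ 0 := y.2
    have hreg : Reg Φ (y : E4) := by
      refine hr _ hy0 fun b hbB n hn => hx ⟨⟨b, hb b hbB⟩, hbB, ?_⟩
      exact (hp.fib ⟨b, hb b hbB⟩ y).2 ((orbit_iff hG ⟨b, hb b hbB⟩ y).1 ⟨n, hn⟩)
    obtain ⟨s, hs⟩ := LD_of_Reg_GroupF hreg
    have h1 : IsLocalDiffeomorphAt model13 (𝓡 4) ∞ Ψ.symm (F (p y)) :=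
      Ψ.symm.isLocalDiffeomorph (F (p y))
    exact (F2 y (k3 s y hs)).comp (K := 𝓡 4) (hg := h1)
  obtain ⟨F', x₀, hF'⟩ := merge (M := M.carrier) (X := X.carrier) F₀ hS hF
  refine ⟨F'.trans Ψ.toHomeomorph, x₀, fun x hx => ?_⟩
  have h1 : IsLocalDiffeomorphAt (𝓡 4) model13 ∞ Ψ (F' x) := Ψ.isLocalDiffeomorph (F' x)
  exact (hF' x hx).comp (K := model13) (hg := h1)

theorem off_of_fin {G T Φ : E4 ≃ₜ E4} (hG : Sm G) (hT : Good G T e0) (h0 : Φ 0 = 0)
    (hΦ : Φ * G = tau * Φ) {B : Set E4} (hB : B.Finite) (hb : ∀ b ∈ B, b ≠ 0)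
    (hr : ∀ x, x ≠ 0 → (∀ b ∈ B, ∀ k : ℤ, x ≠ (G ^ k : E4 ≃ₜ E4) b) → Reg Φ x) : Off G := by
  obtain ⟨M, p, g, i1, i2, i3, i4, i5⟩ := space_good hG hT
  exact off_of_offPoint ⟨i2, i3⟩ i4 i5 hT.contr
    (offPoint_of_fin ⟨i2, i3⟩ i4 i5 h0 hΦ hB hb hr)

end Pool.Agent.Rot5
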