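import Pool.Agent.Rot4.ExpBasic
import Pool.Agent.Rot4.CoordInv

/-!
# A homeomorphism which commutes with the shift by `n` and, far away, with all shifts

`F` commutes with `shf n` and for large `wsq z` with all `shf t`: there `F (w, s) = (a w, s + b
w)`. Conjugating with the dilation `(w, s) ↦ (w, n s)` gives a homeomorphism `X` which commutes
with `shf 1` and is `(w, s) ↦ (a w, s + (b w) / n)` far away.

PROOF of `theta`. `X z = dil n⁻¹ (F (dil n z))` (a homeomorphism, `dil n` has the inverse `dil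
n⁻¹`); `dil_shf` gives the commutation; regularity: `dil c` is a linear isomorphism. Let `R` be as
in `hfar`, `R₁ = max R R₀`, `χ z = Real.smoothTransition (wsq z - R₁)` (`0` for `wsq z ≤ R₁`, `1`
for `R₁ + 1 ≤ wsq z`), `c z = (1 - 1 / n) * χ z * (F z 3 - z 3)`. Then `c` is continuous and `c
(shf t z) = c z` for all `t` (if `wsq z ≤ R₁` both are `0`, otherwise `hfar`). `Γ z = shf (c z) z`
has the inverse `z ↦ shf (- c z) z`. `c` is smooth: for `wsq z ≥ R` `F` is smooth at `z`, and `c =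
0` near the points with `wsq z < R₁` (and at the points with `wsq z = R₁` the first applies); both
`Γ` and its inverse are smooth (`ContDiff ℝ ∞`), so the derivative of `Γ` is invertible (as
`cs_rg_of_inv` in `Rot4/CorrSmooth`). For `R₁ + 1 ≤ wsq z`: `F (dil n z) = F (shf ((n - 1) * z 3)
z) = shf ((n - 1) * z 3) (F z)`, so with `b = F z 3 - z 3`: `X z` has the first three coordinates
of `F z` and the last one `(z 3 + b + (n - 1) * z 3) / n = z 3 + b / n`. Hence `X (Γ z) = X (shf
((1 - 1 / n) b) z)`; for `u = shf t z`, `F u 3 - u 3 = b`, so `X u = (.., z 3 + t + b / n)` and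
with `t = (1 - 1 / n) b` this is `F z`.
-/

set_option autoImplicit false

open scoped ContDiff Topology
open Set Filter Metric

namespace Pool.Agent.Rot5

open Pool.Agent.HopfCov Pool.Agent.HopfFin Pool.Agent.HopfCov.Smooth Pool.Agent.Rot4

/-- the dilation of the last coordinate -/
noncomputable def dil (c : ℝ) (z : E4) : E4 := WithLp.toLp 2 ![z 0, z 1, z 2, c * z 3]

theorem dil_dil (c d : ℝ) (z : E4) : dil c (dil d z) = dil (c * d) z := by
  ext i
  fin_cases i <;> simp [dil, mul_assoc]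

theorem dil_one (z : E4) : dil 1 z = z := by
  ext i
  fin_cases i <;> simp [dil]

theorem wsq_dil (c : ℝ) (z : E4) : wsq (dil c z) = wsq z := rfl

theorem dil_shf (c t : ℝ) (z : E4) : dil c (shf t z) = shf (c * t) (dil c z) := by
  ext i
  fin_cases i <;> simp [dil, shf, mul_add]

private theorem Theta_rg {f g : E4 → E4} (hf : ContDiff ℝ ∞ f) (hg : ContDiff ℝ ∞ g)
    (h : ∀ x, g (f x) = x) (x : E4) : Reg f x := by
  refine Eventually.of_forall fun x => ?_
  refine ⟨hf.contDiffAt, fun h0 => ?_⟩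
  have h5 : HasFDerivAt (fun y => g (f y)) ((fderiv ℝ g (f x)).comp (fderiv ℝ f x)) x :=
    ((hg.contDiffAt.differentiableAt (by simp)).hasFDerivAt).comp x
      (hf.contDiffAt.differentiableAt (by simp)).hasFDerivAt
  have h6 : fderiv ℝ (fun y => g (f y)) x = ContinuousLinearMap.id ℝ E4 := by
    have h7 : (fun y => g (f y)) = fun y => y := funext h
    rw [h7, fderiv_fun_id]
  have h8 := h5.fderiv
  rw [h6] at h8
  have h9 := congrArg ContinuousLinearMap.det h8
  rw [det_comp_clm, h0, mul_zero] at h9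
  simp [ContinuousLinearMap.det] at h9

private theorem Theta_cd_dil (c : ℝ) : ContDiff ℝ ∞ (dil c) := by
  rw [contDiff_euclidean]
  intro i
  fin_cases i <;> simp [dil] <;> fun_prop

private theorem Theta_inv {c : ℝ} (hc : c ≠ 0) (z : E4) : dil c⁻¹ (dil c z) = z := by
  rw [dil_dil, inv_mul_cancel₀ hc, dil_one]

private theorem Theta_inv' {c : ℝ} (hc : c ≠ 0) (z : E4) : dil c (dil c⁻¹ z) = z := by
  rw [dil_dil, mul_inv_cancel₀ hc, dil_one]

private theorem Theta_reg_dil {c : ℝ} (hc : c ≠ 0) (z : E4) : Reg (dil c) z :=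
  Theta_rg (Theta_cd_dil c) (Theta_cd_dil c⁻¹) (Theta_inv hc) z

/-- the dilation as a homeomorphism -/
private noncomputable def Theta_dilH (c : ℝ) (hc : c ≠ 0) : E4 ≃ₜ E4 where
  toFun := dil c
  invFun := dil c⁻¹
  left_inv := Theta_inv hc
  right_inv := Theta_inv' hc
  continuous_toFun := (Theta_cd_dil c).continuous
  continuous_invFun := (Theta_cd_dil c⁻¹).continuous

private theorem Theta_wsq (t : ℝ) (z : E4) : wsq (shf t z) = wsq z := by
  simp [wsq, shf]

private theorem Theta_three (t : ℝ) (z : E4) : shf t z 3 = z 3 + t := by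
  simp [shf]

private theorem Theta_cd_wsq : ContDiff ℝ ∞ wsq := by
  unfold wsq
  fun_prop

theorem theta {n : ℕ} (hn : 0 < n) {F : E4 ≃ₜ E4} (hper : ∀ z, F (shf n z) = shf n (F z))
    (hfar : ∃ R : ℝ, ∀ z, R ≤ wsq z → (∀ t : ℝ, F (shf t z) = shf t (F z)) ∧ Reg F z) (R₀ : ℝ) :
    ∃ X Γ : E4 ≃ₜ E4, (∀ z, X (shf 1 z) = shf 1 (X z)) ∧ (∀ z, Reg F (dil n z) → Reg X z) ∧
      (∀ z, Reg Γ z) ∧ (∀ z, wsq z ≤ R₀ → Γ z = z) ∧ (∀ t z, Γ (shf t z) = shf t (Γ z)) ∧
      (∀ z, wsq (Γ z) = wsq z) ∧ ∃ R : ℝ, ∀ z, R ≤ wsq z → F z = X (Γ z) := by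
  obtain ⟨R, hR⟩ := hfar
  have hN : (n : ℝ) ≠ 0 := Nat.cast_ne_zero.2 hn.ne'
  set R₁ : ℝ := max R R₀ with hR₁
  have hRR : R ≤ R₁ := le_max_left _ _
  have hR0 : R₀ ≤ R₁ := le_max_right _ _
  set c : E4 → ℝ := fun z =>
    (1 - 1 / (n : ℝ)) * (Real.smoothTransition (wsq z - R₁)) * (F z 3 - z 3) with hc
  have hc0 : ∀ z, wsq z ≤ R₁ → c z = 0 := by
    intro z hz
    simp only [hc]
    rw [Real.smoothTransition.zero_of_nonpos (by linarith), mul_zero, zero_mul]
  have hcs : ∀ t z, c (shf t z) = c z := by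
    intro t z
    rcases le_total (wsq z) R₁ with h | h
    · rw [hc0 z h, hc0 _ (by rwa [Theta_wsq])]
    · have h1 := (hR z (hRR.trans h)).1 t
      simp only [hc]
      rw [Theta_wsq, h1, Theta_three, Theta_three]
      ring
  have hcd : ContDiff ℝ ∞ c := by
    rw [contDiff_iff_contDiffAt]
    intro z
    rcases lt_or_ge (wsq z) R₁ with h | h
    · have h1 : ∀ᶠ y in 𝓝 z, wsq y < R₁ :=
        (Theta_cd_wsq.continuous.continuousAt).eventually_lt_const h
      have h2 : c =ᶠ[𝓝 z] fun _ => (0 : ℝ) := by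
        filter_upwards [h1] with y hy
        exact hc0 y hy.le
      exact contDiffAt_const.congr_of_eventuallyEq h2
    · have h1 : ContDiffAt ℝ ∞ F z := (hR z (hRR.trans h)).2.self_of_nhds.1
      have h2 : ContDiffAt ℝ ∞ (fun y => F y 3) z := (contDiffAt_euclidean.1 h1) 3
      have h3 : ContDiffAt ℝ ∞ (fun y : E4 => y 3) z := (contDiffAt_euclidean.1 contDiffAt_id) 3
      have h4 : ContDiffAt ℝ ∞ (fun y => Real.smoothTransition (wsq y - R₁)) z :=
        (Real.smoothTransition.contDiff.comp (Theta_cd_wsq.sub contDiff_const)).contDiffAt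
      exact (contDiffAt_const.mul h4).mul (h2.sub h3)
  have hG1 : ContDiff ℝ ∞ (fun z => shf (c z) z) := by
    unfold shf
    exact contDiff_id.add (hcd.smul contDiff_const)
  have hG2 : ContDiff ℝ ∞ (fun z => shf (-c z) z) := by
    unfold shf
    exact contDiff_id.add (hcd.neg.smul contDiff_const)
  have hi1 : ∀ z, shf (-c (shf (c z) z)) (shf (c z) z) = z := by
    intro z
    rw [hcs, shf_shf, neg_add_cancel, shf_zero]
  have hi2 : ∀ z, shf (c (shf (-c z) z)) (shf (-c z) z) = z := by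
    intro z
    rw [hcs, shf_shf, add_neg_cancel, shf_zero]
  let Γ : E4 ≃ₜ E4 :=
    { toFun := fun z => shf (c z) z
      invFun := fun z => shf (-c z) z
      left_inv := hi1
      right_inv := hi2
      continuous_toFun := hG1.continuous
      continuous_invFun := hG2.continuous }
  have hΓ : ∀ z, Γ z = shf (c z) z := fun _ => rfl
  let X : E4 ≃ₜ E4 := ((Theta_dilH n hN).trans F).trans (Theta_dilH n hN).symm
  have hX : ∀ z, X z = dil (n : ℝ)⁻¹ (F (dil n z)) := fun _ => rfl
  refine ⟨X, Γ, ?_, ?_, ?_, ?_, ?_, ?_, R₁ + 1, ?_⟩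
  · intro z
    rw [hX, hX, dil_shf, mul_one, hper, dil_shf, inv_mul_cancel₀ hN]
  · intro z hz
    have h1 : Reg (F ∘ dil n) z := Reg.comp hz (Theta_reg_dil hN z)
    have h2 : Reg (dil (n : ℝ)⁻¹ ∘ (F ∘ dil n)) z :=
      Reg.comp (Theta_reg_dil (inv_ne_zero hN) _) h1
    exact h2
  · intro z
    exact Theta_rg hG1 hG2 hi1 z
  · intro z hz
    rw [hΓ, hc0 z (hz.trans hR0), shf_zero]
  · intro t z
    rw [hΓ, hΓ, hcs, shf_shf, shf_shf, add_comm]
  · intro z
    rw [hΓ, Theta_wsq]
  · intro z hz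
    have h1 : c z = (1 - 1 / (n : ℝ)) * (F z 3 - z 3) := by
      simp only [hc]
      rw [Real.smoothTransition.one_of_one_le (by linarith), mul_one]
    have h2 : dil n z = shf ((n - 1) * z 3) z := by
      ext i
      fin_cases i <;> simp [dil, shf]
      ring
    have h3 : dil n (Γ z) = shf (n * c z + (n - 1) * z 3) z := by
      rw [hΓ, dil_shf, h2, shf_shf]
    rw [hX, h3, (hR z (by linarith)).1, dil_shf]
    have h4 : (n : ℝ)⁻¹ * (n * c z + (n - 1) * z 3) = F z 3 - (n : ℝ)⁻¹ * F z 3 := by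
      rw [h1]
      field_simp
      ring
    rw [h4]
    ext i
    fin_cases i <;> simp [dil, shf]

end Pool.Agent.Rot5
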