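import Pool.Agent.Rot5.LiftRot
import Pool.Agent.Rot5.Theta

/-!
# The lift of a homeomorphism which commutes with the rotations near the 2-sphere

PROOF. Let `z₀ = 0` and `u₀` with `sph n u₀ = f (sph n z₀)` (`sph_surj`; `f (sph n z₀)` is not on
the 2-sphere by `sph_off`, `hS`). `lift_exists` gives `F`; `lift_period`, `lift_rot`, `lift_far`,
`lift_conj5`. Regularity far away: `{x | LocalDiffeoAt f x}` holds near the 2-sphere (`hld`,
`LDA.eventually`; `LocalDiffeoAt` is `LDA`), so `sph_near` and `lift_reg`.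
-/

set_option autoImplicit false

open scoped ContDiff Topology Manifold
open Set Filter Metric

namespace Pool.Agent.Rot5

open Pool.Agent.HopfCov Pool.Agent.HopfFin Pool.Agent.HopfCov.Smooth Pool.Agent.Rot4

theorem lift_all {n : ℕ} (hn : 0 < n) {f g1 g2 : Sph4 ≃ₜ Sph4} {G1 G2 : E4 ≃ₜ E4}
    (hc : CommNear f) (hS : ∀ x, OnS2 (f x) ↔ OnS2 x) (hld : ∀ x, OnS2 x → LocalDiffeoAt f x)
    (hcj : ∀ x, f (g1 x) = g2 (f x))
    (h1 : ∀ z, sph n (G1 z) = g1 (sph n z)) (h1' : ∃ R : ℝ, ∀ z, R ≤ wsq z → G1 z = shf 1 z)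
    (h2 : ∀ z, sph n (G2 z) = g2 (sph n z)) (h2' : ∃ R : ℝ, ∀ z, R ≤ wsq z → G2 z = shf 1 z) :
    ∃ F : E4 ≃ₜ E4, (∀ z, sph n (F z) = f (sph n z)) ∧ (∀ z, F (shf n z) = shf n (F z)) ∧
      (∃ R : ℝ, ∀ z, R ≤ wsq z → (∀ t : ℝ, F (shf t z) = shf t (F z)) ∧ Reg F z) ∧
      (∀ R : ℝ, ∃ R' : ℝ, ∀ z, R' ≤ wsq z → R ≤ wsq (F z)) ∧
      (∀ z, F (G1 z) = G2 (F z)) ∧ ∀ z, LocalDiffeoAt f (sph n z) ↔ Reg F z := by
  have hoff : ¬ OnS2 (f (sph n 0)) := fun h => sph_off n 0 ((hS _).1 h)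
  obtain ⟨u₀, hu⟩ := sph_surj hn hoff
  obtain ⟨F, hF, -⟩ := lift_exists hn hS hu
  have hld' : NearS2 fun x => LocalDiffeoAt f x := by
    intro x hx
    exact LDA.eventually (X := Sph4.carrier) (Y := Sph4.carrier) (hld x hx)
  refine ⟨F, hF, lift_period hn hF hc, ?_, lift_far hn hF hS,
    lift_conj5 hn hF hc hS h1 h1' h2 h2' hcj, lift_reg hn hF⟩
  obtain ⟨R1, hR1⟩ := lift_rot hn hF hc
  obtain ⟨R2, -, hR2⟩ := sph_near hn hld'
  exact ⟨max R1 R2, fun z hz => ⟨hR1 z ((le_max_left _ _).trans hz),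
    (lift_reg hn hF z).1 (hR2 z ((le_max_right _ _).trans hz))⟩⟩

end Pool.Agent.Rot5
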