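import Pool.Agent.Rot5.SphCov
import Pool.Agent.Rot4.LiftC

/-!
# Lifting homeomorphisms of the 4-sphere which preserve the 2-sphere

PROOFS. `sph_lift_unique`: `sg_injective` and `lift_unique` (`Rot4/LiftC.lean`).
`lift_exists`: as `lift_up` in `Rot4/Up.lean`: `exists_lift` for `g z = sgi (f (sph n z))`, continuous
because `f (sph n z)` is not on the 2-sphere (`sph_off`, `hS`), hence `≠ infS` (`OnS2_inf`,
`continuousAt_sgi`); `q2 n (F z) = sgi (f (sph n z))`, so `sph n (F z) = f (sph n z)` (`sg_sgi`). The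
same for `f.symm` with base point `u₀ ↦ z₀`; the compositions are the identity by uniqueness on
`univ`.
-/

set_option autoImplicit false

open scoped ContDiff Topology Manifold
open Set Filter Metric

namespace Pool.Agent.Rot5

open Pool.Agent.HopfCov Pool.Agent.HopfFin Pool.Agent.HopfCov.Smooth Pool.Agent.Rot4

theorem sph_lift_unique {n : ℕ} (hn : 0 < n) {S : Set E4} (hS : IsPreconnected S) {f g : E4 → E4}
    (hf : ContinuousOn f S) (hg : ContinuousOn g S) (h : ∀ z ∈ S, sph n (f z) = sph n (g z))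
    {z₀ : E4} (hz : z₀ ∈ S) (h0 : f z₀ = g z₀) : ∀ z ∈ S, f z = g z :=
  lift_unique hn hS hf hg (fun z hz => sg_injective (h z hz)) hz h0

theorem lift_exists {n : ℕ} (hn : 0 < n) {f : Sph4 ≃ₜ Sph4} (hS : ∀ x, OnS2 (f x) ↔ OnS2 x)
    {z₀ u₀ : E4} (hu : sph n u₀ = f (sph n z₀)) :
    ∃ F : E4 ≃ₜ E4, (∀ z, sph n (F z) = f (sph n z)) ∧ F z₀ = u₀ := by
  have key : ∀ (k : Sph4 ≃ₜ Sph4), (∀ x, OnS2 (k x) ↔ OnS2 x) → ∀ a b : E4,
      sph n b = k (sph n a) →
      ∃ L : E4 → E4, Continuous L ∧ (∀ z, sph n (L z) = k (sph n z)) ∧ L a = b := by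
    intro k hk a b hab
    have hne : ∀ z, k (sph n z) ≠ infS := by
      intro z hz
      apply sph_off n z
      rw [← hk, hz]
      exact OnS2_inf
    have hc : Continuous fun z => sgi (k (sph n z)) := by
      rw [continuous_iff_continuousAt]
      intro z
      exact (continuousAt_sgi (hne z)).comp
        (f := fun z => k (sph n z)) (k.continuous.comp (continuous_sph n)).continuousAt
    have hoff : ∀ z, ¬ OnPlane (sgi (k (sph n z))) := by
      intro z hz
      apply sph_off n z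
      rw [← hk, ← sg_sgi (hne z)]
      exact OnS2_sg.2 hz
    have hb : q2 n b = sgi (k (sph n a)) := by
      rw [← hab]
      exact (sgi_sg _).symm
    obtain ⟨L, hL, hL1, hL2⟩ := exists_lift hn hc hoff hb
    refine ⟨L, hL, fun z => ?_, hL2⟩
    show sg (q2 n (L z)) = _
    rw [hL1]
    exact sg_sgi (hne z)
  have hS' : ∀ x, OnS2 (f.symm x) ↔ OnS2 x := by
    intro x
    rw [← hS, f.apply_symm_apply]
  obtain ⟨F, hF, hF1, hF2⟩ := key f hS z₀ u₀ hu
  obtain ⟨G, hG, hG1, hG2⟩ := key f.symm hS' u₀ z₀ (by rw [hu, f.symm_apply_apply])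
  have h1 : ∀ z, G (F z) = z := by
    intro z
    refine sph_lift_unique hn isPreconnected_univ (hG.comp hF).continuousOn continuousOn_id
      (fun z _ => ?_) (mem_univ z₀) ?_ z (mem_univ z)
    · show sph n (G (F z)) = sph n z
      rw [hG1, hF1, f.symm_apply_apply]
    · show G (F z₀) = z₀
      rw [hF2, hG2]
  have h2 : ∀ z, F (G z) = z := by
    intro z
    refine sph_lift_unique hn isPreconnected_univ (hF.comp hG).continuousOn continuousOn_id
      (fun z _ => ?_) (mem_univ u₀) ?_ z (mem_univ z)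
    · show sph n (F (G z)) = sph n z
      rw [hF1, hG1, f.apply_symm_apply]
    · show F (G u₀) = u₀
      rw [hG2, hF2]
  exact ⟨⟨⟨F, G, h1, h2⟩, hF, hG⟩, hF1, hF2⟩

end Pool.Agent.Rot5
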