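import Pool.Agent.Rot5.RepS
import Pool.Agent.Rot5.Phi

/-!
# The generators of the action by rotations

PROOF. `NormAct n (rotHS θ) 1` is clear (`ld_rotA`). `rep_exists` gives `f, G, H, G'`. `G' = shf
1`: both lift `rotA θ` (`sph_shf`: `sph n (shf 1 z) = rotA θ (sph n z)`), are continuous and agree
far away, so they agree (`sph_lift_unique` on `univ`). So for `x ∈ Om`, `q1 (G x) = shf 1 (q1 x) =
q1 (tau x)` (`tau_pow_apply`, `q1_smul`), `G x = tau x` (`b1_q1`); off `Om` both are `x / 2`
(`not_Om_iff`, the ray is in the cone of `nnG.near`). So `G = tau`.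
-/

set_option autoImplicit false

open scoped ContDiff Topology Manifold
open Set Filter Metric

namespace Pool.Agent.Rot5

open Pool.Agent.HopfCov Pool.Agent.HopfFin Pool.Agent.HopfCov.Smooth Pool.Agent.Rot4

theorem norm_rot (n : ℕ) : NormAct n (rotHS (2 * Real.pi / n)) 1 where
  smooth := fun x => ld_rotA (2 * Real.pi / n) x
  near := fun _ _ => Eventually.of_forall fun _ => rfl
  top := fun _ _ => Eventually.of_forall fun _ => rfl
  conj := fun _ => rfl

theorem rep_rot {n : ℕ} (hn : 0 < n) :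
    ∃ f H G' : E4 ≃ₜ E4, Rep n (rotHS (2 * Real.pi / n)) f tau H G' := by
  obtain ⟨f, G, H, G', h⟩ := rep_exists hn (norm_rot n)
  have h1 : ∀ z ∈ (univ : Set E4), G' z = shf 1 z := by
    obtain ⟨R, hR⟩ := h.far
    obtain ⟨z₀, hz₀⟩ : ∃ z : E4, R ≤ wsq z := by
      refine ⟨EuclideanSpace.single 0 (|R| + 1), ?_⟩
      unfold wsq
      simp
      nlinarith [le_abs_self R, abs_nonneg R]
    have hc : Continuous (shf 1) := by
      unfold shf
      exact continuous_id.add continuous_const
    refine sph_lift_unique hn isPreconnected_univ G'.continuous.continuousOn hc.continuousOn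
      (fun z _ => ?_) (mem_univ z₀) (hR z₀ hz₀)
    rw [h.lift, sph_shf hn, mul_one]
    rfl
  have htau : ∀ x : E4, (tau : E4 ≃ₜ E4) x = (2 : ℝ) ^ (-(1 : ℝ)) • x := by
    intro x
    have h2 := tau_pow_apply 1 x
    rw [pow_one, Nat.cast_one] at h2
    exact h2
  have hG : G = tau := by
    refine Homeomorph.ext fun x => ?_
    by_cases hx : Om x
    · have h2 := h.crd x hx
      rw [h1 _ (mem_univ _)] at h2
      have h3 := congrArg b1 h2
      rw [b1_shf, b1_q1 hx, b1_q1 (h.pair.corr.dom x hx)] at h3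
      rw [← h3, htau]
    · obtain ⟨t, ht, rfl⟩ := not_Om_iff.1 hx
      obtain ⟨δ, hδ, h2⟩ := h.pair.nnG.near
      rw [h2 _ (smul_e0_mem_Cone hδ.le ht), pow_one]
  subst hG
  exact ⟨f, H, G', h⟩

end Pool.Agent.Rot5
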