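import Pool.Agent.Rot5.Apply
import Pool.Agent.Rot5.RepLin
import Pool.Agent.Rot5.Straighten
import Pool.Agent.Rot5.NormS
import Pool.Agent.Rot5.GroupF
import Pool.Agent.Rot4.RayOff

/-!
# Linear actions and actions which are linear off one orbit

PROOFS. `fix_of_conj`: `OnS2 (f x)` iff `rotS n (f x) = f x` (`rotS_fix_iff`) iff `g x = x` iff
`OnS2 x` (`NormAct.fix`).
`linear_abs`: `homeo_of_isDiffeo` gives `f` with `f (g x) = rotHS θ (f x)`, a local diffeomorphism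
everywhere; `straighten` (with `g1 = g`, `g2 = rotHS θ`) gives `f1`; in the second case `n = 2`
and `refS (rotS 2 (refS y)) = rotS 2 y` (`refS_rotS_two`, `refS_refS`), so in both cases `f1 (g x)
= rotHS θ (f1 x)`. `apply_lift` with `m = 1`, `T = 1`, `G2 = tau` (`rep_rot`); all points `≠ 0`
are regular, so `Sm Φ` and `Φ * G = tau * Φ`.
`off_abs`: the same with the homeomorphism `f` and the point `y₀` of `SphereLinearOff`: `f` is a
local diffeomorphism at the points of the 2-sphere (they are fixed by `g`, so not in the orbit of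
`y₀`: if `x = g^[k] y₀` is fixed then so is `y₀`, `NormAct.pow`), and `f1` is a local
diffeomorphism off the orbit of `y₀`. `y₀` is not on the 2-sphere, `y₀ = sph n z₀` (`sph_surj`),
`z₀ = Γ x₀`, `Om x₀`. If `sph n (Γ x) = g^[k] y₀` then it is `sph n ((G' ^ k) z₀)`, so `Γ x = shf
(n j) ((G' ^ k) z₀) = (G' ^ (n j + k)) (Γ x₀) = Γ ((G ^ (n j + k)) x₀)` (`sph_eq`, `Rep.per`), so
`x = (G ^ l) x₀`. If `sph n (dil n (q1 (Φ x))) = g^[k] y₀`, where `k < n` may be assumed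
(`NormAct.pow`), then `dil n (q1 (Φ x)) = shf (n j) ((G' ^ k) z₀)`, `q1 (Φ x) = shf j (dil n⁻¹
((G' ^ k) z₀))` and with `c k = b1 (dil n⁻¹ ((G' ^ k) z₀))`: `Φ x = (tau ^ j) (c k)` and `x = (G ^
j) (Φ⁻¹ (c k))`. So `off_of_fin` applies with the finite set `B` of `x₀` and the `Φ⁻¹ (c k)`, `k <
n` (`hR.pair.good`, `hR.pair.sm`).
-/

set_option autoImplicit false

open scoped ContDiff Topology Manifold
open Set Filter Metric

namespace Pool.Agent.Rot5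

open Pool.Agent.HopfCov Pool.Agent.HopfFin Pool.Agent.HopfCov.Smooth Pool.Agent.Rot4

theorem fix_of_conj {n : ℕ} (hn : 2 ≤ n) {g h f : Sph4 ≃ₜ Sph4} (hg : NormAct n g h)
    (hc : ∀ x, f (g x) = rotS n (f x)) (x : Sph4) : OnS2 (f x) ↔ OnS2 x := by
  rw [← rotS_fix_iff hn, ← hc x, f.injective.eq_iff, hg.fix hn]

private theorem reg_one_LinAbs (y : E4) : Reg (1 : E4 ≃ₜ E4) y := by
  refine Eventually.of_forall fun z => ?_
  have h1 : ((1 : E4 ≃ₜ E4) : E4 → E4) = id := rfl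
  rw [h1]
  refine ⟨contDiff_id.contDiffAt, ?_⟩
  rw [fderiv_id]
  simp [ContinuousLinearMap.det]

private theorem core_LinAbs {n : ℕ} (hn : 2 ≤ n) {g h : Sph4 ≃ₜ Sph4} (hg : NormAct n g h)
    {f G H G' : E4 ≃ₜ E4} (hR : Rep n g f G H G') {f0 : Sph4 ≃ₜ Sph4}
    (hc : ∀ x, f0 (g x) = rotS n (f0 x)) (hld : ∀ x, OnS2 x → LocalDiffeoAt f0 x) :
    ∃ (f1 : Sph4 ≃ₜ Sph4) (Φ : E4 ≃ₜ E4) (Γ : E4 → E4),
      (∀ x, LocalDiffeoAt f0 x → LocalDiffeoAt f1 x) ∧ Nn n 0 Φ ∧ Φ * G = tau * Φ ∧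
      (∀ z, ∃ x, Om x ∧ Γ x = z) ∧ (∀ x y, Om x → Om y → Γ x = Γ y → x = y) ∧
      (∀ (k : ℤ) (x : E4), Om x → Γ ((G ^ k : E4 ≃ₜ E4) x) = (G' ^ k : E4 ≃ₜ E4) (Γ x)) ∧
      (∀ x, Om x → LocalDiffeoAt f1 (sph n (Γ x)) →
        LocalDiffeoAt f1 (sph n (dil n (q1 (Φ x)))) → Reg Φ x) ∧
      ∀ x, x ≠ 0 → ¬ Om x → Reg Φ x := by
  have hn0 : 0 < n := by omega
  obtain ⟨f1, a1, a2, a3, a4⟩ := straighten (g2 := rotHS (2 * Real.pi / n)) hn hg.near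
    (fun _ _ => Eventually.of_forall fun _ => rfl) hc (fix_of_conj hn hg hc) hld
  have hcj : ∀ x, f1 (g x) = rotHS (2 * Real.pi / n) (f1 x) := by
    rcases a4 with h4 | ⟨h2, h4⟩
    · exact h4
    · subst h2
      intro x
      rw [h4 x]
      show refS (rotS 2 (refS (f1 x))) = rotS 2 (f1 x)
      rw [refS_rotS_two, refS_refS]
  obtain ⟨f2, H2, G2', hR2⟩ := rep_rot hn0
  obtain ⟨Φ, Λ, Γ, b1', b2, b3, b4, b5, b6, b7, b8, b9, b10, b11⟩ := apply_lift (m := 1) (T := 1)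
    hn0 one_pos hR hR2 a1 a2 (fun x hx => a3 x (hld x hx)) hcj (Nn.one _) (by
      rw [one_mul, mul_one])
  rw [one_mul] at b1'
  rw [pow_one, pow_one] at b2
  exact ⟨f1, Φ, Γ, a3, b1', b2, b7, b8, b9,
    fun x hx h1 h2 => b10 x hx h1 (reg_one_LinAbs _) h2, b11⟩

theorem linear_abs {n : ℕ} (hn : 2 ≤ n) {g h : Sph4 ≃ₜ Sph4} (hg : NormAct n g h)
    {f G H G' : E4 ≃ₜ E4} (hR : Rep n g f G H G') (hL : SphereLinear n g) : Cj G tau := by
  obtain ⟨φ, hφ, hc⟩ := hL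
  obtain ⟨f0, h1, h2⟩ := homeo_of_isDiffeo hφ
  obtain ⟨f1, Φ, Γ, c1, c2, c3, c4, c5, c6, c7, c8⟩ := core_LinAbs hn hg hR (f0 := f0)
    (fun x => by rw [h1, h1, hc]) (fun x _ => h2 x)
  refine ⟨Φ, ⟨c2.zero, fun x hx => ?_⟩, c3⟩
  have h3 : Reg Φ x := by
    by_cases hO : Om x
    · exact c7 x hO (c1 _ (h2 _)) (c1 _ (h2 _))
    · exact c8 x hx hO
  exact h3.self_of_nhds

private theorem sph_iter_LinAbs {n : ℕ} {g : Sph4 ≃ₜ Sph4} {G' : E4 ≃ₜ E4}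
    (hl : ∀ z, sph n (G' z) = g (sph n z)) (k : ℕ) (z : E4) :
    g^[k] (sph n z) = sph n ((G' ^ k : E4 ≃ₜ E4) z) := by
  induction k with
  | zero => rfl
  | succ k ih =>
    rw [Function.iterate_succ_apply', ih, ← hl, pow_succ']
    rfl

private theorem per_LinAbs {n : ℕ} {G' : E4 ≃ₜ E4} (hp : ∀ z, (G' ^ n : E4 ≃ₜ E4) z = shf n z)
    (j : ℤ) (z : E4) : (G' ^ ((n : ℤ) * j) : E4 ≃ₜ E4) z = shf (n * j) z := by
  rw [zpow_mul, zpow_natCast]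
  induction j generalizing z with
  | zero =>
    rw [zpow_zero, Int.cast_zero, mul_zero, shf_zero]
    rfl
  | succ j ih =>
    have h1 : ((G' ^ n) ^ ((j : ℤ) + 1) : E4 ≃ₜ E4) z =
        ((G' ^ n) ^ (j : ℤ) : E4 ≃ₜ E4) ((G' ^ n : E4 ≃ₜ E4) z) := by
      rw [zpow_add_one]
      rfl
    rw [h1, hp, ih, shf_shf]
    congr 1
    push_cast
    ring
  | pred j ih =>
    have h1 : ((G' ^ n) ^ (-(j : ℤ)) : E4 ≃ₜ E4) z = ((G' ^ n) ^ (-(j : ℤ) - 1) : E4 ≃ₜ E4)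
        ((G' ^ n : E4 ≃ₜ E4) z) := by
      have h2 : ((G' ^ n) ^ (-(j : ℤ)) : E4 ≃ₜ E4) = (G' ^ n) ^ (-(j : ℤ) - 1) * G' ^ n := by
        rw [zpow_sub_one, inv_mul_cancel_right]
      rw [h2]
      rfl
    -- apply to the preimage
    have h3 : z = (G' ^ n : E4 ≃ₜ E4) (shf (-(n : ℝ)) z) := by
      rw [hp, shf_shf]
      rw [add_neg_cancel, shf_zero]
    have h4 : ((G' ^ n) ^ (-(j : ℤ) - 1) : E4 ≃ₜ E4) z =
        ((G' ^ n) ^ (-(j : ℤ)) : E4 ≃ₜ E4) (shf (-(n : ℝ)) z) := by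
      conv_lhs => rw [h3]
      have h2 : ((G' ^ n) ^ (-(j : ℤ)) : E4 ≃ₜ E4) = (G' ^ n) ^ (-(j : ℤ) - 1) * G' ^ n := by
        rw [zpow_sub_one, inv_mul_cancel_right]
      rw [h2]
      rfl
    rw [h4, ih, shf_shf]
    congr 1
    push_cast
    ring

theorem off_abs {n : ℕ} (hn : 2 ≤ n) {g h : Sph4 ≃ₜ Sph4} (hg : NormAct n g h)
    {f G H G' : E4 ≃ₜ E4} (hR : Rep n g f G H G') (hL : SphereLinearOff n g) : Off G := by
  have hn0 : 0 < n := by omega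
  have hnR : (n : ℝ) ≠ 0 := Nat.cast_ne_zero.2 hn0.ne'
  obtain ⟨f0, y₀, hc, hy, hld⟩ := hL
  have hS : ∀ x, OnS2 x → ∀ k : ℕ, x ≠ g^[k] y₀ := by
    intro x hx k hk
    have h1 : g x = x := (hg.fix hn).2 hx
    rw [hk, ← Function.iterate_succ_apply' g, Function.iterate_succ_apply] at h1
    exact hy (g.injective.iterate k h1)
  obtain ⟨f1, Φ, Γ, c1, c2, c3, c4, c5, c6, c7, c8⟩ := core_LinAbs hn hg hR (f0 := f0)
    hc (fun x hx => hld x (hS x hx))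
  have hyS : ¬ OnS2 y₀ := fun h1 => hy ((hg.fix hn).2 h1)
  obtain ⟨z₀, hz₀⟩ := sph_surj hn0 hyS
  obtain ⟨x₀, hx₀, hΓ₀⟩ := c4 z₀
  have hom : ∀ (k : ℤ) (x : E4), Om x → Om ((G ^ k : E4 ≃ₜ E4) x) := fun k x hx =>
    (crd_zpow hR.pair.nnG hR.crd k hx).1
  -- the constants
  let c : ℕ → E4 := fun k => b1 (dil (n : ℝ)⁻¹ ((G' ^ k : E4 ≃ₜ E4) z₀))
  let B : Set E4 := insert x₀ ((fun k => (Φ⁻¹ : E4 ≃ₜ E4) (c k)) '' Set.Iio n)
  have hB : B.Finite := ((Set.finite_Iio n).image _).insert x₀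
  have hΦinv : ∀ y, Φ ((Φ⁻¹ : E4 ≃ₜ E4) y) = y := fun y => Φ.apply_symm_apply y
  have hb : ∀ b ∈ B, b ≠ 0 := by
    rintro b (rfl | ⟨k, -, rfl⟩)
    · exact hx₀.ne
    · intro h0
      have h1 := hΦinv (c k)
      simp only at h0
      rw [h0, c2.zero] at h1
      exact (Om_b1 _).ne h1.symm
  refine off_of_fin hR.pair.sm hR.pair.good c2.zero c3 hB hb fun x hx hxB => ?_
  by_cases hO : Om x
  · refine c7 x hO (c1 _ (hld _ fun k hk => ?_)) (c1 _ (hld _ fun k hk => ?_))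
    · rw [← hz₀, sph_iter_LinAbs hR.lift, eq_comm, sph_eq hn0] at hk
      obtain ⟨j, hj⟩ := hk
      rw [← per_LinAbs hR.per, ← zpow_natCast] at hj
      have h1 : Γ x = (G' ^ ((n : ℤ) * j + (k : ℤ)) : E4 ≃ₜ E4) (Γ x₀) := by
        rw [hj, hΓ₀, zpow_add]
        rfl
      rw [← c6 _ _ hx₀] at h1
      exact hxB x₀ (mem_insert _ _) _ (c5 _ _ hO (hom _ _ hx₀) h1)
    · have hmod : g^[k] y₀ = g^[k % n] y₀ := by
        have hper : Function.IsPeriodicPt g n y₀ := hg.pow hn0 y₀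
        exact (hper.iterate_mod_apply k).symm
      have hkn : k % n < n := Nat.mod_lt _ hn0
      rw [hmod] at hk
      generalize k % n = k' at hk hkn
      rw [← hz₀, sph_iter_LinAbs hR.lift, eq_comm, sph_eq hn0] at hk
      obtain ⟨j, hj⟩ := hk
      have h1 : q1 (Φ x) = shf j (dil (n : ℝ)⁻¹ ((G' ^ k' : E4 ≃ₜ E4) z₀)) := by
        have h2 := congrArg (dil (n : ℝ)⁻¹) hj
        rw [dil_dil, inv_mul_cancel₀ hnR, dil_one, dil_shf, ← mul_assoc, inv_mul_cancel₀ hnR,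
          one_mul] at h2
        exact h2
      have h2 : Φ x = (tau ^ j : E4 ≃ₜ E4) (c k') := by
        have h3 := congrArg b1 h1
        rw [b1_q1 (c2.om.2 hO), b1_shf] at h3
        rw [h3, tau_zpow_apply]
        congr 1
        rw [← Real.rpow_intCast]
        push_cast
        rfl
      have h3 : x = (G ^ j : E4 ≃ₜ E4) ((Φ⁻¹ : E4 ≃ₜ E4) (c k')) := by
        have h4 : Φ * G ^ j = tau ^ j * Φ := by
          have h5 : G = Φ⁻¹ * tau * Φ := by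
            rw [mul_assoc, ← c3, inv_mul_cancel_left]
          have h6 : G ^ j = Φ⁻¹ * tau ^ j * Φ := by
            have h7 := conj_zpow (a := Φ⁻¹) (b := (tau : E4 ≃ₜ E4)) (i := j)
            rw [inv_inv] at h7
            rw [← h7, ← h5]
          rw [h6, ← mul_assoc, ← mul_assoc, mul_inv_cancel, one_mul]
        apply Φ.injective
        have h5 : Φ ((G ^ j : E4 ≃ₜ E4) ((Φ⁻¹ : E4 ≃ₜ E4) (c k'))) =
            (Φ * G ^ j : E4 ≃ₜ E4) ((Φ⁻¹ : E4 ≃ₜ E4) (c k')) := rfl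
        rw [h5, h4]
        show Φ x = (tau ^ j : E4 ≃ₜ E4) (Φ ((Φ⁻¹ : E4 ≃ₜ E4) (c k')))
        rw [hΦinv, h2]
      exact hxB _ (mem_insert_of_mem _ ⟨k', hkn, rfl⟩) j h3
  · exact c8 x hx hO

end Pool.Agent.Rot5
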