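import Pool.Agent.Rot5.LinBasic

/-!
# Determinants of the linear maps which preserve the plane `P`

PROOFS. Let `L` preserve `P`; `A : V → V` is `v ↦ pvL (L v)`, with the matrix `(a b; c d)`, `a =
(L e₃)₃`, `c = (L e₃)₄`, `b = (L e₄)₃`, `d = (L e₄)₄`; so `(L v)₃ = a v₃ + b v₄`, `(L v)₄ = c v₃ +
d v₄` for `v ∈ V` (`v = v₃ e₃ + v₄ e₄`) and `detA L = a d - b c`.
`detA_ne`: `L` is injective (`det ≠ 0`), it maps `P` onto `P` (`P` is finite dimensional: e.g.
`LinearMap.injective_iff_surjective` for the restriction to the submodule `ker pvL`). If `a d - b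
c = 0` there is `v ∈ V`, `v ≠ 0`, with `pvL (L v) = 0`: `v = (b, - a)`, or `v = (d, - c)`, or, if
all are zero, any `v`. Then `L v ∈ P`, `L v = L p`, `p ∈ P`, so `v = p`, a contradiction.
`det_interp`: it suffices that `M = (1 - χ) • L + χ • LC L` is injective (`LinearMap.det ≠ 0` iff
bijective, `LinearMap.bot_lt_ker_of_det_eq_zero`). Let `M x = 0`, `x = p + v`. `pvL (M x) = (1 -
χ) A v + χ ½ (A v - J A J v)` because `pvL (L p) = 0`; its matrix is `(A₀ + (1 - χ) A₁, - B₀ + (1
- χ) B₁; B₀ + (1 - χ) B₁, A₀ - (1 - χ) A₁)` with `A₀ = (a + d) / 2`, `A₁ = (a - d) / 2`, `B₀ = (c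
- b) / 2`, `B₁ = (b + c) / 2`, whose determinant `A₀² + B₀² - (1 - χ)² (A₁² + B₁²)` is at least `a
d - b c > 0`. So `v = 0`, and `M p = L p = 0`, `p = 0`.
`detA_nonneg`: with `θ = 2 π / n`, `sin θ ≠ 0` (`0 < θ < π`), comparing the coordinates of `L
(rotE θ e₃) = rotE θ (L e₃)`: `rotE θ e₃ = cos θ e₃ + sin θ e₄`, so `L (rotE θ e₃) = cos θ L e₃ +
sin θ L e₄` and `sin θ b = - sin θ c`, `sin θ d = sin θ a`; so `b = - c`, `d = a` and `detA L = a²
+ c²`.
-/

set_option autoImplicit false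

open scoped ContDiff Topology
open Set Filter Metric

namespace Pool.Agent.Rot5

open Pool.Agent.HopfCov Pool.Agent.HopfFin Pool.Agent.HopfCov.Smooth Pool.Agent.Rot4

/-- the reflection as a linear map -/
noncomputable def refL : E5 →L[ℝ] E5 := mkL
  { toFun := refE
    map_add' := fun x y => by
      ext i
      fin_cases i <;> simp [refE]
      ring
    map_smul' := fun c x => by
      ext i
      fin_cases i <;> simp [refE] }

theorem refL_apply (x : E5) : refL x = refE x := rfl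

private theorem x3_pvL (x : E5) : (pvL x) 3 = x 3 := rfl

private theorem x4_pvL (x : E5) : (pvL x) 4 = x 4 := rfl

private theorem x3_JL (x : E5) : (JL x) 3 = -x 4 := rfl

private theorem x4_JL (x : E5) : (JL x) 4 = x 3 := rfl

private theorem pvL_zero_of {x : E5} (h3 : x 3 = 0) (h4 : x 4 = 0) : pvL x = 0 := by
  rw [pvL_apply]
  ext i
  fin_cases i
  · rfl
  · rfl
  · rfl
  · exact h3
  · exact h4

private theorem JL_zero_of {x : E5} (h3 : x 3 = 0) (h4 : x 4 = 0) : JL x = 0 := by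
  rw [JL_apply]
  ext i
  fin_cases i
  · rfl
  · rfl
  · rfl
  · show -x 4 = 0
    rw [h4, neg_zero]
  · exact h3

private theorem pvL_eq_single (x : E5) :
    pvL x = x 3 • (EuclideanSpace.single 3 1 : E5) + x 4 • (EuclideanSpace.single 4 1 : E5) := by
  rw [pvL_apply]
  ext i
  fin_cases i <;> simp

private theorem coords {L : E5 →L[ℝ] E5} (hP : ∀ x, pvL x = 0 → pvL (L x) = 0) (x : E5) :
    (L x) 3 = (L (EuclideanSpace.single 3 1)) 3 * x 3 + (L (EuclideanSpace.single 4 1)) 3 * x 4 ∧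
    (L x) 4 =
      (L (EuclideanSpace.single 3 1)) 4 * x 3 + (L (EuclideanSpace.single 4 1)) 4 * x 4 := by
  have h1 : pvL (L (pxL x)) = 0 := hP _ (pvL_zero_of rfl rfl)
  have h2 : (L (pxL x)) 3 = 0 := by
    have := congrArg (fun v : E5 => v 3) h1
    exact this
  have h3 : (L (pxL x)) 4 = 0 := by
    have := congrArg (fun v : E5 => v 4) h1
    exact this
  have h4 : L x = L (pxL x) + (x 3 • L (EuclideanSpace.single 3 1) +
      x 4 • L (EuclideanSpace.single 4 1)) := by
    conv_lhs => rw [← px_add_pv x]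
    rw [map_add, pvL_eq_single, map_add, map_smul, map_smul]
  constructor
  · have := congrArg (fun v : E5 => v 3) h4
    simp only [PiLp.add_apply, PiLp.smul_apply, smul_eq_mul] at this
    rw [this, h2]
    ring
  · have := congrArg (fun v : E5 => v 4) h4
    simp only [PiLp.add_apply, PiLp.smul_apply, smul_eq_mul] at this
    rw [this, h3]
    ring

private theorem inj_of_det {L : E5 →L[ℝ] E5} (hL : L.det ≠ 0) {x : E5} (h : L x = 0) : x = 0 := by
  by_contra hx
  apply hL
  show LinearMap.det (L : E5 →ₗ[ℝ] E5) = 0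
  rw [LinearMap.det_eq_zero_iff_ker_ne_bot]
  intro hk
  apply hx
  have : x ∈ LinearMap.ker (L : E5 →ₗ[ℝ] E5) := h
  rw [hk] at this
  exact this

theorem detA_ne {L : E5 →L[ℝ] E5} (hP : ∀ x, pvL x = 0 → pvL (L x) = 0) (hL : L.det ≠ 0) :
    detA L ≠ 0 := by
  intro h0
  have hdet : (L (EuclideanSpace.single 3 1)) 3 * (L (EuclideanSpace.single 4 1)) 4 -
    (L (EuclideanSpace.single 4 1)) 3 * (L (EuclideanSpace.single 3 1)) 4 = 0 := h0
  have hco := coords hP
  set a := (L (EuclideanSpace.single 3 1)) 3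
  set b := (L (EuclideanSpace.single 4 1)) 3
  set c := (L (EuclideanSpace.single 3 1)) 4
  set d := (L (EuclideanSpace.single 4 1)) 4
  obtain ⟨s, t, hst, h1, h2⟩ : ∃ s t : ℝ, (s ≠ 0 ∨ t ≠ 0) ∧ a * s + b * t = 0 ∧
      c * s + d * t = 0 := by
    by_cases hab : b ≠ 0 ∨ a ≠ 0
    · refine ⟨b, -a, ?_, by ring, by linear_combination (-1 : ℝ) * hdet⟩
      rcases hab with h | h
      · exact Or.inl h
      · exact Or.inr (neg_ne_zero.2 h)
    · rw [not_or, not_not, not_not] at hab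
      by_cases hcd : d ≠ 0 ∨ c ≠ 0
      · refine ⟨d, -c, ?_, by rw [hab.1, hab.2]; ring, by ring⟩
        rcases hcd with h | h
        · exact Or.inl h
        · exact Or.inr (neg_ne_zero.2 h)
      · rw [not_or, not_not, not_not] at hcd
        exact ⟨1, 0, Or.inl one_ne_zero, by rw [hab.1, hab.2]; ring, by rw [hcd.1, hcd.2]; ring⟩
  let x : E5 := WithLp.toLp 2 ![0, 0, 0, s, t]
  have hx3 : x 3 = s := rfl
  have hx4 : x 4 = t := rfl
  have hLx : pvL (L x) = 0 := by
    apply pvL_zero_of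
    · rw [(hco x).1, hx3, hx4, h1]
    · rw [(hco x).2, hx3, hx4, h2]
  let P : Submodule ℝ E5 := LinearMap.ker (pvL : E5 →ₗ[ℝ] E5)
  have hmem : ∀ y, y ∈ P ↔ pvL y = 0 := fun y => Iff.rfl
  let f : P →ₗ[ℝ] P := (L : E5 →ₗ[ℝ] E5).restrict (p := P) (q := P) fun y hy => hP y hy
  have hf : Function.Injective f := by
    rw [injective_iff_map_eq_zero]
    intro y hy
    have h3 : L (y : E5) = 0 := congrArg Subtype.val hy
    exact Subtype.ext (inj_of_det hL h3)
  have hs : Function.Surjective f := LinearMap.injective_iff_surjective.1 hf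
  obtain ⟨q, hq⟩ := hs ⟨L x, hLx⟩
  have h4 : L (q : E5) = L x := congrArg Subtype.val hq
  have h5 : x = (q : E5) := by
    rw [← sub_eq_zero]
    apply inj_of_det hL
    rw [map_sub, h4, sub_self]
  have h6 : pvL x = 0 := by
    rw [h5]
    exact q.2
  have h7 : s = 0 := congrArg (fun v : E5 => v 3) h6
  have h8 : t = 0 := congrArg (fun v : E5 => v 4) h6
  rcases hst with h | h
  · exact h h7
  · exact h h8

theorem det_interp {L : E5 →L[ℝ] E5} (hP : ∀ x, pvL x = 0 → pvL (L x) = 0) (hL : L.det ≠ 0)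
    (hA : 0 < detA L) {χ : ℝ} (h0 : 0 ≤ χ) (h1 : χ ≤ 1) :
    ((1 - χ) • L + χ • LC L).det ≠ 0 := by
  intro hdet
  have hdet2 : LinearMap.det ((((1 - χ) • L + χ • LC L : E5 →L[ℝ] E5)) : E5 →ₗ[ℝ] E5) = 0 := hdet
  rw [LinearMap.det_eq_zero_iff_ker_ne_bot, Submodule.ne_bot_iff] at hdet2
  obtain ⟨x, hx, hx0⟩ := hdet2
  have hMx : ((1 - χ) • L + χ • LC L) x = 0 := hx
  have hA' : 0 < (L (EuclideanSpace.single 3 1)) 3 * (L (EuclideanSpace.single 4 1)) 4 -
    (L (EuclideanSpace.single 4 1)) 3 * (L (EuclideanSpace.single 3 1)) 4 := hA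
  have hco := coords hP
  have hM : (1 - χ) • L x + χ • (L (pxL x) + (1 / 2 : ℝ) • (pvL (L (pvL x)) - JL (L (JL x)))) =
      0 := hMx
  have hpx : pvL (L (pxL x)) = 0 := hP _ (pvL_zero_of rfl rfl)
  have hpx3 : (L (pxL x)) 3 = 0 := congrArg (fun v : E5 => v 3) hpx
  have hpx4 : (L (pxL x)) 4 = 0 := congrArg (fun v : E5 => v 4) hpx
  have e3 := congrArg (fun v : E5 => v 3) hM
  have e4 := congrArg (fun v : E5 => v 4) hM
  simp only [PiLp.add_apply, PiLp.smul_apply, PiLp.sub_apply, PiLp.zero_apply, smul_eq_mul, x3_pvL,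
    x4_pvL, x3_JL, x4_JL, hpx3, hpx4, (hco x).1, (hco x).2, (hco (pvL x)).1, (hco (pvL x)).2,
    (hco (JL x)).1, (hco (JL x)).2] at e3 e4
  set a := (L (EuclideanSpace.single 3 1)) 3
  set b := (L (EuclideanSpace.single 4 1)) 3
  set c := (L (EuclideanSpace.single 3 1)) 4
  set d := (L (EuclideanSpace.single 4 1)) 4
  set s := x 3
  set t := x 4
  -- the determinant of the 2 x 2 system
  have hD : 0 < ((1 - χ) * a + χ * ((a + d) / 2)) * ((1 - χ) * d + χ * ((a + d) / 2)) -
      ((1 - χ) * b + χ * ((b - c) / 2)) * ((1 - χ) * c + χ * ((c - b) / 2)) := by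
    have h3 : (1 - χ) ^ 2 ≤ 1 := by nlinarith
    have h4 : ((1 - χ) * a + χ * ((a + d) / 2)) * ((1 - χ) * d + χ * ((a + d) / 2)) -
      ((1 - χ) * b + χ * ((b - c) / 2)) * ((1 - χ) * c + χ * ((c - b) / 2)) =
      (a * d - b * c) + (1 - (1 - χ) ^ 2) * (((a - d) / 2) ^ 2 + ((b + c) / 2) ^ 2) := by ring
    rw [h4]
    have h5 : 0 ≤ (1 - (1 - χ) ^ 2) * (((a - d) / 2) ^ 2 + ((b + c) / 2) ^ 2) :=
      mul_nonneg (by linarith) (by positivity)
    linarith
  have hs : s = 0 := by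
    have h6 : (((1 - χ) * a + χ * ((a + d) / 2)) * ((1 - χ) * d + χ * ((a + d) / 2)) -
      ((1 - χ) * b + χ * ((b - c) / 2)) * ((1 - χ) * c + χ * ((c - b) / 2))) * s = 0 := by
      linear_combination ((1 - χ) * d + χ * ((a + d) / 2)) * e3 -
        ((1 - χ) * b + χ * ((b - c) / 2)) * e4
    rcases mul_eq_zero.1 h6 with h | h
    · exact absurd h hD.ne'
    · exact h
  have ht : t = 0 := by
    have h6 : (((1 - χ) * a + χ * ((a + d) / 2)) * ((1 - χ) * d + χ * ((a + d) / 2)) -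
      ((1 - χ) * b + χ * ((b - c) / 2)) * ((1 - χ) * c + χ * ((c - b) / 2))) * t = 0 := by
      linear_combination ((1 - χ) * a + χ * ((a + d) / 2)) * e4 -
        ((1 - χ) * c + χ * ((c - b) / 2)) * e3
    rcases mul_eq_zero.1 h6 with h | h
    · exact absurd h hD.ne'
    · exact h
  have hpv : pvL x = 0 := pvL_zero_of hs ht
  have hJ : JL x = 0 := JL_zero_of hs ht
  have hx1 : pxL x = x := by
    have := px_add_pv x
    rwa [hpv, add_zero] at this
  rw [hpv, hJ, hx1, map_zero, map_zero, map_zero, sub_zero, smul_zero, add_zero, ← add_smul] at hM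
  rw [sub_add_cancel, one_smul] at hM
  exact hx0 (inj_of_det hL hM)

theorem detA_nonneg {n : ℕ} (hn : 3 ≤ n) {L : E5 →L[ℝ] E5}
    (hc : ∀ x, L (rotE (2 * Real.pi / n) x) = rotE (2 * Real.pi / n) (L x)) : 0 ≤ detA L := by
  set θ : ℝ := 2 * Real.pi / n with hθ
  have hn' : (3 : ℝ) ≤ n := by exact_mod_cast hn
  have hsin : 0 < Real.sin θ := by
    apply Real.sin_pos_of_pos_of_lt_pi
    · rw [hθ]
      have := Real.pi_pos
      positivity
    · rw [hθ, div_lt_iff₀ (by linarith)]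
      have := Real.pi_pos
      nlinarith
  have h1 := hc (EuclideanSpace.single 3 1)
  have h2 : rotE θ (EuclideanSpace.single 3 1 : E5) =
      Real.cos θ • (EuclideanSpace.single 3 1 : E5) +
        Real.sin θ • (EuclideanSpace.single 4 1 : E5) := by
    ext i
    fin_cases i <;> simp [rotE]
  rw [h2, map_add, map_smul, map_smul] at h1
  have e3 := congrArg (fun v : E5 => v 3) h1
  have e4 := congrArg (fun v : E5 => v 4) h1
  simp only [PiLp.add_apply, PiLp.smul_apply, smul_eq_mul] at e3 e4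
  have e3' : Real.cos θ * (L (EuclideanSpace.single 3 1)) 3 +
      Real.sin θ * (L (EuclideanSpace.single 4 1)) 3 =
      Real.cos θ * (L (EuclideanSpace.single 3 1)) 3 -
      Real.sin θ * (L (EuclideanSpace.single 3 1)) 4 := e3
  have e4' : Real.cos θ * (L (EuclideanSpace.single 3 1)) 4 +
      Real.sin θ * (L (EuclideanSpace.single 4 1)) 4 =
      Real.sin θ * (L (EuclideanSpace.single 3 1)) 3 +
      Real.cos θ * (L (EuclideanSpace.single 3 1)) 4 := e4
  have hb : (L (EuclideanSpace.single 4 1)) 3 = -(L (EuclideanSpace.single 3 1)) 4 := by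
    apply mul_left_cancel₀ hsin.ne'
    linear_combination e3'
  have hd : (L (EuclideanSpace.single 4 1)) 4 = (L (EuclideanSpace.single 3 1)) 3 := by
    apply mul_left_cancel₀ hsin.ne'
    linear_combination e4'
  unfold detA
  rw [hb, hd]
  nlinarith [sq_nonneg ((L (EuclideanSpace.single 3 1)) 3),
    sq_nonneg ((L (EuclideanSpace.single 3 1)) 4)]

theorem detA_ref (L : E5 →L[ℝ] E5) : detA (refL.comp L) = -detA L := by
  unfold detA
  have h : ∀ x : E5, (refL.comp L) x = refE (L x) := fun x => rfl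
  rw [h, h]
  have h3 : ∀ x : E5, (refE x) 3 = x 3 := fun x => rfl
  have h4 : ∀ x : E5, (refE x) 4 = -x 4 := fun x => rfl
  rw [h3, h3, h4, h4]
  ring

theorem continuous_detA : Continuous detA := by
  unfold detA
  fun_prop

end Pool.Agent.Rot5
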