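import Pool.Agent.Rot5.LinDefs

/-!
# Identities for the projections of `ℝ⁵ = P ⊕ V`

PROOFS. All are checked in coordinates: `ext i; fin_cases i; simp [..]`,
`EuclideanSpace.norm_sq_eq`, `Fin.sum_univ_five`.
-/

set_option autoImplicit false

open scoped ContDiff Topology
open Set Filter Metric

namespace Pool.Agent.Rot5

open Pool.Agent.HopfCov Pool.Agent.HopfFin Pool.Agent.HopfCov.Smooth Pool.Agent.Rot4

theorem px_px (x : E5) : pxL (pxL x) = pxL x := by
  ext i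
  fin_cases i <;> simp [pxL_apply]

theorem pv_px (x : E5) : pvL (pxL x) = 0 := by
  ext i
  fin_cases i <;> simp [pxL_apply, pvL_apply]

theorem px_pv (x : E5) : pxL (pvL x) = 0 := by
  ext i
  fin_cases i <;> simp [pxL_apply, pvL_apply]

theorem pv_pv (x : E5) : pvL (pvL x) = pvL x := by
  ext i
  fin_cases i <;> simp [pvL_apply]

theorem J_px (x : E5) : JL (pxL x) = 0 := by
  ext i
  fin_cases i <;> simp [pxL_apply, JL_apply]

theorem px_J (x : E5) : pxL (JL x) = 0 := by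
  ext i
  fin_cases i <;> simp [pxL_apply, JL_apply]

theorem J_pv (x : E5) : JL (pvL x) = JL x := by
  ext i
  fin_cases i <;> simp [pvL_apply, JL_apply]

theorem pv_J (x : E5) : pvL (JL x) = JL x := by
  ext i
  fin_cases i <;> simp [pvL_apply, JL_apply]

theorem J_J (x : E5) : JL (JL x) = -pvL x := by
  ext i
  fin_cases i <;> simp [pvL_apply, JL_apply]

theorem norm_px_sq (x : E5) : ‖pxL x‖ ^ 2 = px2 x := by
  rw [EuclideanSpace.norm_sq_eq, Fin.sum_univ_five]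
  simp only [Real.norm_eq_abs, sq_abs]
  simp [pxL_apply, px2]

theorem norm_pv_sq (x : E5) : ‖pvL x‖ ^ 2 = pv2 x := by
  rw [EuclideanSpace.norm_sq_eq, Fin.sum_univ_five]
  simp only [Real.norm_eq_abs, sq_abs]
  simp [pvL_apply, pv2]

theorem norm_J_sq (x : E5) : ‖JL x‖ ^ 2 = pv2 x := by
  rw [EuclideanSpace.norm_sq_eq, Fin.sum_univ_five]
  simp only [Real.norm_eq_abs, sq_abs]
  simp [JL_apply, pv2]
  ring

theorem pv2_eq_zero {x : E5} : pv2 x = 0 ↔ pvL x = 0 := by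
  rw [← norm_pv_sq, sq_eq_zero_iff, norm_eq_zero]

theorem px2_eq_zero {x : E5} : px2 x = 0 ↔ pxL x = 0 := by
  rw [← norm_px_sq, sq_eq_zero_iff, norm_eq_zero]

/-- the points of the plane `P` -/
theorem px_of_plane {x : E5} (h : pv2 x = 0) : pxL x = x := by
  have h1 := px_add_pv x
  rwa [pv2_eq_zero.1 h, add_zero] at h1

theorem px2_smul (c : ℝ) (x : E5) : px2 (c • x) = c ^ 2 * px2 x := by
  show (c * x 0) ^ 2 + (c * x 1) ^ 2 + (c * x 2) ^ 2 = c ^ 2 * (x 0 ^ 2 + x 1 ^ 2 + x 2 ^ 2)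
  ring

theorem pv2_smul (c : ℝ) (x : E5) : pv2 (c • x) = c ^ 2 * pv2 x := by
  show (c * x 3) ^ 2 + (c * x 4) ^ 2 = c ^ 2 * (x 3 ^ 2 + x 4 ^ 2)
  ring

theorem px2_rotE (t : ℝ) (x : E5) : px2 (rotE t x) = px2 x := by
  rfl

theorem pv2_rotE (t : ℝ) (x : E5) : pv2 (rotE t x) = pv2 x := by
  have h := Real.sin_sq_add_cos_sq t
  show (Real.cos t * x 3 - Real.sin t * x 4) ^ 2 + (Real.sin t * x 3 + Real.cos t * x 4) ^ 2 =
    x 3 ^ 2 + x 4 ^ 2
  linear_combination (x 3 ^ 2 + x 4 ^ 2) * h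

theorem px2_refE (x : E5) : px2 (refE x) = px2 x := by
  rfl

theorem pv2_refE (x : E5) : pv2 (refE x) = pv2 x := by
  show x 3 ^ 2 + (-x 4) ^ 2 = x 3 ^ 2 + x 4 ^ 2
  ring

theorem px2_pxL (x : E5) : px2 (pxL x) = px2 x := by
  rfl

theorem pv2_pxL (x : E5) : pv2 (pxL x) = 0 := by
  show (0 : ℝ) ^ 2 + 0 ^ 2 = 0
  norm_num

theorem rotE_plane {x : E5} (h : pv2 x = 0) (t : ℝ) : rotE t x = x := by
  have h1 : pvL x = 0 := pv2_eq_zero.1 h
  have h2 : JL x = 0 := by rw [← J_pv, h1, map_zero]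
  rw [rotE_eq, h1, h2, smul_zero, smul_zero, add_zero, add_zero, px_of_plane h]

theorem px_rotE (t : ℝ) (x : E5) : pxL (rotE t x) = pxL x := by
  rw [rotE_eq, map_add, map_add, map_smul, map_smul, px_px, px_pv, px_J, smul_zero, smul_zero,
    add_zero, add_zero]

theorem pv_rotE (t : ℝ) (x : E5) : pvL (rotE t x) = Real.cos t • pvL x + Real.sin t • JL x := by
  rw [rotE_eq, map_add, map_add, map_smul, map_smul, pv_px, pv_pv, pv_J, zero_add]

theorem J_rotE (t : ℝ) (x : E5) : JL (rotE t x) = Real.cos t • JL x - Real.sin t • pvL x := by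
  rw [rotE_eq, map_add, map_add, map_smul, map_smul, J_px, J_pv, J_J, zero_add, smul_neg,
    sub_eq_add_neg]

theorem rotE_add (t : ℝ) (x y : E5) : rotE t (x + y) = rotE t x + rotE t y := by
  rw [rotE_eq, rotE_eq, rotE_eq, map_add, map_add, map_add, smul_add, smul_add]
  abel

theorem rotE_smul (t c : ℝ) (x : E5) : rotE t (c • x) = c • rotE t x := by
  rw [rotE_eq, rotE_eq, map_smul, map_smul, map_smul, smul_add, smul_add, smul_comm c, smul_comm c]

theorem contDiff_px2 : ContDiff ℝ ∞ px2 := by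
  have h : px2 = fun x : E5 => ‖pxL x‖ ^ 2 := funext fun x => (norm_px_sq x).symm
  rw [h]
  exact pxL.contDiff.norm_sq ℝ

theorem contDiff_pv2 : ContDiff ℝ ∞ pv2 := by
  have h : pv2 = fun x : E5 => ‖pvL x‖ ^ 2 := funext fun x => (norm_pv_sq x).symm
  rw [h]
  exact pvL.contDiff.norm_sq ℝ

end Pool.Agent.Rot5
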