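import Pool.Agent.Rot5.Near

/-!
# Linear maps of `ℝ⁵ = P ⊕ V` and the equivariant model of a map near `P`

`P = {x₃ = x₄ = 0}`, `V = {x₀ = x₁ = x₂ = 0}`; `pxL`, `pvL` are the projections, `JL` is `pvL`
followed by the rotation by the right angle. `LC L` is `L` on `P` and the complex linear part of
`L` on `V`. `model F` is a map which commutes with all rotations of `V`, agrees with `F` on `P`
and has there the derivative `LC (DF)`.
-/

set_option autoImplicit false

open scoped ContDiff Topology
open Set Filter Metric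

namespace Pool.Agent.Rot5

open Pool.Agent.HopfCov Pool.Agent.HopfFin Pool.Agent.HopfCov.Smooth Pool.Agent.Rot4

/-- the linear map with the given coordinate functions -/
noncomputable def mkL (f : E5 →ₗ[ℝ] E5) : E5 →L[ℝ] E5 := LinearMap.toContinuousLinearMap f

/-- the projection to the first three coordinates -/
noncomputable def pxL : E5 →L[ℝ] E5 := mkL
  { toFun := fun x => WithLp.toLp 2 ![x 0, x 1, x 2, 0, 0]
    map_add' := fun x y => by
      ext i
      fin_cases i <;> simp
    map_smul' := fun c x => by
      ext i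
      fin_cases i <;> simp }

/-- the projection to the last two coordinates -/
noncomputable def pvL : E5 →L[ℝ] E5 := mkL
  { toFun := fun x => WithLp.toLp 2 ![0, 0, 0, x 3, x 4]
    map_add' := fun x y => by
      ext i
      fin_cases i <;> simp
    map_smul' := fun c x => by
      ext i
      fin_cases i <;> simp }

/-- the projection to the last two coordinates, followed by the rotation by the right angle -/
noncomputable def JL : E5 →L[ℝ] E5 := mkL
  { toFun := fun x => WithLp.toLp 2 ![0, 0, 0, -x 4, x 3]
    map_add' := fun x y => by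
      ext i
      fin_cases i <;> simp
      ring
    map_smul' := fun c x => by
      ext i
      fin_cases i <;> simp }

theorem pxL_apply (x : E5) : pxL x = WithLp.toLp 2 ![x 0, x 1, x 2, 0, 0] := rfl

theorem pvL_apply (x : E5) : pvL x = WithLp.toLp 2 ![0, 0, 0, x 3, x 4] := rfl

theorem JL_apply (x : E5) : JL x = WithLp.toLp 2 ![0, 0, 0, -x 4, x 3] := rfl

theorem rotE_eq (t : ℝ) (x : E5) :
    rotE t x = pxL x + Real.cos t • pvL x + Real.sin t • JL x := by
  rw [pxL_apply, pvL_apply, JL_apply]
  ext i
  fin_cases i <;> simp [rotE]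
  · ring
  · ring

theorem px_add_pv (x : E5) : pxL x + pvL x = x := by
  rw [pxL_apply, pvL_apply]
  ext i
  fin_cases i <;> simp

/-- the determinant of the part `V → V` of `L` -/
noncomputable def detA (L : E5 →L[ℝ] E5) : ℝ :=
  (L (EuclideanSpace.single 3 1)) 3 * (L (EuclideanSpace.single 4 1)) 4 -
    (L (EuclideanSpace.single 4 1)) 3 * (L (EuclideanSpace.single 3 1)) 4

/-- `L` on `P`, the complex linear part of `L` on `V` -/
noncomputable def LC (L : E5 →L[ℝ] E5) : E5 →L[ℝ] E5 :=
  L.comp pxL + (1 / 2 : ℝ) • ((pvL.comp L).comp pvL - (JL.comp L).comp JL)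

/-- the equivariant model of `F` near `P` -/
noncomputable def model (F : E5 → E5) (x : E5) : E5 :=
  F (pxL x) + (1 / 2 : ℝ) • (pvL (fderiv ℝ F (pxL x) (pvL x)) -
    JL (fderiv ℝ F (pxL x) (JL x)))

/-- the map is a local diffeomorphism near the point -/
def Reg5 (F : E5 → E5) (x : E5) : Prop := ∀ᶠ y in 𝓝 x, RG F y

/-- the map is homogeneous, preserves the plane `P` and is a local diffeomorphism near its points
`≠ 0`; the derivatives preserve the orientation of `V` -/
structure Hom5 (F : E5 → E5) : Prop where
  smul : ∀ c : ℝ, 0 < c → ∀ x, F (c • x) = c • F x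
  plane : ∀ x, pv2 x = 0 → pv2 (F x) = 0
  ne : ∀ x, x ≠ 0 → F x ≠ 0
  reg : ∀ x, x ≠ 0 → pv2 x = 0 → Reg5 F x
  pos : ∀ x, x ≠ 0 → pv2 x = 0 → 0 < detA (fderiv ℝ F x)

end Pool.Agent.Rot5
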