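import Pool.Agent.Rot5.LinAbs
import Pool.Agent.Rot5.EquivAbs
import Pool.Agent.Rot5.MainPow
import Pool.Agent.Rot5.Faith
import Pool.Agent.Rot4.Main

/-!
# The theorems on the 4-sphere
-/

set_option autoImplicit false

open scoped ContDiff Topology Manifold
open Set Filter Metric

namespace Pool.Agent.Rot5

open Pool.Agent.HopfCov hiding pr
open Pool.Agent.HopfFin
open Pool.Agent.HopfFree
open Pool.Agent.HopfEnd
open Pool.Agent.HopfCov.Smooth
open Pool.Agent.Rot4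

/-- all actions of order `n` are linear: the 4-sphere and `ℝ⁴` -/
theorem sphere_linear {n : ℕ} (hn : 2 ≤ n) : (∀ g : Sph4 → Sph4, SphereAction n g →
    SmoothlyLinear g) ↔ ∀ f : Homeo4, Action n f → LinearAction n f := by
  have hn0 : 0 < n := by omega
  constructor
  · intro h f hf
    obtain ⟨G, H, hP⟩ := act_up hn0 hf
    obtain ⟨g, h', hg, hd⟩ := norm_of_act hn0 hf
    obtain ⟨G', hR⟩ := rep_of_pair hn0 hf hP hd
    have h1 : SphereLinear n g := (lin_iff hn hg).1 (h g (of_norm hn0 hg))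
    exact (linear_iff hn0 hP).2 (linear_abs hn hg hR h1)
  · intro h g hg
    obtain ⟨φ, g', h', h1, h2, h3⟩ := norm_of hg
    obtain ⟨f, G, H, G', hR⟩ := rep_exists hn0 h3
    refine (smoothlyLinear_congr h1 h2).2 ((lin_iff hn h3).2 ?_)
    exact linear_of hn0 h3.near hR.down (h f hR.act)

/-- all actions of order `n` are linear off one orbit: the 4-sphere and `ℝ⁴` -/
theorem sphere_off {n : ℕ} (hn : 2 ≤ n) : (∀ g : Sph4 → Sph4, SphereAction n g →
    LinearOffOneOrbit g) ↔ ∀ f : Homeo4, Action n f → LinearOffOrbit n f := by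
  have hn0 : 0 < n := by omega
  constructor
  · intro h f hf
    obtain ⟨G, H, hP⟩ := act_up hn0 hf
    obtain ⟨g, h', hg, hd⟩ := norm_of_act hn0 hf
    obtain ⟨G', hR⟩ := rep_of_pair hn0 hf hP hd
    have h1 : SphereLinearOff n g := (off_iff' hn hg).1 (h g (of_norm hn0 hg))
    exact (off_iff hn0 hf hP).2 (off_abs hn hg hR h1)
  · intro h g hg
    obtain ⟨φ, g', h', h1, h2, h3⟩ := norm_of hg
    obtain ⟨f, G, H, G', hR⟩ := rep_exists hn0 h3
    refine (linearOff_congr h1 h2).2 ((off_iff' hn h3).2 ?_)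
    exact off_of' hn hR.act h3.near hR.down (h f hR.act)

/-- the invariant of the conjugacy class of the group generated by an action -/
theorem off_pow_iff {n m : ℕ} (hn : 2 ≤ n) (hm : 0 < m) {g1 h1 g2 h2 : Sph4 ≃ₜ Sph4}
    (hg1 : NormAct n g1 h1) (hg2 : NormAct n g2 h2)
    {f1 G1 H1 G1' f2 G2 H2 G2' : E4 ≃ₜ E4} (hR1 : Rep n g1 f1 G1 H1 G1')
    (hR2 : Rep n g2 f2 G2 H2 G2') (hE : ConjugateGroups g1 g2) :
    Off (G1 ^ m) ↔ Off (G2 ^ m) := by
  have hn0 : 0 < n := by omega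
  obtain ⟨φ, k, h3, h4⟩ := hE
  obtain ⟨f, h5, h6⟩ := homeo_of_isDiffeo h3
  have key : ∀ {g3 h3 : Sph4 ≃ₜ Sph4} {f3 G3 H3 G3' : E4 ≃ₜ E4} (_ : NormAct n g3 h3)
      (_ : Rep n g3 f3 G3 H3 G3') {f : Sph4 ≃ₜ Sph4} (_ : ∀ x, LocalDiffeoAt f x)
      (_ : ∀ x, f (g1 x) = g3 (f x)), Off (G1 ^ m) ↔ Off (G3 ^ m) := by
    intro g3 h3 f3 G3 H3 G3' hg3 hR3 f hf hc
    have hf' : ∀ x, LocalDiffeoAt (f⁻¹ : Sph4 ≃ₜ Sph4) x := fun x => by
      have h7 := ld_inv (hf (f.symm x))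
      rwa [f.apply_symm_apply] at h7
    constructor
    · refine off_of_equiv hn hm hg3 hg1 hR3 hR1 ⟨(f⁻¹ : Sph4 ≃ₜ Sph4), isDiffeo_of_homeo hf',
        fun x => ?_⟩
      apply f.injective
      show f (f.symm (g3 x)) = f (g1 (f.symm x))
      rw [hc, f.apply_symm_apply, f.apply_symm_apply]
    · exact off_of_equiv hn hm hg1 hg3 hR1 hR3 ⟨f, isDiffeo_of_homeo hf, hc⟩
  rcases conj_cases hn hg1 hg2 h6 (k := k) (fun x => by rw [h5, h4, h5]) with h7 | h7
  · exact key hg2 hR2 h6 h7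
  · obtain ⟨f3, G3, H3, G3', hR3⟩ := rep_exists hn0 (norm_mir hg2)
    have h8 := rep_mir hn0 hg2 hR2 hR3
    have h9 : Off (G1 ^ m) ↔ Off (G3 ^ m) := by
      refine key (norm_mir hg2) hR3 (f := refHS * f) (fun x => ld_mul (ld_refS _) (h6 x))
        fun x => ?_
      show refS (f (g1 x)) = refS (g2.symm (refS (refS (f x))))
      rw [h7, refS_refS]
    rw [h9]
    have hc2 : Contr G2 := hR2.pair.good.contr
    have hc3 : Contr G3 := hR3.pair.good.contr
    exact ⟨CjV.off hc2 hc3 h8 hm, CjV.off hc3 hc2 h8.symm hm⟩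

/-- `main_n_pos_pow`, `norm_rel`, `act_down`, `norm_of_act` -/
theorem family5 {m : ℕ} (hm : 2 ≤ m) {M : Mfd4} (hM : InS M) (hO : ¬ OffPoint M) :
    ∃ F : ℕ → Sph4 → Sph4, (∀ k, SphereAction m (F k) ∧ ¬ LinearOffOneOrbit (F k)) ∧
      ∀ i j, i ≠ j → ¬ ConjugateGroups (F i) (F j) := by
  obtain ⟨G, T, h1, h2, h3, h4⟩ := exists_star hM hO
  obtain ⟨V, h8, h9⟩ := main_n_pos_pow h1 h2 h3 h4 (show 1 < m by omega)
  choose T' h10 using fun k => (h8 k).2.2.2.1
  have hm0 : 0 < m := by omega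
  choose G' H g1 g2 g3 g4 g5 g6 using fun k =>
    norm_rel (h8 k).1 (h10 k) hm0 (h8 k).2.2.2.2
  choose F f1 f2 using fun k => act_down hm0 (g2 k) (g3 k) (g4 k) (g5 k) (g6 k)
  choose g h' e1 e2 using fun k => norm_of_act hm0 (f1 k)
  choose G₁ e3 using fun k => rep_of_pair hm0 (f1 k) (f2 k) (e2 k)
  have hpow : ∀ k e, Off (V k ^ e) ↔ Off (G' k ^ e) := fun k e => Off.congr ((g1 k).pow e)
  refine ⟨fun k => g k, fun k => ⟨of_norm hm0 (e1 k), fun h => ?_⟩, fun i j hij hs => ?_⟩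
  · have h5 := off_abs hm (e1 k) (e3 k) ((off_iff' hm (e1 k)).1 h)
    exact (h8 k).2.2.1 ((Off.congr (g1 k)).2 h5)
  · rcases lt_or_gt_of_ne hij with h | h
    · obtain ⟨e, he, h5, h6⟩ := h9 i j h
      exact h6 ((hpow j e).2 ((off_pow_iff hm he (e1 i) (e1 j) (e3 i) (e3 j) hs).1
        ((hpow i e).1 h5)))
    · obtain ⟨e, he, h5, h6⟩ := h9 j i h
      exact h6 ((hpow i e).2 ((off_pow_iff hm he (e1 i) (e1 j) (e3 i) (e3 j) hs).2
        ((hpow j e).1 h5)))

/-- **one action which is not linear off one orbit gives infinitely many of every order** -/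
theorem infinite5 {n : ℕ} (hn : 2 ≤ n)
    (h : ∃ g : Sph4 → Sph4, SphereAction n g ∧ ¬ LinearOffOneOrbit g) {m : ℕ} (hm : 2 ≤ m) :
    ∃ F : ℕ → Sph4 → Sph4, (∀ k, SphereAction m (F k) ∧ ¬ LinearOffOneOrbit (F k)) ∧
      ∀ i j, i ≠ j → ¬ ConjugateGroups (F i) (F j) := by
  obtain ⟨g, h1, h2⟩ := h
  have h3 : ¬ ∀ M : Mfd4, InS M → OffPoint M := fun h4 =>
    h2 ((sphere_off hn).2 ((off_all (show 1 < n by omega)).2 h4) g h1)
  push Not at h3
  obtain ⟨M, hM, hO⟩ := h3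
  exact family5 hm hM hO

/-- **the question for the order `n`** -/
theorem question5 {n : ℕ} (hn : 2 ≤ n) : (∀ g : Sph4 → Sph4, SphereAction n g →
    SmoothlyLinear g) ↔ (∀ m ≥ 2, ∀ g : Sph4 → Sph4, SphereAction m g → LinearOffOneOrbit g) ∧
      ∀ d ∈ grpD, d ^ n ∈ derD → d ∈ derD := by
  rw [sphere_linear hn, question_iff (show 1 < n by omega)]
  refine and_congr_left fun _ => ?_
  constructor
  · intro h m hm
    rw [sphere_off hm, off_all (show 1 < m by omega), ← off_all (show 1 < n by omega)]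
    exact h
  · intro h
    exact (sphere_off hn).1 (h n hn)

/-- **the question for a product of two orders** -/
theorem product5 {n m : ℕ} (hn : 2 ≤ n) (hm : 2 ≤ m) :
    (∀ g : Sph4 → Sph4, SphereAction (n * m) g → SmoothlyLinear g) ↔
      (∀ g : Sph4 → Sph4, SphereAction n g → SmoothlyLinear g) ∧
        ∀ g : Sph4 → Sph4, SphereAction m g → SmoothlyLinear g := by
  have hnm : 2 ≤ n * m := by nlinarith
  rw [question5 hnm, question5 hn, question5 hm]
  constructor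
  · rintro ⟨h1, h2⟩
    refine ⟨⟨h1, fun d hd h3 => h2 d hd ?_⟩, ⟨h1, fun d hd h3 => h2 d hd ?_⟩⟩
    · rw [pow_mul]
      exact derD.pow_mem h3 m
    · rw [mul_comm, pow_mul]
      exact derD.pow_mem h3 n
  · rintro ⟨⟨h1, h2⟩, -, h3⟩
    refine ⟨h1, fun d hd h4 => h2 d hd (h3 _ (grpD.pow_mem hd n) ?_)⟩
    rwa [← pow_mul]

/-- **one order decides all orders if the Schoenflies problem has a positive answer** -/
theorem schoenflies5 (hS : Schoenflies) {n m : ℕ} (hn : 2 ≤ n) (hm : 2 ≤ m)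
    (h : ∀ g : Sph4 → Sph4, SphereAction n g → SmoothlyLinear g) :
    ∀ g : Sph4 → Sph4, SphereAction m g → SmoothlyLinear g :=
  (sphere_linear hm).2 (all_of_one hS (show 1 < n by omega) (show 1 < m by omega)
    ((sphere_linear hn).1 h))

end Pool.Agent.Rot5
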