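import Pool.Agent.Rot5.Main
import Pool.Agent.Rot5.ActIff
import Pool.Agent.Rot4.Class

/-!
# The theorems on actions whose fixed point set is an unknotted 2-sphere
-/

set_option autoImplicit false

open scoped ContDiff Topology Manifold
open Set Filter Metric

namespace Pool.Agent.Rot5

open Pool.Agent.HopfCov.Smooth

theorem all_iff {n : ℕ} (hn : 2 ≤ n) {P : (Sph4 → Sph4) → Prop} :
    (∀ g : Sph4 → Sph4, UnknotAction n g → P g) ↔ ∀ g : Sph4 → Sph4, SphereAction n g → P g :=
  forall_congr' fun _ => imp_congr_left (action_iff hn)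

/-- one action which is not linear off one orbit gives infinitely many of every order -/
theorem infinite6 {n : ℕ} (hn : 2 ≤ n)
    (h : ∃ g : Sph4 → Sph4, UnknotAction n g ∧ ¬ LinearOffOneOrbit g) {m : ℕ} (hm : 2 ≤ m) :
    ∃ F : ℕ → Sph4 → Sph4, (∀ k, UnknotAction m (F k) ∧ ¬ LinearOffOneOrbit (F k)) ∧
      ∀ i j, i ≠ j → ¬ ConjugateGroups (F i) (F j) := by
  obtain ⟨g, h1, h2⟩ := h
  obtain ⟨F, h3, h4⟩ := infinite5 hn ⟨g, (action_iff hn).1 h1, h2⟩ hm
  exact ⟨F, fun k => ⟨(action_iff hm).2 (h3 k).1, (h3 k).2⟩, h4⟩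

/-- the question for the order `n` -/
theorem question6 {n : ℕ} (hn : 2 ≤ n) : (∀ g : Sph4 → Sph4, UnknotAction n g →
    SmoothlyLinear g) ↔ (∀ m ≥ 2, ∀ g : Sph4 → Sph4, UnknotAction m g → LinearOffOneOrbit g) ∧
      ∀ d ∈ grpD, d ^ n ∈ derD → d ∈ derD := by
  rw [all_iff hn, question5 hn]
  refine and_congr_left fun _ => forall_congr' fun m => forall_congr' fun hm => ?_
  exact (all_iff hm).symm

/-- the question for a product of two orders -/
theorem product6 {n m : ℕ} (hn : 2 ≤ n) (hm : 2 ≤ m) :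
    (∀ g : Sph4 → Sph4, UnknotAction (n * m) g → SmoothlyLinear g) ↔
      (∀ g : Sph4 → Sph4, UnknotAction n g → SmoothlyLinear g) ∧
        ∀ g : Sph4 → Sph4, UnknotAction m g → SmoothlyLinear g := by
  have hnm : 2 ≤ n * m := by nlinarith
  rw [all_iff hn, all_iff hm, all_iff hnm]
  exact product5 hn hm

/-- one order decides all orders if the Schoenflies problem has a positive answer -/
theorem schoenflies6 (hS : Schoenflies) {n m : ℕ} (hn : 2 ≤ n) (hm : 2 ≤ m)
    (h : ∀ g : Sph4 → Sph4, UnknotAction n g → SmoothlyLinear g) :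
    ∀ g : Sph4 → Sph4, UnknotAction m g → SmoothlyLinear g :=
  (all_iff hm).2 (schoenflies5 hS hn hm ((all_iff hn).1 h))

theorem off_class6 {n : ℕ} (hn : 2 ≤ n) :
    (∀ g : Sph4 → Sph4, UnknotAction n g → LinearOffOneOrbit g) ↔
      ∀ M : Mfd4, ClassS M → OffPoint M :=
  ((all_iff hn).trans (sphere_off hn)).trans (Rot4.off_class (show 1 < n by omega))

theorem unique_class6 {n : ℕ} (hn : 2 ≤ n) : (∀ M : Mfd4, ClassS M → DiffeoS1S3 M) ↔
    Schoenflies ∧ ∀ g : Sph4 → Sph4, UnknotAction n g → SmoothlyLinear g :=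
  (Rot4.unique_iff_question (show 1 < n by omega)).trans
    (and_congr_right fun _ => ((all_iff hn).trans (sphere_linear hn)).symm)

end Pool.Agent.Rot5
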