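import Pool.Agent.Rot5.LinAlg

/-!
# The equivariant model of a map near the plane `P`

PROOFS. `model_contDiffAt`: `fderiv ℝ F` is smooth at `pxL x` (`ContDiffAt.fderiv_right`),
compositions with continuous linear maps, `ContDiffAt.clm_apply`.
`model_plane`: `pxL x = x`, `pvL x = 0`, `JL x = JL (pvL x) = 0`.
`model_fderiv`: `x ↦ pvL (fderiv ℝ F (pxL x) (pvL x))` is the composition of `pvL` with `x ↦ c x
(u x)`, `c = fderiv ℝ F ∘ pxL`, `u = pvL`; `HasFDerivAt.clm_apply`: the derivative at `x` is `h ↦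
c x (pvL h) + (c' h) (u x)` and `u x = 0`. The same for `JL` (`JL x = 0`).
`model_rot`: `px_rotE`, `pv_rotE`, `J_rotE`, `rotE_plane` and a computation with `cos² + sin² =
1`.
`fderiv_hom`: `F ∘ (c • ·) = c • F`; `fderiv_comp_smul` (or the chain rule with the continuous
linear equivalence `c • ·`) and `fderiv_const_smul_of_field`; also true where `F` is not
differentiable. It is harmless to assume that `F` is differentiable at `x`: then the left-hand
side is the derivative of `y ↦ c • F (c⁻¹ • y)` at `c • x`; if `F` is not differentiable at `x` it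
is not at `c • x`.
-/

set_option autoImplicit false

open scoped ContDiff Topology
open Set Filter Metric

namespace Pool.Agent.Rot5

open Pool.Agent.HopfCov Pool.Agent.HopfFin Pool.Agent.HopfCov.Smooth Pool.Agent.Rot4

theorem model_contDiffAt {F : E5 → E5} {x : E5} (h : ContDiffAt ℝ ∞ F (pxL x)) :
    ContDiffAt ℝ ∞ (model F) x := by
  have hpx : ContDiffAt ℝ ∞ (fun y => pxL y) x := pxL.contDiff.contDiffAt
  have hD : ContDiffAt ℝ ∞ (fderiv ℝ F) (pxL x) := h.fderiv_right (m := ∞) (by simp)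
  have h1 : ContDiffAt ℝ ∞ (fun y => F (pxL y)) x := h.comp x hpx
  have h2 : ContDiffAt ℝ ∞ (fun y => fderiv ℝ F (pxL y)) x := hD.comp x hpx
  have hv : ContDiffAt ℝ ∞ (fun y => pvL y) x := pvL.contDiff.contDiffAt
  have hJ : ContDiffAt ℝ ∞ (fun y => JL y) x := JL.contDiff.contDiffAt
  have h3 : ContDiffAt ℝ ∞ (fun y => fderiv ℝ F (pxL y) (pvL y)) x := h2.clm_apply hv
  have h4 : ContDiffAt ℝ ∞ (fun y => fderiv ℝ F (pxL y) (JL y)) x := h2.clm_apply hJ
  have h5 : ContDiffAt ℝ ∞ (fun y => pvL (fderiv ℝ F (pxL y) (pvL y))) x :=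
    pvL.contDiff.contDiffAt.comp x h3
  have h6 : ContDiffAt ℝ ∞ (fun y => JL (fderiv ℝ F (pxL y) (JL y))) x :=
    JL.contDiff.contDiffAt.comp x h4
  exact h1.add ((h5.sub h6).const_smul _)

/-- `JL` vanishes on the plane -/
theorem J_of_plane {x : E5} (h : pv2 x = 0) : JL x = 0 := by
  rw [← J_pv, pv2_eq_zero.1 h, map_zero]

theorem model_plane {F : E5 → E5} {x : E5} (h : pv2 x = 0) : model F x = F x := by
  have h1 := px_of_plane h
  have h2 := pv2_eq_zero.1 h
  have h3 := J_of_plane h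
  unfold model
  rw [h1, h2, h3]
  simp

theorem model_fderiv {F : E5 → E5} {x : E5} (hx : pv2 x = 0) (h : ContDiffAt ℝ ∞ F x) :
    fderiv ℝ (model F) x = LC (fderiv ℝ F x) := by
  have e1 := px_of_plane hx
  have e2 := pv2_eq_zero.1 hx
  have e3 := J_of_plane hx
  have hFd : HasFDerivAt F (fderiv ℝ F x) (pxL x) := by
    rw [e1]
    exact (h.differentiableAt (by simp)).hasFDerivAt
  have hD : ContDiffAt ℝ ∞ (fderiv ℝ F) (pxL x) := by
    rw [e1]
    exact h.fderiv_right (m := ∞) (by simp)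
  have h1 : HasFDerivAt (fun y => F (pxL y)) ((fderiv ℝ F x).comp pxL) x :=
    hFd.comp x pxL.hasFDerivAt
  have h2 : ContDiffAt ℝ ∞ (fun y => fderiv ℝ F (pxL y)) x :=
    hD.comp x pxL.contDiff.contDiffAt
  have h3 : HasFDerivAt (fun y => fderiv ℝ F (pxL y))
      (fderiv ℝ (fun y => fderiv ℝ F (pxL y)) x) x :=
    (h2.differentiableAt (by simp)).hasFDerivAt
  have h4 : HasFDerivAt (fun y => fderiv ℝ F (pxL y) (pvL y)) ((fderiv ℝ F x).comp pvL) x := by
    have := h3.clm_apply pvL.hasFDerivAt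
    rw [e1, e2] at this
    simpa using this
  have h5 : HasFDerivAt (fun y => fderiv ℝ F (pxL y) (JL y)) ((fderiv ℝ F x).comp JL) x := by
    have := h3.clm_apply JL.hasFDerivAt
    rw [e1, e3] at this
    simpa using this
  have h6 : HasFDerivAt (fun y => pvL (fderiv ℝ F (pxL y) (pvL y)))
      (pvL.comp ((fderiv ℝ F x).comp pvL)) x := pvL.hasFDerivAt.comp x h4
  have h7 : HasFDerivAt (fun y => JL (fderiv ℝ F (pxL y) (JL y)))
      (JL.comp ((fderiv ℝ F x).comp JL)) x := JL.hasFDerivAt.comp x h5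
  have h8 : HasFDerivAt (model F) ((fderiv ℝ F x).comp pxL + (1 / 2 : ℝ) •
      (pvL.comp ((fderiv ℝ F x).comp pvL) - JL.comp ((fderiv ℝ F x).comp JL))) x :=
    h1.add ((h6.sub h7).const_smul (1 / 2 : ℝ))
  rw [h8.fderiv]
  rfl

theorem model_rot {F : E5 → E5} {x : E5} (hP : pv2 (F (pxL x)) = 0) (t : ℝ) :
    model F (rotE t x) = rotE t (model F x) := by
  unfold model
  rw [px_rotE, pv_rotE, J_rotE, rotE_add, rotE_plane hP, rotE_smul]
  congr 2
  simp only [map_add, map_sub, map_smul, rotE_eq, px_pv, pv_pv, J_pv, px_J, pv_J, J_J]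
  module

theorem fderiv_hom {F : E5 → E5} (hF : ∀ c : ℝ, 0 < c → ∀ x, F (c • x) = c • F x) {c : ℝ}
    (hc : 0 < c) (x : E5) : fderiv ℝ F (c • x) = fderiv ℝ F x := by
  have key : ∀ {a : ℝ}, 0 < a → ∀ {y : E5} {L : E5 →L[ℝ] E5}, HasFDerivAt F L (a • y) →
      HasFDerivAt F L y := by
    intro a ha y L hL
    have h1 : HasFDerivAt (fun z : E5 => a • z) (a • ContinuousLinearMap.id ℝ E5) y :=
      (hasFDerivAt_id y).const_smul a
    have h2 : HasFDerivAt (fun z => F (a • z)) (L.comp (a • ContinuousLinearMap.id ℝ E5)) y :=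
      hL.comp y h1
    have h3 := h2.const_smul a⁻¹
    have h4 : (fun z => a⁻¹ • F (a • z)) = F := by
      funext z
      rw [hF a ha, smul_smul, inv_mul_cancel₀ ha.ne', one_smul]
    have h5 : a⁻¹ • (L.comp (a • ContinuousLinearMap.id ℝ E5)) = L := by
      ext v : 1
      simp only [ContinuousLinearMap.smul_apply, ContinuousLinearMap.comp_apply,
        ContinuousLinearMap.id_apply, map_smul, smul_smul, inv_mul_cancel₀ ha.ne', one_smul]
    have h6 : HasFDerivAt (fun z => a⁻¹ • F (a • z)) L y := by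
      rw [← h5]
      exact h3
    rwa [h4] at h6
  by_cases hd : DifferentiableAt ℝ F (c • x)
  · exact (key hc hd.hasFDerivAt).fderiv.symm
  · have hd' : ¬ DifferentiableAt ℝ F x := by
      intro h'
      apply hd
      have h7 : HasFDerivAt F (fderiv ℝ F x) (c⁻¹ • (c • x)) := by
        rw [smul_smul, inv_mul_cancel₀ hc.ne', one_smul]
        exact h'.hasFDerivAt
      exact (key (inv_pos.2 hc) h7).differentiableAt
    rw [fderiv_zero_of_not_differentiableAt hd, fderiv_zero_of_not_differentiableAt hd']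

theorem model_smul {F : E5 → E5} (hF : ∀ c : ℝ, 0 < c → ∀ x, F (c • x) = c • F x) {c : ℝ}
    (hc : 0 < c) (x : E5) : model F (c • x) = c • model F x := by
  unfold model
  simp only [map_smul, hF c hc, fderiv_hom hF hc, smul_add, smul_sub]
  module

theorem rg_hom {F : E5 → E5} (hF : ∀ c : ℝ, 0 < c → ∀ x, F (c • x) = c • F x) {c : ℝ}
    (hc : 0 < c) {x : E5} (h : RG F x) : RG F (c • x) := by
  refine ⟨?_, ?_⟩
  · have h1 : F = fun y => c • F (c⁻¹ • y) := by
      funext y
      rw [hF c⁻¹ (inv_pos.2 hc), smul_smul, mul_inv_cancel₀ hc.ne', one_smul]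
    rw [h1]
    have h2 : ContDiffAt ℝ ∞ (fun y : E5 => c⁻¹ • y) (c • x) := contDiffAt_id.const_smul c⁻¹
    have h3 : ContDiffAt ℝ ∞ F (c⁻¹ • (c • x)) := by
      rw [smul_smul, inv_mul_cancel₀ hc.ne', one_smul]
      exact h.1
    exact (h3.comp (c • x) h2).const_smul c
  · rw [fderiv_hom hF hc]
    exact h.2

/-- the rotation as a linear map -/
theorem rotE_clm (t : ℝ) (x : E5) :
    (pxL + Real.cos t • pvL + Real.sin t • JL) x = rotE t x := by
  rw [rotE_eq]
  rfl

/-- the derivative at a point of `P` commutes with the rotations which commute with `F` -/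
theorem fderiv_rot {F : E5 → E5} {x : E5} (hx : pv2 x = 0) (h : ContDiffAt ℝ ∞ F x) {t : ℝ}
    (ht : ∀ᶠ y in 𝓝 x, F (rotE t y) = rotE t (F y)) (v : E5) :
    fderiv ℝ F x (rotE t v) = rotE t (fderiv ℝ F x v) := by
  have hd : HasFDerivAt F (fderiv ℝ F x) x := (h.differentiableAt (by simp)).hasFDerivAt
  set R : E5 →L[ℝ] E5 := pxL + Real.cos t • pvL + Real.sin t • JL with hR
  have hRx : R x = x := by rw [hR, rotE_clm, rotE_plane hx]
  have h1 : HasFDerivAt (fun y => F (R y)) ((fderiv ℝ F x).comp R) x := by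
    have h0 : HasFDerivAt F (fderiv ℝ F x) (R x) := by rw [hRx]; exact hd
    exact h0.comp x R.hasFDerivAt
  have h2 : HasFDerivAt (fun y => R (F y)) (R.comp (fderiv ℝ F x)) x :=
    R.hasFDerivAt.comp x hd
  have h3 : (fun y => F (R y)) =ᶠ[𝓝 x] (fun y => R (F y)) := by
    filter_upwards [ht] with y hy
    rw [hR, rotE_clm, rotE_clm]
    exact hy
  have h4 : (fderiv ℝ F x).comp R = R.comp (fderiv ℝ F x) :=
    h1.unique (h2.congr_of_eventuallyEq h3)
  have h5 := congrArg (fun L : E5 →L[ℝ] E5 => L v) h4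
  simp only [ContinuousLinearMap.comp_apply] at h5
  rw [hR, rotE_clm, rotE_clm] at h5
  exact h5

/-- the derivative at a point of `P` preserves `P` -/
theorem fderiv_plane {F : E5 → E5} {x : E5} (hx : pv2 x = 0) (h : ContDiffAt ℝ ∞ F x)
    (hP : ∀ x, pv2 x = 0 → pv2 (F x) = 0) (v : E5) (hv : pvL v = 0) :
    pvL (fderiv ℝ F x v) = 0 := by
  have hd : HasFDerivAt F (fderiv ℝ F x) x := (h.differentiableAt (by simp)).hasFDerivAt
  have h1 : HasDerivAt (fun s : ℝ => x + s • v) v 0 := by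
    simpa using ((hasDerivAt_id (0 : ℝ)).smul_const v).const_add x
  have h0 : HasFDerivAt F (fderiv ℝ F x) (x + (0 : ℝ) • v) := by
    simpa using hd
  have h2 : HasDerivAt (fun s : ℝ => F (x + s • v)) (fderiv ℝ F x v) 0 :=
    h0.comp_hasDerivAt (0 : ℝ) h1
  have h3 : HasDerivAt (fun s : ℝ => pvL (F (x + s • v))) (pvL (fderiv ℝ F x v)) 0 :=
    pvL.hasFDerivAt.comp_hasDerivAt (0 : ℝ) h2
  have h4 : (fun s : ℝ => pvL (F (x + s • v))) = fun _ => 0 := by
    funext s
    refine pv2_eq_zero.1 (hP _ (pv2_eq_zero.2 ?_))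
    rw [map_add, map_smul, hv, pv2_eq_zero.1 hx, smul_zero, add_zero]
  rw [h4] at h3
  exact h3.unique (hasDerivAt_const (0 : ℝ) (0 : E5))

end Pool.Agent.Rot5
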