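import Pool.Agent.Rot5.StereoLD
import Pool.Agent.Rot5.Near

/-!
# Maps of `ℝ⁴` which are rotations off a compact set, and maps of the 4-sphere

PROOFS. `desc`: `g infS = infS` (`OnS2_inf`, `NearS2.self`, `rotA_fix`), so `f y = sgi (g (sg y))`
is a homeomorphism of `ℝ⁴` (inverse: the same with `g.symm`; `continuousAt_sgi`, `g (sg y) ≠ infS`
by injectivity). `AgreeOff`: the closure `K'` of `{x | g x ≠ (rotS n)^[a] x}` is compact and
misses the 2-sphere; `K = sgi '' K'` is compact (`continuousAt_sgi`) and misses the plane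
(`OnS2_sg`), and off `K` `f y = sgi ((rotS n)^[a] (sg y)) = (rotate n)^[a] y`
(`sg_rotate_iterate`, `sgi_sg`).
`asc`: `g x = sg (f (sgi x))` for `x ≠ infS`, `g infS = infS`. Continuity at `infS`: `g` agrees
with `(rotS n)^[a]` off the compact set `sg '' K`, hence near `infS`; the inverse in the same way
(`f.symm` agrees with `(rotH n)⁻¹ ^ a` off the compact set `f '' K`; or: `g` is a continuous
bijection of a compact Hausdorff space, `Continuous.homeoOfEquivCompactToT2`).
-/

set_option autoImplicit false

open scoped ContDiff Topology Manifold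
open Set Filter Metric

namespace Pool.Agent.Rot5

open Pool.Agent.HopfCov Pool.Agent.HopfFin Pool.Agent.HopfCov.Smooth Pool.Agent.Rot4

private theorem Trans_compact : CompactSpace Sph4 :=
  inferInstanceAs (CompactSpace (sphere (0 : EuclideanSpace ℝ (Fin 5)) 1))

private theorem Trans_t2 : T2Space Sph4 :=
  inferInstanceAs (T2Space (sphere (0 : EuclideanSpace ℝ (Fin 5)) 1))

private theorem Trans_rot_inf (n a : ℕ) : (rotS n)^[a] infS = infS := by
  rw [rotS_iterate, rotA_fix OnS2_inf]

private theorem Trans_rot_continuous (n a : ℕ) : Continuous ((rotS n)^[a]) := by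
  have h : (rotS n)^[a] = rotHS (a * (2 * Real.pi / n)) := by
    funext x
    rw [rotS_iterate]
    rfl
  rw [h]
  exact (rotHS _).continuous

theorem desc {n a : ℕ} {g : Sph4 ≃ₜ Sph4} (hg : NearS2 fun x => g x = (rotS n)^[a] x) :
    ∃ f : E4 ≃ₜ E4, AgreeOff f ((rotate n)^[a]) ∧ ∀ y, g (sg y) = sg (f y) := by
  have := Trans_compact
  have := Trans_t2
  have h0 : g infS = infS := by
    have h : g infS = (rotS n)^[a] infS := hg.self OnS2_inf
    rw [h, Trans_rot_inf]
  have h0' : g.symm infS = infS := by
    conv_lhs => rw [← h0]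
    exact g.symm_apply_apply infS
  have h1 : ∀ y, g (sg y) ≠ infS := fun y h => sg_ne y (g.injective (h.trans h0.symm))
  have h1' : ∀ y, g.symm (sg y) ≠ infS := fun y h =>
    sg_ne y (g.symm.injective (h.trans h0'.symm))
  let f : E4 ≃ₜ E4 :=
    { toFun := fun y => sgi (g (sg y))
      invFun := fun y => sgi (g.symm (sg y))
      left_inv := fun y => by
        change sgi (g.symm (sg (sgi (g (sg y))))) = y
        rw [sg_sgi (h1 y), g.symm_apply_apply, sgi_sg]
      right_inv := fun y => by
        change sgi (g (sg (sgi (g.symm (sg y))))) = y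
        rw [sg_sgi (h1' y), g.apply_symm_apply, sgi_sg]
      continuous_toFun := continuous_iff_continuousAt.2 fun y =>
        ContinuousAt.comp (g := sgi) (f := fun y => g (sg y)) (continuousAt_sgi (h1 y))
          (g.continuous.comp continuous_sg).continuousAt
      continuous_invFun := continuous_iff_continuousAt.2 fun y =>
        ContinuousAt.comp (g := sgi) (f := fun y => g.symm (sg y)) (continuousAt_sgi (h1' y))
          (g.symm.continuous.comp continuous_sg).continuousAt }
  have hf : ∀ y, f y = sgi (g (sg y)) := fun y => rfl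
  refine ⟨f, ?_, fun y => ?_⟩
  · set U : Set Sph4 := interior {x | g x = (rotS n)^[a] x} with hU
    have hUS : ∀ x, OnS2 x → x ∈ U := fun x hx => by
      rw [hU, mem_interior_iff_mem_nhds]
      exact hg x hx
    have hK' : IsCompact Uᶜ := isOpen_interior.isClosed_compl.isCompact
    have hne : ∀ x ∈ Uᶜ, x ≠ infS := fun x hx h => hx (h ▸ hUS _ OnS2_inf)
    refine ⟨sgi '' Uᶜ, hK'.image_of_continuousOn fun x hx =>
      (continuousAt_sgi (hne x hx)).continuousWithinAt, ?_, fun y hy => ?_⟩
    · rintro _ ⟨x, hx, rfl⟩ h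
      rw [← OnS2_sg, sg_sgi (hne x hx)] at h
      exact hx (hUS x h)
    · have h2 : sg y ∈ U := by
        by_contra h3
        exact hy ⟨sg y, h3, sgi_sg y⟩
      have h4 : sg y ∈ {x | g x = (rotS n)^[a] x} := interior_subset h2
      have h3 : g (sg y) = (rotS n)^[a] (sg y) := h4
      rw [hf, h3, ← sg_rotate_iterate, sgi_sg]
  · rw [hf, sg_sgi (h1 y)]

theorem asc {n a : ℕ} {f : E4 ≃ₜ E4} (hf : AgreeOff f ((rotate n)^[a])) :
    ∃ g : Sph4 ≃ₜ Sph4, (NearS2 fun x => g x = (rotS n)^[a] x) ∧ ∀ y, g (sg y) = sg (f y) := by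
  classical
  have := Trans_compact
  have := Trans_t2
  obtain ⟨K, hK, hK1, hK2⟩ := hf
  let G : (E4 ≃ₜ E4) → Sph4 → Sph4 := fun f x => if x = infS then infS else sg (f (sgi x))
  have G0 : ∀ f, G f infS = infS := fun f => if_pos rfl
  have G1 : ∀ f y, G f (sg y) = sg (f y) := fun f y => by
    change (if sg y = infS then infS else sg (f (sgi (sg y)))) = _
    rw [if_neg (sg_ne y), sgi_sg]
  have hinv : ∀ f x, G f.symm (G f x) = x := by
    intro f x
    by_cases hx : x = infS
    · rw [hx, G0, G0]
    · rw [← sg_sgi hx, G1, G1, f.symm_apply_apply]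
  have hclosed : IsClosed (sg '' K) := (hK.image continuous_sg).isClosed
  have hoff : ∀ x, x ∉ sg '' K → G f x = (rotS n)^[a] x := by
    intro x hx
    by_cases h : x = infS
    · rw [h, G0, Trans_rot_inf]
    · have h2 : sgi x ∉ K := fun h3 => hx ⟨sgi x, h3, sg_sgi h⟩
      rw [← sg_sgi h, G1, hK2 _ h2, sg_rotate_iterate]
  have hnear : ∀ x, OnS2 x → ∀ᶠ y in 𝓝 x, G f y = (rotS n)^[a] y := by
    intro x hx
    have h2 : x ∉ sg '' K := by
      rintro ⟨k, hk, rfl⟩
      exact hK1 k hk (OnS2_sg.1 hx)
    filter_upwards [hclosed.isOpen_compl.mem_nhds h2] with y hy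
    exact hoff y hy
  have hcont : Continuous (G f) := by
    rw [continuous_iff_continuousAt]
    intro x
    by_cases hx : x = infS
    · subst hx
      exact (Trans_rot_continuous n a).continuousAt.congr
        ((hnear _ OnS2_inf).mono fun y hy => hy.symm)
    · have h2 : ContinuousAt (fun x => sg (f (sgi x))) x :=
        ContinuousAt.comp (g := sg) (f := fun x => f (sgi x)) continuous_sg.continuousAt
          (ContinuousAt.comp (g := f) (f := sgi) f.continuous.continuousAt
            (continuousAt_sgi hx))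
      refine h2.congr ?_
      filter_upwards [isOpen_compl_singleton.mem_nhds
        (show x ∈ ({infS}ᶜ : Set Sph4) from hx)] with y hy
      exact (if_neg hy).symm
  let e : Sph4 ≃ Sph4 :=
    { toFun := G f
      invFun := G f.symm
      left_inv := hinv f
      right_inv := fun x => by
        have h := hinv f.symm x
        exact h }
  refine ⟨Continuous.homeoOfEquivCompactToT2 (f := e) hcont, hnear, fun y => G1 f y⟩

end Pool.Agent.Rot5
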