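import Pool.Agent.Rot5.Apply
import Pool.Agent.Rot5.Trans
import Pool.Agent.Rot5.RepLin
import Pool.Agent.Rot4.Act
import Pool.Agent.Rot4.ActUp

/-!
# From a conjugation which commutes with the rotations near the 2-sphere to a normal form

PROOF. `desc` (`a = 1`) gives `f` with `AgreeOff f ((rotate n)^[1])`, `g (sg y) = sg (f y)`; `up`
(`Rot4/Up.lean` or `Rot4/Down.lean`, used in `act_up`) gives `G` with `Nn n 1 G`, `Corr n G f`;
`to_coord` gives `G'`: `G' (q1 x) = q1 (G x)` on `Om`, `G' = shf 1` far away; `sph n (G' z) = g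
(sph n z)` as in `rep_of_pair`. `(G' ^ n) z = shf n z`: both are lifts of `g^[n] = id` (`sph_shf`:
`rotA (2 π) = id`, or `sph_eq`) and agree far away (`sph_lift_unique` on `univ`). `lift_all` for
`f := k`, `g1 := g`, `g2 := rotHS θ`, `G1 := G'`, `G2` = the homeomorphism `shf 1` (its
properties: `sph_shf`) gives `F`. `transfer` with `m = 1`, `T2 = 1` gives `T1`; `to_phi` (`m = 1`)
gives `Φ` with `Nn (1 * n) 0 Φ`, `Φ * G ^ 1 = tau ^ 1 * Φ`. `drop_conj` for `G' := tau`, `f' :=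
rotH n` (`Corr_tau`) gives `h₀` with `AgreeOff h₀ id`, `h₀ (f x) = rotH n (h₀ x)`; `asc` (`a = 0`)
gives `h`. `h (g x) = rotS n (h x)`: for `x = sg y` by `sg_rotate`; for `x = infS` both sides are
`infS` (`OnS2_inf`, `hnear`, `NearS2.self`, `rotA_fix`).
-/

set_option autoImplicit false

open scoped ContDiff Topology Manifold
open Set Filter Metric

namespace Pool.Agent.Rot5

open Pool.Agent.HopfCov Pool.Agent.HopfFin Pool.Agent.HopfCov.Smooth Pool.Agent.Rot4

private noncomputable def NormStr_shift : E4 ≃ₜ E4 where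
  toFun := shf 1
  invFun := shf (-1)
  left_inv z := by rw [shf_shf, neg_add_cancel, shf_zero]
  right_inv z := by rw [shf_shf, add_neg_cancel, shf_zero]
  continuous_toFun := by
    unfold shf
    exact continuous_id.add continuous_const
  continuous_invFun := by
    unfold shf
    exact continuous_id.add continuous_const

private theorem NormStr_iter {g : Sph4 ≃ₜ Sph4} {f : E4 ≃ₜ E4}
    (hd : ∀ y, g (sg y) = sg (f y)) (k : ℕ) (y : E4) :
    g^[k] (sg y) = sg ((f ^ k : E4 ≃ₜ E4) y) := by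
  rw [← iterate_eq]
  induction k with
  | zero => rfl
  | succ k ih => rw [Function.iterate_succ_apply', Function.iterate_succ_apply', ih, hd]

private theorem NormStr_per {n : ℕ} {f G G' : E4 ≃ₜ E4} (hcorr : Corr n G f)
    (hG1 : ∀ x, Om x → G' (q1 x) = q1 (G x)) (hpow : G ^ n = tau ^ n) (z : E4) :
    (G' ^ n : E4 ≃ₜ E4) z = shf n z := by
  have hk : ∀ k : ℕ, ∀ x, Om x → Om ((G ^ k : E4 ≃ₜ E4) x) ∧
      (G' ^ k : E4 ≃ₜ E4) (q1 x) = q1 ((G ^ k : E4 ≃ₜ E4) x) := by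
    intro k
    induction k with
    | zero =>
      intro x hx
      rw [pow_zero, pow_zero]
      exact ⟨hx, rfl⟩
    | succ k ih =>
      intro x hx
      obtain ⟨h1, h2⟩ := ih x hx
      have e1 : (G ^ (k + 1) : E4 ≃ₜ E4) x = G ((G ^ k : E4 ≃ₜ E4) x) := by
        rw [pow_succ']
        rfl
      have e2 : (G' ^ (k + 1) : E4 ≃ₜ E4) (q1 x) = G' ((G' ^ k : E4 ≃ₜ E4) (q1 x)) := by
        rw [pow_succ']
        rfl
      rw [e1, e2, h2]
      exact ⟨hcorr.dom _ h1, hG1 _ h1⟩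
  have h3 := (hk n (b1 z) (Om_b1 z)).2
  rw [q1_b1, hpow, tau_pow_apply, q1_smul (Om_b1 z), q1_b1] at h3
  exact h3

theorem norm_of_straight {n : ℕ} (hn : 2 ≤ n) {g k : Sph4 ≃ₜ Sph4}
    (hg : ∀ x, LocalDiffeoAt g x) (hnear : NearS2 fun x => g x = rotS n x)
    (hpow : ∀ x, g^[n] x = x) (hcm : CommNear k) (hS : ∀ x, OnS2 (k x) ↔ OnS2 x)
    (hld : ∀ x, OnS2 x → LocalDiffeoAt k x) (hc : ∀ x, k (g x) = rotS n (k x)) :
    ∃ h : Sph4 ≃ₜ Sph4, NormAct n g h := by
  have hn0 : 0 < n := by omega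
  have hg1 : NearS2 fun x => g x = (rotS n)^[1] x := hnear.mono fun x hx => hx
  obtain ⟨f, hf1, hf2⟩ := desc hg1
  obtain ⟨G, hG, hcorr⟩ := up hn0 hf1
  obtain ⟨G', hq, ⟨R, hR⟩, -⟩ := to_coord hG
  have hfn : f ^ n = 1 := by
    refine Homeomorph.ext fun y => ?_
    apply sg_injective
    rw [← NormStr_iter hf2, hpow]
    rfl
  have hGn : G ^ n = tau ^ n := by
    have h1 : Corr n (G ^ n) 1 := by
      rw [← hfn]
      exact hcorr.pow n
    have h2 : Nn n n (G ^ n) := by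
      have := hG.pow n
      rwa [one_mul] at this
    have h3 : Nn n n (tau ^ n) := by
      have := (Nn.tau n).pow n
      rwa [one_mul] at this
    exact Corr.lift_eq hn0 h2 h3 h1 (Corr_tau_pow hn0)
  have hper : ∀ z, (G' ^ n : E4 ≃ₜ E4) z = shf n z := NormStr_per hcorr hq hGn
  have hlift : ∀ z, sph n (G' z) = g (sph n z) := by
    intro z
    have h1 : G' z = q1 (G (b1 z)) := by
      conv_lhs => rw [← q1_b1 z]
      exact hq _ (Om_b1 z)
    show sg (q2 n (G' z)) = g (sg (q2 n z))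
    rw [h1, hcorr.eq _ (Om_b1 z), q1_b1, hf2]
  have hfarG : ∃ R : ℝ, ∀ z, R ≤ wsq z → G' z = shf 1 z :=
    ⟨R, fun z hz => by rw [hR z hz, Nat.cast_one]⟩
  have hliftS : ∀ z, sph n (NormStr_shift z) = rotHS (2 * Real.pi / n) (sph n z) := by
    intro z
    show sph n (shf 1 z) = rotA (2 * Real.pi / n) (sph n z)
    rw [sph_shf hn0, mul_one]
  obtain ⟨F, -, hFper, hFfar, hFbig, hFconj, -⟩ :=
    lift_all (g1 := g) (g2 := rotHS (2 * Real.pi / n)) (G1 := G') (G2 := NormStr_shift)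
      hn0 hcm hS hld hc hlift hfarG hliftS ⟨0, fun z _ => rfl⟩
  obtain ⟨T1, Γ, h1, h2, h3, -, -⟩ :=
    transfer (m := 1) (T2 := 1) hn0 hFper hFfar hFbig hfarG hper hFconj
      (fun z => by
        rw [pow_one, Nat.cast_one]
        rfl) ⟨0, fun z _ => rfl⟩
  obtain ⟨Φ, hΦ, hΦc, -, -, -⟩ := to_phi hn0 Nat.one_pos hG hq h1 h2 h3
  rw [pow_one, pow_one] at hΦc
  have hΦ' : Nn n 0 Φ := by rwa [one_mul] at hΦ
  obtain ⟨h₀, hh1, -, hh3⟩ := drop_conj hn0 hcorr (Corr_tau hn0) hΦ' hΦc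
  obtain ⟨h, hh4, hh5⟩ := asc (n := n) (a := 0) (f := h₀) hh1
  refine ⟨h, hg, hnear, hh4.mono fun x hx => hx, fun x => ?_⟩
  have hi1 : g infS = infS := by
    have h6 : g infS = rotS n infS := hnear.self OnS2_inf
    rw [h6]
    exact rotA_fix OnS2_inf
  have hi2 : h infS = infS := hh4.self OnS2_inf
  by_cases hx : x = infS
  · rw [hx, hi1, hi2]
    exact (rotA_fix OnS2_inf).symm
  · rw [← sg_sgi hx, hf2, hh5, hh5, hh3]
    exact sg_rotate n _

end Pool.Agent.Rot5
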