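import Pool.Agent.Rot5.LinAlg

/-!
# Normalising the derivative of an action at a fixed point: linear algebra

`A` is the derivative of the action at a point of `P`, `N` the derivative of a local
diffeomorphism which conjugates the action to the rotation by `θ = 2 π / n`. `qL n A` is a linear
map `V → V` (extended by `0` on `P`) which conjugates the part `V → V` of `A` to the rotation, `1`
for `n = 2`.

PROOFS. Let `e₃, e₄` be the basis of `V`, `A e₃ = a e₃ + c e₄`, `A e₄ = b e₃ + d e₄` modulo `P`,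
`N` = `(n₁ n₂; n₃ n₄)` modulo `P`. Applying `pvL` to `N (A v) = rotE θ (N v)` for `v ∈ V` (write
`A v = p + v'`, `N p ∈ P`) gives `N_V A_V = R N_V`, `R = (cos θ, - sin θ; sin θ, cos θ)`, so `A_V
= N_V⁻¹ R N_V`: `a + d = 2 cos θ`, `a d - b c = 1`, `c * detA N = sin θ (n₁² + n₃²)` (explicitly
`A_V = cos θ + sin θ N_V⁻¹ J N_V`). `n₁² + n₃² > 0` because `detA N ≠ 0`, and `sin θ > 0` for `n ≥
3`: `entry_pos`. (All from the four equations `n₁ a + n₂ c = cos θ n₁ - sin θ n₃`, `n₃ a + n₄ c =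
sin θ n₁ + cos θ n₃`, `n₁ b + n₂ d = cos θ n₂ - sin θ n₄`, `n₃ b + n₄ d = sin θ n₂ + cos θ n₄`,
solved for `a, b, c, d` with `n₁ n₄ - n₂ n₃ > 0`.)
`q_comm`: for `v ∈ P` both sides are `0` (`A v = v`; `qL n A` vanishes on `P`). For `v = e₃`: `qL
(A e₃) = qL (a e₃ + c e₄) = a e₃ + c (α e₃ + β e₄) = cos θ e₃ + sin θ e₄`. For `v = e₄`: `qL (A
e₄) = b e₃ + d (α e₃ + β e₄)` and `rotE θ (α e₃ + β e₄)`; use `d = 2 cos θ - a`, `b c = a d - 1`.
For `n = 2`: `N_V A_V = - N_V`, so `A_V = - 1`; `qL = pvL`.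
`det_q`: injectivity as in `det_interp`: if `(1 - χ) v + χ M v = 0`, then applying `pvL`: `(1 - χ)
pvL v + χ qL v = 0`, i.e. `((1 - χ) + χ β) v₄ = 0` and `v₃ + χ α v₄ = 0`, so `pvL v = 0` (`β >
0`), `M v = v`, `v = 0`.
-/

set_option autoImplicit false

open scoped ContDiff Topology
open Set Filter Metric

namespace Pool.Agent.Rot5

open Pool.Agent.HopfCov Pool.Agent.HopfFin Pool.Agent.HopfCov.Smooth Pool.Agent.Rot4

/-- the fourth basis vector -/
noncomputable def b3 : E5 := EuclideanSpace.single 3 1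

/-- the first coefficient -/
noncomputable def qa (n : ℕ) (A : E5 →L[ℝ] E5) : ℝ :=
  if n = 2 then 0 else -((A b3) 3 - Real.cos (2 * Real.pi / n)) / (A b3) 4

/-- the second coefficient -/
noncomputable def qb (n : ℕ) (A : E5 →L[ℝ] E5) : ℝ :=
  if n = 2 then 1 else Real.sin (2 * Real.pi / n) / (A b3) 4

/-- the linear map `e₃ ↦ e₃`, `e₄ ↦ qa e₃ + qb e₄`, zero on `P` -/
noncomputable def qL (n : ℕ) (A : E5 →L[ℝ] E5) : E5 →L[ℝ] E5 := mkL
  { toFun := fun v => WithLp.toLp 2 ![0, 0, 0, v 3 + v 4 * qa n A, v 4 * qb n A]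
    map_add' := fun x y => by
      ext i
      fin_cases i <;> simp <;> ring
    map_smul' := fun c x => by
      ext i
      fin_cases i <;> simp <;> ring }

theorem qL_apply (n : ℕ) (A : E5 →L[ℝ] E5) (v : E5) :
    qL n A v = WithLp.toLp 2 ![0, 0, 0, v 3 + v 4 * qa n A, v 4 * qb n A] := rfl

private theorem QL_pv_zero {x : E5} (h3 : x 3 = 0) (h4 : x 4 = 0) : pvL x = 0 := by
  rw [pvL_apply]
  ext i
  fin_cases i
  · rfl
  · rfl
  · rfl
  · exact h3
  · exact h4

private theorem QL_pv_single (x : E5) :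
    pvL x = x 3 • (b3 : E5) + x 4 • (EuclideanSpace.single 4 1 : E5) := by
  rw [pvL_apply, b3]
  ext i
  fin_cases i <;> simp

private theorem QL_coords {L : E5 →L[ℝ] E5} (hP : ∀ x, pvL x = 0 → pvL (L x) = 0) (x : E5) :
    (L x) 3 = (L b3) 3 * x 3 + (L (EuclideanSpace.single 4 1)) 3 * x 4 ∧
    (L x) 4 = (L b3) 4 * x 3 + (L (EuclideanSpace.single 4 1)) 4 * x 4 := by
  have h1 : pvL (L (pxL x)) = 0 := hP _ (QL_pv_zero rfl rfl)
  have h2 : (L (pxL x)) 3 = 0 := by
    have := congrArg (fun v : E5 => v 3) h1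
    exact this
  have h3 : (L (pxL x)) 4 = 0 := by
    have := congrArg (fun v : E5 => v 4) h1
    exact this
  have h4 : L x = L (pxL x) + (x 3 • L b3 + x 4 • L (EuclideanSpace.single 4 1)) := by
    conv_lhs => rw [← px_add_pv x]
    rw [map_add, QL_pv_single, map_add, map_smul, map_smul]
  constructor
  · have := congrArg (fun v : E5 => v 3) h4
    simp only [PiLp.add_apply, PiLp.smul_apply, smul_eq_mul] at this
    rw [this, h2]
    ring
  · have := congrArg (fun v : E5 => v 4) h4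
    simp only [PiLp.add_apply, PiLp.smul_apply, smul_eq_mul] at this
    rw [this, h3]
    ring

private theorem QL_eqs {t : ℝ} {A N : E5 →L[ℝ] E5} (hN : ∀ v, pvL v = 0 → pvL (N v) = 0)
    (hNA : ∀ v, N (A v) = rotE t (N v)) (v : E5) :
    (N b3) 3 * (A v) 3 + (N (EuclideanSpace.single 4 1)) 3 * (A v) 4 =
      Real.cos t * (N v) 3 - Real.sin t * (N v) 4 ∧
    (N b3) 4 * (A v) 3 + (N (EuclideanSpace.single 4 1)) 4 * (A v) 4 =
      Real.sin t * (N v) 3 + Real.cos t * (N v) 4 := by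
  have h1 := QL_coords hN (A v)
  have h2 := hNA v
  have e3 : (N (A v)) 3 = Real.cos t * (N v) 3 - Real.sin t * (N v) 4 := by
    rw [h2]
    rfl
  have e4 : (N (A v)) 4 = Real.sin t * (N v) 3 + Real.cos t * (N v) 4 := by
    rw [h2]
    rfl
  exact ⟨h1.1.symm.trans e3, h1.2.symm.trans e4⟩

private theorem QL_detA (N : E5 →L[ℝ] E5) : detA N = (N b3) 3 * (N (EuclideanSpace.single 4 1)) 4 -
    (N (EuclideanSpace.single 4 1)) 3 * (N b3) 4 := rfl

private theorem QL_sin {n : ℕ} (hn : 3 ≤ n) : 0 < Real.sin (2 * Real.pi / n) := by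
  have hn' : (3 : ℝ) ≤ n := by exact_mod_cast hn
  have := Real.pi_pos
  apply Real.sin_pos_of_pos_of_lt_pi
  · positivity
  · rw [div_lt_iff₀ (by linarith)]
    nlinarith

theorem entry_pos {n : ℕ} (hn : 3 ≤ n) {A N : E5 →L[ℝ] E5}
    (hN : ∀ v, pvL v = 0 → pvL (N v) = 0)
    (hNA : ∀ v, N (A v) = rotE (2 * Real.pi / n) (N v)) (hpos : 0 < detA N) :
    0 < (A b3) 4 := by
  have hsin := QL_sin hn
  obtain ⟨e1, e2⟩ := QL_eqs hN hNA b3
  rw [QL_detA] at hpos
  set n1 := (N b3) 3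
  set n2 := (N (EuclideanSpace.single 4 1)) 3
  set n3 := (N b3) 4
  set n4 := (N (EuclideanSpace.single 4 1)) 4
  have h1 : (n1 * n4 - n2 * n3) * (A b3) 4 = Real.sin (2 * Real.pi / n) * (n1 ^ 2 + n3 ^ 2) := by
    linear_combination n1 * e2 - n3 * e1
  have h2 : 0 < n1 ^ 2 + n3 ^ 2 := by
    rcases (add_nonneg (sq_nonneg n1) (sq_nonneg n3)).eq_or_lt with h | h
    · exfalso
      have h3 : n1 = 0 := by nlinarith [sq_nonneg n1, sq_nonneg n3]
      have h4 : n3 = 0 := by nlinarith [sq_nonneg n1, sq_nonneg n3]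
      rw [h3, h4] at hpos
      simp at hpos
    · exact h
  by_contra hcon
  have h3 : 0 < (n1 * n4 - n2 * n3) * (A b3) 4 := by
    rw [h1]
    positivity
  have h4 : (n1 * n4 - n2 * n3) * (A b3) 4 ≤ 0 :=
    mul_nonpos_of_nonneg_of_nonpos hpos.le (not_lt.1 hcon)
  linarith

theorem qb_pos {n : ℕ} (hn : 2 ≤ n) {A N : E5 →L[ℝ] E5}
    (hN : ∀ v, pvL v = 0 → pvL (N v) = 0)
    (hNA : ∀ v, N (A v) = rotE (2 * Real.pi / n) (N v)) (hpos : 0 < detA N) : 0 < qb n A := by
  unfold qb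
  split_ifs with h
  · exact one_pos
  · have hn3 : 3 ≤ n := by omega
    exact div_pos (QL_sin hn3) (entry_pos hn3 hN hNA hpos)

theorem q_comm {n : ℕ} (hn : 2 ≤ n) {A N : E5 →L[ℝ] E5} (hA : ∀ v, pvL v = 0 → A v = v)
    (hN : ∀ v, pvL v = 0 → pvL (N v) = 0)
    (hNA : ∀ v, N (A v) = rotE (2 * Real.pi / n) (N v)) (hpos : 0 < detA N) (v : E5) :
    qL n A (A v) = rotE (2 * Real.pi / n) (qL n A v) := by
  have hAP : ∀ w, pvL w = 0 → pvL (A w) = 0 := fun w hw => by rw [hA w hw, hw]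
  obtain ⟨c3, c4⟩ := QL_coords hAP v
  obtain ⟨e1, e2⟩ := QL_eqs hN hNA b3
  obtain ⟨e3, e4⟩ := QL_eqs hN hNA (EuclideanSpace.single 4 1)
  have hpos' := hpos
  rw [QL_detA] at hpos'
  have hsc := Real.sin_sq_add_cos_sq (2 * Real.pi / n)
  have key : (A v) 3 + (A v) 4 * qa n A = Real.cos (2 * Real.pi / n) * (v 3 + v 4 * qa n A) -
        Real.sin (2 * Real.pi / n) * (v 4 * qb n A) ∧
      (A v) 4 * qb n A = Real.sin (2 * Real.pi / n) * (v 3 + v 4 * qa n A) +
        Real.cos (2 * Real.pi / n) * (v 4 * qb n A) := by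
    rw [c3, c4]
    by_cases h2 : n = 2
    · have hth : 2 * Real.pi / (n : ℝ) = Real.pi := by
        rw [h2]
        push_cast
        ring
      rw [hth, Real.cos_pi, Real.sin_pi] at e1 e2 e3 e4 ⊢
      have hqa : qa n A = 0 := if_pos h2
      have hqb : qb n A = 1 := if_pos h2
      rw [hqa, hqb]
      set n1 := (N b3) 3
      set n2 := (N (EuclideanSpace.single 4 1)) 3
      set n3 := (N b3) 4
      set n4 := (N (EuclideanSpace.single 4 1)) 4
      have ha : (A b3) 3 = -1 := by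
        apply mul_left_cancel₀ hpos'.ne'
        linear_combination n4 * e1 - n2 * e2
      have hc : (A b3) 4 = 0 := by
        apply mul_left_cancel₀ hpos'.ne'
        linear_combination n1 * e2 - n3 * e1
      have hb : (A (EuclideanSpace.single 4 1)) 3 = 0 := by
        apply mul_left_cancel₀ hpos'.ne'
        linear_combination n4 * e3 - n2 * e4
      have hd : (A (EuclideanSpace.single 4 1)) 4 = -1 := by
        apply mul_left_cancel₀ hpos'.ne'
        linear_combination n1 * e4 - n3 * e3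
      rw [ha, hb, hc, hd]
      constructor <;> ring
    · have hn3 : 3 ≤ n := by omega
      have hcpos := entry_pos hn3 hN hNA hpos
      have hqa : qa n A = -((A b3) 3 - Real.cos (2 * Real.pi / n)) / (A b3) 4 := if_neg h2
      have hqb : qb n A = Real.sin (2 * Real.pi / n) / (A b3) 4 := if_neg h2
      have hqa' : (A b3) 4 * qa n A = -((A b3) 3 - Real.cos (2 * Real.pi / n)) := by
        rw [hqa, mul_div_cancel₀ _ hcpos.ne']
      have hqb' : (A b3) 4 * qb n A = Real.sin (2 * Real.pi / n) := by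
        rw [hqb, mul_div_cancel₀ _ hcpos.ne']
      set n1 := (N b3) 3
      set n2 := (N (EuclideanSpace.single 4 1)) 3
      set n3 := (N b3) 4
      set n4 := (N (EuclideanSpace.single 4 1)) 4
      set a := (A b3) 3
      set b := (A (EuclideanSpace.single 4 1)) 3
      set c := (A b3) 4
      set d := (A (EuclideanSpace.single 4 1)) 4
      set C := Real.cos (2 * Real.pi / n)
      set S := Real.sin (2 * Real.pi / n)
      set α := qa n A
      set β := qb n A
      have htr : a + d = 2 * C := by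
        apply mul_left_cancel₀ hpos'.ne'
        linear_combination n4 * e1 - n2 * e2 + n1 * e4 - n3 * e3
      have hdt : a * d - b * c = 1 := by
        apply mul_left_cancel₀ hpos'.ne'
        linear_combination (n3 * b + n4 * d) * e1 + (C * n1 - S * n3) * e4 -
          (n3 * a + n4 * c) * e3 - (C * n2 - S * n4) * e2 + (n1 * n4 - n2 * n3) * hsc
      constructor
      · apply mul_left_cancel₀ hcpos.ne'
        linear_combination (c * v 3 + d * v 4 - C * v 4) * hqa' + S * v 4 * hqb' -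
          v 4 * hdt + C * v 4 * htr + v 4 * hsc
      · apply mul_left_cancel₀ hcpos.ne'
        linear_combination (c * v 3 + d * v 4 - C * v 4) * hqb' - S * v 4 * hqa' +
          S * v 4 * htr
  rw [qL_apply, qL_apply]
  ext i
  fin_cases i
  · rfl
  · rfl
  · rfl
  · exact key.1
  · exact key.2

theorem det_q {n : ℕ} {A M : E5 →L[ℝ] E5} (hb : 0 < qb n A) (h1 : ∀ v, pvL v = 0 → M v = v)
    (h2 : ∀ v, pvL (M v) = qL n A v) {χ : ℝ} (h0 : 0 ≤ χ) (h0' : χ ≤ 1) :
    ((1 - χ) • ContinuousLinearMap.id ℝ E5 + χ • M).det ≠ 0 := by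
  intro hdet
  have hdet2 : LinearMap.det ((((1 - χ) • ContinuousLinearMap.id ℝ E5 + χ • M :
      E5 →L[ℝ] E5)) : E5 →ₗ[ℝ] E5) = 0 := hdet
  rw [LinearMap.det_eq_zero_iff_ker_ne_bot, Submodule.ne_bot_iff] at hdet2
  obtain ⟨x, hx, hx0⟩ := hdet2
  have hMx : (1 - χ) • x + χ • M x = 0 := hx
  have hp := congrArg pvL hMx
  rw [map_add, map_smul, map_smul, h2, map_zero, qL_apply, pvL_apply] at hp
  have e3 := congrArg (fun v : E5 => v 3) hp
  have e4 := congrArg (fun v : E5 => v 4) hp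
  have e3' : (1 - χ) * x 3 + χ * (x 3 + x 4 * qa n A) = 0 := e3
  have e4' : (1 - χ) * x 4 + χ * (x 4 * qb n A) = 0 := e4
  have hpos : 0 < (1 - χ) + χ * qb n A := by
    rcases h0.eq_or_lt with h | h
    · rw [← h]
      simp
    · have := mul_pos h hb
      linarith
  have hx4 : x 4 = 0 := by
    have h3 : ((1 - χ) + χ * qb n A) * x 4 = 0 := by linear_combination e4'
    rcases mul_eq_zero.1 h3 with h | h
    · exact absurd h hpos.ne'
    · exact h
  have hx3 : x 3 = 0 := by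
    rw [hx4] at e3'
    linear_combination e3'
  have h3 := h1 x (QL_pv_zero hx3 hx4)
  rw [h3, ← add_smul, sub_add_cancel, one_smul] at hMx
  exact hx0 hMx

/-- smooth dependence on `A` -/
theorem contDiffAt_q {n : ℕ} {c : E5 → (E5 →L[ℝ] E5)} {u : E5 → E5} {x : E5}
    (hc : ContDiffAt ℝ ∞ c x) (hu : ContDiffAt ℝ ∞ u x) (h : n = 2 ∨ (c x b3) 4 ≠ 0) :
    ContDiffAt ℝ ∞ (fun y => qL n (c y) (u y)) x := by
  have hco : ∀ (i : Fin 5) {f : E5 → E5}, ContDiffAt ℝ ∞ f x →
      ContDiffAt ℝ ∞ (fun y => (f y) i) x := fun i f hf => contDiffAt_euclidean.1 hf i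
  have hcb : ContDiffAt ℝ ∞ (fun y => c y b3) x := hc.clm_apply contDiffAt_const
  have hqa : ContDiffAt ℝ ∞ (fun y => qa n (c y)) x := by
    unfold qa
    by_cases h2 : n = 2
    · simp only [if_pos h2]
      exact contDiffAt_const
    · simp only [if_neg h2]
      exact ((hco 3 hcb).sub contDiffAt_const).neg.div (hco 4 hcb) (h.resolve_left h2)
  have hqb : ContDiffAt ℝ ∞ (fun y => qb n (c y)) x := by
    unfold qb
    by_cases h2 : n = 2
    · simp only [if_pos h2]
      exact contDiffAt_const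
    · simp only [if_neg h2]
      exact contDiffAt_const.div (hco 4 hcb) (h.resolve_left h2)
  rw [contDiffAt_euclidean]
  intro i
  fin_cases i
  · exact contDiffAt_const (c := (0 : ℝ))
  · exact contDiffAt_const (c := (0 : ℝ))
  · exact contDiffAt_const (c := (0 : ℝ))
  · exact (hco 3 hu).add ((hco 4 hu).mul hqa)
  · exact (hco 4 hu).mul hqb

end Pool.Agent.Rot5
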