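import Pool.Agent.Rot5.RepDefs
import Pool.Agent.Rot5.NormS

/-!
# Existence of the generators; linear actions

PROOFS. `rep_of_pair`: `to_coord` for `G` (`hP.nnG`) gives `G'`. `lift`: `z = q1 x` with `x = b1
z` (`q1_b1`, `Om_b1`): `sph n (G' z) = sg (q2 n (q1 (G x))) = sg (f (q2 n (q1 x))) = g (sph n z)`
(`hP.corr.eq`). `per`: by induction `(G' ^ k) (q1 x) = q1 ((G ^ k) x)` (`Om (G x)`:
`hP.corr.dom`), `G ^ n = tau ^ n`, `tau_pow_apply`, `q1_smul`.
`rep_exists`: `desc` for `g` (`a = 1`) and for `h` (`a = 0`, `(rotS n)^[0] = id`, `(rotate n)^[0]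
= id`) gives `f`, `k`; `Action n f`: smoothness by `ld_trans` (`InvertibleAt f x` is `RG f x`), `f
^ n = 1` by `NormAct.pow` and `sg_injective` (`g^[k] (sg y) = sg (f^[k] y)`), `top` with `k`
(`sg_injective`, `sg_rotate`). Then `act_up` and `rep_of_pair`.
`norm_of_act`: `asc` for `f` and for the homeomorphism of `Action.top`; smoothness: `ld_trans` at
the points `sg y` (`sg_sgi`), and at `infS` (`OnS2_inf`) `g` is the rotation near `infS`
(`ld_congr`, `ld_rotA`). The identity `h g = rotS n h` at `sg y` and at `infS` (both sides are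
`infS`).
`linear_of`: `asc` (`a = 0`) for the diffeomorphism `k` of `LinearAction`, as in `norm_of_act`;
`isDiffeo_of_homeo`. `off_of'`: the same for `LinearOffOrbit`, with the point `sg y`; `g (sg y) ≠
sg y`: else `f y = y`, and with the homeomorphism `k` of `LinearOffOrbit`, `rotate n (k y) = k y`,
so `k y` is on the plane (`sg_rotate`, `rotS_fix_iff`, `OnS2_sg`), and so is `y` (`k` is the
identity on the plane and injective). For `x = sg u` off the orbit, `u` is off the orbit of `y`,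
so `k` is `InvertibleAt u`, and this holds for all `u'` near `u` (the orbit is a finite set: `f ^
n = 1`), so `Reg k u` and `ld_trans` applies. (`(f ^ k).fn u = f^[k] u`.)
-/

set_option autoImplicit false

open scoped ContDiff Topology Manifold
open Set Filter Metric

namespace Pool.Agent.Rot5

open Pool.Agent.HopfCov Pool.Agent.HopfFin Pool.Agent.HopfCov.Smooth Pool.Agent.Rot4

private theorem RepS_iter {g : Sph4 ≃ₜ Sph4} {f : E4 ≃ₜ E4} (hd : ∀ y, g (sg y) = sg (f y))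
    (k : ℕ) (y : E4) : g^[k] (sg y) = sg ((f ^ k : E4 ≃ₜ E4) y) := by
  rw [← iterate_eq]
  induction k with
  | zero => rfl
  | succ k ih => rw [Function.iterate_succ_apply', Function.iterate_succ_apply', ih, hd]

private theorem RepS_smooth {g : Sph4 ≃ₜ Sph4} {f : E4 ≃ₜ E4} (hd : ∀ y, g (sg y) = sg (f y))
    (hf : ∀ y, Reg f y) (hi : LocalDiffeoAt g infS) (x : Sph4) : LocalDiffeoAt g x := by
  by_cases hx : x = infS
  · rw [hx]
    exact hi
  · rw [← sg_sgi hx]
    exact (ld_trans hd).2 (hf _)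

private theorem RepS_inf_id {n : ℕ} {h : Sph4 ≃ₜ Sph4}
    (hh : NearS2 fun x => h x = (rotS n)^[0] x) : LocalDiffeoAt h infS := by
  refine ld_congr (ld_one infS) ?_
  filter_upwards [hh infS OnS2_inf] with y hy
  exact hy.symm

private theorem RepS_fix_id {n : ℕ} {h : Sph4 ≃ₜ Sph4}
    (hh : NearS2 fun x => h x = (rotS n)^[0] x) : h infS = infS :=
  hh.self OnS2_inf

private theorem RepS_fix_rot {n : ℕ} {g : Sph4 ≃ₜ Sph4}
    (hg : NearS2 fun x => g x = rotS n x) : g infS = infS := by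
  have h1 : g infS = rotS n infS := hg.self OnS2_inf
  rw [h1]
  exact rotA_fix OnS2_inf

private theorem RepS_conj {n : ℕ} {g h : Sph4 ≃ₜ Sph4} {f k : E4 ≃ₜ E4}
    (hd : ∀ y, g (sg y) = sg (f y)) (hd' : ∀ y, h (sg y) = sg (k y))
    (hg : g infS = infS) (hh : h infS = infS)
    (hc : ∀ x, k (f x) = rotate n (k x)) (x : Sph4) : h (g x) = rotS n (h x) := by
  by_cases hx : x = infS
  · rw [hx, hg, hh]
    exact (rotA_fix OnS2_inf).symm
  · rw [← sg_sgi hx, hd, hd', hc, sg_rotate, hd']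

theorem rep_of_pair {n : ℕ} (hn : 0 < n) {g : Sph4 ≃ₜ Sph4} {f G H : E4 ≃ₜ E4}
    (hf : Action n f) (hP : Pair n f G H) (hd : ∀ y, g (sg y) = sg (f y)) :
    ∃ G' : E4 ≃ₜ E4, Rep n g f G H G' := by
  obtain ⟨G', hG1, ⟨R, hR⟩, -⟩ := to_coord hP.nnG
  refine ⟨G', hf, hP, hd, hG1, fun z => ?_, ⟨R, fun z hz => ?_⟩, fun z => ?_⟩
  · have h1 : G' z = q1 (G (b1 z)) := by
      conv_lhs => rw [← q1_b1 z]
      exact hG1 _ (Om_b1 z)
    show sg (q2 n (G' z)) = g (sg (q2 n z))
    rw [h1, hP.corr.eq _ (Om_b1 z), q1_b1, hd]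
  · rw [hR z hz, Nat.cast_one]
  · have hk : ∀ k : ℕ, ∀ x, Om x → Om ((G ^ k : E4 ≃ₜ E4) x) ∧
        (G' ^ k : E4 ≃ₜ E4) (q1 x) = q1 ((G ^ k : E4 ≃ₜ E4) x) := by
      intro k
      induction k with
      | zero =>
        intro x hx
        rw [pow_zero, pow_zero]
        exact ⟨hx, rfl⟩
      | succ k ih =>
        intro x hx
        obtain ⟨h1, h2⟩ := ih x hx
        have e1 : (G ^ (k + 1) : E4 ≃ₜ E4) x = G ((G ^ k : E4 ≃ₜ E4) x) := by
          rw [pow_succ']
          rfl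
        have e2 : (G' ^ (k + 1) : E4 ≃ₜ E4) (q1 x) = G' ((G' ^ k : E4 ≃ₜ E4) (q1 x)) := by
          rw [pow_succ']
          rfl
        rw [e1, e2, h2]
        exact ⟨hP.corr.dom _ h1, hG1 _ h1⟩
    have h3 := (hk n (b1 z) (Om_b1 z)).2
    rw [q1_b1, hP.pow, tau_pow_apply, q1_smul (Om_b1 z), q1_b1] at h3
    exact h3

theorem rep_exists {n : ℕ} (hn : 0 < n) {g h : Sph4 ≃ₜ Sph4} (hg : NormAct n g h) :
    ∃ f G H G' : E4 ≃ₜ E4, Rep n g f G H G' := by
  have hg1 : NearS2 fun x => g x = (rotS n)^[1] x := hg.near.mono fun x hx => hx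
  have hh1 : NearS2 fun x => h x = (rotS n)^[0] x := hg.top.mono fun x hx => hx
  obtain ⟨f, hf1, hf2⟩ := desc hg1
  obtain ⟨k, hk1, hk2⟩ := desc hh1
  have hA : Action n f :=
    { smooth := fun x => ((ld_trans hf2).1 (hg.smooth (sg x))).self_of_nhds
      pow := fun x => by
        show (f ^ n : E4 ≃ₜ E4) x = x
        apply sg_injective
        rw [← RepS_iter hf2, hg.pow hn]
      near := hf1
      top := ⟨k, hk1, fun x => by
        show k (f x) = rotate n (k x)
        apply sg_injective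
        rw [← hk2, ← hf2, hg.conj, hk2, sg_rotate]⟩ }
  obtain ⟨G, H, hP⟩ := act_up hn hA
  obtain ⟨G', hR⟩ := rep_of_pair hn hA hP hf2
  exact ⟨f, G, H, G', hR⟩

theorem norm_of_act {n : ℕ} (hn : 0 < n) {f : Homeo4} (hf : Action n f) :
    ∃ g h : Sph4 ≃ₜ Sph4, NormAct n g h ∧ ∀ y, g (sg y) = sg (f.fn y) := by
  obtain ⟨k, hk1, hk2⟩ := hf.top
  obtain ⟨g, hg1, hg2⟩ := asc (n := n) (a := 1) (f := f.old) hf.near
  obtain ⟨h, hh1, hh2⟩ := asc (n := n) (a := 0) (f := k.old) hk1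
  have hg1' : NearS2 fun x => g x = rotS n x := hg1.mono fun x hx => hx
  refine ⟨g, h, ⟨fun x => ?_, hg1', hh1.mono fun x hx => hx, fun x => ?_⟩, hg2⟩
  · refine RepS_smooth hg2 (fun y => Eventually.of_forall fun z => hf.smooth z) ?_ x
    refine ld_congr (ld_rotA (2 * Real.pi / n) infS) ?_
    filter_upwards [hg1' infS OnS2_inf] with y hy
    exact hy.symm
  · exact RepS_conj hg2 hh2 (RepS_fix_rot hg1') (RepS_fix_id hh1) hk2 x

theorem linear_of {n : ℕ} (hn : 0 < n) {g : Sph4 ≃ₜ Sph4} {f : Homeo4}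
    (hg : NearS2 fun x => g x = rotS n x) (hd : ∀ y, g (sg y) = sg (f.fn y))
    (hL : LinearAction n f) : SphereLinear n g := by
  obtain ⟨k, hk1, hk2, hk3⟩ := hL
  obtain ⟨h, hh1, hh2⟩ := asc (n := n) (a := 0) (f := k.old) hk1
  refine ⟨h, isDiffeo_of_homeo fun x => ?_, fun x => ?_⟩
  · exact RepS_smooth hh2 (fun y => Eventually.of_forall fun z => hk3 z) (RepS_inf_id hh1) x
  · exact RepS_conj (f := f.old) hd hh2 (RepS_fix_rot hg) (RepS_fix_id hh1) hk2 x

theorem off_of' {n : ℕ} (hn : 2 ≤ n) {g : Sph4 ≃ₜ Sph4} {f : Homeo4} (hf : Action n f)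
    (hg : NearS2 fun x => g x = rotS n x) (hd : ∀ y, g (sg y) = sg (f.fn y))
    (hL : LinearOffOrbit n f) : SphereLinearOff n g := by
  obtain ⟨k, hk1, hk2, y, hy, hk3⟩ := hL
  obtain ⟨h, hh1, hh2⟩ := asc (n := n) (a := 0) (f := k.old) hk1
  have hpow : (f : Homeo4) ^ n = 1 := Homeomorph.ext fun x => hf.pow x
  refine ⟨h, sg y, fun x => ?_, fun hfix => ?_, fun x hx => ?_⟩
  · exact RepS_conj (f := f.old) hd hh2 (RepS_fix_rot hg) (RepS_fix_id hh1) hk2 x
  · rw [hd] at hfix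
    have h1 : f.fn y = y := sg_injective hfix
    have h2 : k.fn y = rotate n (k.fn y) := by
      rw [← hk2, h1]
    have h3 : rotS n (sg (k.fn y)) = sg (k.fn y) := by
      rw [← sg_rotate, ← h2]
    have h4 : OnPlane (k.fn y) := OnS2_sg.1 ((rotS_fix_iff hn).1 h3)
    obtain ⟨K, hK, hK1, hK2⟩ := hk1
    have h5 : k.fn y ∉ K := fun h6 => hK1 _ h6 h4
    have h6 : k.fn (k.fn y) = k.fn y := hK2 _ h5
    have h7 : k.fn y = y := k.old.injective h6
    rw [h7] at h4
    exact hy h4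
  · by_cases hxi : x = infS
    · rw [hxi]
      exact RepS_inf_id hh1
    · obtain ⟨u, rfl⟩ : ∃ u, x = sg u := ⟨sgi x, (sg_sgi hxi).symm⟩
      refine (ld_trans hh2).2 ?_
      set O : Set E4 := (fun j : ℕ => (f ^ j).fn y) '' (Set.Iio n) with hO
      have hfin : O.Finite := (Set.finite_Iio n).image _
      have hOm : ∀ j : ℕ, (f ^ j).fn y ∈ O := by
        intro j
        refine ⟨j % n, Nat.mod_lt j (by omega), ?_⟩
        simp only
        rw [← pow_eq_pow_mod j hpow]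
      have hu : u ∉ O := by
        rintro ⟨j, -, hj⟩
        apply hx j
        rw [RepS_iter (f := f.old) hd j y]
        exact congrArg sg hj.symm
      filter_upwards [hfin.isClosed.isOpen_compl.mem_nhds hu] with v hv
      exact hk3 v fun j hj => hv (hj ▸ hOm j)

end Pool.Agent.Rot5
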