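import Pool.Agent.Rot5.StereoLD
import Pool.Agent.Rot5.Near
import Pool.Agent.Rot4.ExpReg
import Pool.Agent.Rot4.ExpCompact

/-!
# The universal covering of the complement of the fixed 2-sphere

`sph n z = sg (q2 n z)`.

PROOFS. `sph_off`: `OnS2_sg`, `q2_off`. `sph_surj`: `x ≠ infS` (`OnS2_inf`), `x = sg (sgi x)`,
`q2_surj`. `sph_eq`: `sg_injective`, `q2_eq`. `sph_shf`: `q2 n (shf t z) = rotP (2 π / n * t) (q2 n
z)` by the addition formulas, `sg_rotP`. `ld_sph`: `LDA.comp'`, `ld_sg`, `ldAt_iff`, `reg_q2`.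
`sph_near`: the closure `K` of the complement of `{x | P x}` is compact and misses the 2-sphere, so
`sgi '' K` is a compact set (`continuousAt_sgi`) which misses the plane: `wsq_lt_of_compact`.
`near_sph`: `sph n '' {wsq ≤ R'}` is compact (`isCompact_image`), hence closed, and misses the
2-sphere; take `R' = R`: off it all `z` over `x` have `wsq z > R`.
-/

set_option autoImplicit false

open scoped ContDiff Topology Manifold
open Set Filter Metric

namespace Pool.Agent.Rot5

open Pool.Agent.HopfCov Pool.Agent.HopfFin Pool.Agent.HopfCov.Smooth Pool.Agent.Rot4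

private theorem compact_Sph4 : CompactSpace Sph4.carrier :=
  inferInstanceAs (CompactSpace (sphere (0 : EuclideanSpace ℝ (Fin 5)) 1))

private theorem t2_Sph4 : T2Space Sph4.carrier :=
  inferInstanceAs (T2Space (sphere (0 : EuclideanSpace ℝ (Fin 5)) 1))

theorem sph_off (n : ℕ) (z : E4) : ¬ OnS2 (sph n z) := fun h => q2_off n z (OnS2_sg.1 h)

theorem sph_surj {n : ℕ} (hn : 0 < n) {x : Sph4} (hx : ¬ OnS2 x) : ∃ z, sph n z = x := by
  have h1 : x ≠ infS := by
    rintro rfl
    exact hx OnS2_inf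
  have h2 : ¬ OnPlane (sgi x) := by
    intro h
    apply hx
    rw [← sg_sgi h1]
    exact OnS2_sg.2 h
  obtain ⟨z, hz⟩ := q2_surj hn h2
  exact ⟨z, by rw [sph, hz, sg_sgi h1]⟩

theorem sph_eq {n : ℕ} (hn : 0 < n) {z z' : E4} :
    sph n z = sph n z' ↔ ∃ k : ℤ, z' = shf (n * k) z := by
  rw [← q2_eq hn]
  exact sg_injective.eq_iff

private theorem q2_shf_real (n : ℕ) (t : ℝ) (z : E4) :
    q2 n (shf t z) = rotP (2 * Real.pi / n * t) (q2 n z) := by
  have e3 : (shf t z) 3 = z 3 + t := by simp [shf]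
  have e2 : (shf t z) 2 = z 2 := by simp [shf]
  have e1 : (shf t z) 1 = z 1 := by simp [shf]
  have e0 : (shf t z) 0 = z 0 := by simp [shf]
  have h4 : 2 * Real.pi / n * (z 3 + t) = 2 * Real.pi / n * z 3 + 2 * Real.pi / n * t := by ring
  ext i
  fin_cases i
  · show (shf t z) 0 = z 0
    exact e0
  · show (shf t z) 1 = z 1
    exact e1
  · show Real.exp ((shf t z) 2) * Real.cos (2 * Real.pi / n * (shf t z) 3) =
      Real.cos (2 * Real.pi / n * t) * (Real.exp (z 2) * Real.cos (2 * Real.pi / n * z 3)) -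
        Real.sin (2 * Real.pi / n * t) * (Real.exp (z 2) * Real.sin (2 * Real.pi / n * z 3))
    rw [e2, e3, h4, Real.cos_add]
    ring
  · show Real.exp ((shf t z) 2) * Real.sin (2 * Real.pi / n * (shf t z) 3) =
      Real.sin (2 * Real.pi / n * t) * (Real.exp (z 2) * Real.cos (2 * Real.pi / n * z 3)) +
        Real.cos (2 * Real.pi / n * t) * (Real.exp (z 2) * Real.sin (2 * Real.pi / n * z 3))
    rw [e2, e3, h4, Real.sin_add]
    ring

theorem sph_shf {n : ℕ} (hn : 0 < n) (t : ℝ) (z : E4) :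
    sph n (shf t z) = rotA (2 * Real.pi / n * t) (sph n z) := by
  rw [sph, q2_shf_real, sg_rotP]
  rfl

theorem continuous_sph (n : ℕ) : Continuous (sph n) := continuous_sg.comp (continuous_q2 n)

theorem ld_sph {n : ℕ} (hn : 0 < n) (z : E4) : LDA (Y := Sph4.carrier) (sph n) z := by
  have h1 : LDA (q2 n) z := ldAt_iff.2 (reg_q2 hn z)
  exact LDA.comp' (Z := Sph4.carrier) (f := q2 n) (g := sg) (ld_sg _) h1

theorem sph_near {n : ℕ} (hn : 0 < n) {P : Sph4 → Prop} (h : NearS2 P) :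
    ∃ R : ℝ, 0 < R ∧ ∀ z, R ≤ wsq z → P (sph n z) := by
  have := compact_Sph4
  obtain ⟨K, hKc, hK1, hK2⟩ : ∃ K : Set Sph4, IsCompact K ∧ (∀ x ∈ K, ¬ OnS2 x) ∧
      ∀ x, x ∉ K → P x := by
    refine ⟨(interior {x | P x})ᶜ, isOpen_interior.isClosed_compl.isCompact, ?_, ?_⟩
    · intro x hx hx'
      exact hx (mem_interior_iff_mem_nhds.2 (h x hx'))
    · intro x hx
      rw [mem_compl_iff, not_not] at hx
      exact interior_subset hx
  have hne : ∀ x ∈ K, x ≠ infS := by
    rintro x hx rfl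
    exact hK1 _ hx OnS2_inf
  have hc : ContinuousOn sgi K := fun x hx => (continuousAt_sgi (hne x hx)).continuousWithinAt
  obtain ⟨R, hR, hR'⟩ := wsq_lt_of_compact n (hKc.image_of_continuousOn hc) (by
    rintro _ ⟨x, hx, rfl⟩ hp
    apply hK1 x hx
    rw [← sg_sgi (hne x hx)]
    exact OnS2_sg.2 hp)
  refine ⟨R, hR, fun z hz => hK2 _ fun hzK => ?_⟩
  refine not_lt.2 hz (hR' z ⟨sph n z, hzK, ?_⟩)
  exact sgi_sg _

theorem near_sph {n : ℕ} (hn : 0 < n) (R : ℝ) :
    NearS2 fun x => ∀ z, sph n z = x → R ≤ wsq z := by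
  have := t2_Sph4
  have h1 : IsCompact (sph n '' {z | wsq z ≤ R}) := by
    have h2 : sph n '' {z | wsq z ≤ R} = sg '' (q2 n '' {z | wsq z ≤ R}) := by
      rw [image_image]
      rfl
    rw [h2]
    exact (isCompact_image hn R).image continuous_sg
  intro x hx
  have h2 : x ∉ sph n '' {z | wsq z ≤ R} := by
    rintro ⟨z, -, rfl⟩
    exact sph_off n z hx
  filter_upwards [h1.isClosed.isOpen_compl.mem_nhds h2] with y hy z hz
  by_contra hlt
  exact hy ⟨z, (not_le.1 hlt).le, hz⟩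

end Pool.Agent.Rot5
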