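import Pool.Agent.HopfRem.Statement4

/-!
# Cyclic actions on the 4-sphere which fix an unknotted 2-sphere
-/

set_option autoImplicit false

open scoped ContDiff Topology Manifold
open Set Filter Metric

namespace Pool.Agent.HopfCov.Smooth

/-- the standard smooth structure of the unit sphere of `ℝ⁵` -/
noncomputable def chartS4 : ChartedSpace E4 (sphere (0 : EuclideanSpace ℝ (Fin 5)) 1) :=
  inferInstance

theorem smoothS4 : @IsManifold ℝ _ E4 _ _ E4 _ (𝓡 4) ∞
    (sphere (0 : EuclideanSpace ℝ (Fin 5)) 1) _ chartS4 :=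
  inferInstanceAs (IsManifold (𝓡 4) ∞ (sphere (0 : EuclideanSpace ℝ (Fin 5)) 1))

/-- the 4-sphere, the unit sphere of `ℝ⁵` -/
noncomputable def Sph4 : Mfd4 :=
  ⟨sphere (0 : EuclideanSpace ℝ (Fin 5)) 1, inferInstance, chartS4, smoothS4⟩

/-- the inclusion of the 4-sphere into `ℝ⁵` -/
def vec (x : Sph4) : EuclideanSpace ℝ (Fin 5) := Subtype.val x

/-- the rotation of `ℝ⁵` by the angle `t` in the last two coordinates -/
noncomputable def rotE (t : ℝ) (x : EuclideanSpace ℝ (Fin 5)) : EuclideanSpace ℝ (Fin 5) :=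
  WithLp.toLp 2 ![x 0, x 1, x 2, Real.cos t * x 3 - Real.sin t * x 4,
    Real.sin t * x 3 + Real.cos t * x 4]

theorem norm_rotE (t : ℝ) (x : EuclideanSpace ℝ (Fin 5)) : ‖rotE t x‖ = ‖x‖ := by
  have h := Real.sin_sq_add_cos_sq t
  rw [EuclideanSpace.norm_eq, EuclideanSpace.norm_eq]
  congr 1
  simp only [Fin.sum_univ_five, Real.norm_eq_abs, sq_abs]
  simp [rotE]
  linear_combination (x 3 ^ 2 + x 4 ^ 2) * h

/-- the rotation of the 4-sphere by the angle `t` in the last two coordinates -/
noncomputable def rotA (t : ℝ) (x : Sph4) : Sph4 :=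
  ⟨rotE t (vec x), by
    rw [mem_sphere_zero_iff_norm, norm_rotE]
    exact mem_sphere_zero_iff_norm.1 x.2⟩

/-- the rotation of the 4-sphere by the angle `2 π / n` in the last two coordinates -/
noncomputable def rotS (n : ℕ) (x : Sph4) : Sph4 := rotA (2 * Real.pi / n) x

/-- the point lies on the 2-sphere of the fixed points of the rotations -/
def OnS2 (x : Sph4) : Prop := vec x 3 = 0 ∧ vec x 4 = 0

/-- `g` generates a smooth action of `ℤ / n` on the 4-sphere, which is conjugate to the action by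
rotations by a homeomorphism that agrees with a diffeomorphism near the fixed points -/
structure SphereAction (n : ℕ) (g : Sph4 → Sph4) : Prop where
  diffeo : IsDiffeo g
  pow : ∀ x, g^[n] x = x
  top : ∃ (h : Sph4 ≃ₜ Sph4) (φ : Sph4 → Sph4), IsDiffeo φ ∧
    (∀ x, h (g x) = rotS n (h x)) ∧ ∀ x, OnS2 (h x) → ∀ᶠ y in 𝓝 x, h y = φ y

/-- the action generated by `g` is smoothly equivalent to the action by rotations -/
def SphereLinear (n : ℕ) (g : Sph4 → Sph4) : Prop :=
  ∃ φ : Sph4 → Sph4, IsDiffeo φ ∧ ∀ x, φ (g x) = rotS n (φ x)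

/-- the action generated by `g` is conjugate to the action by rotations by a homeomorphism which is
a local diffeomorphism off one orbit, which is not a fixed point -/
def SphereLinearOff (n : ℕ) (g : Sph4 → Sph4) : Prop :=
  ∃ (h : Sph4 ≃ₜ Sph4) (y : Sph4), (∀ x, h (g x) = rotS n (h x)) ∧ g y ≠ y ∧
    ∀ x, (∀ k : ℕ, x ≠ g^[k] y) → LocalDiffeoAt h x

/-- the actions generated by `g` and `g'` are smoothly equivalent -/
def SphereEquivalent (g g' : Sph4 → Sph4) : Prop :=
  ∃ φ : Sph4 → Sph4, IsDiffeo φ ∧ ∀ x, φ (g x) = g' (φ x)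

end Pool.Agent.HopfCov.Smooth
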