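import Pool.Agent.Rot5.Basic

/-!
# The stereographic projection

PROOFS. With `N = ‖y‖ ^ 2`: `1 - (sgv y) 0 = 2 / (N + 1)`, so `sgi (sg y) = y`. Conversely, if `x`
is not the pole then `x 0 < 1` (`x 0 ^ 2 ≤ 1`, and `x 0 = 1` implies that the other coordinates
vanish), and `‖sgi x‖ ^ 2 = (1 - x 0 ^ 2) / (1 - x 0) ^ 2 = (1 + x 0) / (1 - x 0)`.
-/

set_option autoImplicit false

open scoped ContDiff Topology Manifold
open Set Filter Metric

namespace Pool.Agent.Rot5

open Pool.Agent.HopfCov Pool.Agent.HopfFin Pool.Agent.HopfCov.Smooth Pool.Agent.Rot4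

/-- the rotation of `ℝ⁴` around the plane by the angle `t` -/
noncomputable def rotP (t : ℝ) (y : E4) : E4 :=
  WithLp.toLp 2 ![y 0, y 1, Real.cos t * y 2 - Real.sin t * y 3,
    Real.sin t * y 2 + Real.cos t * y 3]

theorem rotate_eq (n : ℕ) (y : E4) : rotate n y = rotP (2 * Real.pi / n) y := rfl

theorem vec_sg (y : E4) : vec (sg y) = sgv y := rfl

private theorem nsq (y : E4) : ‖y‖ ^ 2 = y 0 ^ 2 + y 1 ^ 2 + y 2 ^ 2 + y 3 ^ 2 := by
  rw [EuclideanSpace.norm_sq_eq, Fin.sum_univ_four]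
  simp only [Real.norm_eq_abs, sq_abs]

private theorem nsq5 (x : E5) :
    ‖x‖ ^ 2 = x 0 ^ 2 + x 1 ^ 2 + x 2 ^ 2 + x 3 ^ 2 + x 4 ^ 2 := by
  rw [EuclideanSpace.norm_sq_eq, Fin.sum_univ_five]
  simp only [Real.norm_eq_abs, sq_abs]

private theorem sumsq (x : Sph4) :
    vec x 0 ^ 2 + vec x 1 ^ 2 + vec x 2 ^ 2 + vec x 3 ^ 2 + vec x 4 ^ 2 = 1 := by
  rw [← nsq5, norm_vec, one_pow]

private theorem npos (y : E4) : 0 < ‖y‖ ^ 2 + 1 := by positivity

private theorem sgv0 (y : E4) : sgv y 0 = (‖y‖ ^ 2 + 1)⁻¹ * (‖y‖ ^ 2 - 1) := rfl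

private theorem sgv1 (y : E4) : sgv y 1 = (‖y‖ ^ 2 + 1)⁻¹ * (2 * y 0) := rfl

private theorem sgv2 (y : E4) : sgv y 2 = (‖y‖ ^ 2 + 1)⁻¹ * (2 * y 1) := rfl

private theorem sgv3 (y : E4) : sgv y 3 = (‖y‖ ^ 2 + 1)⁻¹ * (2 * y 2) := rfl

private theorem sgv4 (y : E4) : sgv y 4 = (‖y‖ ^ 2 + 1)⁻¹ * (2 * y 3) := rfl

private theorem sgi0 (x : Sph4) : sgi x 0 = (1 - vec x 0)⁻¹ * vec x 1 := rfl

private theorem sgi1 (x : Sph4) : sgi x 1 = (1 - vec x 0)⁻¹ * vec x 2 := rfl

private theorem sgi2 (x : Sph4) : sgi x 2 = (1 - vec x 0)⁻¹ * vec x 3 := rfl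

private theorem sgi3 (x : Sph4) : sgi x 3 = (1 - vec x 0)⁻¹ * vec x 4 := rfl

private theorem ext4 {x y : E4} (h0 : x 0 = y 0) (h1 : x 1 = y 1) (h2 : x 2 = y 2)
    (h3 : x 3 = y 3) : x = y := by
  ext i
  fin_cases i
  · exact h0
  · exact h1
  · exact h2
  · exact h3

private theorem ext5 {x y : E5} (h0 : x 0 = y 0) (h1 : x 1 = y 1) (h2 : x 2 = y 2)
    (h3 : x 3 = y 3) (h4 : x 4 = y 4) : x = y := by
  ext i
  fin_cases i
  · exact h0
  · exact h1
  · exact h2
  · exact h3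
  · exact h4

theorem one_sub_sg (y : E4) : 1 - (vec (sg y)) 0 = 2 / (‖y‖ ^ 2 + 1) := by
  have h := (npos y).ne'
  rw [vec_sg, sgv0]
  field_simp
  ring

private theorem infS0 : vec infS 0 = 1 := by
  show (EuclideanSpace.single (0 : Fin 5) (1 : ℝ) : E5) 0 = 1
  simp

theorem sg_ne (y : E4) : sg y ≠ infS := by
  intro h
  have h1 := one_sub_sg y
  rw [h, infS0, sub_self] at h1
  have h2 : 0 < 2 / (‖y‖ ^ 2 + 1) := div_pos two_pos (npos y)
  linarith

theorem lt_one_of_ne {x : Sph4} (hx : x ≠ infS) : vec x 0 < 1 := by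
  have h := sumsq x
  by_contra hc
  push Not at hc
  have h0 : vec x 0 = 1 := by
    nlinarith [sq_nonneg (vec x 1), sq_nonneg (vec x 2), sq_nonneg (vec x 3),
      sq_nonneg (vec x 4)]
  rw [h0] at h
  have h1 : vec x 1 = 0 := by
    nlinarith [sq_nonneg (vec x 1), sq_nonneg (vec x 2), sq_nonneg (vec x 3),
      sq_nonneg (vec x 4)]
  have h2 : vec x 2 = 0 := by
    nlinarith [sq_nonneg (vec x 1), sq_nonneg (vec x 2), sq_nonneg (vec x 3),
      sq_nonneg (vec x 4)]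
  have h3 : vec x 3 = 0 := by
    nlinarith [sq_nonneg (vec x 1), sq_nonneg (vec x 2), sq_nonneg (vec x 3),
      sq_nonneg (vec x 4)]
  have h4 : vec x 4 = 0 := by
    nlinarith [sq_nonneg (vec x 1), sq_nonneg (vec x 2), sq_nonneg (vec x 3),
      sq_nonneg (vec x 4)]
  refine hx (vec_inj (ext5 (h0.trans infS0.symm) (h1.trans ?_) (h2.trans ?_) (h3.trans ?_)
    (h4.trans ?_)))
  · show 0 = (EuclideanSpace.single (0 : Fin 5) (1 : ℝ) : E5) 1
    simp
  · show 0 = (EuclideanSpace.single (0 : Fin 5) (1 : ℝ) : E5) 2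
    simp
  · show 0 = (EuclideanSpace.single (0 : Fin 5) (1 : ℝ) : E5) 3
    simp
  · show 0 = (EuclideanSpace.single (0 : Fin 5) (1 : ℝ) : E5) 4
    simp

theorem sgi_sg (y : E4) : sgi (sg y) = y := by
  have h := (npos y).ne'
  refine ext4 ?_ ?_ ?_ ?_
  · rw [sgi0, one_sub_sg, vec_sg, sgv1]
    field_simp
  · rw [sgi1, one_sub_sg, vec_sg, sgv2]
    field_simp
  · rw [sgi2, one_sub_sg, vec_sg, sgv3]
    field_simp
  · rw [sgi3, one_sub_sg, vec_sg, sgv4]
    field_simp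

private theorem nsq_sgi {x : Sph4} (hx : x ≠ infS) :
    ‖sgi x‖ ^ 2 + 1 = 2 / (1 - vec x 0) := by
  have h := sumsq x
  have h1 : (1 : ℝ) - vec x 0 ≠ 0 := by
    have := lt_one_of_ne hx
    intro hc
    linarith
  rw [nsq, sgi0, sgi1, sgi2, sgi3]
  field_simp
  linear_combination h

theorem sg_sgi {x : Sph4} (hx : x ≠ infS) : sg (sgi x) = x := by
  have h1 : (1 : ℝ) - vec x 0 ≠ 0 := by
    have := lt_one_of_ne hx
    intro hc
    linarith
  have h2 := nsq_sgi hx
  have h3 : ‖sgi x‖ ^ 2 - 1 = 2 / (1 - vec x 0) - 2 := by linarith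
  refine vec_inj ?_
  rw [vec_sg]
  refine ext5 ?_ ?_ ?_ ?_ ?_
  · rw [sgv0, h2, h3]
    field_simp
    ring
  · rw [sgv1, h2, sgi0]
    field_simp
  · rw [sgv2, h2, sgi1]
    field_simp
  · rw [sgv3, h2, sgi2]
    field_simp
  · rw [sgv4, h2, sgi3]
    field_simp

theorem continuous_sg : Continuous sg := by
  have hc : ∀ i : Fin 4, Continuous fun y : E4 => y i := fun i => by fun_prop
  refine Continuous.subtype_mk (f := sgv) ?_ fun y => mem_sphere_zero_iff_norm.2 (norm_sgv y)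
  refine Continuous.smul (Continuous.inv₀ (by fun_prop) fun y => (npos y).ne') ?_
  refine (PiLp.continuous_toLp 2 _).comp (continuous_pi fun i => ?_)
  fin_cases i
  · show Continuous fun y : E4 => ‖y‖ ^ 2 - 1
    fun_prop
  · exact continuous_const.mul (hc 0)
  · exact continuous_const.mul (hc 1)
  · exact continuous_const.mul (hc 2)
  · exact continuous_const.mul (hc 3)

theorem continuousAt_sgi {x : Sph4} (hx : x ≠ infS) : ContinuousAt sgi x := by
  have h1 : (1 : ℝ) - vec x 0 ≠ 0 := by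
    have := lt_one_of_ne hx
    intro hc
    linarith
  have hc' : ∀ i : Fin 5, Continuous (fun y : E5 => (y i : ℝ)) := fun i => by fun_prop
  have hc : ∀ i : Fin 5, Continuous ((fun y : E5 => (y i : ℝ)) ∘ vec) := fun i =>
    (hc' i).comp continuous_vec
  have hA : ContinuousAt (fun y : Sph4 => (1 - vec y 0)⁻¹) x :=
    ContinuousAt.inv₀ (continuous_const.sub (hc 0)).continuousAt h1
  have hB : Continuous (fun y : Sph4 =>
      (WithLp.toLp 2 ![vec y 1, vec y 2, vec y 3, vec y 4] : E4)) := by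
    refine (PiLp.continuous_toLp 2 _).comp (continuous_pi fun i => ?_)
    fin_cases i
    · exact hc 1
    · exact hc 2
    · exact hc 3
    · exact hc 4
  exact hA.smul hB.continuousAt

theorem sg_rotP (t : ℝ) (y : E4) : sg (rotP t y) = rotA t (sg y) := by
  have hs := Real.sin_sq_add_cos_sq t
  have h0 : rotP t y 0 = y 0 := rfl
  have h1 : rotP t y 1 = y 1 := rfl
  have h2 : rotP t y 2 = Real.cos t * y 2 - Real.sin t * y 3 := rfl
  have h3 : rotP t y 3 = Real.sin t * y 2 + Real.cos t * y 3 := rfl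
  have hn : ‖rotP t y‖ ^ 2 = ‖y‖ ^ 2 := by
    rw [nsq, nsq, h0, h1, h2, h3]
    linear_combination (y 2 ^ 2 + y 3 ^ 2) * hs
  refine vec_inj ?_
  rw [vec_sg]
  refine ext5 ?_ ?_ ?_ ?_ ?_
  · rw [sgv0, hn]
    rfl
  · rw [sgv1, hn, h0]
    rfl
  · rw [sgv2, hn, h1]
    rfl
  · rw [sgv3, hn, h2]
    show _ = Real.cos t * (sgv y 3) - Real.sin t * (sgv y 4)
    rw [sgv3, sgv4]
    ring
  · rw [sgv4, hn, h3]
    show _ = Real.sin t * (sgv y 3) + Real.cos t * (sgv y 4)
    rw [sgv3, sgv4]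
    ring

theorem sg_rotate (n : ℕ) (y : E4) : sg (rotate n y) = rotS n (sg y) := sg_rotP _ y

theorem sg_rotate_iterate (n a : ℕ) (y : E4) : sg ((rotate n)^[a] y) = (rotS n)^[a] (sg y) := by
  induction a with
  | zero => rfl
  | succ a ih => rw [Function.iterate_succ_apply', Function.iterate_succ_apply', sg_rotate, ih]

theorem OnS2_sg {y : E4} : OnS2 (sg y) ↔ OnPlane y := by
  have h := inv_ne_zero (npos y).ne'
  unfold OnS2 OnPlane
  rw [vec_sg, sgv3, sgv4]
  simp only [mul_eq_zero, h, two_ne_zero, false_or]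

theorem OnS2_inf : OnS2 infS := by
  constructor
  · show (EuclideanSpace.single (0 : Fin 5) (1 : ℝ) : E5) 3 = 0
    simp
  · show (EuclideanSpace.single (0 : Fin 5) (1 : ℝ) : E5) 4 = 0
    simp

theorem sg_injective : Function.Injective sg := fun x y h => by
  rw [← sgi_sg x, h, sgi_sg]

/-- the projection as an open partial homeomorphism is not needed: `sg` is an open map because `sgi`
is a continuous left inverse defined on the open complement of the pole -/
theorem isOpenEmbedding_sg : Topology.IsOpenEmbedding sg := by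
  refine Topology.IsOpenEmbedding.of_continuous_injective_isOpenMap continuous_sg sg_injective
    fun U hU => ?_
  have h1 : sg '' U = {x : Sph4 | x ≠ infS ∧ sgi x ∈ U} := by
    ext x
    constructor
    · rintro ⟨y, hy, rfl⟩
      refine ⟨sg_ne y, ?_⟩
      rw [sgi_sg]
      exact hy
    · rintro ⟨hx, hu⟩
      exact ⟨sgi x, hu, sg_sgi hx⟩
  rw [h1, isOpen_iff_mem_nhds]
  rintro x ⟨hx, hu⟩
  have : T1Space Sph4.carrier := inferInstanceAs (T1Space (sphere (0 : E5) 1))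
  refine Filter.inter_mem (isOpen_ne.mem_nhds hx) ?_
  exact (continuousAt_sgi hx).preimage_mem_nhds (hU.mem_nhds hu)

end Pool.Agent.Rot5
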