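import Pool.Agent.Rot5.Stereo
import Pool.Agent.Rot5.BasicLD

/-!
# The inverse stereographic projection is a local diffeomorphism

PROOF. `sg` is smooth: `ContMDiff.codRestrict_sphere` for the smooth map `sgv`. Its inverse `sgi` is
smooth at all points `x ≠ infS`: it is the composition of the inclusion (`contMDiff_coe_sphere`) with
a map of `ℝ⁵` which is smooth where `x 0 ≠ 1`. A map with a smooth local inverse is a local
diffeomorphism: construct the `PartialDiffeomorph` with source `univ`, target `{infS}ᶜ` from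
`isOpenEmbedding_sg`.

`ld_trans`: `LDA.of_comp`, `LDA.of_comp_right`, `LDA.comp'` of `HopfRem/ParRG.lean` and `ldAt_iff`
(`Reg f y` is `∀ᶠ z in 𝓝 y, RG f z`).
-/

set_option autoImplicit false

open scoped ContDiff Topology Manifold
open Set Filter Metric

namespace Pool.Agent.Rot5

open Pool.Agent.HopfCov Pool.Agent.HopfFin Pool.Agent.HopfCov.Smooth Pool.Agent.Rot4

private theorem contDiff_coord {n : ℕ} (i : Fin n) :
    ContDiff ℝ ∞ fun y : EuclideanSpace ℝ (Fin n) => y i :=
  (EuclideanSpace.proj i : EuclideanSpace ℝ (Fin n) →L[ℝ] ℝ).contDiff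

private theorem contDiff_sgv : ContDiff ℝ ∞ sgv := by
  have h0 : ContDiff ℝ ∞ fun y : E4 => ‖y‖ ^ 2 := contDiff_norm_sq ℝ
  have h1 : ContDiff ℝ ∞ fun y : E4 => (‖y‖ ^ 2 + 1)⁻¹ :=
    (h0.add contDiff_const).inv fun y => by positivity
  refine h1.smul ?_
  rw [contDiff_euclidean]
  intro i
  fin_cases i
  · exact h0.sub contDiff_const
  · exact contDiff_const.mul (contDiff_coord 0)
  · exact contDiff_const.mul (contDiff_coord 1)
  · exact contDiff_const.mul (contDiff_coord 2)
  · exact contDiff_const.mul (contDiff_coord 3)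

/-- the stereographic projection as a map of `ℝ⁵` -/
private noncomputable def prjE (x : E5) : E4 :=
  (1 - x 0)⁻¹ • WithLp.toLp 2 ![x 1, x 2, x 3, x 4]

private theorem contDiffAt_prjE {x : E5} (hx : x 0 ≠ 1) : ContDiffAt ℝ ∞ prjE x := by
  have h1 : ContDiffAt ℝ ∞ (fun x : E5 => (1 - x 0)⁻¹) x :=
    (contDiffAt_const.sub (contDiff_coord 0).contDiffAt).inv (sub_ne_zero.2 hx.symm)
  refine h1.smul ?_
  rw [contDiffAt_euclidean]
  intro i
  fin_cases i
  · exact (contDiff_coord 1).contDiffAt
  · exact (contDiff_coord 2).contDiffAt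
  · exact (contDiff_coord 3).contDiffAt
  · exact (contDiff_coord 4).contDiffAt

private instance factE5 : Fact (Module.finrank ℝ E5 = 4 + 1) := ⟨by simp⟩

private theorem contMDiff_sg : ContMDiff (𝓡 4) (𝓡 4) ∞ (sg : E4 → Sph4.carrier) := by
  have h : ContMDiff (𝓡 4) 𝓘(ℝ, E5) ∞ sgv := contDiff_sgv.contMDiff
  exact h.codRestrict_sphere (n := 4) fun y => mem_sphere_zero_iff_norm.2 (norm_sgv y)

private theorem contMDiff_vec : ContMDiff (𝓡 4) 𝓘(ℝ, E5) ∞ (vec : Sph4.carrier → E5) :=
  contMDiff_coe_sphere (E := E5) (n := 4)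

private theorem contMDiffOn_sgi :
    ContMDiffOn (𝓡 4) (𝓡 4) ∞ (sgi : Sph4.carrier → E4) {infS}ᶜ := by
  intro x hx
  have h1 : ContMDiffAt 𝓘(ℝ, E5) (𝓡 4) ∞ prjE (vec x) :=
    (contDiffAt_prjE (lt_one_of_ne hx).ne).contMDiffAt
  have h2 : ContMDiffAt (𝓡 4) (𝓡 4) ∞ (fun x : Sph4.carrier => prjE (vec x)) x :=
    h1.comp x contMDiff_vec.contMDiffAt
  exact h2.contMDiffWithinAt

theorem ld_sg (y : E4) : LDA (Y := Sph4.carrier) sg y := by
  have hT : T1Space Sph4.carrier := inferInstanceAs (T1Space (sphere (0 : E5) 1))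
  refine ⟨{ toFun := sg
            invFun := sgi
            source := univ
            target := {infS}ᶜ
            map_source' := fun x _ => sg_ne x
            map_target' := fun x _ => mem_univ _
            left_inv' := fun x _ => sgi_sg x
            right_inv' := fun x hx => sg_sgi hx
            open_source := isOpen_univ
            open_target := isOpen_compl_singleton
            contMDiffOn_toFun := contMDiff_sg.contMDiffOn
            contMDiffOn_invFun := contMDiffOn_sgi }, mem_univ _, fun x _ => rfl⟩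

/-- smoothness of maps which correspond to each other under the projection -/
theorem ld_trans {f : E4 ≃ₜ E4} {g : Sph4 ≃ₜ Sph4} {y : E4} (h : ∀ y, g (sg y) = sg (f y)) :
    LocalDiffeoAt g (sg y) ↔ Reg f y := by
  have hM : IsManifold (𝓡 4) ∞ Sph4.carrier := smoothS4
  have h1 : Reg f y ↔ LDA (f : E4 → E4) y := ldAt_iff.symm
  rw [h1]
  constructor
  · intro hg
    have h2 : LDA (X := E4) (Y := Sph4.carrier) (fun z => g (sg z)) y :=
      LDA.comp' (X := E4) (Y := Sph4.carrier) (Z := Sph4.carrier) (g := g) hg (ld_sg y)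
    have h3 : LDA (X := E4) (Y := Sph4.carrier) (fun z => sg (f z)) y := by
      have : (fun z => g (sg z)) = fun z => sg (f z) := funext h
      rwa [this] at h2
    exact LDA.of_comp (Y := E4) (Z := Sph4.carrier) (g := sg) f.continuous.continuousAt
      (ld_sg (f y)) h3
  · intro hf
    have h2 : LDA (X := E4) (Y := Sph4.carrier) (fun z => sg (f z)) y :=
      LDA.comp' (X := E4) (Y := E4) (Z := Sph4.carrier) (g := sg) (ld_sg (f y)) hf
    have h3 : LDA (X := E4) (Y := Sph4.carrier) (fun z => g (sg z)) y := by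
      have : (fun z => sg (f z)) = fun z => g (sg z) := funext fun z => (h z).symm
      rwa [this] at h2
    exact LDA.of_comp_right (X := E4) (Y := Sph4.carrier) (Z := Sph4.carrier) (g := g)
      (ld_sg y) h3

end Pool.Agent.Rot5
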