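import Pool.Agent.Rot5.ConeLD
import Pool.Agent.Rot5.Core
import Pool.Agent.Rot5.Clopen
import Pool.Agent.Rot5.LiftRot

/-!
# Straightening a homeomorphism near the 2-sphere: the orientation preserving case

PROOF. By `nearS2_iff` there are `a₀ > 0` with `g1 x = rotS n x` for `pv2 (vec x) ≤ a₀ px2 (vec
x)` and `a' > 0` with `g2 x = rotS n x` for `pv2 (vec x) ≤ a' px2 (vec x)`. `F = cone f` satisfies
`Hom5` (`cone_smul`, `cone_plane`, `cone_ne`, `reg_cone`, `hld`, `hpos`, at the points of norm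
one; the other points by homogeneity: `fderiv_hom`, `rg_hom` and scaling for `Reg5`). Let `F1, a,
b, b'` be as in `core` for `a'`, `a₀` and `f1 x = unit (F1 (vec x))`. (1) `f1 x = f x` if `b px2 <
pv2` at `vec x` or if `OnS2 x` (`cone_vec`, `unit_vec`). (2) `LocalDiffeoAt f1 x` if `pv2 (vec x)
< a px2 (vec x)`: `ld_of_reg`; `Reg5 F1 (vec x)` because `RG F1 y` for all `y` in the open set `{y
≠ 0, pv2 y < a px2 y}`; `F1 (vec x) ≠ 0` because `0 ≤ pv2 < a' px2` at `F1 (vec x)`. (3) every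
point is of type (2) or `f1 = f` near it (`b < a`; the condition `b px2 < pv2` is open). So `f1`
is continuous, open (`IsOpenMap` iff `𝓝 (f x) ≤ map f (𝓝 x)`; local diffeomorphisms:
`IsLocalDiffeomorphAt` gives a partial homeomorphism) and locally injective. (4) let `y₀` be the
point with `vec y₀ = e₄` (`single 4 1`): `px2 = 0`, `pv2 = 1`. If `f1 x = y₀` then `pv2 ≤ a px2`
at `vec x` is impossible: `pv2 < a' px2` at `F1 (vec x)`, hence at `vec (f1 x)` (`tube_unit`). So
`f1 x = f x` by (1), and `x = f⁻¹ y₀`. By `bij_of_local` (`S⁴` is connected: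
`isPreconnected_sphere`; compact) `f1` is bijective, and a homeomorphism
(`Continuous.homeoOfEquivCompactToT2`). (5) `OnS2 (f1 x) ↔ OnS2 x`: `←` by (1), `hS`. `→`: `x' =
f⁻¹ (f1 x)` is on the 2-sphere (`hS`), so `f1 x' = f x' = f1 x` and `x = x'`. (6) `f1 (g1 x) = g2
(f1 x)`: if `pv2 ≤ a px2` at `vec x` (`a ≤ a₀`): `g1 x = rotS n x`, and `F (rotE θ (vec x)) = vec
(f (g1 x)) = vec (g2 (f x)) = rotE θ (F (vec x))` because `pv2 < a' px2` at `F (vec x) = vec (f
x)`; so by `core` `F1 (rotE θ (vec x)) = rotE θ (F1 (vec x))` and `f1 (g1 x) = rotS n (f1 x) = g2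
(f1 x)` because `pv2 < a' px2` at `F1 (vec x)` (`unit_rotE`, `tube_unit`). Otherwise `a px2 < pv2`
at `vec x`, and also at `vec (g1 x)`: if `pv2 ≤ a px2` at `vec (g1 x)` then `y = rotA (-θ) (g1 x)`
satisfies `g1 y = rotS n y = g1 x`, so `y = x`, a contradiction (`pv2_rotE`, `px2_rotE`). So `f1
(g1 x) = f (g1 x) = g2 (f x) = g2 (f1 x)`. (7) `CommNear f1`: `nearS2_iff` and the property with
`b'` of `core`. (8) `LocalDiffeoAt f x → LocalDiffeoAt f1 x`: (2) and (3) (`ld_congr`).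
-/

set_option autoImplicit false

open scoped ContDiff Topology Manifold
open Set Filter Metric

namespace Pool.Agent.Rot5

open Pool.Agent.HopfCov Pool.Agent.HopfFin Pool.Agent.HopfCov.Smooth Pool.Agent.Rot4

private theorem StrPos_reg {F : E5 → E5} (hF : ∀ c : ℝ, 0 < c → ∀ x, F (c • x) = c • F x)
    {c : ℝ} (hc : 0 < c) {x : E5} (h : Reg5 F x) : Reg5 F (c • x) := by
  have h1 : ContinuousAt (fun y : E5 => c⁻¹ • y) (c • x) :=
    (continuous_const_smul _).continuousAt
  have h2 : ∀ᶠ y in 𝓝 (c • x), RG F (c⁻¹ • y) := by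
    refine h1.eventually ?_
    show ∀ᶠ y in 𝓝 (c⁻¹ • c • x), RG F y
    rw [inv_smul_smul₀ hc.ne']
    exact h
  filter_upwards [h2] with y hy
  have h3 := rg_hom hF hc hy
  rwa [smul_inv_smul₀ hc.ne'] at h3

private theorem StrPos_hom {f : Sph4 ≃ₜ Sph4} (hS : ∀ x, OnS2 (f x) ↔ OnS2 x)
    (hld : ∀ x, OnS2 x → LocalDiffeoAt f x)
    (hpos : ∀ x, OnS2 x → 0 < detA (fderiv ℝ (cone f) (vec x))) : Hom5 (cone f) where
  smul c hc x := cone_smul f hc x
  plane x hx := (cone_plane hS).2 hx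
  ne x hx := cone_ne hx
  reg x hx h := by
    have h1 : OnS2 (unit x) := (OnS2_unit hx).2 h
    have h2 := reg_cone (hld _ h1)
    have h3 := StrPos_reg (fun c hc y => cone_smul f hc y) (norm_pos_iff.2 hx) h2
    rwa [smul_vec_unit] at h3
  pos x hx h := by
    have h1 : OnS2 (unit x) := (OnS2_unit hx).2 h
    have h2 := hpos _ h1
    have h3 := fderiv_hom (F := cone f) (fun c hc y => cone_smul f hc y)
      (norm_pos_iff.2 hx) (vec (unit x))
    rw [smul_vec_unit] at h3
    rwa [h3]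

private theorem StrPos_compact : CompactSpace Sph4 :=
  inferInstanceAs (CompactSpace (sphere (0 : EuclideanSpace ℝ (Fin 5)) 1))

private theorem StrPos_t2 : T2Space Sph4 :=
  inferInstanceAs (T2Space (sphere (0 : EuclideanSpace ℝ (Fin 5)) 1))

private theorem StrPos_conn : PreconnectedSpace Sph4 := by
  have h : IsPreconnected (sphere (0 : EuclideanSpace ℝ (Fin 5)) 1) := by
    refine isPreconnected_sphere ?_ 0 1
    rw [← Module.finrank_eq_rank]
    have h5 : Module.finrank ℝ (EuclideanSpace ℝ (Fin 5)) = 5 := by simp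
    rw [h5]
    exact_mod_cast (by norm_num : 1 < 5)
  exact Subtype.preconnectedSpace h

private noncomputable def StrPosPole : Sph4 :=
  ⟨(EuclideanSpace.single 4 1 : E5), by
    rw [mem_sphere_zero_iff_norm]
    simp⟩

private theorem StrPos_pole_px2 : px2 (vec StrPosPole) = 0 := by
  show px2 (EuclideanSpace.single 4 1 : E5) = 0
  simp [px2]

private theorem StrPos_pole_pv2 : pv2 (vec StrPosPole) = 1 := by
  show pv2 (EuclideanSpace.single 4 1 : E5) = 1
  simp [pv2]

/-- the two possible local forms -/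
private theorem StrPos_local {φ : Sph4 → Sph4} {f : Sph4 ≃ₜ Sph4} {x : Sph4}
    (h : LocalDiffeoAt φ x ∨ φ =ᶠ[𝓝 x] f) :
    ContinuousAt φ x ∧ 𝓝 (φ x) ≤ map φ (𝓝 x) ∧ ∃ U ∈ 𝓝 x, InjOn φ U := by
  rcases h with ⟨Φ, hx, hE⟩ | h
  · have hn : Φ.source ∈ 𝓝 x := Φ.open_source.mem_nhds hx
    have he : φ =ᶠ[𝓝 x] Φ := Filter.eventually_of_mem hn hE
    have hm : map Φ (𝓝 x) = 𝓝 (Φ x) := Φ.toOpenPartialHomeomorph.map_nhds_eq hx
    have hm' : map φ (𝓝 x) = 𝓝 (φ x) := by
      rw [Filter.map_congr he, hm, he.eq_of_nhds]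
    refine ⟨hm'.le, hm'.ge, Φ.source, hn, ?_⟩
    intro y hy z hz hyz
    rw [hE hy, hE hz] at hyz
    exact Φ.toPartialEquiv.injOn hy hz hyz
  · have hm' : map φ (𝓝 x) = 𝓝 (φ x) := by
      rw [Filter.map_congr h, f.map_nhds_eq, h.eq_of_nhds]
    refine ⟨hm'.le, hm'.ge, {y | φ y = f y}, h, ?_⟩
    intro y hy z hz hyz
    have hy' : φ y = f y := hy
    have hz' : φ z = f z := hz
    rw [hy', hz'] at hyz
    exact f.injective hyz

theorem straighten_pos {n : ℕ} {f g1 g2 : Sph4 ≃ₜ Sph4}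
    (h1 : NearS2 fun x => g1 x = rotS n x) (h2 : NearS2 fun x => g2 x = rotS n x)
    (hc : ∀ x, f (g1 x) = g2 (f x)) (hS : ∀ x, OnS2 (f x) ↔ OnS2 x)
    (hld : ∀ x, OnS2 x → LocalDiffeoAt f x)
    (hpos : ∀ x, OnS2 x → 0 < detA (fderiv ℝ (cone f) (vec x))) :
    ∃ f1 : Sph4 ≃ₜ Sph4, CommNear f1 ∧ (∀ x, OnS2 (f1 x) ↔ OnS2 x) ∧
      (∀ x, LocalDiffeoAt f x → LocalDiffeoAt f1 x) ∧ ∀ x, f1 (g1 x) = g2 (f1 x) := by
  obtain ⟨a₀, ha₀, H1⟩ := nearS2_iff.1 h1
  obtain ⟨a', ha', H2⟩ := nearS2_iff.1 h2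
  have hF := StrPos_hom hS hld hpos
  obtain ⟨F1, a, b, hb, hba, haa, hhom, hFar, hPl, hTube, ⟨b', hb', hRot⟩, hRot1⟩ :=
    core hF ha' ha₀
  have ha : 0 < a := hb.trans hba
  have hsum : ∀ x : Sph4, px2 (vec x) + pv2 (vec x) = 1 := fun x => by
    rw [px2_add_pv2, norm_vec, one_pow]
  have hcv : Continuous fun x : Sph4 => pv2 (vec x) :=
    contDiff_pv2.continuous.comp continuous_vec
  have hcp : Continuous fun x : Sph4 => px2 (vec x) :=
    contDiff_px2.continuous.comp continuous_vec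
  set φ : Sph4 → Sph4 := fun x => unit (F1 (vec x)) with hφ
  have hcone : ∀ x : Sph4, F1 (vec x) = cone f (vec x) → φ x = f x := fun x hx => by
    show unit (F1 (vec x)) = f x
    rw [hx, unit_cone _ (vec_ne x), unit_vec]
  have e1 : ∀ x : Sph4, b * px2 (vec x) < pv2 (vec x) → φ x = f x := fun x hx =>
    hcone x (hFar _ hx)
  have e1' : ∀ x : Sph4, OnS2 x → φ x = f x := fun x hx => hcone x (hPl _ (OnS2_iff.1 hx))
  have hne : ∀ x : Sph4, pv2 (vec x) ≤ a * px2 (vec x) → F1 (vec x) ≠ 0 := by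
    intro x hx h0
    have h3 := (hTube _ (vec_ne x) hx).2.1
    rw [h0] at h3
    simp [pv2, px2] at h3
  have htub : ∀ x : Sph4, pv2 (vec x) ≤ a * px2 (vec x) →
      pv2 (vec (φ x)) < a' * px2 (vec (φ x)) := fun x hx =>
    ((tube_unit (hne x hx)).2).2 (hTube _ (vec_ne x) hx).2.1
  have hcase : ∀ x : Sph4, ¬ pv2 (vec x) < a * px2 (vec x) → b * px2 (vec x) < pv2 (vec x) := by
    intro x hx
    have h3 := hsum x
    have h4 := px2_nonneg (vec x)
    rcases h4.lt_or_eq with h5 | h5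
    · nlinarith
    · rw [← h5] at h3 ⊢
      linarith
  have e2 : ∀ x : Sph4, pv2 (vec x) < a * px2 (vec x) → LocalDiffeoAt φ x := by
    intro x hx
    refine ld_of_reg hhom ?_ (hne x hx.le) (Eventually.of_forall fun _ => rfl)
    have h3 : ∀ᶠ y in 𝓝 (vec x), pv2 y < a * px2 y :=
      contDiff_pv2.continuous.continuousAt.eventually_lt
        (continuous_const.mul contDiff_px2.continuous).continuousAt hx
    have h4 : ∀ᶠ y in 𝓝 (vec x), y ≠ 0 := isOpen_ne.mem_nhds (vec_ne x)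
    filter_upwards [h3, h4] with y hy hy0
    exact (hTube y hy0 hy.le).1
  have e3 : ∀ x : Sph4, b * px2 (vec x) < pv2 (vec x) → φ =ᶠ[𝓝 x] f := by
    intro x hx
    have h3 : ∀ᶠ y in 𝓝 x, b * px2 (vec y) < pv2 (vec y) :=
      (continuous_const.mul hcp).continuousAt.eventually_lt hcv.continuousAt hx
    exact h3.mono fun y hy => e1 y hy
  have hloc : ∀ x : Sph4, LocalDiffeoAt φ x ∨ φ =ᶠ[𝓝 x] f := by
    intro x
    by_cases hx : pv2 (vec x) < a * px2 (vec x)
    · exact Or.inl (e2 x hx)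
    · exact Or.inr (e3 x (hcase x hx))
  have := StrPos_compact
  have := StrPos_t2
  have := StrPos_conn
  have : Nonempty Sph4 := ⟨StrPosPole⟩
  have hcont : Continuous φ := continuous_iff_continuousAt.2 fun x => (StrPos_local (hloc x)).1
  have hopen : IsOpenMap φ := isOpenMap_iff_nhds_le.2 fun x => (StrPos_local (hloc x)).2.1
  have hpole : ∀ x, φ x = StrPosPole → x = f.symm StrPosPole := by
    intro x hx
    have h3 : ¬ pv2 (vec x) ≤ a * px2 (vec x) := by
      intro h3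
      have h4 := htub x h3
      rw [hx, StrPos_pole_px2, StrPos_pole_pv2] at h4
      linarith
    have h4 : φ x = f x := e1 x (hcase x fun h5 => h3 h5.le)
    rw [← hx, h4, f.symm_apply_apply]
  have hbij : Function.Bijective φ :=
    bij_of_local hcont hopen (fun x => (StrPos_local (hloc x)).2.2) (y₀ := StrPosPole)
      fun x x' hx hx' => (hpole x hx).trans (hpole x' hx').symm
  obtain ⟨f1, hf1⟩ : ∃ f1 : Sph4 ≃ₜ Sph4, ∀ x, f1 x = φ x :=
    ⟨Continuous.homeoOfEquivCompactToT2 (f := Equiv.ofBijective φ hbij) hcont, fun _ => rfl⟩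
  have hf1' : (f1 : Sph4 → Sph4) = φ := funext hf1
  have hrotφ : ∀ (t : ℝ) (x : Sph4), pv2 (vec x) ≤ a * px2 (vec x) →
      F1 (rotE t (vec x)) = rotE t (F1 (vec x)) → φ (rotA t x) = rotA t (φ x) := by
    intro t x hx h3
    show unit (F1 (rotE t (vec x))) = rotA t (unit (F1 (vec x)))
    rw [h3, unit_rotE t (hne x hx)]
  refine ⟨f1, ?_, ?_, ?_, ?_⟩
  · refine nearS2_iff.2 ⟨min b' a, lt_min hb' ha, fun x hx t => ?_⟩
    have h3 := px2_nonneg (vec x)
    have h4 : pv2 (vec x) ≤ b' * px2 (vec x) :=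
      hx.trans (mul_le_mul_of_nonneg_right (min_le_left _ _) h3)
    have h5 : pv2 (vec x) ≤ a * px2 (vec x) :=
      hx.trans (mul_le_mul_of_nonneg_right (min_le_right _ _) h3)
    rw [hf1, hf1]
    exact hrotφ t x h5 (hRot _ h4 t)
  · intro x
    constructor
    · intro hx
      obtain ⟨x', hx'⟩ := f.surjective (f1 x)
      have h3 : OnS2 x' := (hS x').1 (by rw [hx']; exact hx)
      have h4 : f1 x' = f1 x := by rw [hf1 x', e1' x' h3, hx']
      rw [← f1.injective h4]
      exact h3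
    · intro hx
      rw [hf1 x, e1' x hx]
      exact (hS x).2 hx
  · intro x hx
    rw [hf1']
    by_cases h3 : pv2 (vec x) < a * px2 (vec x)
    · exact e2 x h3
    · exact ld_congr hx (e3 x (hcase x h3)).symm
  · intro x
    rw [hf1, hf1]
    by_cases h3 : pv2 (vec x) ≤ a * px2 (vec x)
    · have h4 : pv2 (vec x) ≤ a₀ * px2 (vec x) :=
        h3.trans (mul_le_mul_of_nonneg_right haa (px2_nonneg _))
      have h5 : g1 x = rotA (2 * Real.pi / n) x := H1 x h4
      have h6 : cone f (vec x) = vec (f x) := cone_vec f x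
      have h7 : pv2 (vec (f x)) < a' * px2 (vec (f x)) := by
        rw [← h6]
        exact (hTube _ (vec_ne x) h3).2.2
      have h8 : g2 (f x) = rotA (2 * Real.pi / n) (f x) := H2 _ h7.le
      have h9 : cone f (rotE (2 * Real.pi / n) (vec x)) =
          rotE (2 * Real.pi / n) (cone f (vec x)) := by
        rw [h6, ← vec_rotA, ← vec_rotA, cone_vec, ← h8, ← hc, h5]
      have h10 := hrotφ _ x h3 (hRot1 _ _ h3 h9)
      rw [h5, h10]
      exact (H2 _ (htub x h3).le).symm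
    · have h4 : φ x = f x := e1 x (hcase x fun h5 => h3 h5.le)
      have h5 : ¬ pv2 (vec (g1 x)) ≤ a * px2 (vec (g1 x)) := by
        intro h5
        set y : Sph4 := rotA (-(2 * Real.pi / n)) (g1 x) with hy
        have h6 : pv2 (vec y) ≤ a * px2 (vec y) := by
          rw [hy, vec_rotA, pv2_rotE, px2_rotE]
          exact h5
        have h7 : g1 y = rotA (2 * Real.pi / n) y :=
          H1 y (h6.trans (mul_le_mul_of_nonneg_right haa (px2_nonneg _)))
        have h8 : g1 y = g1 x := by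
          rw [h7, hy, rotA_rotA, add_neg_cancel, rotA_zero]
        have h9 : y = x := g1.injective h8
        rw [h9] at h6
        exact h3 h6
      have h6 : φ (g1 x) = f (g1 x) := e1 _ (hcase _ fun h7 => h5 h7.le)
      rw [h6, h4, hc]

end Pool.Agent.Rot5
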