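import Pool.Agent.Rot5.Model

/-!
# Uniform estimates near the plane `P`

PROOFS. `tube5`: `K = {px2 = 1, pv2 ≤ 1}` is compact (closed and bounded, `px2_add_pv2`); the
compact set `K ∖ interior {x | P x}` does not meet `{pv2 = 0}`, so `pv2` has a positive minimum
`m` on it (or it is empty); `a = min 1 (m / 2)`.
`unif`: step 1: by `tube5` there is `a₁ ≤ 1` such that for `px2 x = 1`, `pv2 x ≤ a₁`: `RG F x`,
the point `pxL x` satisfies `RG F (pxL x)` (`pv2_pxL`, `px2_pxL`: it is a point of the plane with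
`px2 = 1`), so `ContDiffAt ℝ ∞ (model F) x` (`model_contDiffAt`, for all `x` with `px2 x = 1`),
and `det ((1 - χ) DF x + χ D(model F) x) ≠ 0` for all `χ ∈ [0, 1]`. For the latter: at the points
of the plane this is `det_interp` (`model_fderiv`, `fderiv_plane`, `Hom5.pos`), and `(y, χ) ↦ det
(..)` is continuous at `(x, χ)`, because `fderiv ℝ F`, `fderiv ℝ (model F)` are continuous at `x`
(`ContDiffAt.fderiv_right`, `ContinuousLinearMap.continuous_det`), so one can use
`IsCompact.eventually_forall_of_forall_eventually` for the compact set `Icc 0 1`.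
Step 2: the set of the `(1 - χ) DF x + χ D(model F) x`, `px2 x = 1`, `pv2 x ≤ a₁`, `χ ∈ [0, 1]` is
compact (image of a compact set under a map which is continuous at all points of it) and contained
in the open set `{det ≠ 0}`: `IsCompact.exists_cthickening_subset_open` gives `η₁`.
Step 3: the segment from `p = pxL x` to `x` consists of points `y` with `px2 y = 1`, `pv2 y ≤ pv2
x` (`y = p + s (x - p)`), so by the mean value inequality
(`Convex.norm_image_sub_le_of_norm_fderiv_le` for the segment) with a bound `C` of the continuous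
function `‖fderiv ℝ (model F) - fderiv ℝ F‖` on the compact set, `‖(model F - F) x - (model F - F)
p‖ ≤ C ‖x - p‖`, `‖x - p‖ = √(pv2 x)`, `model F p = F p`.
Step 4: for the last assertion choose `a ≤ a₁` and `η ≤ η₁`: at `x` in the plane, `F x` belongs to
the open set `W = {y | pv2 y < a' px2 y}` (`plane`, `ne`), the image of `{px2 = 1, pv2 ≤ a}` under
`F` is compact and contained in `W` for a small `a` (`tube5`), again a thickening of it is
contained in `W`.
-/

set_option autoImplicit false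

open scoped ContDiff Topology
open Set Filter Metric

namespace Pool.Agent.Rot5

open Pool.Agent.HopfCov Pool.Agent.HopfFin Pool.Agent.HopfCov.Smooth Pool.Agent.Rot4

private theorem cont_px2_u : Continuous px2 := contDiff_px2.continuous

private theorem cont_pv2_u : Continuous pv2 := contDiff_pv2.continuous

theorem isCompact_tube (a : ℝ) : IsCompact {x : E5 | px2 x = 1 ∧ pv2 x ≤ a} := by
  refine Metric.isCompact_of_isClosed_isBounded ?_ ?_
  · exact (isClosed_eq cont_px2_u continuous_const).inter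
      (isClosed_le cont_pv2_u continuous_const)
  · refine (Metric.isBounded_closedBall (x := (0 : E5)) (r := 1 + |a|)).subset ?_
    rintro x ⟨h1, h2⟩
    rw [mem_closedBall_zero_iff]
    have h3 := px2_add_pv2 x
    have h4 := norm_nonneg x
    have h5 := le_abs_self a
    have h6 := abs_nonneg a
    by_contra h
    push Not at h
    nlinarith

theorem tube5 {P : E5 → Prop} (h : ∀ x, px2 x = 1 → pv2 x = 0 → ∀ᶠ y in 𝓝 x, P y) :
    ∃ a : ℝ, 0 < a ∧ ∀ x, px2 x = 1 → pv2 x ≤ a → P x := by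
  set K : Set E5 := {x : E5 | px2 x = 1 ∧ pv2 x ≤ 1} with hK
  set A : Set E5 := {x | ¬ ∀ᶠ y in 𝓝 x, P y} with hA
  have hAc : IsClosed A := isOpen_setOfPred_eventually_nhds.isClosed_compl
  have hKA : IsCompact (K ∩ A) := (isCompact_tube 1).inter_right hAc
  have hoff : ∀ x, x ∉ A → P x := by
    intro x hx
    have h1 : ∀ᶠ y in 𝓝 x, P y := not_not.1 hx
    exact h1.self_of_nhds
  rcases (K ∩ A).eq_empty_or_nonempty with h0 | h0
  · refine ⟨1, one_pos, fun x h1 h2 => hoff x fun hxA => ?_⟩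
    have : x ∈ K ∩ A := ⟨⟨h1, h2⟩, hxA⟩
    rw [h0] at this
    exact this
  · obtain ⟨x₀, hx₀, hmin⟩ := hKA.exists_isMinOn h0 cont_pv2_u.continuousOn
    have hm : 0 < pv2 x₀ := by
      rcases (pv2_nonneg x₀).lt_or_eq with h1 | h1
      · exact h1
      · exact absurd (h x₀ hx₀.1.1 h1.symm) hx₀.2
    refine ⟨min 1 (pv2 x₀ / 2), lt_min one_pos (by linarith), fun x h1 h2 => hoff x fun hxA => ?_⟩
    have h3 : x ∈ K ∩ A := ⟨⟨h1, h2.trans (min_le_left _ _)⟩, hxA⟩
    have h4 : pv2 x₀ ≤ pv2 x := hmin h3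
    have h5 := h2.trans (min_le_right _ _)
    linarith

private theorem px2_ne_zero_u {x : E5} (h : px2 x = 1) : x ≠ 0 := by
  rintro rfl
  unfold px2 at h
  simp at h

private theorem cont_fderiv_u {f : E5 → E5} {x : E5} (h : ContDiffAt ℝ ∞ f x) :
    ContinuousAt (fderiv ℝ f) x :=
  (h.fderiv_right (m := 0) (by exact_mod_cast le_top)).continuousAt

private theorem cont_G_u {f g : E5 → E5} {x : E5} {χ : ℝ} (hf : ContDiffAt ℝ ∞ f x)
    (hg : ContDiffAt ℝ ∞ g x) :
    ContinuousAt (fun z : E5 × ℝ => (1 - z.2) • fderiv ℝ f z.1 + z.2 • fderiv ℝ g z.1)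
      (x, χ) := by
  have h1 : ContinuousAt (fun z : E5 × ℝ => fderiv ℝ f z.1) (x, χ) :=
    ContinuousAt.comp (f := fun z : E5 × ℝ => z.1) (g := fderiv ℝ f) (x := (x, χ))
      (cont_fderiv_u hf) continuousAt_fst
  have h2 : ContinuousAt (fun z : E5 × ℝ => fderiv ℝ g z.1) (x, χ) :=
    ContinuousAt.comp (f := fun z : E5 × ℝ => z.1) (g := fderiv ℝ g) (x := (x, χ))
      (cont_fderiv_u hg) continuousAt_fst
  exact ((continuousAt_const.sub continuousAt_snd).smul h1).add (continuousAt_snd.smul h2)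

private theorem unif_one {F : E5 → E5} (hF : Hom5 F) {a' : ℝ} (ha' : 0 < a') {x : E5}
    (h1 : px2 x = 1) (h0 : pv2 x = 0) :
    ∀ᶠ y in 𝓝 x, RG F y ∧ ContDiffAt ℝ ∞ (model F) y ∧
      (∀ χ ∈ Icc (0 : ℝ) 1,
        ((1 - χ) • fderiv ℝ F y + χ • fderiv ℝ (model F) y).det ≠ 0) ∧
      pv2 (F y) < a' * px2 (F y) := by
  have hx : x ≠ 0 := px2_ne_zero_u h1
  have hreg : ∀ᶠ y in 𝓝 x, RG F y := hF.reg x hx h0
  have hRG : RG F x := hreg.self_of_nhds
  have hpx : pxL x = x := px_of_plane h0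
  have hmod : ∀ᶠ y in 𝓝 x, ContDiffAt ℝ ∞ (model F) y := by
    have hc : Tendsto (fun y => pxL y) (𝓝 x) (𝓝 x) := by
      have := pxL.continuous.continuousAt (x := x)
      unfold ContinuousAt at this
      rwa [hpx] at this
    exact (hc.eventually hreg).mono fun y hy => model_contDiffAt hy.1
  have hdet : ∀ᶠ y in 𝓝 x, ∀ χ ∈ Icc (0 : ℝ) 1,
      ((1 - χ) • fderiv ℝ F y + χ • fderiv ℝ (model F) y).det ≠ 0 := by
    refine isCompact_Icc.eventually_forall_of_forall_eventually (x₀ := x)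
      (P := fun y χ => ((1 - χ) • fderiv ℝ F y + χ • fderiv ℝ (model F) y).det ≠ 0) ?_
    intro χ hχ
    have hc := cont_G_u (χ := χ) hRG.1 hmod.self_of_nhds
    have hd : ContinuousAt (fun z : E5 × ℝ =>
        ((1 - z.2) • fderiv ℝ F z.1 + z.2 • fderiv ℝ (model F) z.1).det) (x, χ) :=
      ContinuousLinearMap.continuous_det.continuousAt.comp hc
    refine hd.eventually_ne ?_
    show ((1 - χ) • fderiv ℝ F x + χ • fderiv ℝ (model F) x).det ≠ 0
    rw [model_fderiv h0 hRG.1]
    exact det_interp (fun v hv => fderiv_plane h0 hRG.1 hF.plane v hv) hRG.2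
      (hF.pos x hx h0) hχ.1 hχ.2
  have hW : ∀ᶠ y in 𝓝 x, pv2 (F y) < a' * px2 (F y) := by
    have hc := hRG.continuousAt
    refine (cont_pv2_u.continuousAt.comp hc).eventually_lt
      (continuousAt_const.mul (cont_px2_u.continuousAt.comp hc)) ?_
    show pv2 (F x) < a' * px2 (F x)
    have h2 := hF.plane x h0
    have h3 := px2_add_pv2 (F x)
    have h4 : 0 < ‖F x‖ ^ 2 := by
      have := norm_pos_iff.2 (hF.ne x hx)
      positivity
    rw [h2]
    have : 0 < px2 (F x) := by linarith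
    positivity
  filter_upwards [hreg, hmod, hdet, hW] with y e1 e2 e3 e4
  exact ⟨e1, e2, e3, e4⟩

private theorem seg_u {x y : E5} (hy : y ∈ segment ℝ (pxL x) x) :
    px2 y = px2 x ∧ pv2 y ≤ pv2 x := by
  obtain ⟨s, t, hs, ht, hst, rfl⟩ := hy
  have h0 : (s • pxL x + t • x) 0 = x 0 := by
    rw [pxL_apply]
    simp only [PiLp.add_apply, PiLp.smul_apply, smul_eq_mul]
    show s * x 0 + t * x 0 = x 0
    rw [← add_mul, hst, one_mul]
  have h1 : (s • pxL x + t • x) 1 = x 1 := by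
    rw [pxL_apply]
    simp only [PiLp.add_apply, PiLp.smul_apply, smul_eq_mul]
    show s * x 1 + t * x 1 = x 1
    rw [← add_mul, hst, one_mul]
  have h2 : (s • pxL x + t • x) 2 = x 2 := by
    rw [pxL_apply]
    simp only [PiLp.add_apply, PiLp.smul_apply, smul_eq_mul]
    show s * x 2 + t * x 2 = x 2
    rw [← add_mul, hst, one_mul]
  have h3 : (s • pxL x + t • x) 3 = t * x 3 := by
    rw [pxL_apply]
    simp only [PiLp.add_apply, PiLp.smul_apply, smul_eq_mul]
    show s * 0 + t * x 3 = t * x 3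
    ring
  have h4 : (s • pxL x + t • x) 4 = t * x 4 := by
    rw [pxL_apply]
    simp only [PiLp.add_apply, PiLp.smul_apply, smul_eq_mul]
    show s * 0 + t * x 4 = t * x 4
    ring
  constructor
  · unfold px2
    rw [h0, h1, h2]
  · unfold pv2
    rw [h3, h4]
    have ht1 : t ≤ 1 := by linarith
    have ht2 : t ^ 2 ≤ 1 := by nlinarith
    nlinarith [sq_nonneg (x 3), sq_nonneg (x 4)]

private theorem norm_pv_u (x : E5) : ‖x - pxL x‖ = Real.sqrt (pv2 x) := by
  have h : x - pxL x = pvL x := by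
    have h1 := px_add_pv x
    exact sub_eq_of_eq_add' h1.symm
  rw [h, ← norm_pv_sq, Real.sqrt_sq (norm_nonneg _)]

theorem unif {F : E5 → E5} (hF : Hom5 F) {a' : ℝ} (ha' : 0 < a') : ∃ a η C : ℝ, 0 < a ∧ a ≤ 1 ∧
    0 < η ∧ 0 ≤ C ∧ ∀ x, px2 x = 1 → pv2 x ≤ a → RG F x ∧ ContDiffAt ℝ ∞ (model F) x ∧
      (∀ χ : ℝ, 0 ≤ χ → χ ≤ 1 → ∀ E : E5 →L[ℝ] E5, ‖E‖ ≤ η →
        ((1 - χ) • fderiv ℝ F x + χ • fderiv ℝ (model F) x + E).det ≠ 0) ∧
      ‖model F x - F x‖ ≤ C * Real.sqrt (pv2 x) ∧ ∀ y, ‖y - F x‖ ≤ η → pv2 y < a' * px2 y := by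
  obtain ⟨a₁, ha₁, h1⟩ := tube5 (fun x hx1 hx0 => unif_one hF ha' hx1 hx0)
  set a := min a₁ 1 with ha
  set K : Set E5 := {x : E5 | px2 x = 1 ∧ pv2 x ≤ a} with hK
  have hKc : IsCompact K := isCompact_tube a
  have hKprop : ∀ x ∈ K, RG F x ∧ ContDiffAt ℝ ∞ (model F) x ∧
      (∀ χ ∈ Icc (0 : ℝ) 1,
        ((1 - χ) • fderiv ℝ F x + χ • fderiv ℝ (model F) x).det ≠ 0) ∧
      pv2 (F x) < a' * px2 (F x) := fun x hx => h1 x hx.1 (hx.2.trans (min_le_left _ _))
  -- step 2
  have hGc : IsCompact ((fun z : E5 × ℝ =>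
      (1 - z.2) • fderiv ℝ F z.1 + z.2 • fderiv ℝ (model F) z.1) '' (K ×ˢ Icc (0 : ℝ) 1)) := by
    refine (hKc.prod isCompact_Icc).image_of_continuousOn ?_
    rintro ⟨x, χ⟩ ⟨hx, -⟩
    exact (cont_G_u (hKprop x hx).1.1 (hKprop x hx).2.1).continuousWithinAt
  have hOpen : IsOpen {L : E5 →L[ℝ] E5 | L.det ≠ 0} :=
    isOpen_ne.preimage ContinuousLinearMap.continuous_det
  obtain ⟨η₁, hη₁, hsub₁⟩ := hGc.exists_cthickening_subset_open hOpen (by
    rintro _ ⟨⟨x, χ⟩, ⟨hx, hχ⟩, rfl⟩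
    exact (hKprop x hx).2.2.1 χ hχ)
  -- step 4
  have hFc : IsCompact (F '' K) := by
    refine hKc.image_of_continuousOn fun x hx => ?_
    exact (hKprop x hx).1.continuousAt.continuousWithinAt
  have hWo : IsOpen {y : E5 | pv2 y < a' * px2 y} :=
    isOpen_lt cont_pv2_u (continuous_const.mul cont_px2_u)
  obtain ⟨η₂, hη₂, hsub₂⟩ := hFc.exists_cthickening_subset_open hWo (by
    rintro _ ⟨x, hx, rfl⟩
    exact (hKprop x hx).2.2.2)
  -- step 3
  have hDc : ContinuousOn (fun x => ‖fderiv ℝ (model F) x - fderiv ℝ F x‖) K := by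
    intro x hx
    exact ((cont_fderiv_u (hKprop x hx).2.1).sub
      (cont_fderiv_u (hKprop x hx).1.1)).norm.continuousWithinAt
  obtain ⟨C, hC⟩ := hKc.bddAbove_image hDc
  have hCb : ∀ x ∈ K, ‖fderiv ℝ (model F) x - fderiv ℝ F x‖ ≤ max C 0 := fun x hx =>
    (hC (mem_image_of_mem _ hx)).trans (le_max_left _ _)
  refine ⟨a, min η₁ η₂, max C 0, lt_min ha₁ one_pos, min_le_right _ _, lt_min hη₁ hη₂,
    le_max_right _ _, ?_⟩
  intro x hx1 hxa
  have hx : x ∈ K := ⟨hx1, hxa⟩
  refine ⟨(hKprop x hx).1, (hKprop x hx).2.1, ?_, ?_, ?_⟩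
  · intro χ h0 h1' E hE
    have : (1 - χ) • fderiv ℝ F x + χ • fderiv ℝ (model F) x + E ∈
        {L : E5 →L[ℝ] E5 | L.det ≠ 0} := by
      refine hsub₁ (mem_cthickening_of_dist_le _
        ((1 - χ) • fderiv ℝ F x + χ • fderiv ℝ (model F) x) _ _ ?_ ?_)
      · exact ⟨(x, χ), ⟨hx, h0, h1'⟩, rfl⟩
      · rw [dist_eq_norm, add_sub_cancel_left]
        exact hE.trans (min_le_left _ _)
    exact this
  · have hseg : ∀ y ∈ segment ℝ (pxL x) x, y ∈ K := fun y hy => by
      obtain ⟨e1, e2⟩ := seg_u hy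
      exact ⟨e1.trans hx1, e2.trans hxa⟩
    have hmv := Convex.norm_image_sub_le_of_norm_fderiv_le (𝕜 := ℝ)
      (f := fun y => model F y - F y) (C := max C 0) (s := segment ℝ (pxL x) x)
      (x := pxL x) (y := x)
      (fun y hy => ((hKprop y (hseg y hy)).2.1.differentiableAt (by simp)).sub
        ((hKprop y (hseg y hy)).1.1.differentiableAt (by simp)))
      (fun y hy => by
        have e : fderiv ℝ (fun y => model F y - F y) y =
            fderiv ℝ (model F) y - fderiv ℝ F y :=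
          fderiv_sub ((hKprop y (hseg y hy)).2.1.differentiableAt (by simp))
            ((hKprop y (hseg y hy)).1.1.differentiableAt (by simp))
        rw [e]
        exact hCb y (hseg y hy))
      (convex_segment _ _) (left_mem_segment _ _ _) (right_mem_segment _ _ _)
    have h0 : model F (pxL x) - F (pxL x) = 0 := by
      rw [model_plane (pv2_pxL x), sub_self]
    simp only [h0, sub_zero] at hmv
    rw [norm_pv_u] at hmv
    exact hmv
  · intro y hy
    have : y ∈ {y : E5 | pv2 y < a' * px2 y} := by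
      refine hsub₂ (mem_cthickening_of_dist_le _ (F x) _ _ (mem_image_of_mem _ hx) ?_)
      rw [dist_eq_norm]
      exact hy.trans (min_le_right _ _)
    exact this

end Pool.Agent.Rot5
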